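import Pool.Agent.H753.Sig

/-! The long figure eight knot, symmetric under the point reflection. -/

set_option autoImplicit false

namespace Pool.Agent.H753

open Set

/-- three dimensional space (as a product, the topology is the usual one) -/
abbrev R3 : Type := ℝ × ℝ × ℝ

noncomputable def X1 (a : ℝ) : ℝ := sg (20 * a - 6) * (10 - 30 * a) + sg (10 * a - 8) * (10 * a - 10)

noncomputable def Xc (a : ℝ) : ℝ := 10 * a + X1 a - X1 (-a)

noncomputable def Y0 (a : ℝ) : ℝ := 2 * sg (20 * a - 6) - sg (40 * a - 19) - 2 * sg (20 * a - 21 / 2)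
  + 2 * sg (20 * a - 12) - sg (20 * a - 14)

noncomputable def Yc (a : ℝ) : ℝ := Y0 a - Y0 (-a)

noncomputable def H0 (a : ℝ) : ℝ := - sg (40 * a - 20) + 2 * sg (40 * a - 23) - sg (20 * a - 13)

noncomputable def Hc (a : ℝ) : ℝ := H0 a - H0 (-a)

/-- the long figure eight knot -/
noncomputable def Pc (a : ℝ) : R3 := (Xc a, Yc a, Hc a)

/-- the graph function of the strand `a ≥ 7/20` -/
noncomputable def ff (x : ℝ) : ℝ := 2 * sg (4 - x) - sg (1 - 2 * x) - 2 * sg (- x - 1 / 2)
  + 2 * sg (-2 - x) - sg (-4 - x)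

noncomputable def kk (x : ℝ) : ℝ := - sg (-2 * x) + 2 * sg (-3 - 2 * x) - sg (-3 - x)

/-- the right hairpin is the graph of this function of `y ∈ [0,2]` -/
noncomputable def xi (y : ℝ) : ℝ :=
  (3 + sinv (y / 2) / 2) * (1 - y / 2) + (4 - sinv (y / 2)) * (y / 2)

theorem Xc_neg (a : ℝ) : Xc (-a) = - Xc a := by unfold Xc; rw [neg_neg]; ring
theorem Yc_neg (a : ℝ) : Yc (-a) = - Yc a := by unfold Yc; rw [neg_neg]; ring
theorem Hc_neg (a : ℝ) : Hc (-a) = - Hc a := by unfold Hc; rw [neg_neg]; ring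
theorem Pc_neg (a : ℝ) : Pc (-a) = - Pc a := by
  unfold Pc; rw [Xc_neg, Yc_neg, Hc_neg]; rfl

theorem ff_cont : Continuous ff := by
  have := sg_cont
  unfold ff; fun_prop
theorem kk_cont : Continuous kk := by
  have := sg_cont
  unfold kk; fun_prop
theorem xi_cont : Continuous xi := by
  have := sinv_cont
  unfold xi; fun_prop

theorem X1_contDiff {n : ℕ∞} : ContDiff ℝ n X1 := by
  have := sg_contDiff (n := n)
  unfold X1; fun_prop
theorem Y0_contDiff {n : ℕ∞} : ContDiff ℝ n Y0 := by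
  have := sg_contDiff (n := n)
  unfold Y0; fun_prop
theorem H0_contDiff {n : ℕ∞} : ContDiff ℝ n H0 := by
  have := sg_contDiff (n := n)
  unfold H0; fun_prop
theorem Xc_contDiff {n : ℕ∞} : ContDiff ℝ n Xc := by
  have := X1_contDiff (n := n)
  unfold Xc; fun_prop
theorem Yc_contDiff {n : ℕ∞} : ContDiff ℝ n Yc := by
  have := Y0_contDiff (n := n)
  unfold Yc; fun_prop
theorem Hc_contDiff {n : ℕ∞} : ContDiff ℝ n Hc := by
  have := H0_contDiff (n := n)
  unfold Hc; fun_prop

/-! ### values of the coordinate functions -/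

theorem X1_neg_of {a : ℝ} (h : 0 ≤ a) : X1 (-a) = 0 := by
  unfold X1
  rw [sg_zero (by linarith), sg_zero (by linarith)]; ring
theorem Y0_neg_of {a : ℝ} (h : 0 ≤ a) : Y0 (-a) = 0 := by
  unfold Y0
  rw [sg_zero (by linarith), sg_zero (by linarith), sg_zero (by linarith), sg_zero (by linarith),
    sg_zero (by linarith)]; ring
theorem H0_neg_of {a : ℝ} (h : 0 ≤ a) : H0 (-a) = 0 := by
  unfold H0
  rw [sg_zero (by linarith), sg_zero (by linarith), sg_zero (by linarith)]; ring

theorem Pc_mid {a : ℝ} (h : |a| ≤ 3 / 10) : Pc a = (10 * a, 0, 0) := by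
  have h1 := abs_le.1 h
  unfold Pc Xc Yc Hc X1 Y0 H0
  rw [sg_zero (x := 20 * a - 6) (by linarith), sg_zero (x := 10 * a - 8) (by linarith),
    sg_zero (x := 20 * -a - 6) (by linarith), sg_zero (x := 10 * -a - 8) (by linarith),
    sg_zero (x := 40 * a - 19) (by linarith), sg_zero (x := 40 * -a - 19) (by linarith),
    sg_zero (x := 20 * a - 21/2) (by linarith), sg_zero (x := 20 * -a - 21/2) (by linarith),
    sg_zero (x := 20 * a - 12) (by linarith), sg_zero (x := 20 * -a - 12) (by linarith),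
    sg_zero (x := 20 * a - 14) (by linarith), sg_zero (x := 20 * -a - 14) (by linarith),
    sg_zero (x := 40 * a - 20) (by linarith), sg_zero (x := 40 * -a - 20) (by linarith),
    sg_zero (x := 40 * a - 23) (by linarith), sg_zero (x := 40 * -a - 23) (by linarith),
    sg_zero (x := 20 * a - 13) (by linarith), sg_zero (x := 20 * -a - 13) (by linarith)]
  norm_num

theorem Pc_pin {a : ℝ} (h0 : 3 / 10 ≤ a) (h1 : a ≤ 7 / 20) :
    Pc a = (10 * a + sg (20 * a - 6) * (10 - 30 * a), 2 * sg (20 * a - 6), 0) := by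
  unfold Pc Xc Yc Hc
  rw [X1_neg_of (by linarith), Y0_neg_of (by linarith), H0_neg_of (by linarith)]
  unfold X1 Y0 H0
  rw [sg_zero (x := 10 * a - 8) (by linarith),
    sg_zero (x := 40 * a - 19) (by linarith),
    sg_zero (x := 20 * a - 21/2) (by linarith),
    sg_zero (x := 20 * a - 12) (by linarith),
    sg_zero (x := 20 * a - 14) (by linarith),
    sg_zero (x := 40 * a - 20) (by linarith),
    sg_zero (x := 40 * a - 23) (by linarith),
    sg_zero (x := 20 * a - 13) (by linarith)]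
  norm_num

theorem Xc_str {a : ℝ} (h0 : 7 / 20 ≤ a) : Xc a = 10 - 20 * a + sg (10 * a - 8) * (10 * a - 10) := by
  unfold Xc
  rw [X1_neg_of (by linarith)]
  unfold X1
  rw [sg_one (x := 20 * a - 6) (by linarith)]
  ring

theorem Pc_str {a : ℝ} (h0 : 7 / 20 ≤ a) : Pc a = (Xc a, ff (Xc a), kk (Xc a)) := by
  rcases le_total a (4/5) with h1 | h1
  · have hX : Xc a = 10 - 20 * a := by rw [Xc_str h0, sg_zero (by linarith)]; ring
    rw [hX]
    unfold Pc
    rw [hX]
    unfold Yc Hc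
    rw [Y0_neg_of (by linarith), H0_neg_of (by linarith)]
    unfold Y0 H0 ff kk
    rw [show 4 - (10 - 20 * a) = 20 * a - 6 by ring, show 1 - 2 * (10 - 20 * a) = 40 * a - 19 by ring,
      show -(10 - 20 * a) - 1 / 2 = 20 * a - 21 / 2 by ring,
      show -2 - (10 - 20 * a) = 20 * a - 12 by ring, show -4 - (10 - 20 * a) = 20 * a - 14 by ring,
      show -2 * (10 - 20 * a) = 40 * a - 20 by ring, show -3 - 2 * (10 - 20 * a) = 40 * a - 23 by ring,
      show -3 - (10 - 20 * a) = 20 * a - 13 by ring]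
    simp
  · have hX : Xc a ≤ -6 := by
      rw [Xc_str h0]
      have h2 := sg_nonneg (10 * a - 8)
      have h3 := sg_le_one (10 * a - 8)
      rcases le_total (10 * a - 10) 0 with h4 | h4
      · nlinarith
      · nlinarith
    unfold Pc Yc Hc
    rw [Y0_neg_of (by linarith), H0_neg_of (by linarith)]
    unfold Y0 H0 ff kk
    rw [sg_one (x := 20 * a - 6) (by linarith), sg_one (x := 40 * a - 19) (by linarith),
      sg_one (x := 20 * a - 21/2) (by linarith), sg_one (x := 20 * a - 12) (by linarith),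
      sg_one (x := 20 * a - 14) (by linarith), sg_one (x := 40 * a - 20) (by linarith),
      sg_one (x := 40 * a - 23) (by linarith), sg_one (x := 20 * a - 13) (by linarith),
      sg_one (x := 4 - Xc a) (by linarith), sg_one (x := 1 - 2 * Xc a) (by linarith),
      sg_one (x := - Xc a - 1/2) (by linarith), sg_one (x := -2 - Xc a) (by linarith),
      sg_one (x := -4 - Xc a) (by linarith), sg_one (x := -2 * Xc a) (by linarith),
      sg_one (x := -3 - 2 * Xc a) (by linarith), sg_one (x := -3 - Xc a) (by linarith)]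
    norm_num

/-! ### the function `ff` -/

theorem ff_left {x : ℝ} (h : x ≤ -3 / 2) : ff x = -1 + 2 * sg (-2 - x) - sg (-4 - x) := by
  unfold ff
  rw [sg_one (x := 4 - x) (by linarith), sg_one (x := 1 - 2 * x) (by linarith),
    sg_one (x := - x - 1/2) (by linarith)]
  ring

theorem ff_mid {x : ℝ} (h : -2 ≤ x) (h' : x ≤ 0) : ff x = 1 - 2 * sg (- x - 1 / 2) := by
  unfold ff
  rw [sg_one (x := 4 - x) (by linarith), sg_one (x := 1 - 2 * x) (by linarith),
    sg_zero (x := -2 - x) (by linarith), sg_zero (x := -4 - x) (by linarith)]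
  ring

theorem ff_right {x : ℝ} (h : -1/2 ≤ x) (h' : x ≤ 3) : ff x = 2 - sg (1 - 2 * x) := by
  unfold ff
  rw [sg_one (x := 4 - x) (by linarith), sg_zero (x := - x - 1/2) (by linarith),
    sg_zero (x := -2 - x) (by linarith), sg_zero (x := -4 - x) (by linarith)]
  ring

theorem ff_zero {x : ℝ} (h : x ≤ -5) : ff x = 0 := by
  rw [ff_left (by linarith), sg_one (x := -2 - x) (by linarith), sg_one (x := -4 - x) (by linarith)]
  ring

theorem ff_A : ff (-5/2) = 0 := by
  rw [ff_left (by norm_num), show (-2 - -5 / 2 : ℝ) = 1/2 by norm_num, sg_half,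
    sg_zero (x := (-4 - -5/2 : ℝ)) (by norm_num)]
  norm_num

theorem ff_B : ff (-1) = 0 := by
  rw [ff_mid (by norm_num) (by norm_num), show (- -1 - 1 / 2 : ℝ) = 1/2 by norm_num, sg_half]
  norm_num

theorem ff_pos1 {x : ℝ} (h : -5 < x) (h' : x < -5 / 2) : 0 < ff x := by
  rw [ff_left (by linarith)]
  rcases le_total x (-4) with h1 | h1
  · rw [sg_one (x := -2 - x) (by linarith)]
    have := sg_lt_one (x := -4 - x) (by linarith)
    linarith
  · rw [sg_zero (x := -4 - x) (by linarith)]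
    have := sg_gt_half (x := -2 - x) (by linarith)
    linarith

theorem ff_neg {x : ℝ} (h : -5/2 < x) (h' : x < -1) : ff x < 0 := by
  rcases le_total x (-3/2) with h1 | h1
  · rw [ff_left h1, sg_zero (x := -4 - x) (by linarith)]
    have := sg_lt_half (x := -2 - x) (by linarith)
    linarith
  · rw [ff_mid (by linarith) (by linarith)]
    have := sg_gt_half (x := -x - 1/2) (by linarith)
    linarith

theorem ff_pos2 {x : ℝ} (h : -1 < x) (h' : x ≤ 3) : 0 < ff x := by
  rcases le_total x 0 with h1 | h1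
  · rw [ff_mid (by linarith) h1]
    have := sg_lt_half (x := -x - 1/2) (by linarith)
    linarith
  · rw [ff_right (by linarith) h']
    have := sg_le_one (1 - 2 * x)
    linarith

theorem ff_ge {x : ℝ} (h' : x ≤ 3) : -1 ≤ ff x := by
  rcases le_total x (-3/2) with h1 | h1
  · rw [ff_left h1]
    rcases le_total x (-4) with h2 | h2
    · rw [sg_one (x := -2 - x) (by linarith)]
      have := sg_le_one (-4 - x)
      linarith
    · rw [sg_zero (x := -4 - x) (by linarith)]
      have := sg_nonneg (-2 - x)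
      linarith
  · rcases le_total x 0 with h2 | h2
    · rw [ff_mid (by linarith) h2]
      have := sg_le_one (-x - 1/2)
      linarith
    · rw [ff_right (by linarith) h']
      have := sg_le_one (1 - 2 * x)
      linarith

theorem ff_le_two {x : ℝ} (h' : x ≤ 3) : ff x ≤ 2 := by
  rcases le_total x (-3/2) with h1 | h1
  · rw [ff_left h1]
    have := sg_nonneg (-4 - x)
    have := sg_le_one (-2 - x)
    linarith
  · rcases le_total x 0 with h2 | h2
    · rw [ff_mid (by linarith) h2]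
      have := sg_nonneg (-x - 1/2)
      linarith
    · rw [ff_right (by linarith) h']
      have := sg_nonneg (1 - 2 * x)
      linarith

theorem ff_le_one {x : ℝ} (h' : x ≤ 0) : ff x ≤ 1 := by
  rcases le_total x (-3/2) with h1 | h1
  · rw [ff_left h1]
    have := sg_nonneg (-4 - x)
    have := sg_le_one (-2 - x)
    linarith
  · rw [ff_mid (by linarith) h']
    have := sg_nonneg (-x - 1/2)
    linarith

theorem ff_eq_one {x : ℝ} (h : -4 ≤ x) (h' : x ≤ -3) : ff x = 1 := by
  rw [ff_left (by linarith), sg_one (x := -2 - x) (by linarith), sg_zero (x := -4 - x) (by linarith)]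
  ring

theorem ff_eq_neg_one {x : ℝ} (h : -2 ≤ x) (h' : x ≤ -3/2) : ff x = -1 := by
  rw [ff_left (by linarith), sg_zero (x := -2 - x) (by linarith), sg_zero (x := -4 - x) (by linarith)]
  ring

theorem ff_eq_one' {x : ℝ} (h : -1/2 ≤ x) (h' : x ≤ 0) : ff x = 1 := by
  rw [ff_right h (by linarith), sg_one (x := 1 - 2 * x) (by linarith)]
  ring

theorem ff_eq_two {x : ℝ} (h : 1/2 ≤ x) (h' : x ≤ 3) : ff x = 2 := by
  rw [ff_right (by linarith) (by linarith), sg_zero (x := 1 - 2 * x) (by linarith)]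
  ring

theorem ff_ge_one {x : ℝ} (h : -1/2 ≤ x) (h' : x ≤ 3) : 1 ≤ ff x := by
  rw [ff_right h h']
  have := sg_le_one (1 - 2 * x)
  linarith

theorem ff_add_neg {x : ℝ} (h : |x| ≤ 3) : 1 ≤ ff x + ff (-x) := by
  have h1 := abs_le.1 h
  rcases le_total 0 x with h2 | h2
  · rcases le_total x (1/2) with h3 | h3
    · have := ff_ge_one (x := x) (by linarith) (by linarith)
      rw [ff_eq_one' (x := -x) (by linarith) (by linarith)]
      linarith
    · rw [ff_eq_two h3 (by linarith)]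
      have := ff_ge (x := -x) (by linarith)
      linarith
  · rcases le_total (-x) (1/2) with h3 | h3
    · have := ff_ge_one (x := -x) (by linarith) (by linarith)
      rw [ff_eq_one' (x := x) (by linarith) (by linarith)]
      linarith
    · rw [ff_eq_two (x := -x) h3 (by linarith)]
      have := ff_ge (x := x) (by linarith)
      linarith

/-! ### the function `kk` -/

theorem kk_left {x : ℝ} (h : x ≤ -1/2) : kk x = -1 + 2 * sg (-3 - 2 * x) - sg (-3 - x) := by
  unfold kk
  rw [sg_one (x := -2 * x) (by linarith)]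

theorem kk_right {x : ℝ} (h : -3/2 ≤ x) : kk x = - sg (-2 * x) := by
  unfold kk
  rw [sg_zero (x := -3 - 2 * x) (by linarith), sg_zero (x := -3 - x) (by linarith)]
  ring

theorem kk_zero_left {x : ℝ} (h : x ≤ -4) : kk x = 0 := by
  rw [kk_left (by linarith), sg_one (x := -3 - 2 * x) (by linarith), sg_one (x := -3 - x) (by linarith)]
  ring

theorem kk_zero_right {x : ℝ} (h : 0 ≤ x) : kk x = 0 := by
  rw [kk_right (by linarith), sg_zero (x := -2 * x) (by linarith)]
  ring

theorem kk_mid : kk (-7/4) = 0 := by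
  rw [kk_left (by norm_num), show (-3 - 2 * (-7/4) : ℝ) = 1/2 by norm_num, sg_half,
    sg_zero (x := (-3 - -7/4 : ℝ)) (by norm_num)]
  norm_num

theorem kk_pos {x : ℝ} (h : -4 < x) (h' : x < -7/4) : 0 < kk x := by
  rw [kk_left (by linarith)]
  rcases le_total x (-3) with h1 | h1
  · rw [sg_one (x := -3 - 2 * x) (by linarith)]
    have := sg_lt_one (x := -3 - x) (by linarith)
    linarith
  · rw [sg_zero (x := -3 - x) (by linarith)]
    have := sg_gt_half (x := -3 - 2 * x) (by linarith)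
    linarith

theorem kk_neg {x : ℝ} (h : -7/4 < x) (h' : x < 0) : kk x < 0 := by
  rcases le_total x (-3/2) with h1 | h1
  · rw [kk_left (by linarith), sg_zero (x := -3 - x) (by linarith)]
    have := sg_lt_half (x := -3 - 2 * x) (by linarith)
    linarith
  · rw [kk_right h1]
    have := sg_pos (x := -2 * x) (by linarith)
    linarith

theorem kk_le_one (x : ℝ) : kk x ≤ 1 := by
  rcases le_total x (-1/2) with h1 | h1
  · rw [kk_left h1]
    have := sg_le_one (-3 - 2 * x)
    have := sg_nonneg (-3 - x)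
    linarith
  · rw [kk_right (by linarith)]
    have := sg_nonneg (-2 * x)
    linarith

theorem kk_ge (x : ℝ) : -1 ≤ kk x := by
  rcases le_total x (-1/2) with h1 | h1
  · rw [kk_left h1]
    rcases le_total x (-3) with h2 | h2
    · rw [sg_one (x := -3 - 2 * x) (by linarith)]
      have := sg_le_one (-3 - x)
      linarith
    · rw [sg_zero (x := -3 - x) (by linarith)]
      have := sg_nonneg (-3 - 2 * x)
      linarith
  · rw [kk_right (by linarith)]
    have := sg_le_one (-2 * x)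
    linarith

/-! ### the function `xi` -/

theorem xi_ge {y : ℝ} (h0 : 0 ≤ y) (h1 : y ≤ 2) : 3 ≤ xi y := by
  unfold xi
  have h2 := sinv_nonneg (y/2)
  have h3 := sinv_le_one (y/2)
  nlinarith [mul_nonneg h2 (by linarith : 0 ≤ 1 - y/2), mul_nonneg (by linarith : 0 ≤ 1 - sinv (y/2)) (by linarith : 0 ≤ y/2)]

theorem xi_le {y : ℝ} (h0 : 0 ≤ y) (h1 : y ≤ 2) : xi y ≤ 4 := by
  unfold xi
  have h2 := sinv_nonneg (y/2)
  have h3 := sinv_le_one (y/2)
  nlinarith [mul_nonneg h2 (by linarith : 0 ≤ y/2), mul_nonneg (by linarith : 0 ≤ 1 - sinv (y/2)) (by linarith : 0 ≤ 1 - y/2)]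

theorem xi_zero : xi 0 = 3 := by
  have : sinv 0 = 0 := by
    have h := sinv_sg (t := 0) le_rfl zero_le_one
    rwa [sg_zero le_rfl] at h
  unfold xi
  rw [zero_div, this]; norm_num

theorem xi_two : xi 2 = 3 := by
  have : sinv 1 = 1 := by
    have h := sinv_sg (t := 1) zero_le_one le_rfl
    rwa [sg_one le_rfl] at h
  unfold xi
  rw [show (2:ℝ)/2 = 1 by norm_num, this]; norm_num

theorem xi_gt {y : ℝ} (h0 : 0 < y) (h1 : y < 2) : 3 < xi y := by
  unfold xi
  have h2 := sinv_nonneg (y/2)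
  have h3 := sinv_le_one (y/2)
  have h4 : 0 < 1 - y / 2 := by linarith
  have h5 : 0 < y / 2 := by linarith
  rcases h2.eq_or_lt with h6 | h6
  · rw [← h6]; nlinarith
  · nlinarith [mul_pos h6 h4, mul_nonneg (by linarith : 0 ≤ 1 - sinv (y/2)) h5.le]

theorem Xc_pin {a : ℝ} (h0 : 3 / 10 ≤ a) (h1 : a ≤ 7 / 20) : Xc a = xi (Yc a) := by
  have h := Pc_pin h0 h1
  have hX : Xc a = 10 * a + sg (20 * a - 6) * (10 - 30 * a) := congrArg Prod.fst h
  have hY : Yc a = 2 * sg (20 * a - 6) := congrArg (fun p : R3 => p.2.1) h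
  rw [hX, hY]
  unfold xi
  rw [show 2 * sg (20 * a - 6) / 2 = sg (20 * a - 6) by ring,
    sinv_sg (by linarith) (by linarith)]
  ring

/-! ### the set -/

/-- the strand `x ≤ 3` -/
def S1 (p : R3) : Prop := p.1 ≤ 3 ∧ p.2.1 = ff p.1 ∧ p.2.2 = kk p.1
/-- the middle strand -/
def S2 (p : R3) : Prop := -3 ≤ p.1 ∧ p.1 ≤ 3 ∧ p.2.1 = 0 ∧ p.2.2 = 0
/-- the right hairpin -/
def Hp (p : R3) : Prop := p.2.2 = 0 ∧ 0 ≤ p.2.1 ∧ p.2.1 ≤ 2 ∧ p.1 = xi p.2.1

/-- the long knot as a set -/
def Tau : Set R3 := {p | S1 p ∨ S2 p ∨ S1 (-p) ∨ Hp p ∨ Hp (-p)}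

theorem Tau_neg {p : R3} : -p ∈ Tau ↔ p ∈ Tau := by
  have : S2 (-p) ↔ S2 p := by
    unfold S2
    simp only [Prod.fst_neg, Prod.snd_neg, neg_eq_zero]
    constructor
    · rintro ⟨h1, h2, h3, h4⟩; exact ⟨by linarith, by linarith, h3, h4⟩
    · rintro ⟨h1, h2, h3, h4⟩; exact ⟨by linarith, by linarith, h3, h4⟩
  unfold Tau
  simp only [mem_ofPred_eq, neg_neg, this]
  tauto

theorem isClosed_S1 : IsClosed {p : R3 | S1 p} := by
  have h1 := ff_cont
  have h2 := kk_cont
  exact (isClosed_le (f := fun p : R3 => p.1) (g := fun _ => (3:ℝ)) (by fun_prop) (by fun_prop)).inter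
    ((isClosed_eq (f := fun p : R3 => p.2.1) (g := fun p => ff p.1) (by fun_prop) (by fun_prop)).inter
    (isClosed_eq (f := fun p : R3 => p.2.2) (g := fun p => kk p.1) (by fun_prop) (by fun_prop)))

theorem isClosed_S2 : IsClosed {p : R3 | S2 p} :=
  (isClosed_le (f := fun _ : R3 => (-3:ℝ)) (g := fun p => p.1) (by fun_prop) (by fun_prop)).inter
    ((isClosed_le (f := fun p : R3 => p.1) (g := fun _ => (3:ℝ)) (by fun_prop) (by fun_prop)).inter
    ((isClosed_eq (f := fun p : R3 => p.2.1) (g := fun _ => (0:ℝ)) (by fun_prop) (by fun_prop)).inter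
    (isClosed_eq (f := fun p : R3 => p.2.2) (g := fun _ => (0:ℝ)) (by fun_prop) (by fun_prop))))

theorem isClosed_Hp : IsClosed {p : R3 | Hp p} := by
  have h1 := xi_cont
  exact (isClosed_eq (f := fun p : R3 => p.2.2) (g := fun _ => (0:ℝ)) (by fun_prop) (by fun_prop)).inter
    ((isClosed_le (f := fun _ : R3 => (0:ℝ)) (g := fun p => p.2.1) (by fun_prop) (by fun_prop)).inter
    ((isClosed_le (f := fun p : R3 => p.2.1) (g := fun _ => (2:ℝ)) (by fun_prop) (by fun_prop)).inter
    (isClosed_eq (f := fun p : R3 => p.1) (g := fun p => xi p.2.1) (by fun_prop) (by fun_prop))))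

theorem isClosed_Tau : IsClosed Tau := by
  have e : Tau = {p : R3 | S1 p} ∪ ({p : R3 | S2 p} ∪ ((fun p => -p) ⁻¹' {p : R3 | S1 p} ∪
    ({p : R3 | Hp p} ∪ (fun p => -p) ⁻¹' {p : R3 | Hp p}))) := by
    ext p; rfl
  rw [e]
  exact isClosed_S1.union (isClosed_S2.union ((isClosed_S1.preimage continuous_neg).union
    (isClosed_Hp.union (isClosed_Hp.preimage continuous_neg))))

theorem Xc_cont : Continuous Xc := (Xc_contDiff (n := 0)).continuous
theorem Yc_cont : Continuous Yc := (Yc_contDiff (n := 0)).continuous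
theorem Hc_cont : Continuous Hc := (Hc_contDiff (n := 0)).continuous
theorem Pc_cont : Continuous Pc := Xc_cont.prodMk (Yc_cont.prodMk Hc_cont)

theorem Xc_le_three {a : ℝ} (h0 : 7 / 20 ≤ a) : Xc a ≤ 3 := by
  rw [Xc_str h0]
  have h2 := sg_nonneg (10 * a - 8)
  have h3 := sg_le_one (10 * a - 8)
  rcases le_total (10 * a - 10) 0 with h4 | h4
  · nlinarith
  · nlinarith

theorem Xc_end {a : ℝ} (h0 : 9 / 10 ≤ a) : Xc a = - 10 * a := by
  rw [Xc_str (by linarith), sg_one (by linarith)]; ring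

/-- `S1` is parametrized by `[7/20, ∞)` -/
theorem S1_iff {p : R3} : S1 p ↔ ∃ a, 7 / 20 ≤ a ∧ Pc a = p := by
  constructor
  · rintro ⟨h1, h2, h3⟩
    obtain ⟨a, ha, hX⟩ : ∃ a, 7 / 20 ≤ a ∧ Xc a = p.1 := by
      rcases le_total (-6) p.1 with h4 | h4
      · refine ⟨(10 - p.1) / 20, by linarith, ?_⟩
        rw [Xc_str (by linarith), sg_zero (by linarith)]; ring
      · have hI := intermediate_value_Icc' (a := 4/5) (b := max 1 (-p.1)) (f := Xc)
          (by have := le_max_left 1 (-p.1); linarith) Xc_cont.continuousOn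
        have e1 : Xc (4/5) = -6 := by rw [Xc_str (by norm_num), sg_zero (by norm_num)]; norm_num
        have e2 : Xc (max 1 (-p.1)) ≤ p.1 := by
          rw [Xc_end (by have := le_max_left 1 (-p.1); linarith)]
          have := le_max_right 1 (-p.1)
          have := le_max_left 1 (-p.1)
          linarith
        obtain ⟨a, ha, hX⟩ := hI ⟨e2, by rw [e1]; exact h4⟩
        exact ⟨a, by linarith [ha.1], hX⟩
    refine ⟨a, ha, ?_⟩
    rw [Pc_str ha, hX]
    exact Prod.ext rfl (Prod.ext h2.symm h3.symm)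
  · rintro ⟨a, ha, rfl⟩
    have h := Pc_str ha
    refine ⟨Xc_le_three ha, ?_, ?_⟩
    · exact congrArg (fun p : R3 => p.2.1) h
    · exact congrArg (fun p : R3 => p.2.2) h

theorem S2_iff {p : R3} : S2 p ↔ ∃ a, |a| ≤ 3 / 10 ∧ Pc a = p := by
  constructor
  · rintro ⟨h1, h2, h3, h4⟩
    refine ⟨p.1 / 10, abs_le.2 ⟨by linarith, by linarith⟩, ?_⟩
    rw [Pc_mid (abs_le.2 ⟨by linarith, by linarith⟩)]
    refine Prod.ext ?_ (Prod.ext h3.symm h4.symm)
    show 10 * (p.1 / 10) = p.1
    ring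
  · rintro ⟨a, ha, rfl⟩
    have := abs_le.1 ha
    rw [Pc_mid ha]
    exact ⟨by show -3 ≤ 10 * a; linarith, by show 10 * a ≤ 3; linarith, rfl, rfl⟩

theorem Hp_iff {p : R3} : Hp p ↔ ∃ a, 3 / 10 ≤ a ∧ a ≤ 7 / 20 ∧ Pc a = p := by
  constructor
  · rintro ⟨h1, h2, h3, h4⟩
    have hs1 := sinv_nonneg (p.2.1 / 2)
    have hs2 := sinv_le_one (p.2.1 / 2)
    have ha0 : 3 / 10 ≤ 3 / 10 + sinv (p.2.1 / 2) / 20 := by linarith
    have ha1 : 3 / 10 + sinv (p.2.1 / 2) / 20 ≤ 7 / 20 := by linarith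
    refine ⟨3 / 10 + sinv (p.2.1 / 2) / 20, ha0, ha1, ?_⟩
    have hP := Pc_pin ha0 ha1
    have e1 : 20 * (3 / 10 + sinv (p.2.1 / 2) / 20) - 6 = sinv (p.2.1/2) := by ring
    rw [e1, sg_sinv (by linarith) (by linarith)] at hP
    rw [hP]
    refine Prod.ext ?_ (Prod.ext ?_ h1.symm)
    · rw [h4]; unfold xi; simp only; ring
    · simp only; ring
  · rintro ⟨a, h0, h1, rfl⟩
    have h := Pc_pin h0 h1
    have hY : Yc a = 2 * sg (20 * a - 6) := congrArg (fun p : R3 => p.2.1) h
    refine ⟨congrArg (fun p : R3 => p.2.2) h, ?_, ?_, Xc_pin h0 h1⟩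
    · show 0 ≤ Yc a
      rw [hY]; linarith [sg_nonneg (20 * a - 6)]
    · show Yc a ≤ 2
      rw [hY]; linarith [sg_le_one (20 * a - 6)]

theorem range_Pc : range Pc = Tau := by
  ext p
  constructor
  · rintro ⟨a, rfl⟩
    rcases le_total 0 a with h | h
    · rcases le_total a (3/10) with h1 | h1
      · exact Or.inr (Or.inl (S2_iff.2 ⟨a, by rw [abs_of_nonneg h]; exact h1, rfl⟩))
      · rcases le_total a (7/20) with h2 | h2
        · exact Or.inr (Or.inr (Or.inr (Or.inl (Hp_iff.2 ⟨a, h1, h2, rfl⟩))))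
        · exact Or.inl (S1_iff.2 ⟨a, h2, rfl⟩)
    · rw [← Tau_neg, ← Pc_neg]
      rcases le_total (-a) (3/10) with h1 | h1
      · exact Or.inr (Or.inl (S2_iff.2 ⟨-a, by rw [abs_of_nonneg (by linarith)]; exact h1, rfl⟩))
      · rcases le_total (-a) (7/20) with h2 | h2
        · exact Or.inr (Or.inr (Or.inr (Or.inl (Hp_iff.2 ⟨-a, h1, h2, rfl⟩))))
        · exact Or.inl (S1_iff.2 ⟨-a, h2, rfl⟩)
  · rintro (h | h | h | h | h)
    · obtain ⟨a, _, rfl⟩ := S1_iff.1 h; exact ⟨a, rfl⟩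
    · obtain ⟨a, _, rfl⟩ := S2_iff.1 h; exact ⟨a, rfl⟩
    · obtain ⟨a, _, ha⟩ := S1_iff.1 h; exact ⟨-a, by rw [Pc_neg, ha, neg_neg]⟩
    · obtain ⟨a, _, _, rfl⟩ := Hp_iff.1 h; exact ⟨a, rfl⟩
    · obtain ⟨a, _, _, ha⟩ := Hp_iff.1 h; exact ⟨-a, by rw [Pc_neg, ha, neg_neg]⟩

end Pool.Agent.H753
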