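import Pool.Agent.H753.Curve

/-! Injectivity, immersion and size estimates for the long figure eight knot. -/

set_option autoImplicit false

namespace Pool.Agent.H753

open Set

theorem S1_S2 {p : R3} (h1 : S1 p) (h2 : S2 p) : False := by
  obtain ⟨a1, a2, a3⟩ := h1
  obtain ⟨b1, b2, b3, b4⟩ := h2
  rw [b3] at a2
  rw [b4] at a3
  rcases lt_trichotomy p.1 (-5/2) with h | h | h
  · have := ff_pos1 (x := p.1) (by linarith) h
    linarith
  · have := kk_pos (x := p.1) (by linarith) (by linarith)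
    linarith
  · rcases lt_trichotomy p.1 (-1) with h' | h' | h'
    · have := ff_neg h h'
      linarith
    · have := kk_neg (x := p.1) (by linarith) (by linarith)
      linarith
    · have := ff_pos2 h' b2
      linarith

theorem S1_S3 {p : R3} (h1 : S1 p) (h2 : S1 (-p)) : False := by
  obtain ⟨a1, a2, a3⟩ := h1
  obtain ⟨b1, b2, b3⟩ := h2
  simp only [Prod.fst_neg, Prod.snd_neg] at b1 b2 b3
  have := ff_add_neg (x := p.1) (abs_le.2 ⟨by linarith, a1⟩)
  linarith

theorem S1_Hp {p : R3} (h1 : S1 p) (h2 : Hp p) : p.1 = 3 ∧ p.2.1 = 2 := by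
  obtain ⟨a1, a2, a3⟩ := h1
  obtain ⟨b1, b2, b3, b4⟩ := h2
  have h := xi_ge b2 b3
  have e : p.1 = 3 := by linarith
  refine ⟨e, ?_⟩
  rw [a2, e, ff_eq_two (by norm_num) le_rfl]

theorem S1_HpL {p : R3} (h1 : S1 p) (h2 : Hp (-p)) : False := by
  obtain ⟨a1, a2, a3⟩ := h1
  obtain ⟨b1, b2, b3, b4⟩ := h2
  simp only [Prod.fst_neg, Prod.snd_neg] at b1 b2 b3 b4
  have h := xi_ge b2 b3
  have h' := xi_le b2 b3
  have := ff_eq_one (x := p.1) (by linarith) (by linarith)
  linarith

theorem S2_Hp {p : R3} (h1 : S2 p) (h2 : Hp p) : p.1 = 3 := by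
  obtain ⟨a1, a2, a3⟩ := h1
  obtain ⟨b1, b2, b3, b4⟩ := h2
  have h := xi_ge b2 b3
  linarith

theorem Hp_HpL {p : R3} (h1 : Hp p) (h2 : Hp (-p)) : False := by
  obtain ⟨a1, a2, a3, a4⟩ := h1
  obtain ⟨b1, b2, b3, b4⟩ := h2
  simp only [Prod.fst_neg, Prod.snd_neg] at b1 b2 b3 b4
  have h := xi_ge b2 b3
  have h' := xi_ge a2 a3
  linarith

theorem Xc_hasDerivAt_str {a : ℝ} (h0 : 7 / 20 < a) :
    HasDerivAt Xc (-20 + (deriv sg (10 * a - 8) * 10 * (10 * a - 10) + sg (10 * a - 8) * 10)) a := by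
  have h1 : HasDerivAt (fun a : ℝ => 10 - 20 * a + sg (10 * a - 8) * (10 * a - 10))
      (-20 + (deriv sg (10 * a - 8) * 10 * (10 * a - 10) + sg (10 * a - 8) * 10)) a := by
    have h2 : HasDerivAt (fun a : ℝ => 10 * a - 8) 10 a := by
      simpa using ((hasDerivAt_id a).const_mul (10:ℝ)).sub_const 8
    have h3 : HasDerivAt (fun a : ℝ => sg (10 * a - 8)) (deriv sg (10 * a - 8) * 10) a :=
      (sg_differentiable (10 * a - 8)).hasDerivAt.comp a h2
    have h4 : HasDerivAt (fun a : ℝ => 10 * a - 10) 10 a := by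
      simpa using ((hasDerivAt_id a).const_mul (10:ℝ)).sub_const 10
    have h5 : HasDerivAt (fun a : ℝ => 10 - 20 * a) (-20) a := by
      simpa using ((hasDerivAt_id a).const_mul (20:ℝ)).const_sub 10
    exact h5.add (h3.mul h4)
  refine h1.congr_of_eventuallyEq ?_
  filter_upwards [lt_mem_nhds h0] with b hb
  exact Xc_str hb.le

theorem Xc_deriv_neg_str {a : ℝ} (h0 : 7 / 20 < a) : deriv Xc a < 0 := by
  rw [(Xc_hasDerivAt_str h0).deriv]
  have h1 := sg_le_one (10 * a - 8)
  have h2 : deriv sg (10 * a - 8) * (10 * a - 10) ≤ 0 := by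
    rcases le_total a 1 with h | h
    · exact mul_nonpos_of_nonneg_of_nonpos (sg_deriv_nonneg _) (by linarith)
    · have : deriv sg (10 * a - 8) = 0 := by
        rw [(sg_hasDerivAt _).deriv, expNegInvGlue.zero_of_nonpos (x := 1 - (10 * a - 8)) (by linarith)]
        simp
      rw [this, zero_mul]
  nlinarith

theorem Xc_strictAnti : StrictAntiOn Xc (Ici (7/20)) := by
  apply strictAntiOn_of_deriv_neg (convex_Ici _) Xc_cont.continuousOn
  intro a ha
  rw [interior_Ici] at ha
  exact Xc_deriv_neg_str ha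

theorem Xc_720 : Xc (7/20) = 3 := by
  rw [Xc_str le_rfl, sg_zero (by norm_num)]; norm_num

theorem Pc_inj_aux {a b : ℝ} (ha : 0 ≤ a) (h : Pc a = Pc b) : a = b := by
  have hS1 : ∀ {c : ℝ}, 7/20 ≤ c → S1 (Pc c) := fun hc => S1_iff.2 ⟨_, hc, rfl⟩
  have hS2 : ∀ {c : ℝ}, |c| ≤ 3/10 → S2 (Pc c) := fun hc => S2_iff.2 ⟨_, hc, rfl⟩
  have hHp : ∀ {c : ℝ}, 3/10 ≤ c → c ≤ 7/20 → Hp (Pc c) := fun hc hc' => Hp_iff.2 ⟨_, hc, hc', rfl⟩
  have hS1' : ∀ {c : ℝ}, 7/20 ≤ -c → S1 (-Pc c) := fun hc => by rw [← Pc_neg]; exact hS1 hc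
  have hHp' : ∀ {c : ℝ}, 3/10 ≤ -c → -c ≤ 7/20 → Hp (-Pc c) := fun hc hc' => by
    rw [← Pc_neg]; exact hHp hc hc'
  -- `c` in the pin piece with `X = 3` and `Y = 0` or `2`
  have pinY : ∀ {c : ℝ}, 3/10 ≤ c → c ≤ 7/20 → (Pc c).2.1 = 2 * sg (20 * c - 6) := fun hc hc' => by
    rw [Pc_pin hc hc']
  have q1 : ∀ {c d : ℝ}, |c| ≤ 3/10 → 3/10 ≤ d → d ≤ 7/20 → Pc c = Pc d → c = d := by
    intro c d hc hd hd' he
    have h1 := S2_Hp (hS2 hc) (by rw [he]; exact hHp hd hd')
    have h2 : (Pc c).2.1 = 0 := (hS2 hc).2.2.1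
    rw [he, pinY hd hd'] at h2
    rw [Pc_mid hc] at h1
    simp only at h1
    have h3 : sg (20 * d - 6) = 0 := by linarith
    have h4 : d ≤ 3/10 := by
      by_contra hcon
      push Not at hcon
      have := sg_pos (x := 20 * d - 6) (by linarith)
      linarith
    linarith
  have q2 : ∀ {c d : ℝ}, 3/10 ≤ c → c ≤ 7/20 → 7/20 ≤ d → Pc c = Pc d → c = d := by
    intro c d hc hc' hd he
    obtain ⟨h1, h2⟩ := S1_Hp (hS1 hd) (by rw [← he]; exact hHp hc hc')
    have h3 : (Pc c).2.1 = 2 := by rw [he]; exact h2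
    rw [pinY hc hc'] at h3
    have h4 : 7/20 ≤ c := by
      by_contra hcon
      push Not at hcon
      have := sg_lt_one (x := 20 * c - 6) (by linarith)
      linarith
    have h5 : d = 7/20 := by
      apply Xc_strictAnti.injOn (show d ∈ Ici (7/20:ℝ) from hd) (mem_Ici.2 le_rfl)
      rw [Xc_720]; exact h1
    linarith
  rcases le_total a (3/10) with a1 | a1
  · have ha2 : |a| ≤ 3/10 := by rw [abs_of_nonneg ha]; exact a1
    rcases le_total b (-7/20) with b1 | b1
    · exact (S1_S2 (p := -Pc a) (by rw [h]; exact hS1' (by linarith))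
        (by rw [← Pc_neg]; exact hS2 (by rw [abs_neg]; exact ha2))).elim
    rcases le_total b (-3/10) with b2 | b2
    · have := S2_Hp (p := -Pc a) (by rw [← Pc_neg]; exact hS2 (by rw [abs_neg]; exact ha2))
        (by rw [h]; exact hHp' (by linarith) (by linarith))
      rw [Pc_mid ha2] at this
      simp only [Prod.fst_neg] at this
      linarith
    rcases le_total b (3/10) with b3 | b3
    · have e := congrArg Prod.fst h
      rw [Pc_mid ha2, Pc_mid (abs_le.2 ⟨by linarith, b3⟩)] at e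
      simp only at e
      linarith
    rcases le_total b (7/20) with b4 | b4
    · exact q1 ha2 b3 b4 h
    · exact (S1_S2 (p := Pc a) (by rw [h]; exact hS1 b4) (hS2 ha2)).elim
  rcases le_total a (7/20) with a2 | a2
  · rcases le_total b (-7/20) with b1 | b1
    · exact (S1_HpL (p := -Pc a) (by rw [h]; exact hS1' (by linarith))
        (by rw [neg_neg]; exact hHp a1 a2)).elim
    rcases le_total b (-3/10) with b2 | b2
    · exact (Hp_HpL (p := Pc a) (hHp a1 a2) (by rw [h]; exact hHp' (by linarith) (by linarith))).elim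
    rcases le_total b (3/10) with b3 | b3
    · exact (q1 (abs_le.2 ⟨by linarith, b3⟩) a1 a2 h.symm).symm
    rcases le_total b (7/20) with b4 | b4
    · have e := congrArg (fun p : R3 => p.2.1) h
      rw [pinY a1 a2, pinY b3 b4] at e
      have := sg_strictMonoOn.injOn (x₁ := 20 * a - 6) (x₂ := 20 * b - 6)
        ⟨by linarith, by linarith⟩ ⟨by linarith, by linarith⟩ (by linarith)
      linarith
    · exact q2 a1 a2 b4 h
  · rcases le_total b (-7/20) with b1 | b1
    · exact (S1_S3 (p := Pc a) (hS1 a2) (by rw [h]; exact hS1' (by linarith))).elim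
    rcases le_total b (-3/10) with b2 | b2
    · exact (S1_HpL (p := Pc a) (hS1 a2) (by rw [h]; exact hHp' (by linarith) (by linarith))).elim
    rcases le_total b (3/10) with b3 | b3
    · exact (S1_S2 (p := Pc a) (hS1 a2) (by rw [h]; exact hS2 (abs_le.2 ⟨by linarith, b3⟩))).elim
    rcases le_total b (7/20) with b4 | b4
    · exact (q2 b3 b4 a2 h.symm).symm
    · exact Xc_strictAnti.injOn a2 b4 (congrArg Prod.fst h)

theorem Pc_injective : Function.Injective Pc := by
  intro a b h
  rcases le_total 0 a with ha | ha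
  · exact Pc_inj_aux ha h
  · have := Pc_inj_aux (a := -a) (b := -b) (by linarith) (by rw [Pc_neg, Pc_neg, h])
    linarith

/-! ### immersion -/

theorem Xc_diff : Differentiable ℝ Xc := (Xc_contDiff (n := 1)).differentiable (by norm_num)
theorem Yc_diff : Differentiable ℝ Yc := (Yc_contDiff (n := 1)).differentiable (by norm_num)
theorem Hc_diff : Differentiable ℝ Hc := (Hc_contDiff (n := 1)).differentiable (by norm_num)

theorem deriv_sg_zero {x : ℝ} (h : x ≤ 0 ∨ 1 ≤ x) : deriv sg x = 0 := by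
  rw [(sg_hasDerivAt _).deriv]
  rcases h with h | h
  · rw [expNegInvGlue.zero_of_nonpos h]; simp
  · rw [expNegInvGlue.zero_of_nonpos (x := 1 - x) (by linarith)]; simp

theorem X1_hasDerivAt (a : ℝ) : HasDerivAt X1
    ((deriv sg (20 * a - 6) * 20 * (10 - 30 * a) + sg (20 * a - 6) * (-30)) +
      (deriv sg (10 * a - 8) * 10 * (10 * a - 10) + sg (10 * a - 8) * 10)) a := by
  have h2 : HasDerivAt (fun a : ℝ => 10 * a - 8) 10 a := by
    simpa using ((hasDerivAt_id a).const_mul (10:ℝ)).sub_const 8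
  have h3 : HasDerivAt (fun a : ℝ => sg (10 * a - 8)) (deriv sg (10 * a - 8) * 10) a :=
    (sg_differentiable (10 * a - 8)).hasDerivAt.comp a h2
  have h4 : HasDerivAt (fun a : ℝ => 10 * a - 10) 10 a := by
    simpa using ((hasDerivAt_id a).const_mul (10:ℝ)).sub_const 10
  have h5 : HasDerivAt (fun a : ℝ => 10 - 30 * a) (-30) a := by
    simpa using ((hasDerivAt_id a).const_mul (30:ℝ)).const_sub 10
  have h6 : HasDerivAt (fun a : ℝ => 20 * a - 6) 20 a := by
    simpa using ((hasDerivAt_id a).const_mul (20:ℝ)).sub_const 6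
  have h7 : HasDerivAt (fun a : ℝ => sg (20 * a - 6)) (deriv sg (20 * a - 6) * 20) a :=
    (sg_differentiable (20 * a - 6)).hasDerivAt.comp a h6
  exact (h7.mul h5).add (h3.mul h4)

/-- derivative of the first coordinate at the ends of the pin and on the middle piece -/
theorem Xc_deriv_mid {a : ℝ} (h0 : 0 ≤ a) (h1 : a ≤ 3 / 10) : deriv Xc a = 10 := by
  have h2 := X1_hasDerivAt a
  rw [deriv_sg_zero (x := 20 * a - 6) (Or.inl (by linarith)),
    deriv_sg_zero (x := 10 * a - 8) (Or.inl (by linarith)), sg_zero (x := 20 * a - 6) (by linarith),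
    sg_zero (x := 10 * a - 8) (by linarith)] at h2
  have h3 : HasDerivAt (fun a => X1 (-a)) 0 a := by
    have h4 := X1_hasDerivAt (-a)
    rw [deriv_sg_zero (x := 20 * -a - 6) (Or.inl (by linarith)),
      deriv_sg_zero (x := 10 * -a - 8) (Or.inl (by linarith)), sg_zero (x := 20 * -a - 6) (by linarith),
      sg_zero (x := 10 * -a - 8) (by linarith)] at h4
    have := h4.comp a (hasDerivAt_neg a)
    simpa [Function.comp_def] using this
  have h5 : HasDerivAt (fun a : ℝ => 10 * a) 10 a := by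
    simpa using (hasDerivAt_id a).const_mul (10:ℝ)
  have h6 := (h5.add h2).sub h3
  have : deriv Xc a = _ := h6.deriv
  rw [this]; norm_num

theorem Xc_deriv_720 : deriv Xc (7/20) = -20 := by
  have h2 := X1_hasDerivAt (7/20)
  rw [deriv_sg_zero (x := 20 * (7/20) - 6) (Or.inr (by norm_num)),
    deriv_sg_zero (x := 10 * (7/20) - 8) (Or.inl (by norm_num)), sg_one (x := 20 * (7/20) - 6) (by norm_num),
    sg_zero (x := 10 * (7/20) - 8) (by norm_num)] at h2
  have h3 : HasDerivAt (fun a => X1 (-a)) 0 (7/20) := by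
    have h4 := X1_hasDerivAt (-(7/20))
    rw [deriv_sg_zero (x := 20 * -(7/20) - 6) (Or.inl (by norm_num)),
      deriv_sg_zero (x := 10 * -(7/20) - 8) (Or.inl (by norm_num)), sg_zero (x := 20 * -(7/20) - 6) (by norm_num),
      sg_zero (x := 10 * -(7/20) - 8) (by norm_num)] at h4
    have := h4.comp (7/20) (hasDerivAt_neg (7/20))
    simpa [Function.comp_def] using this
  have h5 : HasDerivAt (fun a : ℝ => 10 * a) 10 (7/20) := by
    simpa using (hasDerivAt_id (7/20 : ℝ)).const_mul (10:ℝ)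
  have h6 := (h5.add h2).sub h3
  have : deriv Xc (7/20) = _ := h6.deriv
  rw [this]; norm_num

theorem Yc_deriv_pin {a : ℝ} (h0 : 3 / 10 < a) (h1 : a < 7 / 20) : 0 < deriv Yc a := by
  have h2 : HasDerivAt (fun a : ℝ => 2 * sg (20 * a - 6)) (2 * (deriv sg (20 * a - 6) * 20)) a := by
    have h6 : HasDerivAt (fun a : ℝ => 20 * a - 6) 20 a := by
      simpa using ((hasDerivAt_id a).const_mul (20:ℝ)).sub_const 6
    have h7 : HasDerivAt (fun a : ℝ => sg (20 * a - 6)) (deriv sg (20 * a - 6) * 20) a :=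
      (sg_differentiable (20 * a - 6)).hasDerivAt.comp a h6
    exact h7.const_mul 2
  have h3 : HasDerivAt Yc (2 * (deriv sg (20 * a - 6) * 20)) a := by
    refine h2.congr_of_eventuallyEq ?_
    filter_upwards [lt_mem_nhds h0, gt_mem_nhds h1] with b hb hb'
    have := congrArg (fun p : R3 => p.2.1) (Pc_pin hb.le hb'.le)
    exact this
  rw [h3.deriv]
  have := sg_deriv_pos (x := 20 * a - 6) (by linarith) (by linarith)
  linarith

theorem Pc_immersion_aux {a : ℝ} (ha : 0 ≤ a) : deriv Xc a ≠ 0 ∨ deriv Yc a ≠ 0 := by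
  rcases le_or_gt a (3/10) with h | h
  · left; rw [Xc_deriv_mid ha h]; norm_num
  rcases lt_trichotomy a (7/20) with h' | h' | h'
  · right; exact (Yc_deriv_pin h h').ne'
  · left; rw [h', Xc_deriv_720]; norm_num
  · left; exact (Xc_deriv_neg_str h').ne

theorem Pc_immersion (a : ℝ) : deriv Xc a ≠ 0 ∨ deriv Yc a ≠ 0 := by
  rcases le_total 0 a with ha | ha
  · exact Pc_immersion_aux ha
  · have key : ∀ {f : ℝ → ℝ}, (∀ a, f (-a) = - f a) → deriv f (-a) = deriv f a := by
      intro f hf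
      have h1 := deriv_comp_neg f a
      have h2 : (fun x => f (-x)) = fun x => - f x := funext hf
      have h3 : deriv (fun x => - f x) a = - deriv f a := by simp
      rw [h2, h3] at h1
      linarith
    have := Pc_immersion_aux (a := -a) (by linarith)
    rwa [key Xc_neg, key Yc_neg] at this

/-! ### size -/

theorem Pc_end {a : ℝ} (h : 9 / 10 ≤ |a|) : Pc a = (-10 * a, 0, 0) := by
  have aux : ∀ {a : ℝ}, 9 / 10 ≤ a → Pc a = (-10 * a, 0, 0) := by
    intro a ha
    rw [Pc_str (by linarith), Xc_end ha, ff_zero (by linarith), kk_zero_left (by linarith)]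
  rcases le_total 0 a with h0 | h0
  · rw [abs_of_nonneg h0] at h; exact aux h
  · rw [abs_of_nonpos h0] at h
    have := aux h
    rw [Pc_neg] at this
    rw [← neg_neg (Pc a), this]
    refine Prod.ext ?_ (Prod.ext ?_ ?_) <;> simp

/-- squared norm -/
noncomputable def nq (p : R3) : ℝ := p.1 ^ 2 + p.2.1 ^ 2 + p.2.2 ^ 2

theorem nq_neg (p : R3) : nq (-p) = nq p := by
  unfold nq; simp

theorem Pc_small {a : ℝ} (h : |a| < 1) : nq (Pc a) < 100 := by
  have aux : ∀ {a : ℝ}, 0 ≤ a → a < 1 → nq (Pc a) < 100 := by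
    intro a ha ha1
    rcases le_total a (3/10) with h1 | h1
    · rw [Pc_mid (by rw [abs_of_nonneg ha]; exact h1)]
      unfold nq; simp only; nlinarith
    rcases le_total a (7/20) with h2 | h2
    · obtain ⟨b1, b2, b3, b4⟩ := Hp_iff.2 ⟨a, h1, h2, rfl⟩
      have h := xi_ge b2 b3
      have h' := xi_le b2 b3
      unfold nq
      rw [b1]
      nlinarith
    · obtain ⟨b1, b2, b3⟩ := S1_iff.2 ⟨a, h2, rfl⟩
      have hX : (Pc a).1 = Xc a := rfl
      have e := Xc_str h2
      rcases le_total a (4/5) with h3 | h3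
      · rw [sg_zero (by linarith)] at e
        have c1 := ff_ge b1
        have c2 := ff_le_two b1
        have c3 := kk_ge (Pc a).1
        have c4 := kk_le_one (Pc a).1
        unfold nq
        have d1 : (Pc a).1 ^ 2 ≤ 36 := by rw [hX, e]; nlinarith
        have d2 : (Pc a).2.1 ^ 2 ≤ 4 := by rw [b2]; nlinarith
        have d3 : (Pc a).2.2 ^ 2 ≤ 1 := by rw [b3]; nlinarith
        linarith
      · have f1 : -10 < Xc a := by
          rw [e]
          have := sg_le_one (10 * a - 8)
          have := sg_nonneg (10 * a - 8)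
          nlinarith
        have f2 : Xc a ≤ -6 := by
          rw [e]
          have := sg_le_one (10 * a - 8)
          have := sg_nonneg (10 * a - 8)
          nlinarith
        rw [Pc_str h2, ff_zero (by linarith), kk_zero_left (by linarith)]
        unfold nq
        simp only
        nlinarith
  rcases le_total 0 a with h0 | h0
  · rw [abs_of_nonneg h0] at h; exact aux h0 h
  · rw [abs_of_nonpos h0] at h
    have := aux (by linarith) h
    rw [Pc_neg, nq_neg] at this
    exact this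

/-- away from the origin -/
theorem Pc_big {a : ℝ} (h : 1 / 20 ≤ |a|) : 1 / 4 ≤ nq (Pc a) := by
  have aux : ∀ {a : ℝ}, 1 / 20 ≤ a → 1 / 4 ≤ nq (Pc a) := by
    intro a ha
    rcases le_total a (3/10) with h1 | h1
    · rw [Pc_mid (by rw [abs_of_nonneg (by linarith)]; exact h1)]
      unfold nq; simp only; nlinarith
    rcases le_total a (7/20) with h2 | h2
    · obtain ⟨b1, b2, b3, b4⟩ := Hp_iff.2 ⟨a, h1, h2, rfl⟩
      have h := xi_ge b2 b3
      have h' : 3 ≤ (Pc a).1 := by rw [b4]; exact h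
      unfold nq
      nlinarith [sq_nonneg (Pc a).2.1, sq_nonneg (Pc a).2.2]
    · obtain ⟨b1, b2, b3⟩ := S1_iff.2 ⟨a, h2, rfl⟩
      unfold nq
      rcases le_total (Pc a).1 (-1/2) with h3 | h3
      · nlinarith [sq_nonneg (Pc a).2.1, sq_nonneg (Pc a).2.2]
      · have := ff_ge_one h3 b1
        rw [← b2] at this
        nlinarith [sq_nonneg (Pc a).1, sq_nonneg (Pc a).2.2]
  rcases le_total 0 a with h0 | h0
  · rw [abs_of_nonneg h0] at h; exact aux h
  · rw [abs_of_nonpos h0] at h
    have := aux h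
    rw [Pc_neg, nq_neg] at this
    exact this

end Pool.Agent.H753
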