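import Pool.Agent.H753.Spin

/-! A smooth parametrization of the spun plane. -/

set_option autoImplicit false

namespace Pool.Agent.H753

open Set Filter Topology

abbrev E2 : Type := EuclideanSpace ℝ (Fin 2)

noncomputable def mk2 (a b : ℝ) : E2 := !₂[a, b]

@[simp] theorem mk2_0 (a b : ℝ) : mk2 a b 0 = a := by simp [mk2]
@[simp] theorem mk2_1 (a b : ℝ) : mk2 a b 1 = b := by simp [mk2]

theorem E2_ext {p q : E2} (h0 : p 0 = q 0) (h1 : p 1 = q 1) : p = q := by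
  ext i
  fin_cases i
  exacts [h0, h1]

noncomputable def n2 (q : E2) : ℝ := q 0 ^ 2 + q 1 ^ 2

theorem norm_sq_E2 (p : E2) : ‖p‖ ^ 2 = n2 p := by
  rw [EuclideanSpace.norm_sq_eq]; simp [Fin.sum_univ_two, n2]

theorem n2_nonneg (q : E2) : 0 ≤ n2 q := by unfold n2; positivity

noncomputable def aa (q : E2) : ℝ := 2 * q 0 / (1 + n2 q)

theorem aa_mul (q : E2) : aa q * (1 + n2 q) = 2 * q 0 := by
  have := n2_nonneg q
  unfold aa; field_simp

theorem aa_sq_le (q : E2) : aa q ^ 2 ≤ 1 := by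
  have h := n2_nonneg q
  unfold aa
  rw [div_pow, div_le_one (by positivity)]
  unfold n2
  nlinarith [sq_nonneg (q 1), sq_nonneg (q 0), sq_nonneg (q 0 ^ 2 + q 1 ^ 2 - 1)]

theorem aa_le (q : E2) : |aa q| ≤ 1 := by
  have := aa_sq_le q
  rw [← sq_abs] at this
  nlinarith [abs_nonneg (aa q)]

/-- squared radius correction -/
noncomputable def Gc (a : ℝ) : ℝ := 1 + (a ^ 2 - (Xc a ^ 2 + Yc a ^ 2 + Hc a ^ 2) / 100) / (1 - a ^ 2)

theorem nq_Pc (a : ℝ) : nq (Pc a) = Xc a ^ 2 + Yc a ^ 2 + Hc a ^ 2 := rfl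

theorem Gc_one {a : ℝ} (h : |a| ≤ 3/10 ∨ 9/10 ≤ |a|) : Gc a = 1 := by
  unfold Gc
  rw [← nq_Pc]
  have : nq (Pc a) / 100 = a ^ 2 := by
    rcases h with h | h
    · rw [Pc_mid h]; unfold nq; ring
    · rw [Pc_end h]; unfold nq; ring
  rw [this]; simp

theorem Gc_mul (a : ℝ) : Gc a * (1 - a ^ 2) = 1 - (Xc a ^ 2 + Yc a ^ 2 + Hc a ^ 2) / 100 := by
  by_cases h : 1 - a ^ 2 = 0
  · have ha : |a| = 1 := by
      have : |a| ^ 2 = 1 := by rw [sq_abs]; linarith
      nlinarith [abs_nonneg a, sq_nonneg (|a| - 1)]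
    have e : nq (Pc a) / 100 = a ^ 2 := by rw [Pc_end (by rw [ha]; norm_num)]; unfold nq; ring
    rw [h, mul_zero, ← nq_Pc, e]; linarith
  · unfold Gc
    field_simp
    ring

theorem Gc_pos {a : ℝ} (h : |a| ≤ 1) : 0 < Gc a := by
  rcases h.eq_or_lt with h1 | h1
  · rw [Gc_one (Or.inr (by rw [h1]; norm_num))]; norm_num
  · have h2 := Gc_mul a
    have h3 := Pc_small h1
    rw [nq_Pc] at h3
    have h4 : 0 < 1 - a ^ 2 := by
      rw [← sq_abs]
      nlinarith [abs_nonneg a]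
    by_contra hc
    have := not_lt.1 hc
    nlinarith

theorem Gc_contDiff {n : ℕ∞} : ContDiff ℝ n Gc := by
  have hX := Xc_contDiff (n := n)
  have hY := Yc_contDiff (n := n)
  have hH := Hc_contDiff (n := n)
  rw [contDiff_iff_contDiffAt]
  intro a
  rcases lt_or_ge |a| (19/20) with h | h
  · have hne : 1 - a ^ 2 ≠ 0 := by
      have : a ^ 2 < 1 := by
        rw [← sq_abs]
        nlinarith [abs_nonneg a]
      linarith
    unfold Gc
    refine contDiffAt_const.add (ContDiffAt.div ?_ ?_ hne)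
    · exact (ContDiff.contDiffAt (by fun_prop))
    · exact (ContDiff.contDiffAt (by fun_prop))
  · have : Gc =ᶠ[𝓝 a] fun _ => 1 := by
      have ho : IsOpen {x : ℝ | 9/10 < |x|} := isOpen_lt continuous_const continuous_abs
      filter_upwards [ho.mem_nhds (show 9/10 < |a| by linarith)] with x hx
      have hx' : 9/10 < |x| := hx
      exact Gc_one (Or.inr hx'.le)
    exact contDiffAt_const.congr_of_eventuallyEq this

noncomputable def gc (q : E2) : ℝ := Real.sqrt (Gc (aa q))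
noncomputable def den (q : E2) : ℝ := (1 + n2 q) - gc q * (n2 q - 1)

theorem gc_pos (q : E2) : 0 < gc q := Real.sqrt_pos.2 (Gc_pos (aa_le q))
theorem gc_sq (q : E2) : gc q ^ 2 = Gc (aa q) := Real.sq_sqrt (Gc_pos (aa_le q)).le

theorem gc_sq_mul (q : E2) : gc q ^ 2 * (1 - aa q ^ 2) =
    1 - (Xc (aa q) ^ 2 + Yc (aa q) ^ 2 + Hc (aa q) ^ 2) / 100 := by
  rw [gc_sq]; exact Gc_mul _

/-- the sphere relation -/
theorem sph (q : E2) : (n2 q - 1) ^ 2 = (1 + n2 q) ^ 2 * (1 - aa q ^ 2) - 4 * q 1 ^ 2 := by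
  have h := aa_mul q
  have : (1 + n2 q) ^ 2 * aa q ^ 2 = 4 * q 0 ^ 2 := by
    rw [← mul_pow, mul_comm (1 + n2 q), h]; ring
  have e : (1 + n2 q) ^ 2 * (1 - aa q ^ 2) = (1 + n2 q) ^ 2 - 4 * q 0 ^ 2 := by
    rw [← this]; ring
  rw [e]; unfold n2; ring

theorem den_pos (q : E2) : 0 < den q := by
  have h0 := n2_nonneg q
  unfold den
  rcases le_or_gt (|aa q|) (3/10) with h | h
  · have : gc q = 1 := by unfold gc; rw [Gc_one (Or.inl h), Real.sqrt_one]
    rw [this]; linarith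
  · have h1 := Pc_big (a := aa q) (by linarith)
    rw [nq_Pc] at h1
    have h2 := gc_sq_mul q
    have h3 := sph q
    have h4 : (gc q * (n2 q - 1)) ^ 2 < (1 + n2 q) ^ 2 := by
      rw [mul_pow, h3]
      have e : gc q ^ 2 * ((1 + n2 q) ^ 2 * (1 - aa q ^ 2) - 4 * q 1 ^ 2) =
        (1 + n2 q) ^ 2 * (gc q ^ 2 * (1 - aa q ^ 2)) - 4 * gc q ^ 2 * q 1 ^ 2 := by ring
      rw [e, h2]
      have p1 : 0 < (1 + n2 q) ^ 2 := by positivity
      have p2 : 0 ≤ 4 * gc q ^ 2 * q 1 ^ 2 := by positivity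
      nlinarith
    have := abs_lt_of_sq_lt_sq h4 (by positivity)
    have := (abs_lt.1 this).2
    linarith

/-- the parametrization -/
noncomputable def s4 (q : E2) : E4 :=
  mk4 ((1 + n2 q) * (Xc (aa q) / 10) / den q) ((1 + n2 q) * (Yc (aa q) / 10) / den q)
    ((1 + n2 q) * (Hc (aa q) / 10) / den q) (2 * gc q * q 1 / den q)

theorem nsq_s4 (q : E2) : 1 + nsq (s4 q) = 2 * (1 + n2 q) / den q := by
  have h0 := n2_nonneg q
  have hd := (den_pos q).ne'
  have h2 := gc_sq_mul q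
  have h3 := sph q
  have key : (1 + n2 q) ^ 2 * ((Xc (aa q) ^ 2 + Yc (aa q) ^ 2 + Hc (aa q) ^ 2) / 100) +
      4 * gc q ^ 2 * q 1 ^ 2 = den q * ((1 + n2 q) + gc q * (n2 q - 1)) := by
    have e : den q * ((1 + n2 q) + gc q * (n2 q - 1)) = (1 + n2 q) ^ 2 - gc q ^ 2 * (n2 q - 1) ^ 2 := by
      unfold den; ring
    have e2 : gc q ^ 2 * (n2 q - 1) ^ 2 = (1 + n2 q) ^ 2 * (gc q ^ 2 * (1 - aa q ^ 2)) -
      4 * gc q ^ 2 * q 1 ^ 2 := by rw [h3]; ring
    rw [e, e2, h2]; ring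
  have e1 : nsq (s4 q) = ((1 + n2 q) ^ 2 * ((Xc (aa q) ^ 2 + Yc (aa q) ^ 2 + Hc (aa q) ^ 2) / 100) +
      4 * gc q ^ 2 * q 1 ^ 2) / den q ^ 2 := by
    unfold nsq s4
    simp only [mk4_0, mk4_1, mk4_2, mk4_3]
    field_simp
    ring
  rw [e1, key]
  rw [eq_div_iff hd]
  have : den q * (1 + n2 q + gc q * (n2 q - 1)) / den q ^ 2 * den q = 1 + n2 q + gc q * (n2 q - 1) := by
    field_simp
  rw [add_mul, this]
  unfold den; ring

theorem FB_s4 (q : E2) : FB (s4 q) = Pc (aa q) := by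
  have h0 := n2_nonneg q
  have h0' : 1 + n2 q ≠ 0 := by positivity
  have hd := (den_pos q).ne'
  unfold FB
  rw [nsq_s4]
  unfold s4 Pc
  simp only [mk4_0, mk4_1, mk4_2]
  refine Prod.ext ?_ (Prod.ext ?_ ?_) <;> · simp only; field_simp; try ring

theorem s4_mem (q : E2) : s4 q ∈ SS := by
  show FB (s4 q) ∈ Tau
  rw [FB_s4, ← range_Pc]; exact mem_range_self _

/-- the other two stereographic coordinates -/
theorem ww_s4 (q : E2) : ww (s4 q) = gc q * ((n2 q - 1) / (1 + n2 q)) := by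
  have h0 := n2_nonneg q
  have h0' : 1 + n2 q ≠ 0 := by positivity
  have hd := (den_pos q).ne'
  have h := nsq_s4 q
  have e : ww (s4 q) = (1 + nsq (s4 q) - 2) / (1 + nsq (s4 q)) := by
    unfold ww; rw [add_comm (nsq (s4 q)) 1]; congr 1; ring
  rw [e, h]
  have hd' : den q = (1 + n2 q) - gc q * (n2 q - 1) := rfl
  field_simp
  rw [hd']; ring

noncomputable def zz (Q : E4) : ℝ := 2 * Q 3 / (1 + nsq Q)

theorem zz_s4 (q : E2) : zz (s4 q) = gc q * (2 * q 1 / (1 + n2 q)) := by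
  have h0 := n2_nonneg q
  have h0' : 1 + n2 q ≠ 0 := by positivity
  have hd := (den_pos q).ne'
  unfold zz
  rw [nsq_s4]
  unfold s4
  simp only [mk4_3]
  field_simp

/-- stereographic inversion -/
theorem E4_rec (Q : E4) : Q = mk4 ((FB Q).1 / 10 / (1 - ww Q)) ((FB Q).2.1 / 10 / (1 - ww Q))
    ((FB Q).2.2 / 10 / (1 - ww Q)) (zz Q / (1 - ww Q)) := by
  have h0 := nsq_nonneg Q
  have h : nsq Q + 1 ≠ 0 := by positivity
  have h' : 1 + nsq Q ≠ 0 := by positivity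
  have h1 : 1 - ww Q = 2 / (1 + nsq Q) := by unfold ww; field_simp; ring
  rw [h1]
  unfold FB zz
  apply E4_ext
  · simp only [mk4_0]; field_simp; ring
  · simp only [mk4_1]; field_simp; ring
  · simp only [mk4_2]; field_simp; ring
  · simp only [mk4_3]; field_simp

theorem q0_rec (q : E2) : q 0 = aa q / (1 - (n2 q - 1) / (1 + n2 q)) := by
  have h0 := n2_nonneg q
  have h0' : 1 + n2 q ≠ 0 := by positivity
  have h1 : 1 - (n2 q - 1) / (1 + n2 q) = 2 / (1 + n2 q) := by field_simp; ring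
  rw [h1]
  unfold aa; field_simp

theorem q1_rec (q : E2) : q 1 = (2 * q 1 / (1 + n2 q)) / (1 - (n2 q - 1) / (1 + n2 q)) := by
  have h0 := n2_nonneg q
  have h0' : 1 + n2 q ≠ 0 := by positivity
  have h1 : 1 - (n2 q - 1) / (1 + n2 q) = 2 / (1 + n2 q) := by field_simp; ring
  rw [h1]
  field_simp

theorem s4_injective : Function.Injective s4 := by
  intro q q' h
  have ha : aa q = aa q' := by
    apply Pc_injective
    rw [← FB_s4, ← FB_s4, h]
  have hg : gc q = gc q' := by unfold gc; rw [ha]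
  have hw : (n2 q - 1) / (1 + n2 q) = (n2 q' - 1) / (1 + n2 q') := by
    have := ww_s4 q
    rw [h, ww_s4 q', hg] at this
    exact (mul_left_cancel₀ (gc_pos q').ne' this).symm
  have hz : 2 * q 1 / (1 + n2 q) = 2 * q' 1 / (1 + n2 q') := by
    have := zz_s4 q
    rw [h, zz_s4 q', hg] at this
    exact (mul_left_cancel₀ (gc_pos q').ne' this).symm
  apply E2_ext
  · rw [q0_rec q, q0_rec q', ha, hw]
  · rw [q1_rec q, q1_rec q', hz, hw]

theorem s4_range : range s4 = SS := by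
  apply Subset.antisymm
  · rintro _ ⟨q, rfl⟩; exact s4_mem q
  intro Q hQ
  have hQ' : FB Q ∈ Tau := hQ
  rw [← range_Pc] at hQ'
  obtain ⟨a, ha⟩ := hQ'
  have hn0 := nsq_nonneg Q
  have hn : nq (FB Q) ≤ 100 := by
    rw [nq_FB_100]
    have : 0 ≤ 100 * ((2 * Q 3) ^ 2 + (nsq Q - 1) ^ 2) / (1 + nsq Q) ^ 2 := by positivity
    linarith
  have ha1 : |a| ≤ 1 := by
    by_contra hc
    have hc := not_le.1 hc
    rw [← ha, Pc_end (by linarith)] at hn
    unfold nq at hn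
    have : a ^ 2 ≤ 1 := by nlinarith
    rw [← sq_abs] at this
    nlinarith
  set g := Real.sqrt (Gc a) with hg
  have hgp : 0 < g := Real.sqrt_pos.2 (Gc_pos ha1)
  have hg2 : g ^ 2 = Gc a := Real.sq_sqrt (Gc_pos ha1).le
  have hgm := Gc_mul a
  have hr := rr_sq Q
  have hr' := rr_sq' Q
  have hzz : (zz Q) ^ 2 + (ww Q) ^ 2 = g ^ 2 * (1 - a ^ 2) := by
    rw [hg2, hgm, ← nq_Pc, ha, ← hr', hr]; rfl
  set z0 := zz Q / g with hz0
  set w0 := ww Q / g with hw0
  have hs : a ^ 2 + z0 ^ 2 + w0 ^ 2 = 1 := by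
    have : z0 ^ 2 + w0 ^ 2 = 1 - a ^ 2 := by
      rw [hz0, hw0, div_pow, div_pow, ← add_div, hzz]
      field_simp
    linarith
  have hw1 : w0 < 1 := by
    by_contra hc
    have hc := not_lt.1 hc
    have ha0 : a = 0 := by nlinarith [sq_nonneg a, sq_nonneg z0]
    have hg1 : g = 1 := by
      rw [hg, Gc_one (Or.inl (by rw [ha0]; norm_num)), Real.sqrt_one]
    rw [hw0, hg1, div_one] at hc
    linarith [ww_lt_one Q]
  have hw1' : 1 - w0 ≠ 0 := by linarith
  refine ⟨mk2 (a / (1 - w0)) (z0 / (1 - w0)), ?_⟩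
  have hn2 : n2 (mk2 (a / (1 - w0)) (z0 / (1 - w0))) = (1 + w0) / (1 - w0) := by
    unfold n2
    simp only [mk2_0, mk2_1]
    rw [div_pow, div_pow, ← add_div, div_eq_div_iff (by positivity) hw1']
    have : a ^ 2 + z0 ^ 2 = (1 - w0) * (1 + w0) := by linarith [hs]
    rw [this]; ring
  have h1n : 1 + n2 (mk2 (a / (1 - w0)) (z0 / (1 - w0))) = 2 / (1 - w0) := by
    rw [hn2]; field_simp; ring
  have haa : aa (mk2 (a / (1 - w0)) (z0 / (1 - w0))) = a := by
    unfold aa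
    rw [h1n]
    simp only [mk2_0]
    field_simp
  have hgc : gc (mk2 (a / (1 - w0)) (z0 / (1 - w0))) = g := by unfold gc; rw [haa]
  have hww : ww (s4 (mk2 (a / (1 - w0)) (z0 / (1 - w0)))) = ww Q := by
    rw [ww_s4, hgc, h1n, hn2, hw0]
    have : w0 = ww Q / g := hw0
    rw [← this]
    have e : ((1 + w0) / (1 - w0) - 1) / (2 / (1 - w0)) = w0 := by field_simp; ring
    rw [e, this]; field_simp
  have hzz' : zz (s4 (mk2 (a / (1 - w0)) (z0 / (1 - w0)))) = zz Q := by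
    rw [zz_s4, hgc, h1n]
    simp only [mk2_1]
    have e : 2 * (z0 / (1 - w0)) / (2 / (1 - w0)) = z0 := by field_simp
    rw [e, hz0]; field_simp
  rw [E4_rec (s4 _), E4_rec Q, hww, hzz', FB_s4, haa, ha]

/-- the symmetry -/
theorem s4_neg (q : E2) : s4 (mk2 (-q 0) (q 1)) = rho4 (s4 q) := by
  have h1 : n2 (mk2 (-q 0) (q 1)) = n2 q := by unfold n2; simp
  have h2 : aa (mk2 (-q 0) (q 1)) = - aa q := by unfold aa; rw [h1]; simp [neg_div]
  have hX : Xc (-aa q) = - Xc (aa q) := Xc_neg _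
  have hY : Yc (-aa q) = - Yc (aa q) := Yc_neg _
  have hH : Hc (-aa q) = - Hc (aa q) := Hc_neg _
  have h3 : gc (mk2 (-q 0) (q 1)) = gc q := by
    unfold gc; rw [h2]
    unfold Gc; rw [hX, hY, hH]; simp
  have h4 : den (mk2 (-q 0) (q 1)) = den q := by unfold den; rw [h1, h3]
  unfold s4 rho4
  rw [h1, h2, h3, h4, hX, hY, hH]
  apply E4_ext <;> simp <;> ring

/-- far away, and near the axis, the parametrization is the inclusion of the plane -/
theorem s4_std {q : E2} (h : |aa q| ≤ 3/10) : s4 q = mk4 (q 0) 0 0 (q 1) := by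
  have hg : gc q = 1 := by unfold gc; rw [Gc_one (Or.inl h), Real.sqrt_one]
  have hd : den q = 2 := by unfold den; rw [hg]; ring
  have hP := Pc_mid h
  have hX : Xc (aa q) = 10 * aa q := congrArg Prod.fst hP
  have hY : Yc (aa q) = 0 := congrArg (fun p : R3 => p.2.1) hP
  have hH : Hc (aa q) = 0 := congrArg (fun p : R3 => p.2.2) hP
  unfold s4
  rw [hd, hg, hX, hY, hH]
  have := aa_mul q
  apply E4_ext
  · simp only [mk4_0]; linarith
  · simp
  · simp
  · simp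

theorem aa_far {q : E2} (h : 49 ≤ n2 q) : |aa q| ≤ 3/10 := by
  apply abs_le_of_sq_le_sq _ (by norm_num)
  unfold aa
  rw [div_pow, div_le_iff₀ (by positivity)]
  have : q 0 ^ 2 ≤ n2 q := by unfold n2; nlinarith [sq_nonneg (q 1)]
  nlinarith

theorem nsq_s4_le {q : E2} (h : n2 q < 49) : nsq (s4 q) ≤ 1600 := by
  rcases le_or_gt (|aa q|) (3/10) with h1 | h1
  · rw [s4_std h1]
    have : nsq (mk4 (q 0) 0 0 (q 1)) = n2 q := by simp [nsq, n2]
    rw [this]; linarith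
  · have h2 := Pc_big (a := aa q) (by linarith)
    by_contra hc
    have h3 := nq_FB_lt (by norm_num) (not_le.1 hc)
    rw [FB_s4] at h3
    linarith

end Pool.Agent.H753
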