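import Pool.Agent.H753.Disc

/-! Smoothness and immersivity of the parametrization of the spun plane. -/

set_option autoImplicit false

namespace Pool.Agent.H753

open Set Filter Topology

theorem contDiff_mk4 {X : Type*} [NormedAddCommGroup X] [NormedSpace ℝ X] {n : WithTop ℕ∞}
    {a b c d : X → ℝ} (ha : ContDiff ℝ n a)
    (hb : ContDiff ℝ n b) (hc : ContDiff ℝ n c) (hd : ContDiff ℝ n d) :
    ContDiff ℝ n (fun x => mk4 (a x) (b x) (c x) (d x)) := by
  rw [contDiff_piLp]
  intro i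
  fin_cases i
  · simpa using ha
  · simpa using hb
  · simpa using hc
  · simpa using hd

theorem co0 {n : WithTop ℕ∞} : ContDiff ℝ n (fun q : E2 => q 0) := by fun_prop
theorem co1 {n : WithTop ℕ∞} : ContDiff ℝ n (fun q : E2 => q 1) := by fun_prop

theorem n2_contDiff {n : WithTop ℕ∞} : ContDiff ℝ n n2 := by unfold n2; fun_prop

theorem aa_contDiff {n : WithTop ℕ∞} : ContDiff ℝ n aa := by
  have := n2_contDiff (n := n)
  unfold aa
  exact ContDiff.div (by fun_prop) (by fun_prop) (fun q => by have := n2_nonneg q; positivity)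

theorem gc_contDiff {n : ℕ∞} : ContDiff ℝ n gc := by
  have h1 := Gc_contDiff (n := n)
  have h2 := aa_contDiff (n := n)
  have h3 : ContDiff ℝ n (fun q => Gc (aa q)) := h1.comp h2
  exact h3.sqrt (fun q => (Gc_pos (aa_le q)).ne')

theorem den_contDiff {n : ℕ∞} : ContDiff ℝ n den := by
  have h1 := gc_contDiff (n := n)
  have h2 := n2_contDiff (n := n)
  unfold den; fun_prop

theorem s4_contDiff {n : ℕ∞} : ContDiff ℝ n s4 := by
  have h1 := gc_contDiff (n := n)
  have h2 := n2_contDiff (n := n)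
  have h3 := den_contDiff (n := n)
  have h4 := aa_contDiff (n := n)
  have hX : ContDiff ℝ n (fun q => Xc (aa q)) := (Xc_contDiff (n := n)).comp h4
  have hY : ContDiff ℝ n (fun q => Yc (aa q)) := (Yc_contDiff (n := n)).comp h4
  have hH : ContDiff ℝ n (fun q => Hc (aa q)) := (Hc_contDiff (n := n)).comp h4
  unfold s4
  apply contDiff_mk4
  · exact ContDiff.div (by fun_prop) h3 (fun q => (den_pos q).ne')
  · exact ContDiff.div (by fun_prop) h3 (fun q => (den_pos q).ne')
  · exact ContDiff.div (by fun_prop) h3 (fun q => (den_pos q).ne')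
  · exact ContDiff.div (by fun_prop) h3 (fun q => (den_pos q).ne')

theorem nsq_contDiff {n : WithTop ℕ∞} : ContDiff ℝ n nsq := by unfold nsq; fun_prop

theorem s4_immersion (q : E2) : Function.Injective (fderiv ℝ s4 q) := by
  rw [injective_iff_map_eq_zero]
  intro ξ hξ
  have hs : HasFDerivAt s4 (fderiv ℝ s4 q) q :=
    ((s4_contDiff (n := 1)).differentiable (by norm_num) q).hasFDerivAt
  have hl : HasDerivAt (fun t : ℝ => q + t • ξ) ξ 0 := by
    simpa using ((hasDerivAt_id (0:ℝ)).smul_const ξ).const_add q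
  have hq0 : q + (0:ℝ) • ξ = q := by simp
  have hs0 : HasDerivAt (fun t : ℝ => s4 (q + t • ξ)) 0 0 := by
    have := (hq0.symm ▸ hs : HasFDerivAt s4 (fderiv ℝ s4 q) (q + (0:ℝ) • ξ)).comp_hasDerivAt (0:ℝ) hl
    rw [hξ] at this
    exact this
  -- compositions have derivative zero
  have comp0 : ∀ {F : E4 → ℝ}, Differentiable ℝ F → HasDerivAt (fun t : ℝ => F (s4 (q + t • ξ))) 0 0 := by
    intro F hF
    have := (hF (s4 (q + (0:ℝ) • ξ))).hasFDerivAt.comp_hasDerivAt (0:ℝ) hs0
    rw [map_zero] at this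
    exact this
  have dn : ∀ p : E4, 1 + nsq p ≠ 0 := fun p => by have := nsq_nonneg p; positivity
  have cd : ∀ {F : E4 → ℝ}, ContDiff ℝ 1 F → Differentiable ℝ F := fun h => h.differentiable (by norm_num)
  have hnsq := nsq_contDiff (n := 1)
  have f0 : Differentiable ℝ (fun p : E4 => (FB p).1) := cd (by
    show ContDiff ℝ 1 (fun p : E4 => 20 * p 0 / (1 + nsq p))
    exact ContDiff.div (by fun_prop) (by fun_prop) dn)
  have f1 : Differentiable ℝ (fun p : E4 => (FB p).2.1) := cd (by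
    show ContDiff ℝ 1 (fun p : E4 => 20 * p 1 / (1 + nsq p))
    exact ContDiff.div (by fun_prop) (by fun_prop) dn)
  have f3 : Differentiable ℝ ww := cd (by
    unfold ww
    exact ContDiff.div (by fun_prop) (by fun_prop) (fun p => by rw [add_comm]; exact dn p))
  have f4 : Differentiable ℝ zz := cd (by
    unfold zz
    exact ContDiff.div (by fun_prop) (by fun_prop) dn)
  -- derivative of `aa`
  have ha : HasDerivAt (fun t : ℝ => aa (q + t • ξ)) (fderiv ℝ aa q ξ) 0 := by
    have h1 : HasFDerivAt aa (fderiv ℝ aa q) q :=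
      ((aa_contDiff (n := 1)).differentiable (by norm_num) q).hasFDerivAt
    exact (hq0.symm ▸ h1 : HasFDerivAt aa (fderiv ℝ aa q) (q + (0:ℝ) • ξ)).comp_hasDerivAt (0:ℝ) hl
  set a' := fderiv ℝ aa q ξ with ha'
  have ha0 : a' = 0 := by
    have hX : HasDerivAt (fun t : ℝ => Xc (aa (q + t • ξ))) (deriv Xc (aa q) * a') 0 := by
      have h1 : HasDerivAt Xc (deriv Xc (aa q)) (aa (q + (0:ℝ) • ξ)) := by
        rw [hq0]; exact (Xc_diff _).hasDerivAt
      exact h1.comp (0:ℝ) ha
    have hY : HasDerivAt (fun t : ℝ => Yc (aa (q + t • ξ))) (deriv Yc (aa q) * a') 0 := by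
      have h1 : HasDerivAt Yc (deriv Yc (aa q)) (aa (q + (0:ℝ) • ξ)) := by
        rw [hq0]; exact (Yc_diff _).hasDerivAt
      exact h1.comp (0:ℝ) ha
    have eX : deriv Xc (aa q) * a' = 0 := by
      apply hX.unique
      have := comp0 f0
      simp only [FB_s4] at this
      exact this
    have eY : deriv Yc (aa q) * a' = 0 := by
      apply hY.unique
      have := comp0 f1
      simp only [FB_s4] at this
      exact this
    rcases Pc_immersion (aa q) with h | h
    · exact (mul_eq_zero.1 eX).resolve_left h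
    · exact (mul_eq_zero.1 eY).resolve_left h
  rw [ha0] at ha
  have hg : HasDerivAt (fun t : ℝ => gc (q + t • ξ)) 0 0 := by
    have h1 : DifferentiableAt ℝ (fun a => Real.sqrt (Gc a)) (aa (q + (0:ℝ) • ξ)) := by
      apply DifferentiableAt.sqrt
      · exact (Gc_contDiff (n := 1)).differentiable (by norm_num) _
      · exact (Gc_pos (aa_le _)).ne'
    have := h1.hasDerivAt.comp (0:ℝ) ha
    rw [mul_zero] at this
    exact this
  have dg : ∀ t : ℝ, gc (q + t • ξ) ≠ 0 := fun t => (gc_pos _).ne'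
  have hw : HasDerivAt (fun t : ℝ => (n2 (q + t • ξ) - 1) / (1 + n2 (q + t • ξ))) 0 0 := by
    have h1 := (comp0 f3).div hg (dg 0)
    have e : (fun t : ℝ => (n2 (q + t • ξ) - 1) / (1 + n2 (q + t • ξ))) =
        (fun t : ℝ => ww (s4 (q + t • ξ)) / gc (q + t • ξ)) := by
      funext t
      rw [ww_s4, mul_div_cancel_left₀ _ (dg t)]
    rw [e]
    simp only [zero_mul, mul_zero, sub_zero, zero_div] at h1
    exact h1
  have hz : HasDerivAt (fun t : ℝ => 2 * (q + t • ξ) 1 / (1 + n2 (q + t • ξ))) 0 0 := by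
    have h1 := (comp0 f4).div hg (dg 0)
    have e : (fun t : ℝ => 2 * (q + t • ξ) 1 / (1 + n2 (q + t • ξ))) =
        (fun t : ℝ => zz (s4 (q + t • ξ)) / gc (q + t • ξ)) := by
      funext t
      rw [zz_s4, mul_div_cancel_left₀ _ (dg t)]
    rw [e]
    simp only [zero_mul, mul_zero, sub_zero, zero_div] at h1
    exact h1
  have hne : 1 - (n2 (q + (0:ℝ) • ξ) - 1) / (1 + n2 (q + (0:ℝ) • ξ)) ≠ 0 := by
    have h0 := n2_nonneg (q + (0:ℝ) • ξ)
    have h1 : 1 - (n2 (q + (0:ℝ) • ξ) - 1) / (1 + n2 (q + (0:ℝ) • ξ)) = 2 / (1 + n2 (q + (0:ℝ) • ξ)) := by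
      have h0' : 1 + n2 (q + (0:ℝ) • ξ) ≠ 0 := by positivity
      field_simp; ring
    rw [h1]; positivity
  have hd : HasDerivAt (fun t : ℝ => 1 - (n2 (q + t • ξ) - 1) / (1 + n2 (q + t • ξ))) 0 0 := by
    simpa using hw.const_sub 1
  have r0 : HasDerivAt (fun t : ℝ => (q + t • ξ) 0) 0 0 := by
    have h1 := ha.div hd hne
    have e : (fun t : ℝ => (q + t • ξ) 0) = (fun t : ℝ => aa (q + t • ξ) /
        (1 - (n2 (q + t • ξ) - 1) / (1 + n2 (q + t • ξ)))) := by
      funext t
      exact q0_rec _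
    rw [e]
    simp only [zero_mul, mul_zero, sub_zero, zero_div] at h1
    exact h1
  have r1 : HasDerivAt (fun t : ℝ => (q + t • ξ) 1) 0 0 := by
    have h1 := hz.div hd hne
    have e : (fun t : ℝ => (q + t • ξ) 1) = (fun t : ℝ => 2 * (q + t • ξ) 1 / (1 + n2 (q + t • ξ)) /
        (1 - (n2 (q + t • ξ) - 1) / (1 + n2 (q + t • ξ)))) := by
      funext t
      exact q1_rec _
    rw [e]
    simp only [zero_mul, mul_zero, sub_zero, zero_div] at h1
    exact h1
  have l0 : HasDerivAt (fun t : ℝ => (q + t • ξ) 0) (ξ 0) 0 := by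
    have : (fun t : ℝ => (q + t • ξ) 0) = fun t => q 0 + t * ξ 0 := by funext t; simp
    rw [this]
    simpa using ((hasDerivAt_id (0:ℝ)).mul_const (ξ 0)).const_add (q 0)
  have l1 : HasDerivAt (fun t : ℝ => (q + t • ξ) 1) (ξ 1) 0 := by
    have : (fun t : ℝ => (q + t • ξ) 1) = fun t => q 1 + t * ξ 1 := by funext t; simp
    rw [this]
    simpa using ((hasDerivAt_id (0:ℝ)).mul_const (ξ 1)).const_add (q 1)
  apply E2_ext
  · exact l0.unique r0
  · exact l1.unique r1

end Pool.Agent.H753
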