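import Pool.Agent.H753.Four

/-! The plane with two knotted balls and flat functions on its complement. -/

set_option autoImplicit false

namespace Pool.Agent.H753

open Set Filter Topology Pool.Agent.Helper60.AS

/-- blow up of the ball around `(0, 0, 0, 1/2)` -/
noncomputable def ps (p : E4) : E4 := mk4 (200 * p 0) (200 * p 1) (200 * p 2) (200 * (p 3 - 1/2))
/-- its inverse -/
noncomputable def ph (x : E4) : E4 := mk4 (x 0 / 200) (x 1 / 200) (x 2 / 200) (x 3 / 200 + 1/2)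
/-- rotation of the plane `P` by `π` -/
noncomputable def rp (p : E4) : E4 := mk4 (-p 0) (p 1) (p 2) (-p 3)

theorem ps_cont : Continuous ps := by
  unfold ps; exact continuous_mk4 (by fun_prop) (by fun_prop) (by fun_prop) (by fun_prop)
theorem ph_cont : Continuous ph := by
  unfold ph; exact continuous_mk4 (by fun_prop) (by fun_prop) (by fun_prop) (by fun_prop)
theorem rp_cont : Continuous rp := by
  unfold rp; exact continuous_mk4 (by fun_prop) (by fun_prop) (by fun_prop) (by fun_prop)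

theorem ps_ph (x : E4) : ps (ph x) = x := by
  apply E4_ext <;> simp [ps, ph] <;> ring
theorem ph_ps (x : E4) : ph (ps x) = x := by
  apply E4_ext <;> simp [ps, ph]
theorem rp_rp (x : E4) : rp (rp x) = x := by
  apply E4_ext <;> simp [rp]
theorem rp_rho4 (x : E4) : rp (rho4 x) = rho4 (rp x) := by
  apply E4_ext <;> simp [rp, rho4]
theorem ps_rho4 (x : E4) : ps (rho4 x) = rho4 (ps x) := by
  apply E4_ext <;> simp [ps, rho4]
theorem ph_rho4 (x : E4) : ph (rho4 x) = rho4 (ph x) := by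
  apply E4_ext <;> simp [ph, rho4, neg_div]
theorem zt_rp (x : E4) : zt (rp x) = zt x := by simp [zt, rp]
theorem zt_ps (x : E4) : zt (ps x) = (200:ℝ) • zt x := by simp [zt, ps]
theorem zt_ph (x : E4) : zt (ph x) = (1/200:ℝ) • zt x := by
  unfold zt ph
  simp only [mk4_1, mk4_2]
  refine Prod.ext ?_ ?_
  · show x 1 / 200 = 1 / 200 * x 1; ring
  · show x 2 / 200 = 1 / 200 * x 2; ring
theorem nsq_rp (x : E4) : nsq (rp x) = nsq x := by simp [nsq, rp]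

theorem nsq_ps (p : E4) : nsq (ps p) = 40000 * (p 0 ^ 2 + p 1 ^ 2 + p 2 ^ 2 + (p 3 - 1/2) ^ 2) := by
  simp [nsq, ps]; ring
theorem nsq_ps_rp (p : E4) :
    nsq (ps (rp p)) = 40000 * (p 0 ^ 2 + p 1 ^ 2 + p 2 ^ 2 + (p 3 + 1/2) ^ 2) := by
  rw [nsq_ps]; simp [rp]; ring

/-- the standard plane with two knotted balls -/
def DD2 : Set E4 := {p | (0 ≤ p 3 ∧ ps p ∈ SS) ∨ (p 3 ≤ 0 ∧ ps (rp p) ∈ SS)}

theorem isClosed_DD2 : IsClosed DD2 := by
  have c3c : Continuous (fun p : E4 => p 3) := by fun_prop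
  have h1 : IsClosed {p : E4 | 0 ≤ p 3 ∧ ps p ∈ SS} :=
    (isClosed_le continuous_const c3c).inter (isClosed_SS.preimage ps_cont)
  have h2 : IsClosed {p : E4 | p 3 ≤ 0 ∧ ps (rp p) ∈ SS} :=
    (isClosed_le c3c continuous_const).inter (isClosed_SS.preimage (ps_cont.comp rp_cont))
  exact h1.union h2

theorem DD2_far {p : E4} (h1 : 400 < nsq (ps p)) (h2 : 400 < nsq (ps (rp p))) :
    p ∈ DD2 ↔ zt p = 0 := by
  have e1 : ps p ∈ SS ↔ zt p = 0 := by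
    rw [SS_far h1, zt_ps, smul_eq_zero]; simp
  have e2 : ps (rp p) ∈ SS ↔ zt p = 0 := by
    rw [SS_far h2, zt_ps, zt_rp, smul_eq_zero]; simp
  show (0 ≤ p 3 ∧ ps p ∈ SS) ∨ (p 3 ≤ 0 ∧ ps (rp p) ∈ SS) ↔ _
  rw [e1, e2]
  constructor
  · rintro (⟨_, h⟩ | ⟨_, h⟩) <;> exact h
  · intro h
    rcases le_total 0 (p 3) with h' | h'
    · exact Or.inl ⟨h', h⟩
    · exact Or.inr ⟨h', h⟩

theorem pos_of_near {p : E4} (h1 : nsq (ps p) < 10000) : 0 < p 3 := by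
  rw [nsq_ps] at h1
  nlinarith [sq_nonneg (p 0), sq_nonneg (p 1), sq_nonneg (p 2)]

theorem neg_of_near {p : E4} (h1 : nsq (ps (rp p)) < 10000) : p 3 < 0 := by
  have := pos_of_near h1
  have e : rp p 3 = - p 3 := by simp [rp]
  rw [e] at this; linarith

theorem DD2_near1 {p : E4} (h1 : nsq (ps p) < 10000) : p ∈ DD2 ↔ ps p ∈ SS := by
  have := pos_of_near h1
  show (0 ≤ p 3 ∧ ps p ∈ SS) ∨ (p 3 ≤ 0 ∧ ps (rp p) ∈ SS) ↔ _
  constructor
  · rintro (⟨_, h⟩ | ⟨h, _⟩)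
    · exact h
    · linarith
  · exact fun h => Or.inl ⟨this.le, h⟩

theorem DD2_near2 {p : E4} (h1 : nsq (ps (rp p)) < 10000) : p ∈ DD2 ↔ ps (rp p) ∈ SS := by
  have := neg_of_near h1
  show (0 ≤ p 3 ∧ ps p ∈ SS) ∨ (p 3 ≤ 0 ∧ ps (rp p) ∈ SS) ↔ _
  constructor
  · rintro (⟨h, _⟩ | ⟨_, h⟩)
    · linarith
    · exact h
  · exact fun h => Or.inr ⟨this.le, h⟩

theorem rp_mem_DD2 {p : E4} : rp p ∈ DD2 ↔ p ∈ DD2 := by
  have e : rp p 3 = - p 3 := by simp [rp]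
  show (0 ≤ rp p 3 ∧ ps (rp p) ∈ SS) ∨ (rp p 3 ≤ 0 ∧ ps (rp (rp p)) ∈ SS) ↔
    (0 ≤ p 3 ∧ ps p ∈ SS) ∨ (p 3 ≤ 0 ∧ ps (rp p) ∈ SS)
  rw [rp_rp, e]
  simp only [Left.nonneg_neg_iff, Left.neg_nonpos_iff]
  exact Or.comm

theorem rho4_mem_DD2 {p : E4} : rho4 p ∈ DD2 ↔ p ∈ DD2 := by
  have e : rho4 p 3 = p 3 := by simp [rho4]
  show (0 ≤ rho4 p 3 ∧ ps (rho4 p) ∈ SS) ∨ (rho4 p 3 ≤ 0 ∧ ps (rp (rho4 p)) ∈ SS) ↔
    (0 ≤ p 3 ∧ ps p ∈ SS) ∨ (p 3 ≤ 0 ∧ ps (rp p) ∈ SS)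
  rw [rp_rho4, ps_rho4, ps_rho4, rho4_mem_SS, rho4_mem_SS, e]

/-- the free region outside the two balls -/
def RR : Set E4 := {p | zt p ≠ 0 ∧ 900 < nsq (ps p) ∧ 900 < nsq (ps (rp p))}

theorem isOpen_RR : IsOpen RR := by
  have h1 : IsOpen {p : E4 | zt p ≠ 0} := isOpen_ne.preimage zt_cont
  have h2 : IsOpen {p : E4 | 900 < nsq (ps p)} := isOpen_lt continuous_const (nsq_cont.comp ps_cont)
  have h3 : IsOpen {p : E4 | 900 < nsq (ps (rp p))} :=
    isOpen_lt continuous_const (nsq_cont.comp (ps_cont.comp rp_cont))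
  exact h1.inter (h2.inter h3)

theorem RR_sub {p : E4} (h : p ∈ RR) : p ∉ DD2 := by
  rw [DD2_far (by linarith [h.2.1]) (by linarith [h.2.2])]; exact h.1

theorem RR_rho4 {p : E4} : rho4 p ∈ RR ↔ p ∈ RR := by
  show zt (rho4 p) ≠ 0 ∧ 900 < nsq (ps (rho4 p)) ∧ 900 < nsq (ps (rp (rho4 p))) ↔ _
  rw [rp_rho4, ps_rho4, ps_rho4, nsq_rho4, nsq_rho4, zt_rho4, neg_ne_zero]
  exact Iff.rfl

theorem RR_rp {p : E4} : rp p ∈ RR ↔ p ∈ RR := by
  show zt (rp p) ≠ 0 ∧ 900 < nsq (ps (rp p)) ∧ 900 < nsq (ps (rp (rp p))) ↔ _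
  rw [rp_rp, zt_rp]
  exact ⟨fun h => ⟨h.1, h.2.2, h.2.1⟩, fun h => ⟨h.1, h.2.2, h.2.1⟩⟩

theorem RR_of_big {p : E4} (h : 1 < nsq p) (hz : zt p ≠ 0) : p ∈ RR := by
  refine ⟨hz, ?_, ?_⟩
  · rw [nsq_ps]
    unfold nsq at h
    nlinarith [sq_nonneg (p 0), sq_nonneg (p 1), sq_nonneg (p 2), sq_nonneg (p 3 - 1), sq_nonneg (p 3 - 2)]
  · rw [nsq_ps_rp]
    unfold nsq at h
    nlinarith [sq_nonneg (p 0), sq_nonneg (p 1), sq_nonneg (p 2), sq_nonneg (p 3 + 1), sq_nonneg (p 3 + 2)]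

/-! ### the normal push -/

/-- norm of the normal part -/
noncomputable def zn (p : E4) : ℝ := Real.sqrt (p 1 ^ 2 + p 2 ^ 2)

theorem zn_cont : Continuous zn := by unfold zn; fun_prop

theorem zn_pos {p : E4} (h : zt p ≠ 0) : 0 < zn p := by
  apply Real.sqrt_pos.2
  by_contra hc
  apply h
  have h1 : p 1 = 0 := by nlinarith [sq_nonneg (p 1), sq_nonneg (p 2)]
  have h2 : p 2 = 0 := by nlinarith [sq_nonneg (p 1), sq_nonneg (p 2)]
  exact Prod.ext h1 h2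

theorem zn_sq (p : E4) : zn p ^ 2 = p 1 ^ 2 + p 2 ^ 2 := Real.sq_sqrt (by positivity)

noncomputable def NP (s : ℝ) (p : E4) : E4 :=
  mk4 (p 0) ((1 + 2 * s / zn p) * p 1) ((1 + 2 * s / zn p) * p 2) (p 3)

theorem NP_zero (p : E4) : NP 0 p = p := by
  apply E4_ext <;> simp [NP]

theorem NP_fac {p : E4} {s : ℝ} (hs : 0 ≤ s) : 1 ≤ 1 + 2 * s / zn p := by
  have : 0 ≤ zn p := Real.sqrt_nonneg _
  have : 0 ≤ 2 * s / zn p := by positivity
  linarith

theorem zt_NP (s : ℝ) (p : E4) : zt (NP s p) = (1 + 2 * s / zn p) • zt p := by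
  simp [zt, NP]

theorem NP_rho4 (s : ℝ) (p : E4) : NP s (rho4 p) = rho4 (NP s p) := by
  have : zn (rho4 p) = zn p := by simp [zn, rho4]
  unfold NP
  rw [this]
  apply E4_ext <;> simp [rho4]

theorem nsq_NP_aux {p : E4} {s : ℝ} (hs : 0 ≤ s) : (NP s p) 0 = p 0 ∧ (NP s p) 3 = p 3 ∧
    p 1 ^ 2 + p 2 ^ 2 ≤ (NP s p) 1 ^ 2 + (NP s p) 2 ^ 2 := by
  refine ⟨by simp [NP], by simp [NP], ?_⟩
  have h := NP_fac (p := p) hs
  simp only [NP, mk4_1, mk4_2]
  rw [mul_pow, mul_pow, ← mul_add]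
  have : 1 ≤ (1 + 2 * s / zn p) ^ 2 := one_le_pow₀ h
  nlinarith [sq_nonneg (p 1), sq_nonneg (p 2)]

theorem nsq_NP_le {p : E4} {s : ℝ} (hs : 0 ≤ s) : nsq p ≤ nsq (NP s p) := by
  obtain ⟨h0, h3, h⟩ := nsq_NP_aux (p := p) hs
  unfold nsq
  rw [h0, h3]; linarith

theorem NP_RR {p : E4} (h : p ∈ RR) {s : ℝ} (hs : 0 ≤ s) : NP s p ∈ RR := by
  obtain ⟨h0, h3, h'⟩ := nsq_NP_aux (p := p) hs
  refine ⟨?_, ?_, ?_⟩
  · rw [zt_NP]
    exact smul_ne_zero (by have := NP_fac (p := p) hs; linarith) h.1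
  · have := h.2.1
    rw [nsq_ps] at this ⊢
    rw [h0, h3]; linarith
  · have := h.2.2
    rw [nsq_ps_rp] at this ⊢
    rw [h0, h3]; linarith

theorem nsq_NP_one {p : E4} (h : zt p ≠ 0) : 1 < nsq (NP 1 p) := by
  have h1 := zn_pos h
  have h2 := zn_sq p
  unfold nsq NP
  simp only [mk4_0, mk4_1, mk4_2, mk4_3]
  have e : ((1 + 2 * 1 / zn p) * p 1) ^ 2 + ((1 + 2 * 1 / zn p) * p 2) ^ 2 = (zn p + 2) ^ 2 := by
    have : ((1 + 2 * 1 / zn p) * p 1) ^ 2 + ((1 + 2 * 1 / zn p) * p 2) ^ 2 =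
      (1 + 2 * 1 / zn p) ^ 2 * (p 1 ^ 2 + p 2 ^ 2) := by ring
    rw [this, ← h2]; field_simp
  nlinarith [sq_nonneg (p 0), sq_nonneg (p 3)]

theorem NP_contAt {p : E4} (h : zt p ≠ 0) (s : ℝ) :
    ContinuousAt (fun q : ℝ × E4 => NP q.1 q.2) (s, p) := by
  have h1 := (zn_pos h).ne'
  have hz : ContinuousAt (fun q : ℝ × E4 => zn q.2) (s, p) :=
    (zn_cont.comp continuous_snd).continuousAt
  have hf : ContinuousAt (fun q : ℝ × E4 => 1 + 2 * q.1 / zn q.2) (s, p) := by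
    refine continuousAt_const.add (ContinuousAt.div ?_ hz h1)
    exact Continuous.continuousAt (by fun_prop)
  unfold NP
  apply continuousAt_mk4
  · exact Continuous.continuousAt (by fun_prop)
  · exact hf.mul (Continuous.continuousAt (by fun_prop))
  · exact hf.mul (Continuous.continuousAt (by fun_prop))
  · exact Continuous.continuousAt (by fun_prop)

/-- the section in one ball -/
theorem ball_section {T : E4 → E4 → Aff} {φ : E4 → E4} (hφ : Continuous φ)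
    (hφr : ∀ x, φ (rho4 x) = rho4 (φ x)) (hφz : ∀ x, zt (φ x) = (1/200:ℝ) • zt x)
    (hinv : ∀ x y, T (rho4 x) (rho4 y) = T x y)
    (hT : ∀ x, nsq x < 2600 → x ∉ SS → GFlatAt T (φ x))
    (hα : ∀ x, 900 < nsq x → nsq x < 2600 → zt x ≠ 0 →
      ∃ ε > 0, ∀ p q, dist p (φ x) < ε → dist q (φ x) < ε → T p q = Tal (zt p) (zt q)) :
    ∃ c : E4 → ZMod 5, (∀ a, nsq a < 2500 → a ∉ SS → ∃ ε > 0, ∀ x y, dist x a < ε → dist y a < ε →
      c x = T (φ x) (φ y) • c y) ∧ ∀ x, 1600 < nsq x → zt x ≠ 0 → c x = 0 := by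
  classical
  set T3 : E4 → E4 → Aff := fun x y => if nsq x < 2500 ∧ nsq y < 2500 then T (φ x) (φ y)
    else Tal (zt x) (zt y) with hT3
  have near : EqNear T3 (fun p q => Tal (zt p) (zt q)) {p | 900 < nsq p ∧ zt p ≠ 0} := by
    rintro a ⟨ha, ha2⟩
    rcases lt_or_ge (nsq a) 2600 with h | h
    · obtain ⟨e, he, hh⟩ := hα a ha h ha2
      obtain ⟨δ, hδ, hd⟩ := Metric.continuousAt_iff.1 (hφ.continuousAt (x := a)) e he
      obtain ⟨e', he', h'⟩ := Tal_scale ha2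
      obtain ⟨δ', hδ', hd'⟩ := Metric.continuousAt_iff.1 (zt_cont.continuousAt (x := a)) e' he'
      refine ⟨min δ δ', lt_min hδ hδ', fun x y hx hy => ?_⟩
      simp only [hT3]
      split_ifs with hc
      · rw [hh _ _ (hd (hx.trans_le (min_le_left _ _))) (hd (hy.trans_le (min_le_left _ _))),
          hφz, hφz]
        exact h' _ _ (hd' (hx.trans_le (min_le_right _ _))) (hd' (hy.trans_le (min_le_right _ _))) _ _
          (by norm_num) (by norm_num)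
      · rfl
    · obtain ⟨δ, hδ, hd⟩ := Metric.isOpen_iff.1 (isOpen_lt (continuous_const (y := (2500:ℝ))) nsq_cont) a
        (show 2500 < nsq a by linarith)
      refine ⟨δ, hδ, fun x y hx hy => ?_⟩
      simp only [hT3]
      have : 2500 < nsq x := hd hx
      rw [if_neg (fun hc => by linarith [hc.1])]
  have inner : ∀ a, nsq a < 2500 → ∃ δ > 0, ∀ x y, dist x a < δ → dist y a < δ →
      T3 x y = T (φ x) (φ y) := by
    intro a ha
    obtain ⟨δ, hδ, hd⟩ := Metric.isOpen_iff.1 (isOpen_lt nsq_cont (continuous_const (y := (2500:ℝ)))) a ha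
    refine ⟨δ, hδ, fun x y hx hy => ?_⟩
    simp only [hT3]
    exact if_pos ⟨hd hx, hd hy⟩
  have flat : GFlat T3 SSᶜ := by
    intro a ha
    rcases lt_or_ge (nsq a) 2500 with h | h
    · obtain ⟨δ, hδ, hd⟩ := inner a h
      obtain ⟨e, he, hf⟩ := hT a (by linarith) ha
      obtain ⟨δ', hδ', hd'⟩ := Metric.continuousAt_iff.1 (hφ.continuousAt (x := a)) e he
      refine ⟨min δ δ', lt_min hδ hδ', fun x y z hx hy hz => ?_⟩
      rw [hd x y (hx.trans_le (min_le_left _ _)) (hy.trans_le (min_le_left _ _)),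
        hd y z (hy.trans_le (min_le_left _ _)) (hz.trans_le (min_le_left _ _)),
        hd x z (hx.trans_le (min_le_left _ _)) (hz.trans_le (min_le_left _ _))]
      exact hf _ _ _ (hd' (hx.trans_le (min_le_right _ _))) (hd' (hy.trans_le (min_le_right _ _)))
        (hd' (hz.trans_le (min_le_right _ _)))
    · have hz : zt a ≠ 0 := by
        have : a ∉ SS := ha
        rwa [SS_far (by linarith)] at this
      exact near.flat ((Tal_flat.pull (F := zt) (R := {p : E4 | 900 < nsq p ∧ zt p ≠ 0})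
        (fun _ _ => zt_cont.continuousAt) (fun _ h => h.2))) a ⟨by linarith, hz⟩
  obtain ⟨c, hc, hc0⟩ := none4 flat (by
    intro x y
    simp only [hT3, nsq_rho4, hφr, hinv, zt_rho4, Tal_neg]) near
  refine ⟨c, fun a ha haS => ?_, hc0⟩
  obtain ⟨δ, hδ, hd⟩ := inner a ha
  obtain ⟨e, he, h⟩ := hc a haS
  refine ⟨min δ e, lt_min hδ he, fun x y hx hy => ?_⟩
  rw [h x y (hx.trans_le (min_le_right _ _)) (hy.trans_le (min_le_right _ _)),
    hd x y (hx.trans_le (min_le_left _ _)) (hy.trans_le (min_le_left _ _))]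

end Pool.Agent.H753
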