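import Pool.Agent.H753.Disc2
import Pool.Agent.H753.Glue

/-! The disc with two knotted balls. -/

set_option autoImplicit false

namespace Pool.Agent.H753

open Set Filter Topology

theorem contDiff_mk2 {X : Type*} [NormedAddCommGroup X] [NormedSpace ℝ X] {n : WithTop ℕ∞}
    {a b : X → ℝ} (ha : ContDiff ℝ n a) (hb : ContDiff ℝ n b) :
    ContDiff ℝ n (fun x => mk2 (a x) (b x)) := by
  rw [contDiff_piLp]
  intro i
  fin_cases i
  · simpa using ha
  · simpa using hb

noncomputable def qs (q : E2) : E2 := mk2 (200 * q 0) (200 * (q 1 - 1/2))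
noncomputable def qs' (q : E2) : E2 := mk2 (q 0 / 200) (q 1 / 200 + 1/2)
noncomputable def rq (q : E2) : E2 := mk2 (-q 0) (-q 1)
/-- the inclusion of the plane -/
noncomputable def io (q : E2) : E4 := mk4 (q 0) 0 0 (q 1)

theorem qs_qs' (q : E2) : qs (qs' q) = q := by
  apply E2_ext <;> simp [qs, qs'] <;> ring
theorem qs'_qs (q : E2) : qs' (qs q) = q := by
  apply E2_ext <;> simp [qs, qs']
theorem rq_rq (q : E2) : rq (rq q) = q := by
  apply E2_ext <;> simp [rq]
theorem rq_1 (q : E2) : rq q 1 = - q 1 := by simp [rq]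

theorem n2_qs (q : E2) : n2 (qs q) = 40000 * (q 0 ^ 2 + (q 1 - 1/2) ^ 2) := by
  simp [n2, qs]; ring
theorem n2_rq (q : E2) : n2 (rq q) = n2 q := by simp [n2, rq]

theorem ph_io (q : E2) : ph (io (qs q)) = io q := by
  apply E4_ext <;> simp [ph, io, qs]
theorem rp_io (q : E2) : rp (io q) = io (rq q) := by
  apply E4_ext <;> simp [rp, io, rq]
theorem nsq_io (q : E2) : nsq (io q) = n2 q := by simp [nsq, n2, io]

/-- the upper knotted ball -/
noncomputable def e1 (q : E2) : E4 := ph (s4 (qs q))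

theorem e1_far {q : E2} (h : 49 ≤ n2 (qs q)) : e1 q = io q := by
  unfold e1
  rw [s4_std (aa_far h)]
  exact ph_io q

theorem e1_inj : Function.Injective e1 := by
  intro q q' h
  have h1 := congrArg ps h
  unfold e1 at h1
  rw [ps_ph, ps_ph] at h1
  have h2 := s4_injective h1
  have := congrArg qs' h2
  rwa [qs'_qs, qs'_qs] at this

theorem e1_near {q : E2} (h : n2 (qs q) < 49) : nsq (ps (e1 q)) ≤ 1600 ∧ nsq (e1 q) < 1 ∧ n2 q < 1 ∧
    0 < q 1 ∧ 0 < (e1 q) 3 := by
  have h1 := nsq_s4_le h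
  have h2 : nsq (ps (e1 q)) ≤ 1600 := by unfold e1; rw [ps_ph]; exact h1
  refine ⟨h2, ?_, ?_, ?_, pos_of_near (by linarith)⟩
  · rw [nsq_ps] at h2
    unfold nsq
    nlinarith [sq_nonneg ((e1 q) 0), sq_nonneg ((e1 q) 1), sq_nonneg ((e1 q) 2), sq_nonneg ((e1 q) 3 - 1)]
  · rw [n2_qs] at h
    unfold n2
    nlinarith [sq_nonneg (q 0), sq_nonneg (q 1 - 1)]
  · rw [n2_qs] at h
    nlinarith [sq_nonneg (q 0)]

theorem e1_pos {q : E2} (h : 0 ≤ q 1) : 0 ≤ (e1 q) 3 := by
  rcases lt_or_ge (n2 (qs q)) 49 with h1 | h1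
  · exact (e1_near h1).2.2.2.2.le
  · rw [e1_far h1]; simpa [io] using h

theorem e1_pos' {q : E2} (h : 0 < q 1) : 0 < (e1 q) 3 := by
  rcases lt_or_ge (n2 (qs q)) 49 with h1 | h1
  · exact (e1_near h1).2.2.2.2
  · rw [e1_far h1]; simpa [io] using h

/-- the plane with two knotted balls -/
noncomputable def e2 (q : E2) : E4 := if 0 ≤ q 1 then e1 q else rp (e1 (rq q))

theorem e2_low {q : E2} (h : q 1 < 1/4) : e2 q = rp (e1 (rq q)) := by
  unfold e2
  split_ifs with h0
  · have h1 : 49 ≤ n2 (qs q) := by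
      rw [n2_qs]; nlinarith [sq_nonneg (q 0)]
    have h2 : 49 ≤ n2 (qs (rq q)) := by
      rw [n2_qs]; simp [rq]; nlinarith [sq_nonneg (q 0)]
    rw [e1_far h1, e1_far h2, rp_io, rq_rq]
  · rfl

theorem e2_up {q : E2} (h : -1/4 < q 1) : e2 q = e1 q := by
  unfold e2
  split_ifs with h0
  · rfl
  · have h0 := not_le.1 h0
    have h1 : 49 ≤ n2 (qs q) := by
      rw [n2_qs]; nlinarith [sq_nonneg (q 0)]
    have h2 : 49 ≤ n2 (qs (rq q)) := by
      rw [n2_qs]; simp [rq]; nlinarith [sq_nonneg (q 0)]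
    rw [e1_far h1, e1_far h2, rp_io, rq_rq]

theorem e2_rq (q : E2) : e2 (rq q) = rp (e2 q) := by
  rcases lt_or_ge (q 1) (1/4) with h | h
  · rw [e2_low h, rp_rp, e2_up (by rw [rq_1]; linarith)]
  · rw [e2_low (by rw [rq_1]; linarith), rq_rq, e2_up (by linarith)]

theorem e2_inj : Function.Injective e2 := by
  have key : ∀ q q' : E2, 0 ≤ q 1 → e2 q = e2 q' → q = q' := by
    intro q q' h0 h
    rcases le_or_gt 0 (q' 1) with h1 | h1
    · rw [e2_up (by linarith), e2_up (by linarith)] at h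
      exact e1_inj h
    · rw [e2_up (by linarith), e2_low (by linarith)] at h
      have a1 := e1_pos h0
      have a2 := e1_pos' (q := rq q') (by rw [rq_1]; linarith)
      rw [h] at a1
      have : rp (e1 (rq q')) 3 = - (e1 (rq q')) 3 := by simp [rp]
      rw [this] at a1
      linarith
  intro q q' h
  rcases le_or_gt 0 (q 1) with h0 | h0
  · exact key q q' h0 h
  · have := key (rq q) (rq q') (by rw [rq_1]; linarith) (by rw [e2_rq, e2_rq, h])
    have := congrArg rq this
    rwa [rq_rq, rq_rq] at this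

theorem e1_mem {q : E2} (h : 0 ≤ q 1) : e1 q ∈ DD2 := by
  refine Or.inl ⟨e1_pos h, ?_⟩
  unfold e1; rw [ps_ph]; exact s4_mem _

theorem e2_mem (q : E2) : e2 q ∈ DD2 := by
  rcases le_or_gt 0 (q 1) with h0 | h0
  · rw [e2_up (by linarith)]; exact e1_mem h0
  · rw [e2_low (by linarith), rp_mem_DD2]
    exact e1_mem (by rw [rq_1]; linarith)

theorem e2_range : range e2 = DD2 := by
  apply Subset.antisymm
  · rintro _ ⟨q, rfl⟩; exact e2_mem q
  have key : ∀ p : E4, 0 ≤ p 3 → ps p ∈ SS → p ∈ range e2 := by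
    intro p h0 h1
    rw [← s4_range] at h1
    obtain ⟨q', hq'⟩ := h1
    have e : e1 (qs' q') = p := by unfold e1; rw [qs_qs', hq', ph_ps]
    have hq1 : 0 ≤ (qs' q') 1 := by
      rcases lt_or_ge (n2 (qs (qs' q'))) 49 with h2 | h2
      · exact (e1_near h2).2.2.2.1.le
      · rw [e1_far h2] at e
        have : p 3 = (qs' q') 1 := by rw [← e]; simp [io]
        rw [← this]; exact h0
    exact ⟨qs' q', by rw [e2_up (by linarith), e]⟩
  rintro p (⟨h0, h1⟩ | ⟨h0, h1⟩)
  · exact key p h0 h1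
  · obtain ⟨q, hq⟩ := key (rp p) (by simp [rp]; exact h0) h1
    exact ⟨rq q, by rw [e2_rq, hq, rp_rp]⟩

theorem e2_far {q : E2} (h1 : 49 ≤ n2 (qs q)) (h2 : 49 ≤ n2 (qs (rq q))) : e2 q = io q := by
  rcases le_or_gt 0 (q 1) with h0 | h0
  · rw [e2_up (by linarith), e1_far h1]
  · rw [e2_low (by linarith), e1_far h2, rp_io, rq_rq]

theorem e2_near1 {q : E2} (h : n2 (qs q) < 49) : nsq (e2 q) < 1 ∧ n2 q < 1 := by
  obtain ⟨_, h2, h3, h4, _⟩ := e1_near h
  rw [e2_up (by linarith)]; exact ⟨h2, h3⟩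

theorem e2_near2 {q : E2} (h : n2 (qs (rq q)) < 49) : nsq (e2 q) < 1 ∧ n2 q < 1 := by
  have := e2_near1 h
  rwa [e2_rq, nsq_rp, n2_rq] at this

/-- comparison of the norms -/
theorem e2_norm (q : E2) : (nsq (e2 q) < 1 ∧ n2 q < 1) ∨ (e2 q = io q ∧ nsq (e2 q) = n2 q) := by
  rcases lt_or_ge (n2 (qs q)) 49 with h1 | h1
  · exact Or.inl (e2_near1 h1)
  rcases lt_or_ge (n2 (qs (rq q))) 49 with h2 | h2
  · exact Or.inl (e2_near2 h2)
  · have := e2_far h1 h2
    exact Or.inr ⟨this, by rw [this, nsq_io]⟩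

theorem e2_le (q : E2) : nsq (e2 q) ≤ 1 ↔ n2 q ≤ 1 := by
  rcases e2_norm q with h | h
  · exact ⟨fun _ => h.2.le, fun _ => h.1.le⟩
  · rw [h.2]

theorem e2_eq (q : E2) : nsq (e2 q) = 1 ↔ n2 q = 1 := by
  rcases e2_norm q with h | h
  · exact ⟨fun h' => by linarith [h.1], fun h' => by linarith [h.2]⟩
  · rw [h.2]

/-- near the unit circle `e2` is the inclusion -/
theorem e2_circle {q : E2} (h : n2 q = 1) : ∀ᶠ x in 𝓝 q, e2 x = io x := by
  have hc : Continuous n2 := (n2_contDiff (n := 0)).continuous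
  have ho : IsOpen {x : E2 | 9/16 < n2 x} := isOpen_lt continuous_const hc
  filter_upwards [ho.mem_nhds (show 9/16 < n2 q by rw [h]; norm_num)] with x hx
  have hx' : 9/16 < n2 x := hx
  unfold n2 at hx'
  apply e2_far
  · rw [n2_qs]
    nlinarith [sq_nonneg (x 0), sq_nonneg (x 1 - 5/7)]
  · rw [n2_qs]
    simp only [rq, mk2_0, mk2_1]
    nlinarith [sq_nonneg (x 0), sq_nonneg (x 1 + 5/7)]

/-! ### smoothness -/

theorem qs_contDiff {n : WithTop ℕ∞} : ContDiff ℝ n qs := by
  unfold qs; exact contDiff_mk2 (by fun_prop) (by fun_prop)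
theorem qs'_contDiff {n : WithTop ℕ∞} : ContDiff ℝ n qs' := by
  unfold qs'; exact contDiff_mk2 (by fun_prop) (by fun_prop)
theorem rq_contDiff {n : WithTop ℕ∞} : ContDiff ℝ n rq := by
  unfold rq; exact contDiff_mk2 (by fun_prop) (by fun_prop)
theorem io_contDiff {n : WithTop ℕ∞} : ContDiff ℝ n io := by
  unfold io; exact contDiff_mk4 (by fun_prop) (by fun_prop) (by fun_prop) (by fun_prop)
theorem ps_contDiff {n : WithTop ℕ∞} : ContDiff ℝ n ps := by
  unfold ps; exact contDiff_mk4 (by fun_prop) (by fun_prop) (by fun_prop) (by fun_prop)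
theorem ph_contDiff {n : WithTop ℕ∞} : ContDiff ℝ n ph := by
  unfold ph; exact contDiff_mk4 (by fun_prop) (by fun_prop) (by fun_prop) (by fun_prop)
theorem rp_contDiff {n : WithTop ℕ∞} : ContDiff ℝ n rp := by
  unfold rp; exact contDiff_mk4 (by fun_prop) (by fun_prop) (by fun_prop) (by fun_prop)

theorem e1_contDiff {n : ℕ∞} : ContDiff ℝ n e1 :=
  ph_contDiff.comp (s4_contDiff.comp qs_contDiff)

theorem e2_contDiff {n : ℕ∞} : ContDiff ℝ n e2 := by
  rw [contDiff_iff_contDiffAt]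
  intro q
  have c1 : Continuous (fun x : E2 => x 1) := by fun_prop
  rcases lt_or_ge (q 1) (1/4) with h | h
  · have : e2 =ᶠ[𝓝 q] fun x => rp (e1 (rq x)) := by
      filter_upwards [(isOpen_lt c1 continuous_const).mem_nhds h] with x hx
      exact e2_low hx
    exact ((rp_contDiff.comp (e1_contDiff.comp rq_contDiff)).contDiffAt).congr_of_eventuallyEq this
  · have : e2 =ᶠ[𝓝 q] e1 := by
      filter_upwards [(isOpen_lt continuous_const c1).mem_nhds (show -1/4 < q 1 by linarith)] with x hx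
      exact e2_up hx
    exact (e1_contDiff.contDiffAt).congr_of_eventuallyEq this

/-- maps with a differentiable left inverse are immersions -/
theorem inj_of_left_inv {X Y : Type*} [NormedAddCommGroup X] [NormedSpace ℝ X]
    [NormedAddCommGroup Y] [NormedSpace ℝ Y] {f : X → Y} {g : Y → X} (hf : Differentiable ℝ f)
    (hg : Differentiable ℝ g) (h : ∀ x, g (f x) = x) (x : X) : Function.Injective (fderiv ℝ f x) := by
  have h1 : fderiv ℝ (g ∘ f) x = (fderiv ℝ g (f x)).comp (fderiv ℝ f x) :=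
    fderiv_comp x (hg _) (hf _)
  have h2 : g ∘ f = id := funext h
  rw [h2, fderiv_id] at h1
  intro a b hab
  have e : ∀ c, (fderiv ℝ g (f x)) (fderiv ℝ f x c) = c := by
    intro c
    have := congrArg (fun L : X →L[ℝ] X => L c) h1
    simpa using this.symm
  rw [← e a, ← e b, hab]

theorem comp_immersion {X Y Z : Type*} [NormedAddCommGroup X] [NormedSpace ℝ X]
    [NormedAddCommGroup Y] [NormedSpace ℝ Y] [NormedAddCommGroup Z] [NormedSpace ℝ Z]
    {f : X → Y} {g : Y → Z} (hf : Differentiable ℝ f) (hg : Differentiable ℝ g) (x : X)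
    (h1 : Function.Injective (fderiv ℝ f x)) (h2 : Function.Injective (fderiv ℝ g (f x))) :
    Function.Injective (fderiv ℝ (fun x => g (f x)) x) := by
  have : fderiv ℝ (g ∘ f) x = (fderiv ℝ g (f x)).comp (fderiv ℝ f x) :=
    fderiv_comp x (hg _) (hf _)
  have e : (fun x => g (f x)) = g ∘ f := rfl
  rw [e, this]
  exact h2.comp h1

theorem diff_of {X Y : Type*} [NormedAddCommGroup X] [NormedSpace ℝ X]
    [NormedAddCommGroup Y] [NormedSpace ℝ Y] {f : X → Y} (h : ContDiff ℝ 1 f) : Differentiable ℝ f :=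
  h.differentiable (by norm_num)

theorem e1_immersion (q : E2) : Function.Injective (fderiv ℝ e1 q) := by
  have h1 := inj_of_left_inv (diff_of qs_contDiff) (diff_of qs'_contDiff) qs'_qs q
  have h2 := comp_immersion (diff_of qs_contDiff) (diff_of (s4_contDiff (n := 1))) q h1
    (s4_immersion _)
  have h3 := inj_of_left_inv (diff_of ph_contDiff) (diff_of ps_contDiff) ps_ph
  exact comp_immersion (f := fun x => s4 (qs x))
    ((diff_of (s4_contDiff (n := 1))).comp (diff_of qs_contDiff)) (diff_of ph_contDiff) q h2 (h3 _)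

theorem e2_immersion (q : E2) : Function.Injective (fderiv ℝ e2 q) := by
  have c1 : Continuous (fun x : E2 => x 1) := by fun_prop
  rcases lt_or_ge (q 1) (1/4) with h | h
  · have : e2 =ᶠ[𝓝 q] fun x => rp (e1 (rq x)) := by
      filter_upwards [(isOpen_lt c1 continuous_const).mem_nhds h] with x hx
      exact e2_low hx
    rw [this.fderiv_eq]
    have h1 := inj_of_left_inv (diff_of rq_contDiff) (diff_of rq_contDiff) rq_rq q
    have h2 := comp_immersion (diff_of rq_contDiff) (diff_of (e1_contDiff (n := 1))) q h1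
      (e1_immersion _)
    have h3 := inj_of_left_inv (diff_of rp_contDiff) (diff_of rp_contDiff) rp_rp
    exact comp_immersion (f := fun x => e1 (rq x))
      ((diff_of (e1_contDiff (n := 1))).comp (diff_of rq_contDiff)) (diff_of rp_contDiff) q h2 (h3 _)
  · have : e2 =ᶠ[𝓝 q] e1 := by
      filter_upwards [(isOpen_lt continuous_const c1).mem_nhds (show -1/4 < q 1 by linarith)] with x hx
      exact e2_up hx
    rw [this.fderiv_eq]
    exact e1_immersion q

end Pool.Agent.H753
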