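import Pool.Agent.H753.Region

/-! A nontrivial flat function on the complement of the long figure eight knot which is equal to
the model near the origin. -/

set_option autoImplicit false

namespace Pool.Agent.H753

open Set Filter Topology Pool.Agent.Helper60.AS

def zA (p : R3) : Prop := -4 < p.1 ∧ p.1 < -7/4 ∧ p.2.2 < kk p.1
def zB (p : R3) : Prop := -7/4 < p.1 ∧ p.1 < 0 ∧ kk p.1 < p.2.2
def zC (p : R3) : Prop := 0 < p.1 ∧ p.1 < 7/4 ∧ p.2.2 < -kk (-p.1)
def zD (p : R3) : Prop := 7/4 < p.1 ∧ p.1 < 4 ∧ -kk (-p.1) < p.2.2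

open Classical in
noncomputable def sA (p : R3) : Aff := if ff p.1 < p.2.1 then 1 else JA
open Classical in
noncomputable def sB (p : R3) : Aff := if ff p.1 < p.2.1 then 1 else JB
open Classical in
noncomputable def sC (p : R3) : Aff := if -ff (-p.1) < p.2.1 then 1 else JC
open Classical in
noncomputable def sD (p : R3) : Aff := if -ff (-p.1) < p.2.1 then 1 else JD

open Classical in
noncomputable def cut (z : R3 → Prop) (s : R3 → Aff) (p q : R3) : Aff :=
  if z p ∧ z q then (s p)⁻¹ * s q else 1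

open Classical in
noncomputable def MM (p q : R3) : Aff :=
  if (p.1 < -7/4 ∨ (0 < p.1 ∧ p.1 < 7/4)) then Er p.1 p.2.1 else Er q.1 q.2.1

/-- the flat function -/
noncomputable def Tt (p q : R3) : Aff :=
  if up p.2 then (if up q.2 then cut zA sA p q * cut zC sC p q else MM p q)
  else (if up q.2 then (MM q p)⁻¹ else cut zB sB p q * cut zD sD p q)

theorem cut_same {z : R3 → Prop} {s : R3 → Aff} {p q : R3} (h : s p = s q) : cut z s p q = 1 := by
  unfold cut; split_ifs
  · rw [h]; group
  · rfl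

theorem cut_out {z : R3 → Prop} {s : R3 → Aff} {p q : R3} (h : ¬ z p) : cut z s p q = 1 := by
  unfold cut; rw [if_neg]; tauto

theorem cut_in {z : R3 → Prop} {s : R3 → Aff} {p q : R3} (h : z p) (h' : z q) :
    cut z s p q = (s p)⁻¹ * s q := by
  unfold cut; rw [if_pos ⟨h, h'⟩]

theorem flat_of_ev {T : R3 → R3 → Aff} {a : R3} {P : R3 → Prop} (ψ : R3 → Aff)
    (hP : ∀ᶠ p in 𝓝 a, P p) (h : ∀ p q, P p → P q → T p q = (ψ p)⁻¹ * ψ q) : GFlatAt T a := by
  obtain ⟨ε, hε, hb⟩ := Metric.eventually_nhds_iff.1 hP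
  exact flat_of_prim ⟨ψ, ε, hε, fun x y hx hy => h x y (hb hx) (hb hy)⟩

theorem side_A {a : R3} (h : a.2.1 ≠ ff a.1) : ∀ᶠ p in 𝓝 a, sA p = sA a ∧ sB p = sB a := by
  rcases lt_or_gt_of_ne h with g | g
  · filter_upwards [ev_lt cont2 contf g] with p hp
    unfold sA sB
    simp [not_lt.2 hp.le, not_lt.2 g.le]
  · filter_upwards [ev_lt contf cont2 g] with p hp
    unfold sA sB
    simp [hp, g]

theorem side_C {a : R3} (h : a.2.1 ≠ -ff (-a.1)) : ∀ᶠ p in 𝓝 a, sC p = sC a ∧ sD p = sD a := by
  rcases lt_or_gt_of_ne h with g | g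
  · filter_upwards [ev_lt cont2 contf' g] with p hp
    unfold sC sD
    simp [not_lt.2 hp.le, not_lt.2 g.le]
  · filter_upwards [ev_lt contf' cont2 g] with p hp
    unfold sC sD
    simp [hp, g]

theorem kk_nonpos {x : ℝ} (h : x ≤ -4 ∨ -7/4 ≤ x) : kk x ≤ 0 := by
  rcases h with h | h
  · rw [kk_zero_left h]
  · rcases h.eq_or_lt with h1 | h1
    · rw [← h1, kk_mid]
    · rcases lt_or_ge x 0 with h2 | h2
      · exact (kk_neg h1 h2).le
      · rw [kk_zero_right h2]

theorem kk_nonneg {x : ℝ} (h : x ≤ -7/4 ∨ 0 ≤ x) : 0 ≤ kk x := by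
  rcases h with h | h
  · rcases h.eq_or_lt with h1 | h1
    · rw [h1, kk_mid]
    · rcases lt_or_ge (-4) x with h2 | h2
      · exact (kk_pos h2 h1).le
      · rw [kk_zero_left h2]
  · rw [kk_zero_right h]

/-- flatness at points above the plane -/
theorem Tt_flat_pos {a : R3} (ha : a ∉ Tau) (h : 0 < a.2.2) : GFlatAt Tt a := by
  have hup : ∀ᶠ p : R3 in 𝓝 a, up p.2 := by
    filter_upwards [ev_lt continuous_const cont3 h] with p hp
    exact Or.inl hp
  rcases lt_or_ge a.1 0 with hx | hx
  · have hC : ∀ᶠ p : R3 in 𝓝 a, ¬ zC p := by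
      filter_upwards [ev_lt cont1 continuous_const hx] with p hp
      rintro ⟨hc, _⟩; linarith
    by_cases hy : a.2.1 = ff a.1
    · by_cases hz : zA a
      · -- under the arc
        refine flat_of_ev (P := fun p => up p.2 ∧ ¬ zC p ∧ zA p) sA ?_ ?_
        · filter_upwards [hup, hC, ev_lt continuous_const cont1 hz.1, ev_lt cont1 continuous_const hz.2.1,
            ev_lt cont3 contk hz.2.2] with p p1 p2 p3 p4 p5
          exact ⟨p1, p2, p3, p4, p5⟩
        · rintro p q ⟨p1, p2, p3⟩ ⟨q1, q2, q3⟩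
          unfold Tt
          rw [if_pos p1, if_pos q1, cut_out p2, cut_in p3 q3, mul_one]
      · have hk : kk a.1 < a.2.2 := by
          by_contra hc
          push Not at hc
          rcases hc.eq_or_lt with hc | hc
          · exact ha (Or.inl ⟨by linarith, hy, hc⟩)
          · by_cases h1 : -4 < a.1 ∧ a.1 < -7/4
            · exact hz ⟨h1.1, h1.2, hc⟩
            · have := kk_nonpos (x := a.1) (by
                by_cases h2 : a.1 ≤ -4
                · exact Or.inl h2
                · right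
                  by_contra h3
                  exact h1 ⟨not_le.1 h2, not_le.1 h3⟩)
              linarith
        refine flat_of_ev (P := fun p => up p.2 ∧ ¬ zC p ∧ ¬ zA p) (fun _ => 1) ?_ ?_
        · filter_upwards [hup, hC, ev_lt contk cont3 hk] with p p1 p2 p3
          exact ⟨p1, p2, fun hc => by linarith [hc.2.2]⟩
        · rintro p q ⟨p1, p2, p3⟩ ⟨q1, q2, q3⟩
          unfold Tt
          rw [if_pos p1, if_pos q1, cut_out p2, cut_out p3]; simp
    · refine flat_of_ev (P := fun p => up p.2 ∧ ¬ zC p ∧ sA p = sA a) (fun _ => 1) ?_ ?_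
      · filter_upwards [hup, hC, side_A hy] with p p1 p2 p3
        exact ⟨p1, p2, p3.1⟩
      · rintro p q ⟨p1, p2, p3⟩ ⟨q1, q2, q3⟩
        unfold Tt
        rw [if_pos p1, if_pos q1, cut_out p2, cut_same (p3.trans q3.symm)]; simp
  · have hA : ∀ᶠ p : R3 in 𝓝 a, ¬ zA p := by
      filter_upwards [ev_lt (continuous_const (y := (-7/4:ℝ))) cont1 (a := a) (by linarith)] with p hp
      rintro ⟨_, hc, _⟩; linarith
    by_cases hy : a.2.1 = -ff (-a.1)
    · by_cases hz : zC a
      · refine flat_of_ev (P := fun p => up p.2 ∧ ¬ zA p ∧ zC p) sC ?_ ?_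
        · filter_upwards [hup, hA, ev_lt continuous_const cont1 hz.1, ev_lt cont1 continuous_const hz.2.1,
            ev_lt cont3 contk' hz.2.2] with p p1 p2 p3 p4 p5
          exact ⟨p1, p2, p3, p4, p5⟩
        · rintro p q ⟨p1, p2, p3⟩ ⟨q1, q2, q3⟩
          unfold Tt
          rw [if_pos p1, if_pos q1, cut_out p2, cut_in p3 q3, one_mul]
      · have hk : -kk (-a.1) < a.2.2 := by
          by_contra hc
          push Not at hc
          rcases hc.eq_or_lt with hc | hc
          · refine ha (Or.inr (Or.inr (Or.inl ⟨?_, ?_, ?_⟩)))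
            · show -a.1 ≤ 3; linarith
            · show -a.2.1 = ff (-a.1); linarith
            · show -a.2.2 = kk (-a.1); linarith
          · by_cases h1 : 0 < a.1 ∧ a.1 < 7/4
            · exact hz ⟨h1.1, h1.2, hc⟩
            · have := kk_nonneg (x := -a.1) (by
                by_cases h2 : a.1 ≤ 0
                · right; linarith
                · left
                  by_contra h3
                  exact h1 ⟨not_le.1 h2, by linarith⟩)
              linarith
        refine flat_of_ev (P := fun p => up p.2 ∧ ¬ zA p ∧ ¬ zC p) (fun _ => 1) ?_ ?_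
        · filter_upwards [hup, hA, ev_lt contk' cont3 hk] with p p1 p2 p3
          exact ⟨p1, p2, fun hc => by linarith [hc.2.2]⟩
        · rintro p q ⟨p1, p2, p3⟩ ⟨q1, q2, q3⟩
          unfold Tt
          rw [if_pos p1, if_pos q1, cut_out p2, cut_out p3]; simp
    · refine flat_of_ev (P := fun p => up p.2 ∧ ¬ zA p ∧ sC p = sC a) (fun _ => 1) ?_ ?_
      · filter_upwards [hup, hA, side_C hy] with p p1 p2 p3
        exact ⟨p1, p2, p3.1⟩
      · rintro p q ⟨p1, p2, p3⟩ ⟨q1, q2, q3⟩
        unfold Tt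
        rw [if_pos p1, if_pos q1, cut_out p2, cut_same (p3.trans q3.symm)]; simp

/-- flatness at points below the plane -/
theorem Tt_flat_neg {a : R3} (ha : a ∉ Tau) (h : a.2.2 < 0) : GFlatAt Tt a := by
  have hup : ∀ᶠ p : R3 in 𝓝 a, ¬ up p.2 := by
    filter_upwards [ev_lt cont3 continuous_const h] with p hp
    rintro (hc | ⟨hc, _⟩) <;> linarith
  rcases lt_or_ge a.1 (7/4) with hx | hx
  · have hD : ∀ᶠ p : R3 in 𝓝 a, ¬ zD p := by
      filter_upwards [ev_lt cont1 continuous_const hx] with p hp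
      rintro ⟨hc, _⟩; linarith
    by_cases hy : a.2.1 = ff a.1
    · by_cases hz : zB a
      · refine flat_of_ev (P := fun p => ¬ up p.2 ∧ ¬ zD p ∧ zB p) sB ?_ ?_
        · filter_upwards [hup, hD, ev_lt continuous_const cont1 hz.1, ev_lt cont1 continuous_const hz.2.1,
            ev_lt contk cont3 hz.2.2] with p p1 p2 p3 p4 p5
          exact ⟨p1, p2, p3, p4, p5⟩
        · rintro p q ⟨p1, p2, p3⟩ ⟨q1, q2, q3⟩
          unfold Tt
          rw [if_neg p1, if_neg q1, cut_out p2, cut_in p3 q3, mul_one]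
      · have hk : a.2.2 < kk a.1 := by
          by_contra hc
          push Not at hc
          rcases hc.eq_or_lt with hc | hc
          · exact ha (Or.inl ⟨by linarith, hy, hc.symm⟩)
          · by_cases h1 : -7/4 < a.1 ∧ a.1 < 0
            · exact hz ⟨h1.1, h1.2, hc⟩
            · have := kk_nonneg (x := a.1) (by
                by_cases h2 : a.1 ≤ -7/4
                · exact Or.inl h2
                · right
                  by_contra h3
                  exact h1 ⟨not_le.1 h2, not_le.1 h3⟩)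
              linarith
        refine flat_of_ev (P := fun p => ¬ up p.2 ∧ ¬ zD p ∧ ¬ zB p) (fun _ => 1) ?_ ?_
        · filter_upwards [hup, hD, ev_lt cont3 contk hk] with p p1 p2 p3
          exact ⟨p1, p2, fun hc => by linarith [hc.2.2]⟩
        · rintro p q ⟨p1, p2, p3⟩ ⟨q1, q2, q3⟩
          unfold Tt
          rw [if_neg p1, if_neg q1, cut_out p2, cut_out p3]; simp
    · refine flat_of_ev (P := fun p => ¬ up p.2 ∧ ¬ zD p ∧ sB p = sB a) (fun _ => 1) ?_ ?_
      · filter_upwards [hup, hD, side_A hy] with p p1 p2 p3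
        exact ⟨p1, p2, p3.2⟩
      · rintro p q ⟨p1, p2, p3⟩ ⟨q1, q2, q3⟩
        unfold Tt
        rw [if_neg p1, if_neg q1, cut_out p2, cut_same (p3.trans q3.symm)]; simp
  · have hB : ∀ᶠ p : R3 in 𝓝 a, ¬ zB p := by
      filter_upwards [ev_lt (continuous_const (y := (0:ℝ))) cont1 (a := a) (by linarith)] with p hp
      rintro ⟨_, hc, _⟩; linarith
    by_cases hy : a.2.1 = -ff (-a.1)
    · by_cases hz : zD a
      · refine flat_of_ev (P := fun p => ¬ up p.2 ∧ ¬ zB p ∧ zD p) sD ?_ ?_
        · filter_upwards [hup, hB, ev_lt continuous_const cont1 hz.1, ev_lt cont1 continuous_const hz.2.1,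
            ev_lt contk' cont3 hz.2.2] with p p1 p2 p3 p4 p5
          exact ⟨p1, p2, p3, p4, p5⟩
        · rintro p q ⟨p1, p2, p3⟩ ⟨q1, q2, q3⟩
          unfold Tt
          rw [if_neg p1, if_neg q1, cut_out p2, cut_in p3 q3, one_mul]
      · have hk : a.2.2 < -kk (-a.1) := by
          by_contra hc
          push Not at hc
          rcases hc.eq_or_lt with hc | hc
          · refine ha (Or.inr (Or.inr (Or.inl ⟨?_, ?_, ?_⟩)))
            · show -a.1 ≤ 3; linarith
            · show -a.2.1 = ff (-a.1); linarith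
            · show -a.2.2 = kk (-a.1); linarith
          · by_cases h1 : 7/4 < a.1 ∧ a.1 < 4
            · exact hz ⟨h1.1, h1.2, hc⟩
            · have := kk_nonpos (x := -a.1) (by
                by_cases h2 : a.1 ≤ 7/4
                · right; linarith
                · left
                  by_contra h3
                  exact h1 ⟨not_le.1 h2, by linarith⟩)
              linarith
        refine flat_of_ev (P := fun p => ¬ up p.2 ∧ ¬ zB p ∧ ¬ zD p) (fun _ => 1) ?_ ?_
        · filter_upwards [hup, hB, ev_lt cont3 contk' hk] with p p1 p2 p3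
          exact ⟨p1, p2, fun hc => by linarith [hc.2.2]⟩
        · rintro p q ⟨p1, p2, p3⟩ ⟨q1, q2, q3⟩
          unfold Tt
          rw [if_neg p1, if_neg q1, cut_out p2, cut_out p3]; simp
    · refine flat_of_ev (P := fun p => ¬ up p.2 ∧ ¬ zB p ∧ sD p = sD a) (fun _ => 1) ?_ ?_
      · filter_upwards [hup, hB, side_C hy] with p p1 p2 p3
        exact ⟨p1, p2, p3.2⟩
      · rintro p q ⟨p1, p2, p3⟩ ⟨q1, q2, q3⟩
        unfold Tt
        rw [if_neg p1, if_neg q1, cut_out p2, cut_same (p3.trans q3.symm)]; simp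

/-! ### planar points -/

/-- the planar points outside the knot -/
theorem planar_cases {a : R3} (ha : a ∉ Tau) (h0 : a.2.2 = 0) : OffG a.1 a.2.1 ∨
    (a.2.1 = ff a.1 ∧ -4 < a.1 ∧ a.1 < 0 ∧ a.1 ≠ -7/4 ∧ a.1 ≠ -5/2 ∧ a.1 ≠ -1) ∨
    (a.2.1 = -ff (-a.1) ∧ 0 < a.1 ∧ a.1 < 4 ∧ a.1 ≠ 7/4 ∧ a.1 ≠ 5/2 ∧ a.1 ≠ 1) := by
  have g2 : ¬ (-3 ≤ a.1 ∧ a.1 ≤ 3 ∧ a.2.1 = 0) := fun h => ha (Or.inr (Or.inl ⟨h.1, h.2.1, h.2.2, h0⟩))
  have g4 : ¬ (0 ≤ a.2.1 ∧ a.2.1 ≤ 2 ∧ a.1 = xi a.2.1) := fun h =>
    ha (Or.inr (Or.inr (Or.inr (Or.inl ⟨h0, h.1, h.2.1, h.2.2⟩))))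
  have g5 : ¬ (-2 ≤ a.2.1 ∧ a.2.1 ≤ 0 ∧ -a.1 = xi (-a.2.1)) := fun h =>
    ha (Or.inr (Or.inr (Or.inr (Or.inr ⟨by show -a.2.2 = 0; rw [h0, neg_zero],
      by show 0 ≤ -a.2.1; linarith [h.2.1], by show -a.2.1 ≤ 2; linarith [h.1], h.2.2⟩))))
  by_cases h1 : a.1 ≤ 3 ∧ a.2.1 = ff a.1
  · right; left
    have hk : kk a.1 ≠ 0 := fun hk => ha (Or.inl ⟨h1.1, h1.2, by rw [h0, hk]⟩)
    refine ⟨h1.2, ?_, ?_, ?_, ?_, ?_⟩
    · by_contra hc; exact hk (kk_zero_left (not_lt.1 hc))
    · by_contra hc; exact hk (kk_zero_right (not_lt.1 hc))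
    · intro hc; exact hk (by rw [hc, kk_mid])
    · intro hc; exact g2 ⟨by linarith, by linarith, by rw [h1.2, hc, ff_A]⟩
    · intro hc; exact g2 ⟨by linarith, by linarith, by rw [h1.2, hc, ff_B]⟩
  by_cases h2 : -3 ≤ a.1 ∧ a.2.1 = -ff (-a.1)
  · right; right
    have hk : kk (-a.1) ≠ 0 := fun hk => ha (Or.inr (Or.inr (Or.inl ⟨by show -a.1 ≤ 3; linarith [h2.1],
      by show -a.2.1 = ff (-a.1); linarith [h2.2], by show -a.2.2 = kk (-a.1); rw [h0, hk, neg_zero]⟩)))
    refine ⟨h2.2, ?_, ?_, ?_, ?_, ?_⟩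
    · by_contra hc; exact hk (kk_zero_right (by linarith [not_lt.1 hc]))
    · by_contra hc; exact hk (kk_zero_left (by linarith [not_lt.1 hc]))
    · intro hc; exact hk (by rw [hc, show -(7/4:ℝ) = -7/4 by ring, kk_mid])
    · intro hc; exact g2 ⟨by linarith, by linarith, by
        rw [h2.2, hc, show -(5/2:ℝ) = -5/2 by ring, ff_A, neg_zero]⟩
    · intro hc; exact g2 ⟨by linarith, by linarith, by rw [h2.2, hc, ff_B, neg_zero]⟩
  · left
    exact ⟨fun h e => h1 ⟨h, e⟩, fun h e => h2 ⟨h, e⟩, fun h h' e => g2 ⟨h, h', e⟩, g4, g5⟩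

theorem ev_near {a : R3} {r : ℝ} (hr : 0 < r) : ∀ᶠ p : R3 in 𝓝 a,
    |p.1 - a.1| < r ∧ |p.2.1 - a.2.1| < r ∧ |p.2.2 - a.2.2| < r := by
  filter_upwards [Metric.ball_mem_nhds a hr] with p hp
  have h := Metric.mem_ball.1 hp
  rw [Prod.dist_eq] at h
  have h2 : dist p.2 a.2 < r := lt_of_le_of_lt (le_max_right _ _) h
  rw [Prod.dist_eq] at h2
  exact ⟨lt_of_le_of_lt (le_max_left _ _) h, lt_of_le_of_lt (le_max_left _ _) h2,
    lt_of_le_of_lt (le_max_right _ _) h2⟩

/-- gap on the strand `S1`, upper arc -/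
theorem gap_A {a : R3} (h0 : a.2.2 = 0) (hx : -4 < a.1) (hx' : a.1 < -7/4) {E1 E2 : Aff}
    (hJ : JA = E1 * E2⁻¹)
    (hE : ∀ᶠ p : R3 in 𝓝 a, (ff p.1 < p.2.1 → Er p.1 p.2.1 = E1) ∧ (¬ ff p.1 < p.2.1 → Er p.1 p.2.1 = E2)) :
    GFlatAt Tt a := by
  have hk := kk_pos hx hx'
  refine flat_of_ev (P := fun p => zA p ∧ ((ff p.1 < p.2.1 → Er p.1 p.2.1 = E1) ∧
    (¬ ff p.1 < p.2.1 → Er p.1 p.2.1 = E2))) (fun p => if up p.2 then sA p else E1) ?_ ?_
  · filter_upwards [hE, ev_lt continuous_const cont1 hx, ev_lt cont1 continuous_const hx',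
      ev_lt cont3 contk (a := a) (by rw [h0]; exact hk)] with p p1 p2 p3 p4
    exact ⟨⟨p2, p3, p4⟩, p1⟩
  · have mixed : ∀ p q : R3, zA p → ((ff p.1 < p.2.1 → Er p.1 p.2.1 = E1) ∧
        (¬ ff p.1 < p.2.1 → Er p.1 p.2.1 = E2)) → MM p q = (sA p)⁻¹ * E1 := by
      intro p q hp he
      unfold MM sA
      rw [if_pos (Or.inl hp.2.1)]
      by_cases hs : ff p.1 < p.2.1
      · rw [he.1 hs, if_pos hs]; simp
      · rw [he.2 hs, if_neg hs, hJ]; group
    rintro p q ⟨p1, p2⟩ ⟨q1, q2⟩
    have pC : ¬ zC p := fun hc => by linarith [hc.1, p1.2.1]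
    have pB : ¬ zB p := fun hc => by linarith [hc.1, p1.2.1]
    have pD : ¬ zD p := fun hc => by linarith [hc.1, p1.2.1]
    unfold Tt
    by_cases up1 : up p.2 <;> by_cases up2 : up q.2
    · rw [if_pos up1, if_pos up2]
      simp only [if_pos up1, if_pos up2]
      rw [cut_in p1 q1, cut_out pC, mul_one]
    · rw [if_pos up1, if_neg up2]
      simp only [if_pos up1, if_neg up2]
      exact mixed p q p1 p2
    · rw [if_neg up1, if_pos up2]
      simp only [if_neg up1, if_pos up2]
      rw [mixed q p q1 q2]; group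
    · rw [if_neg up1, if_neg up2]
      simp only [if_neg up1, if_neg up2]
      rw [cut_out pB, cut_out pD]; group

/-- gap on the strand `S1`, lower arc -/
theorem gap_B {a : R3} (h0 : a.2.2 = 0) (hx : -7/4 < a.1) (hx' : a.1 < 0) {E1 E2 : Aff}
    (hJ : JB = E1⁻¹ * E2)
    (hE : ∀ᶠ p : R3 in 𝓝 a, (ff p.1 < p.2.1 → Er p.1 p.2.1 = E1) ∧ (¬ ff p.1 < p.2.1 → Er p.1 p.2.1 = E2)) :
    GFlatAt Tt a := by
  have hk := kk_neg hx hx'
  refine flat_of_ev (P := fun p => zB p ∧ ((ff p.1 < p.2.1 → Er p.1 p.2.1 = E1) ∧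
    (¬ ff p.1 < p.2.1 → Er p.1 p.2.1 = E2))) (fun p => if up p.2 then 1 else Er p.1 p.2.1) ?_ ?_
  · filter_upwards [hE, ev_lt continuous_const cont1 hx, ev_lt cont1 continuous_const hx',
      ev_lt contk cont3 (a := a) (by rw [h0]; exact hk)] with p p1 p2 p3 p4
    exact ⟨⟨p2, p3, p4⟩, p1⟩
  · have mixed : ∀ p q : R3, zB p → MM p q = Er q.1 q.2.1 := by
      intro p q hp
      unfold MM
      rw [if_neg]
      rintro (h | ⟨h, _⟩)
      · linarith [hp.1]
      · linarith [hp.2.1]
    have er : ∀ p : R3, ((ff p.1 < p.2.1 → Er p.1 p.2.1 = E1) ∧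
        (¬ ff p.1 < p.2.1 → Er p.1 p.2.1 = E2)) → Er p.1 p.2.1 = E1 * sB p := by
      intro p he
      unfold sB
      by_cases hs : ff p.1 < p.2.1
      · rw [he.1 hs, if_pos hs]; simp
      · rw [he.2 hs, if_neg hs, hJ]; group
    rintro p q ⟨p1, p2⟩ ⟨q1, q2⟩
    have pC : ¬ zC p := fun hc => by linarith [hc.1, p1.2.1]
    have pA : ¬ zA p := fun hc => by linarith [hc.2.1, p1.1]
    have pD : ¬ zD p := fun hc => by linarith [hc.1, p1.2.1]
    unfold Tt
    by_cases up1 : up p.2 <;> by_cases up2 : up q.2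
    · rw [if_pos up1, if_pos up2]
      simp only [if_pos up1, if_pos up2]
      rw [cut_out pA, cut_out pC]; group
    · rw [if_pos up1, if_neg up2]
      simp only [if_pos up1, if_neg up2]
      rw [mixed p q p1]; group
    · rw [if_neg up1, if_pos up2]
      simp only [if_neg up1, if_pos up2]
      rw [mixed q p q1]; group
    · rw [if_neg up1, if_neg up2]
      simp only [if_neg up1, if_neg up2]
      rw [cut_in p1 q1, cut_out pD, er p p2, er q q2]; group

/-- gap on the strand `S3`, upper arc -/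
theorem gap_C {a : R3} (h0 : a.2.2 = 0) (hx : 0 < a.1) (hx' : a.1 < 7/4) {E1 E2 : Aff}
    (hJ : JC = E1 * E2⁻¹)
    (hE : ∀ᶠ p : R3 in 𝓝 a, (-ff (-p.1) < p.2.1 → Er p.1 p.2.1 = E1) ∧ (¬ -ff (-p.1) < p.2.1 → Er p.1 p.2.1 = E2)) :
    GFlatAt Tt a := by
  have hk := kk_neg (x := -a.1) (by linarith) (by linarith)
  refine flat_of_ev (P := fun p => zC p ∧ ((-ff (-p.1) < p.2.1 → Er p.1 p.2.1 = E1) ∧
    (¬ -ff (-p.1) < p.2.1 → Er p.1 p.2.1 = E2))) (fun p => if up p.2 then sC p else E1) ?_ ?_
  · filter_upwards [hE, ev_lt continuous_const cont1 hx, ev_lt cont1 continuous_const hx',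
      ev_lt cont3 contk' (a := a) (by rw [h0]; linarith)] with p p1 p2 p3 p4
    exact ⟨⟨p2, p3, p4⟩, p1⟩
  · have mixed : ∀ p q : R3, zC p → ((-ff (-p.1) < p.2.1 → Er p.1 p.2.1 = E1) ∧
        (¬ -ff (-p.1) < p.2.1 → Er p.1 p.2.1 = E2)) → MM p q = (sC p)⁻¹ * E1 := by
      intro p q hp he
      unfold MM sC
      rw [if_pos (Or.inr ⟨hp.1, hp.2.1⟩)]
      by_cases hs : -ff (-p.1) < p.2.1
      · rw [he.1 hs, if_pos hs]; simp
      · rw [he.2 hs, if_neg hs, hJ]; group
    rintro p q ⟨p1, p2⟩ ⟨q1, q2⟩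
    have pA : ¬ zA p := fun hc => by linarith [hc.2.1, p1.1]
    have pB : ¬ zB p := fun hc => by linarith [hc.2.1, p1.1]
    have pD : ¬ zD p := fun hc => by linarith [hc.1, p1.2.1]
    unfold Tt
    by_cases up1 : up p.2 <;> by_cases up2 : up q.2
    · rw [if_pos up1, if_pos up2]
      simp only [if_pos up1, if_pos up2]
      rw [cut_in p1 q1, cut_out pA, one_mul]
    · rw [if_pos up1, if_neg up2]
      simp only [if_pos up1, if_neg up2]
      exact mixed p q p1 p2
    · rw [if_neg up1, if_pos up2]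
      simp only [if_neg up1, if_pos up2]
      rw [mixed q p q1 q2]; group
    · rw [if_neg up1, if_neg up2]
      simp only [if_neg up1, if_neg up2]
      rw [cut_out pB, cut_out pD]; group

/-- gap on the strand `S3`, lower arc -/
theorem gap_D {a : R3} (h0 : a.2.2 = 0) (hx : 7/4 < a.1) (hx' : a.1 < 4) {E1 E2 : Aff}
    (hJ : JD = E1⁻¹ * E2)
    (hE : ∀ᶠ p : R3 in 𝓝 a, (-ff (-p.1) < p.2.1 → Er p.1 p.2.1 = E1) ∧ (¬ -ff (-p.1) < p.2.1 → Er p.1 p.2.1 = E2)) :
    GFlatAt Tt a := by
  have hk := kk_pos (x := -a.1) (by linarith) (by linarith)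
  refine flat_of_ev (P := fun p => zD p ∧ ((-ff (-p.1) < p.2.1 → Er p.1 p.2.1 = E1) ∧
    (¬ -ff (-p.1) < p.2.1 → Er p.1 p.2.1 = E2))) (fun p => if up p.2 then 1 else Er p.1 p.2.1) ?_ ?_
  · filter_upwards [hE, ev_lt continuous_const cont1 hx, ev_lt cont1 continuous_const hx',
      ev_lt contk' cont3 (a := a) (by rw [h0]; linarith)] with p p1 p2 p3 p4
    exact ⟨⟨p2, p3, p4⟩, p1⟩
  · have mixed : ∀ p q : R3, zD p → MM p q = Er q.1 q.2.1 := by
      intro p q hp
      unfold MM
      rw [if_neg]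
      rintro (h | ⟨_, h⟩)
      · linarith [hp.1]
      · linarith [hp.1]
    have er : ∀ p : R3, ((-ff (-p.1) < p.2.1 → Er p.1 p.2.1 = E1) ∧
        (¬ -ff (-p.1) < p.2.1 → Er p.1 p.2.1 = E2)) → Er p.1 p.2.1 = E1 * sD p := by
      intro p he
      unfold sD
      by_cases hs : -ff (-p.1) < p.2.1
      · rw [he.1 hs, if_pos hs]; simp
      · rw [he.2 hs, if_neg hs, hJ]; group
    rintro p q ⟨p1, p2⟩ ⟨q1, q2⟩
    have pA : ¬ zA p := fun hc => by linarith [hc.2.1, p1.1]
    have pB : ¬ zB p := fun hc => by linarith [hc.2.1, p1.1]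
    have pC : ¬ zC p := fun hc => by linarith [hc.2.1, p1.1]
    unfold Tt
    by_cases up1 : up p.2 <;> by_cases up2 : up q.2
    · rw [if_pos up1, if_pos up2]
      simp only [if_pos up1, if_pos up2]
      rw [cut_out pA, cut_out pC]; group
    · rw [if_pos up1, if_neg up2]
      simp only [if_pos up1, if_neg up2]
      rw [mixed p q p1]; group
    · rw [if_neg up1, if_pos up2]
      simp only [if_neg up1, if_pos up2]
      rw [mixed q p q1]; group
    · rw [if_neg up1, if_neg up2]
      simp only [if_neg up1, if_neg up2]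
      rw [cut_in p1 q1, cut_out pB, er p p2, er q q2]; group

/-- flatness at planar points off the diagram -/
theorem Tt_flat_off {a : R3} (h0 : a.2.2 = 0) (h : OffG a.1 a.2.1) : GFlatAt Tt a := by
  have hE := Er_const h
  obtain ⟨h1, h2, h3, h4, h5⟩ := h
  have hA : ∀ᶠ p in 𝓝 a, (¬ zA p ∧ ¬ zB p) ∨ (sA p = sA a ∧ sB p = sB a) := by
    rcases le_or_gt a.1 3 with hx | hx
    · filter_upwards [side_A (h1 hx)] with p hp
      exact Or.inr hp
    · filter_upwards [ev_lt continuous_const cont1 hx] with p hp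
      left
      exact ⟨fun hc => by linarith [hc.2.1], fun hc => by linarith [hc.2.1]⟩
  have hC : ∀ᶠ p in 𝓝 a, (¬ zC p ∧ ¬ zD p) ∨ (sC p = sC a ∧ sD p = sD a) := by
    rcases le_or_gt (-3) a.1 with hx | hx
    · filter_upwards [side_C (h2 hx)] with p hp
      exact Or.inr hp
    · filter_upwards [ev_lt cont1 continuous_const hx] with p hp
      left
      exact ⟨fun hc => by linarith [hc.1], fun hc => by linarith [hc.1]⟩
  have cutc : ∀ (z : R3 → Prop) (s : R3 → Aff) (p q : R3), (¬ z p ∨ s p = s a) → (¬ z q ∨ s q = s a) →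
      cut z s p q = 1 := by
    intro z s p q hp hq
    rcases hp with hp | hp
    · exact cut_out hp
    · rcases hq with hq | hq
      · unfold cut; rw [if_neg]; tauto
      · exact cut_same (hp.trans hq.symm)
  refine flat_of_ev (P := fun p => ((¬ zA p ∧ ¬ zB p) ∨ (sA p = sA a ∧ sB p = sB a)) ∧
    ((¬ zC p ∧ ¬ zD p) ∨ (sC p = sC a ∧ sD p = sD a)) ∧ Er p.1 p.2.1 = Er a.1 a.2.1)
    (fun p => if up p.2 then 1 else Er a.1 a.2.1) ?_ ?_
  · filter_upwards [hA, hC, hE] with p p1 p2 p3
    exact ⟨p1, p2, p3⟩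
  · rintro p q ⟨p1, p2, p3⟩ ⟨q1, q2, q3⟩
    have cA : cut zA sA p q = 1 := cutc _ _ _ _ (p1.imp (fun h => h.1) (fun h => h.1))
      (q1.imp (fun h => h.1) (fun h => h.1))
    have cB : cut zB sB p q = 1 := cutc _ _ _ _ (p1.imp (fun h => h.2) (fun h => h.2))
      (q1.imp (fun h => h.2) (fun h => h.2))
    have cC : cut zC sC p q = 1 := cutc _ _ _ _ (p2.imp (fun h => h.1) (fun h => h.1))
      (q2.imp (fun h => h.1) (fun h => h.1))
    have cD : cut zD sD p q = 1 := cutc _ _ _ _ (p2.imp (fun h => h.2) (fun h => h.2))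
      (q2.imp (fun h => h.2) (fun h => h.2))
    have m1 : MM p q = Er a.1 a.2.1 := by unfold MM; split_ifs <;> assumption
    have m2 : MM q p = Er a.1 a.2.1 := by unfold MM; split_ifs <;> assumption
    unfold Tt
    rw [cA, cB, cC, cD, m1, m2]
    by_cases up1 : up p.2 <;> by_cases up2 : up q.2 <;> simp [up1, up2]

theorem Tt_flat : GFlat Tt Tauᶜ := by
  intro a ha
  rcases lt_trichotomy a.2.2 0 with h | h | h
  · exact Tt_flat_neg ha h
  · rcases planar_cases ha h with hc | ⟨hy, x1, x2, x3, x4, x5⟩ | ⟨hy, x1, x2, x3, x4, x5⟩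
    · exact Tt_flat_off h hc
    · rcases lt_or_gt_of_ne x3 with x6 | x6
      · rcases lt_or_gt_of_ne x4 with x7 | x7
        · -- left of `A`
          have hf := ff_pos1 (x := a.1) (by linarith) x7
          refine gap_A h x1 x6 (E1 := Ea) (E2 := Ea') rfl ?_
          filter_upwards [ev_lt cont1 continuous_const x7, ev_lt continuous_const cont2 (a := a)
            (by rw [hy]; exact hf)] with p p1 p2
          rw [Er_L _ p1]
          refine ⟨fun hc => by rw [if_pos hc], fun hc => ?_⟩
          rw [if_neg hc, if_neg]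
          rintro ⟨_, hc', _⟩; linarith
        · -- right of `A`
          refine gap_A h x1 x6 (E1 := Ed) (E2 := Ec) relA ?_
          have hf := ff_neg x7 (by linarith)
          have hf2 := ff_ge (x := a.1) (by linarith)
          filter_upwards [ev_lt cont1 continuous_const x6, ev_lt continuous_const cont1 x7,
            ev_lt cont2 continuous_const (a := a) (by rw [hy]; exact hf),
            ev_lt (continuous_const (y := (-2:ℝ))) cont2 (a := a) (by rw [hy]; linarith)] with p p1 p2 p3 p4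
          rw [Er_M _ (by linarith) (by linarith)]
          refine ⟨fun hc => by rw [if_pos hc, if_neg (by linarith)], fun hc => ?_⟩
          rw [if_neg hc, if_pos (by rw [ff_eq_two (by linarith) (by linarith)]; linarith),
            if_neg (by linarith), if_neg (by linarith)]
      · rcases lt_or_gt_of_ne x5 with x7 | x7
        · -- left of `B`
          refine gap_B h x6 x2 (E1 := Ed) (E2 := Ec) relB ?_
          have hf := ff_neg (x := a.1) (by linarith) x7
          have hf2 := ff_ge (x := a.1) (by linarith)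
          filter_upwards [ev_lt cont1 continuous_const x7, ev_lt continuous_const cont1 x6,
            ev_lt cont2 continuous_const (a := a) (by rw [hy]; exact hf),
            ev_lt (continuous_const (y := (-2:ℝ))) cont2 (a := a) (by rw [hy]; linarith)] with p p1 p2 p3 p4
          rw [Er_M _ (by linarith) (by linarith)]
          refine ⟨fun hc => by rw [if_pos hc, if_neg (by linarith)], fun hc => ?_⟩
          rw [if_neg hc, if_pos (by rw [ff_eq_two (by linarith) (by linarith)]; linarith),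
            if_neg (by linarith), if_neg (by linarith)]
        · -- right of `B`
          refine gap_B h x6 x2 (E1 := Ea) (E2 := Ee) rfl ?_
          have hf := ff_pos2 (x := a.1) x7 (by linarith)
          filter_upwards [ev_lt continuous_const cont1 x7, ev_lt cont1 continuous_const x2,
            ev_lt continuous_const cont2 (a := a) (by rw [hy]; exact hf)] with p p1 p2 p3
          rw [Er_M _ (by linarith) (by linarith)]
          refine ⟨fun hc => by rw [if_pos hc, if_pos p3], fun hc => ?_⟩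
          have h9 := ff_pos2 (x := -p.1) (by linarith) (by linarith)
          rw [if_neg hc, if_pos (by linarith), if_pos p3, if_neg (by linarith)]
    · rcases lt_or_gt_of_ne x3 with x6 | x6
      · rcases lt_or_gt_of_ne x5 with x7 | x7
        · -- left of `C`
          refine gap_C h x1 x6 (E1 := Ec) (E2 := Ea') rfl ?_
          have hf := ff_pos2 (x := -a.1) (by linarith) (by linarith)
          filter_upwards [ev_lt continuous_const cont1 x1, ev_lt cont1 continuous_const x7,
            ev_lt cont2 continuous_const (a := a) (g := fun _ => (0:ℝ)) (by rw [hy]; linarith)] with p p1 p2 p3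
          rw [Er_M _ (by linarith) (by linarith)]
          have h9 := ff_pos2 (x := p.1) (by linarith) (by linarith)
          refine ⟨fun hc => ?_, fun hc => ?_⟩
          · rw [if_neg (by linarith), if_pos hc, if_neg (by linarith), if_neg (by linarith)]
          · rw [if_neg (by linarith), if_neg hc, if_neg (by linarith)]
        · -- right of `C`
          refine gap_C h x1 x6 (E1 := Ee) (E2 := Ed') relC ?_
          have hf := ff_neg (x := -a.1) (by linarith) (by linarith)
          have hf2 := ff_ge (x := -a.1) (by linarith)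
          filter_upwards [ev_lt cont1 continuous_const x6, ev_lt continuous_const cont1 x7,
            ev_lt continuous_const cont2 (a := a) (f := fun _ => (0:ℝ)) (by rw [hy]; linarith),
            ev_lt cont2 (continuous_const (y := (2:ℝ))) (a := a) (by rw [hy]; linarith)] with p p1 p2 p3 p4
          rw [Er_M _ (by linarith) (by linarith)]
          have h9 := ff_eq_two (x := p.1) (by linarith) (by linarith)
          refine ⟨fun hc => ?_, fun hc => ?_⟩
          · rw [if_neg (by linarith), if_pos hc, if_pos p3, if_neg (by linarith)]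
          · rw [if_neg (by linarith), if_neg hc, if_pos p3]
      · rcases lt_or_gt_of_ne x4 with x7 | x7
        · -- left of `D`
          refine gap_D h x6 x2 (E1 := Ee) (E2 := Ed') relD ?_
          have hf := ff_neg (x := -a.1) (by linarith) (by linarith)
          have hf2 := ff_ge (x := -a.1) (by linarith)
          filter_upwards [ev_lt cont1 continuous_const x7, ev_lt continuous_const cont1 x6,
            ev_lt continuous_const cont2 (a := a) (f := fun _ => (0:ℝ)) (by rw [hy]; linarith),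
            ev_lt cont2 (continuous_const (y := (2:ℝ))) (a := a) (by rw [hy]; linarith)] with p p1 p2 p3 p4
          rw [Er_M _ (by linarith) (by linarith)]
          have h9 := ff_eq_two (x := p.1) (by linarith) (by linarith)
          refine ⟨fun hc => ?_, fun hc => ?_⟩
          · rw [if_neg (by linarith), if_pos hc, if_pos p3, if_neg (by linarith)]
          · rw [if_neg (by linarith), if_neg hc, if_pos p3]
        · -- right of `D`
          refine gap_D h x6 x2 (E1 := Ea) (E2 := Ea') rfl ?_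
          have hf := ff_pos1 (x := -a.1) (by linarith) (by linarith)
          filter_upwards [ev_lt continuous_const cont1 x7,
            ev_lt cont2 continuous_const (a := a) (g := fun _ => (0:ℝ)) (by rw [hy]; linarith)] with p p1 p2
          rw [Er_R _ p1]
          refine ⟨fun hc => ?_, fun hc => ?_⟩
          · rw [if_neg (by rintro ⟨hc', _⟩; linarith), if_pos hc]
          · rw [if_neg (by rintro ⟨hc', _⟩; linarith), if_neg hc]
  · exact Tt_flat_pos ha h

end Pool.Agent.H753
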