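import Pool.Agent.H753.Exist3

/-! The flat function `Tt` is the model near the origin and is not trivial. -/

set_option autoImplicit false

namespace Pool.Agent.H753

open Set Filter Topology Pool.Agent.Helper60.AS

/-- the region near the origin outside the axis -/
def Zr (r : ℝ) : Set R3 := {a | nq a < r ∧ a.2 ≠ 0}

theorem nq_cont : Continuous nq := by unfold nq; fun_prop

theorem Er_origin {x y : ℝ} (hx : |x| < 1/2) (hy : |y| < 1/2) : Er x y = if 0 < y then al else al⁻¹ := by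
  have h1 := abs_lt.1 hx
  have h2 := abs_lt.1 hy
  have f1 := ff_ge_one (x := x) (by linarith) (by linarith)
  have f2 := ff_ge_one (x := -x) (by linarith) (by linarith)
  rw [Er_M _ (by linarith) (by linarith), if_neg (by linarith), if_pos (by linarith)]
  by_cases hy0 : 0 < y
  · rw [if_pos hy0, if_pos hy0, if_neg (by linarith)]; rfl
  · rw [if_neg hy0, if_neg hy0, if_neg (by linarith)]; rfl

theorem nq_bounds {a : R3} (h : nq a < 1/4) : |a.1| < 1/2 ∧ |a.2.1| < 1/2 ∧ |a.2.2| < 1/2 := by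
  unfold nq at h
  have g1 := sq_nonneg a.1
  have g2 := sq_nonneg a.2.1
  have g3 := sq_nonneg a.2.2
  refine ⟨abs_lt.2 ⟨by nlinarith, by nlinarith⟩, abs_lt.2 ⟨by nlinarith, by nlinarith⟩,
    abs_lt.2 ⟨by nlinarith, by nlinarith⟩⟩

theorem Tt_near : EqNear Tt (fun p q => Tal p.2 q.2) (Zr (1/4)) := by
  rintro a ⟨ha, ha2⟩
  obtain ⟨ε, hε, hT⟩ := Tal_loc ha2
  have e1 : ∀ᶠ p : R3 in 𝓝 a, nq p < 1/4 := ev_lt nq_cont continuous_const ha
  have e2 : ∀ᶠ p : R3 in 𝓝 a, dist p.2 a.2 < ε :=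
    (continuous_snd (X := ℝ) (Y := ℝ × ℝ)).continuousAt.eventually (Metric.ball_mem_nhds _ hε)
  -- same label up or down, or same sign of `y`
  have e3 : (∀ᶠ p : R3 in 𝓝 a, (0 < p.2.1 ↔ 0 < a.2.1)) ∨ (∀ᶠ p : R3 in 𝓝 a, (up p.2 ↔ up a.2)) := by
    by_cases hy : a.2.1 = 0
    · right
      have hh : a.2.2 ≠ 0 := fun h => ha2 (Prod.ext hy h)
      rcases lt_or_gt_of_ne hh with g | g
      · filter_upwards [ev_lt cont3 continuous_const g] with p hp
        unfold up
        constructor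
        · rintro (h | ⟨h, _⟩) <;> linarith
        · rintro (h | ⟨h, _⟩) <;> linarith
      · filter_upwards [ev_lt continuous_const cont3 g] with p hp
        exact ⟨fun _ => Or.inl g, fun _ => Or.inl hp⟩
    · left
      rcases lt_or_gt_of_ne hy with g | g
      · filter_upwards [ev_lt cont2 continuous_const g] with p hp
        constructor <;> intro h <;> linarith
      · filter_upwards [ev_lt continuous_const cont2 g] with p hp
        exact ⟨fun _ => g, fun _ => hp⟩
  have fin : ∃ P : R3 → Prop, (∀ᶠ p in 𝓝 a, P p) ∧ ∀ p q, P p → P q →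
      Tt p q = Tal p.2 q.2 := by
    have base : ∀ p q : R3, nq p < 1/4 → nq q < 1/4 → dist p.2 a.2 < ε → dist q.2 a.2 < ε →
        ((0 < p.2.1 ↔ 0 < a.2.1) ∧ (0 < q.2.1 ↔ 0 < a.2.1)) ∨ (up p.2 ↔ up q.2) →
        Tt p q = Tal p.2 q.2 := by
      intro p q hp hq hp2 hq2 hcase
      have hl := (hT p.2 q.2 hp2 hq2 1 1 one_pos one_pos).2.2
      rw [one_smul, one_smul] at hl
      rw [hl]
      obtain ⟨b1, b2, b3⟩ := nq_bounds hp
      obtain ⟨c1, c2, c3⟩ := nq_bounds hq
      have sd : ∀ r : R3, |r.1| < 1/2 → |r.2.1| < 1/2 → sA r = JA ∧ sB r = JB ∧ sC r = 1 ∧ sD r = 1 := by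
        intro r h1 h2
        have h1 := abs_lt.1 h1
        have h2 := abs_lt.1 h2
        have f1 := ff_ge_one (x := r.1) (by linarith) (by linarith)
        have f2 := ff_ge_one (x := -r.1) (by linarith) (by linarith)
        unfold sA sB sC sD
        refine ⟨if_neg (by linarith), if_neg (by linarith), if_pos (by linarith), if_pos (by linarith)⟩
      obtain ⟨s1, s2, s3, s4⟩ := sd p b1 b2
      obtain ⟨t1, t2, t3, t4⟩ := sd q c1 c2
      unfold Tt
      rw [cut_same (s1.trans t1.symm), cut_same (s2.trans t2.symm), cut_same (s3.trans t3.symm),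
        cut_same (s4.trans t4.symm)]
      rcases hcase with ⟨k1, k2⟩ | k
      · have m : ∀ r r' : R3, Er r.1 r.2.1 = (if 0 < a.2.1 then al else al⁻¹) →
            Er r'.1 r'.2.1 = (if 0 < a.2.1 then al else al⁻¹) → MM r r' = if 0 < a.2.1 then al else al⁻¹ := by
          intro r r' h1 h2
          unfold MM
          rw [h1, h2, ite_self]
        have m1 : Er p.1 p.2.1 = (if 0 < a.2.1 then al else al⁻¹) := by
          rw [Er_origin b1 b2]; simp only [k1]
        have m2 : Er q.1 q.2.1 = (if 0 < a.2.1 then al else al⁻¹) := by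
          rw [Er_origin c1 c2]; simp only [k2]
        rw [m p q m1 m2, m q p m2 m1]
        by_cases up1 : up p.2 <;> by_cases up2 : up q.2
        · simp [up1, up2]
        · simp [up1, up2]
        · simp [up1, up2]
        · rw [if_neg up1, if_neg up2, if_neg up1, if_neg up2]; group
      · by_cases up1 : up p.2
        · have up2 := k.1 up1
          simp [up1, up2]
        · have up2 : ¬ up q.2 := fun h => up1 (k.2 h)
          rw [if_neg up1, if_neg up2, if_neg up1, if_neg up2]; group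
    rcases e3 with e3 | e3
    · refine ⟨fun p => nq p < 1/4 ∧ dist p.2 a.2 < ε ∧ (0 < p.2.1 ↔ 0 < a.2.1), ?_, ?_⟩
      · filter_upwards [e1, e2, e3] with p p1 p2 p3
        exact ⟨p1, p2, p3⟩
      · rintro p q ⟨p1, p2, p3⟩ ⟨q1, q2, q3⟩
        exact base p q p1 q1 p2 q2 (Or.inl ⟨p3, q3⟩)
    · refine ⟨fun p => nq p < 1/4 ∧ dist p.2 a.2 < ε ∧ (up p.2 ↔ up a.2), ?_, ?_⟩
      · filter_upwards [e1, e2, e3] with p p1 p2 p3
        exact ⟨p1, p2, p3⟩
      · rintro p q ⟨p1, p2, p3⟩ ⟨q1, q2, q3⟩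
        exact base p q p1 q1 p2 q2 (Or.inr (p3.trans q3.symm))
  obtain ⟨P, hP, h⟩ := fin
  obtain ⟨δ, hδ, hb⟩ := Metric.eventually_nhds_iff.1 hP
  exact ⟨δ, hδ, fun x y hx hy => h x y (hb hx) (hb hy)⟩

/-- a section is constant along a segment on which the flat function is `1` -/
theorem sec_const {c : R3 → ZMod 5} {T : R3 → R3 → Aff} {S : Set R3} (hc : Sec T c S) {γ : ℝ → R3}
    (hγ : Continuous γ) {u v : ℝ} (huv : u ≤ v) (hm : ∀ s ∈ Icc u v, γ s ∈ S)
    (h1 : ∀ s ∈ Icc u v, ∀ t ∈ Icc u v, T (γ s) (γ t) = 1) : c (γ u) = c (γ v) := by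
  have key := eq_of_loc_const (f := fun t => c (γ (u + t * (v - u)))) (by
    intro s hs
    have mem : ∀ t ∈ Icc (0:ℝ) 1, u + t * (v - u) ∈ Icc u v := by
      intro t ht
      exact ⟨by nlinarith [ht.1, ht.2], by nlinarith [ht.1, ht.2]⟩
    obtain ⟨e, he, h⟩ := hc _ (hm _ (mem s hs))
    have hcont : Continuous (fun t : ℝ => γ (u + t * (v - u))) := hγ.comp (by fun_prop)
    obtain ⟨δ, hδ, hd⟩ := Metric.continuousAt_iff.1 (hcont.continuousAt (x := s)) e he
    refine ⟨δ, hδ, fun t ht t' ht' h2 h3 => ?_⟩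
    show c (γ (u + t * (v - u))) = c (γ (u + t' * (v - u)))
    rw [h _ _ (hd (by rwa [Real.dist_eq])) (hd (by rwa [Real.dist_eq])), h1 _ (mem t ht) _ (mem t' ht'),
      one_smul]) 1 (right_mem_Icc.2 zero_le_one)
  simp only [one_mul, zero_mul, add_zero] at key
  rw [← key]; congr 2; ring

theorem not_Tau_x0 {y h : ℝ} (hh : h ≠ 0 ∨ 2 < y) : ((0:ℝ), y, h) ∉ Tau := by
  have k0 : kk 0 = 0 := kk_zero_right le_rfl
  have f0 : ff 0 = 1 := ff_eq_one' (by norm_num) le_rfl
  rintro (⟨_, h2, h3⟩ | ⟨_, _, h2, h3⟩ | ⟨_, h2, h3⟩ | ⟨h1, h2, h3, h4⟩ | ⟨h1, h2, h3, h4⟩)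
  · simp only at h2 h3
    rw [k0] at h3; rw [f0] at h2
    rcases hh with hh | hh
    · exact hh h3
    · linarith
  · simp only at h2 h3
    rcases hh with hh | hh
    · exact hh h3
    · linarith
  · simp only [Prod.fst_neg, Prod.snd_neg, neg_zero] at h2 h3
    rw [k0] at h3; rw [f0] at h2
    rcases hh with hh | hh
    · exact hh (by linarith)
    · linarith
  · simp only at h1 h2 h3 h4
    have := xi_ge h2 h3
    linarith
  · simp only [Prod.fst_neg, Prod.snd_neg, neg_zero] at h1 h2 h3 h4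
    have := xi_ge h2 h3
    linarith

theorem Tt_nontrivial : ¬ ∃ c : R3 → ZMod 5, Sec Tt c {a | a ∉ Tau ∧ nq a < 100} ∧
    ∀ a ∈ Zr (1/16), c a = 0 := by
  rintro ⟨c, hc, h0⟩
  have nz : ∀ p : R3, p.1 = 0 → ¬ zA p ∧ ¬ zB p ∧ ¬ zC p ∧ ¬ zD p := by
    intro p hp
    refine ⟨fun h => ?_, fun h => ?_, fun h => ?_, fun h => ?_⟩
    · linarith [h.2.1]
    · linarith [h.2.1]
    · linarith [h.1]
    · linarith [h.1]
  have T1 : ∀ p q : R3, p.1 = 0 → q.1 = 0 → 0 < p.2.2 → 0 < q.2.2 → Tt p q = 1 := by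
    intro p q hp hq h1 h2
    unfold Tt
    rw [if_pos (show up p.2 from Or.inl h1), if_pos (show up q.2 from Or.inl h2),
      cut_out (nz p hp).1, cut_out (nz p hp).2.2.1, mul_one]
  have nup : ∀ p : R3, p.2.2 < 0 → ¬ up p.2 := by
    rintro p h (h' | ⟨h', _⟩) <;> linarith
  have T2 : ∀ p q : R3, p.1 = 0 → q.1 = 0 → p.2.2 < 0 → q.2.2 < 0 → Tt p q = 1 := by
    intro p q hp hq h1 h2
    unfold Tt
    rw [if_neg (nup p h1), if_neg (nup q h2),
      cut_out (nz p hp).2.1, cut_out (nz p hp).2.2.2, mul_one]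
  -- upper path
  have s0 : ((0:ℝ), (1/8:ℝ), (1/8:ℝ)) ∈ Zr (1/16) := by
    refine ⟨by unfold nq; norm_num, fun h => ?_⟩
    have := congrArg Prod.fst h
    norm_num at this
  have s0' : ((0:ℝ), (1/8:ℝ), (-1/8:ℝ)) ∈ Zr (1/16) := by
    refine ⟨by unfold nq; norm_num, fun h => ?_⟩
    have := congrArg Prod.fst h
    norm_num at this
  have m : ∀ {y h : ℝ}, (h ≠ 0 ∨ 2 < y) → nq ((0:ℝ), y, h) < 100 →
    ((0:ℝ), y, h) ∈ {a : R3 | a ∉ Tau ∧ nq a < 100} := fun h1 h2 => ⟨not_Tau_x0 h1, h2⟩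
  have p1 : c (0, 1/8, 1/8) = c (0, 1/8, 1) := by
    refine sec_const hc (γ := fun t => (0, 1/8, t)) (by fun_prop) (u := 1/8) (v := 1) (by norm_num) ?_ ?_
    · intro s hs
      refine m (Or.inl (by linarith [hs.1])) ?_
      unfold nq; simp only; nlinarith [hs.1, hs.2]
    · intro s hs t ht
      exact T1 _ _ rfl rfl (show 0 < s by linarith [hs.1]) (show 0 < t by linarith [ht.1])
  have p2 : c (0, 1/8, 1) = c (0, 3, 1) := by
    refine sec_const hc (γ := fun t => (0, t, 1)) (by fun_prop) (u := 1/8) (v := 3) (by norm_num) ?_ ?_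
    · intro s hs
      refine m (Or.inl (by norm_num)) ?_
      unfold nq; simp only; nlinarith [hs.1, hs.2]
    · intro s hs t ht
      exact T1 _ _ rfl rfl (show (0:ℝ) < 1 by norm_num) (show (0:ℝ) < 1 by norm_num)
  have q1 : c (0, 1/8, -1) = c (0, 1/8, -1/8) := by
    refine sec_const hc (γ := fun t => (0, 1/8, t)) (by fun_prop) (u := -1) (v := -1/8) (by norm_num) ?_ ?_
    · intro s hs
      refine m (Or.inl (by linarith [hs.2])) ?_
      unfold nq; simp only; nlinarith [hs.1, hs.2]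
    · intro s hs t ht
      exact T2 _ _ rfl rfl (show s < 0 by linarith [hs.2]) (show t < 0 by linarith [ht.2])
  have q2 : c (0, 1/8, -1) = c (0, 3, -1) := by
    refine sec_const hc (γ := fun t => (0, t, -1)) (by fun_prop) (u := 1/8) (v := 3) (by norm_num) ?_ ?_
    · intro s hs
      refine m (Or.inl (by norm_num)) ?_
      unfold nq; simp only; nlinarith [hs.1, hs.2]
    · intro s hs t ht
      exact T2 _ _ rfl rfl (show (-1:ℝ) < 0 by norm_num) (show (-1:ℝ) < 0 by norm_num)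
  -- through the plane
  have hT : c (0, 3, 1) = Ea • c (0, 3, -1) := by
    have er : ∀ h : ℝ, Er (((0:ℝ), (3:ℝ), h) : R3).1 (((0:ℝ), (3:ℝ), h) : R3).2.1 = Ea := by
      intro h
      rw [Er_M _ (by norm_num) (by norm_num), if_pos (by
        rw [ff_eq_one' (by norm_num) le_rfl]; norm_num), if_pos (by norm_num)]
    have hp : (((0:ℝ), (3:ℝ), (0:ℝ)) : R3) ∈ {a : R3 | a ∉ Tau ∧ nq a < 100} := by
      refine m (Or.inr (by norm_num)) ?_
      unfold nq; norm_num
    have loc : ∃ δ > 0, δ ≤ 1 ∧ c (0, 3, δ) = Ea • c (0, 3, -δ) := by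
      obtain ⟨e, he, h⟩ := hc _ hp
      refine ⟨min 1 (e/2), by positivity, min_le_left _ _, ?_⟩
      have hpos : 0 < min 1 (e/2) := by positivity
      set δ := min 1 (e/2) with hδ
      have hle : δ ≤ e / 2 := min_le_right _ _
      have d1 : dist (((0:ℝ), (3:ℝ), δ) : R3) (0, 3, 0) < e := by
        rw [Prod.dist_eq, Prod.dist_eq]
        simp only [dist_self, Real.dist_eq, sub_zero]
        rw [abs_of_pos hpos]
        simp only [max_lt_iff]
        exact ⟨he, he, by linarith⟩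
      have d2 : dist (((0:ℝ), (3:ℝ), -δ) : R3) (0, 3, 0) < e := by
        rw [Prod.dist_eq, Prod.dist_eq]
        simp only [dist_self, Real.dist_eq, sub_zero, abs_neg]
        rw [abs_of_pos hpos]
        simp only [max_lt_iff]
        exact ⟨he, he, by linarith⟩
      rw [h _ _ d1 d2]
      congr 1
      unfold Tt
      rw [if_pos (show up (((0:ℝ), (3:ℝ), δ) : R3).2 from Or.inl hpos),
        if_neg (nup (((0:ℝ), (3:ℝ), -δ) : R3) (show -δ < 0 by linarith))]
      unfold MM
      split_ifs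
      · exact er _
      · exact er _
    obtain ⟨δ, hδ, hδ1, hloc⟩ := loc
    have r1 : c (0, 3, δ) = c (0, 3, 1) := by
      refine sec_const hc (γ := fun t => (0, 3, t)) (by fun_prop) (u := δ) (v := 1) hδ1 ?_ ?_
      · intro s hs
        refine m (Or.inr (by norm_num)) ?_
        unfold nq; simp only; nlinarith [hs.1, hs.2]
      · intro s hs t ht
        exact T1 _ _ rfl rfl (show 0 < s by linarith [hs.1]) (show 0 < t by linarith [ht.1])
    have r2 : c (0, 3, -1) = c (0, 3, -δ) := by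
      refine sec_const hc (γ := fun t => (0, 3, t)) (by fun_prop) (u := -1) (v := -δ) (by linarith) ?_ ?_
      · intro s hs
        refine m (Or.inr (by norm_num)) ?_
        unfold nq; simp only; nlinarith [hs.1, hs.2]
      · intro s hs t ht
        exact T2 _ _ rfl rfl (show s < 0 by linarith [hs.2]) (show t < 0 by linarith [ht.2])
    rw [← r1, hloc, r2]
  rw [← q2, q1, h0 _ s0', ← p2, ← p1, h0 _ s0] at hT
  revert hT
  decide

end Pool.Agent.H753
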