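import Pool.Agent.H753.Spin
import Pool.Agent.H753.Exist3b

/-! Flat functions on the complement of the spun plane. -/

set_option autoImplicit false

namespace Pool.Agent.H753

open Set Filter Topology Pool.Agent.Helper60.AS

/-! ### the inner page -/

noncomputable def Si (x : R3) : E4 :=
  mk4 (x.1 / (10 * (1 + tt x))) (x.2.1 / (10 * (1 + tt x))) (x.2.2 / (10 * (1 + tt x))) 0

theorem Si_cont : Continuous Si := by
  have h2 := tt_cont
  have h : ∀ x, 10 * (1 + tt x) ≠ 0 := fun x => by have := tt_nonneg x; positivity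
  have hd : Continuous (fun x => 10 * (1 + tt x)) := by fun_prop
  unfold Si
  exact continuous_mk4 (cont1.div hd h) (cont2.div hd h) (cont3.div hd h) continuous_const

theorem nsq_Si {x : R3} (h' : nq x ≤ 100) : nsq (Si x) = (1 - tt x) / (1 + tt x) := by
  have h4 := tt_nonneg x
  have h5 := tt_sq x
  rw [mm_eq h'] at h5
  have h7 : nq x = (1 - tt x ^ 2) * 100 := by rw [h5]; ring
  have h6 : 1 + tt x ≠ 0 := by positivity
  unfold nsq Si
  simp only [mk4_0, mk4_1, mk4_2, mk4_3]
  have h8 : (x.1 / (10 * (1 + tt x))) ^ 2 + (x.2.1 / (10 * (1 + tt x))) ^ 2 +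
      (x.2.2 / (10 * (1 + tt x))) ^ 2 + 0 ^ 2 = nq x / (10 * (1 + tt x)) ^ 2 := by
    unfold nq; field_simp; ring
  rw [h8, h7, div_eq_div_iff (by positivity) h6]
  ring

theorem FB_Si {x : R3} (h' : nq x ≤ 100) : FB (Si x) = x := by
  have h4 := tt_nonneg x
  have h6 : 1 + tt x ≠ 0 := by positivity
  have h9 : 1 + nsq (Si x) = 2 / (1 + tt x) := by rw [nsq_Si h']; field_simp; ring
  unfold FB
  rw [h9]
  unfold Si
  simp only [mk4_0, mk4_1, mk4_2]
  refine Prod.ext ?_ (Prod.ext ?_ ?_) <;> · simp only; field_simp; ring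

theorem Si_not_mem {x : R3} (h : x ∉ Tau) (h' : nq x ≤ 100) : Si x ∉ SS := by
  show FB (Si x) ∉ Tau
  rw [FB_Si h']; exact h

theorem Si_3 (x : R3) : Si x 3 = 0 := by unfold Si; simp

theorem Si_FB {Q : E4} (h3 : Q 3 = 0) (h1 : nsq Q ≤ 1) : Si (FB Q) = Q := by
  have h0 := nsq_nonneg Q
  have hr : rr Q = (1 - nsq Q) / (1 + nsq Q) := by
    have e : rr Q ^ 2 = ((1 - nsq Q) / (1 + nsq Q)) ^ 2 := by
      rw [rr_sq, h3]
      unfold ww
      rw [add_comm (nsq Q) 1]
      ring
    have p : 0 ≤ (1 - nsq Q) / (1 + nsq Q) := div_nonneg (by linarith) (by linarith)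
    nlinarith [rr_nonneg Q, sq_nonneg (rr Q - (1 - nsq Q) / (1 + nsq Q)),
      (pow_left_inj₀ (rr_nonneg Q) p two_ne_zero).1 e]
  have h : 1 + nsq Q ≠ 0 := by positivity
  have h2 : 1 + tt (FB Q) = 2 / (1 + nsq Q) := by rw [tt_FB, hr]; field_simp; ring
  unfold Si
  rw [h2]
  unfold FB
  apply E4_ext
  · simp only [mk4_0]; field_simp; ring
  · simp only [mk4_1]; field_simp; ring
  · simp only [mk4_2]; field_simp; ring
  · simp [h3]

theorem KK_const {Q : E4} (h3 : Q 3 = 0) (h1 : 1 ≤ nsq Q) (ε s : ℝ) : KK ε s Q = Q := by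
  have h0 := nsq_nonneg Q
  have hr : rr Q = ww Q := by
    have e : rr Q ^ 2 = ww Q ^ 2 := by
      rw [rr_sq, h3]; ring
    have p : 0 ≤ ww Q := div_nonneg (by linarith) (by linarith)
    exact (pow_left_inj₀ (rr_nonneg Q) p two_ne_zero).1 e
  have hw : ∀ s, wws s Q = ww Q := by intro s; unfold wws; rw [hr]; ring
  have : KK ε s Q = KK ε 0 Q := by
    unfold KK zzs
    rw [hw, hw]
  rw [this, KK_zero, h3, abs_zero, mul_zero]
  apply E4_ext <;> simp [h3]

theorem sideframe {T : E4 → E4 → Aff} (hT : GFlat T SSᶜ) {ε : ℝ} (hε : ε ^ 2 = 1) :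
    ∃ u : E4 → Aff, (∀ a, a ∉ SS → ∃ δ > 0, ∀ x y, dist x a < δ → dist y a < δ →
      ε * |x 3| = x 3 → ε * |y 3| = y 3 → T x y = u x * T (Sg (FB x)) (Sg (FB y)) * (u y)⁻¹) ∧
      ∀ a, a ∉ SS → HasTr T (fun s => KK ε s a) (u a) := by
  obtain ⟨u, hu, hu'⟩ := transport_lemma (R := SSᶜ) hT (K := KK ε)
    (fun s hs a ha => KK_contAt ε ha hs) (fun s hs a ha => KK_not_mem ha hε hs)
  refine ⟨u, fun a ha => ?_, hu'⟩
  obtain ⟨δ, hδ, h⟩ := hu a ha
  refine ⟨δ, hδ, fun x y hx hy hx3 hy3 => ?_⟩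
  have := h x y hx hy
  simp only [KK_zero, KK_one, hx3, hy3, mk4_eta] at this
  rw [this]; group

/-- connecting a point of the ball to the sphere -/
theorem ball_conn {P : R3 → Prop} (hP : ∀ a : R3, a ∉ Tau → nq a ≤ 100 → ∃ δ > 0, ∀ x y : R3,
      nq x ≤ 100 → nq y ≤ 100 → dist x a < δ → dist y a < δ → (P x ↔ P y))
    (h0 : ∀ a : R3, a ∉ Tau → nq a = 100 → P a) : ∀ a : R3, a ∉ Tau → nq a ≤ 100 → P a := by
  have hTopen : IsOpen Tauᶜ := isClosed_Tau.isOpen_compl
  -- generic points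
  have gen : ∀ x y h : ℝ, y ≠ ff x → y ≠ - ff (-x) → ((x, y, h) : R3) ∉ Tau →
      nq ((x, y, h) : R3) ≤ 100 → P (x, y, h) := by
    intro x y h g1 g2 g3 g4
    have hxy : x ^ 2 + y ^ 2 ≤ 100 := by
      unfold nq at g4; simp only at g4; nlinarith [sq_nonneg h]
    set R := Real.sqrt (100 - x ^ 2 - y ^ 2) with hR
    have hR2 : R ^ 2 = 100 - x ^ 2 - y ^ 2 := Real.sq_sqrt (by linarith)
    have hR0 : 0 ≤ R := Real.sqrt_nonneg _
    have hhR : h ^ 2 ≤ R ^ 2 := by
      unfold nq at g4; simp only at g4; linarith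
    have habs := abs_le_of_sq_le_sq hhR hR0
    have hb := abs_le.1 habs
    -- the vertical lines
    have off : ∀ t, t ≠ 0 → ((x, y, t) : R3) ∉ Tau := by
      intro t ht hc
      rcases lt_or_gt_of_ne ht with h1 | h1
      · have hc' : ((-x, -y, -t) : R3) ∈ Tau := Tau_neg3.2 hc
        rcases Tau_pos (by linarith) hc' with ⟨_, _, k, _⟩ | ⟨_, _, k, _⟩
        · exact g2 (by linarith)
        · rw [neg_neg] at k; exact g1 (by linarith)
      · rcases Tau_pos h1 hc with ⟨_, _, k, _⟩ | ⟨_, _, k, _⟩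
        · exact g1 k
        · exact g2 k
    obtain ⟨e, he, hline⟩ : ∃ e : ℝ, e ^ 2 = R ^ 2 ∧ ∀ s ∈ Icc (0:ℝ) 1,
        ((x, y, h + s * (e - h)) : R3) ∉ Tau := by
      rcases le_total 0 h with h1 | h1
      · refine ⟨R, rfl, fun s hs => ?_⟩
        by_cases hz : h + s * (R - h) = 0
        · have : h = 0 := by nlinarith [hs.1, hs.2]
          rw [hz, ← this]; exact g3
        · exact off _ hz
      · refine ⟨-R, by ring, fun s hs => ?_⟩
        by_cases hz : h + s * (-R - h) = 0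
        · have : h = 0 := by nlinarith [hs.1, hs.2]
          rw [hz, ← this]; exact g3
        · exact off _ hz
    have hnq : ∀ s ∈ Icc (0:ℝ) 1, nq ((x, y, h + s * (e - h)) : R3) ≤ 100 := by
      intro s hs
      unfold nq
      simp only
      have : (h + s * (e - h)) ^ 2 ≤ R ^ 2 := by
        have k : (h + s * (e - h)) ^ 2 ≤ (1 - s) * h ^ 2 + s * e ^ 2 := by
          nlinarith [mul_nonneg (mul_nonneg hs.1 (sub_nonneg.2 hs.2)) (sq_nonneg (h - e))]
        rw [he] at k
        nlinarith [hs.1, hs.2]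
      linarith
    have key := eq_of_loc_const (f := fun s : ℝ => P (x, y, h + s * (e - h))) (by
      intro s hs
      obtain ⟨δ, hδ, hd⟩ := hP _ (hline s hs) (hnq s hs)
      have cg : Continuous (fun s : ℝ => ((x, y, h + s * (e - h)) : R3)) := by fun_prop
      obtain ⟨η, hη, hc⟩ := Metric.continuousAt_iff.1 (cg.continuousAt (x := s)) δ hδ
      refine ⟨η, hη, fun t ht t' ht' h1 h2 => ?_⟩
      exact propext (hd _ _ (hnq t ht) (hnq t' ht') (hc (by rwa [Real.dist_eq]))
        (hc (x := t') (by rwa [Real.dist_eq])))) 1 (right_mem_Icc.2 zero_le_one)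
    have e0 : ((x, y, h + 0 * (e - h)) : R3) = (x, y, h) := by simp
    have e1 : P (x, y, h + 1 * (e - h)) := by
      apply h0 _ (hline 1 (right_mem_Icc.2 zero_le_one))
      unfold nq
      simp only
      have : (h + 1 * (e - h)) ^ 2 = R ^ 2 := by rw [← he]; ring
      rw [this, hR2]; ring
    simp only [e0] at key
    rw [← key]; exact e1
  intro a ha hn
  rcases hn.eq_or_lt with h | h
  · exact h0 a ha h
  obtain ⟨δ, hδ, hd⟩ := hP a ha hn
  obtain ⟨δ', hδ', hd'⟩ := Metric.isOpen_iff.1 hTopen a ha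
  obtain ⟨δ'', hδ'', hd''⟩ := Metric.isOpen_iff.1 (isOpen_lt nq_cont (continuous_const (y := (100:ℝ)))) a h
  set m := min (min δ δ') δ'' with hm
  have hm0 : 0 < m := lt_min (lt_min hδ hδ') hδ''
  -- choose the perturbation
  have hfin : ({ff a.1 - a.2.1, -ff (-a.1) - a.2.1} : Set ℝ).Finite := by
    exact (Set.finite_singleton _).insert _
  have hinf : (Ioo (0:ℝ) m).Infinite := Ioo_infinite hm0
  obtain ⟨η, hη, hη'⟩ := (hinf.sdiff hfin).nonempty
  have hη1 : η ≠ ff a.1 - a.2.1 := fun e => hη' (by simp [e])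
  have hη2 : η ≠ -ff (-a.1) - a.2.1 := fun e => hη' (by simp [e])
  have hdist : dist ((a.1, a.2.1 + η, a.2.2) : R3) a < m := by
    rw [Prod.dist_eq, Prod.dist_eq]
    simp only [dist_self, Real.dist_eq, add_sub_cancel_left]
    rw [abs_of_pos hη.1]
    simp only [max_lt_iff]
    exact ⟨hm0, hη.2, hm0⟩
  have hlt : nq ((a.1, a.2.1 + η, a.2.2) : R3) < 100 := hd'' (hdist.trans_le (min_le_right _ _))
  have hnot : ((a.1, a.2.1 + η, a.2.2) : R3) ∉ Tau :=
    hd' (hdist.trans_le ((min_le_left _ _).trans (min_le_right _ _)))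
  have := gen a.1 (a.2.1 + η) a.2.2 (fun e => hη1 (by linarith)) (fun e => hη2 (by linarith)) hnot
    hlt.le
  exact (hd _ _ hn hlt.le (by simpa using hδ)
    (hdist.trans_le ((min_le_left _ _).trans (min_le_left _ _)))).2 this

/-- equivariant flat functions on the complement of the spun plane have sections -/
theorem none4 {T : E4 → E4 → Aff} (hT : GFlat T SSᶜ) (hinv : ∀ x y, T (rho4 x) (rho4 y) = T x y)
    (hα : EqNear T (fun p q => Tal (zt p) (zt q)) {p | 900 < nsq p ∧ zt p ≠ 0}) :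
    ∃ c : E4 → ZMod 5, Sec T c SSᶜ ∧ ∀ p, 1600 < nsq p → zt p ≠ 0 → c p = 0 := by
  -- reduction to dimension three
  have hT3 : GFlat (fun x y => T (Sg x) (Sg y)) Tauᶜ := hT.pull
    (fun a ha => Sg_contAt (by rintro rfl; exact ha zero_mem_Tau)) (fun a ha => Sg_not_mem ha)
  have hα3 : EqNear (fun x y => T (Sg x) (Sg y)) (fun p q => Tal p.2 q.2) (Zr (1/4)) := by
    rintro a ⟨ha, ha2⟩
    have ha0 : a ≠ 0 := by rintro rfl; exact ha2 rfl
    have hc := Sg_contAt ha0
    have ht1 := tt_lt_one ha0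
    have ht0 := tt_nonneg a
    have ht2 := tt_sq a
    rw [mm_eq (by linarith)] at ht2
    have hmem : Sg a ∈ {p | 900 < nsq p ∧ zt p ≠ 0} := by
      refine ⟨?_, ?_⟩
      · show 900 < nsq (Sg a)
        rw [nsq_Sg ha0, lt_div_iff₀ (by linarith)]
        nlinarith
      · intro hz
        apply ha2
        have e1 : a.2.1 / (mm a * (1 - tt a)) = 0 := congrArg Prod.fst hz
        have e2 : a.2.2 / (mm a * (1 - tt a)) = 0 := congrArg Prod.snd hz
        have hne : mm a * (1 - tt a) ≠ 0 := by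
          have := mm_pos a
          apply ne_of_gt; apply mul_pos this; linarith
        rw [div_eq_zero_iff, or_iff_left hne] at e1 e2
        exact Prod.ext e1 e2
    obtain ⟨e, he, h⟩ := hα _ hmem
    obtain ⟨δ, hδ, hd⟩ := Metric.continuousAt_iff.1 hc e he
    obtain ⟨e', he', h'⟩ := Tal_scale ha2
    obtain ⟨δ', hδ', hd'⟩ := Metric.continuousAt_iff.1
      ((continuous_snd (X := ℝ) (Y := ℝ × ℝ)).continuousAt (x := a)) e' he'
    obtain ⟨δ'', hδ'', hd''⟩ := Metric.isOpen_iff.1 (isOpen_ne (x := (0 : R3))) a ha0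
    refine ⟨min (min δ δ') δ'', lt_min (lt_min hδ hδ') hδ'', fun x y hx hy => ?_⟩
    have hx1 := hx.trans_le (min_le_left _ _)
    have hy1 := hy.trans_le (min_le_left _ _)
    have hx0 : x ≠ 0 := hd'' (hx.trans_le (min_le_right _ _))
    have hy0 : y ≠ 0 := hd'' (hy.trans_le (min_le_right _ _))
    show T (Sg x) (Sg y) = Tal x.2 y.2
    rw [h _ _ (hd (hx1.trans_le (min_le_left _ _))) (hd (hy1.trans_le (min_le_left _ _)))]
    have ez : ∀ x : R3, zt (Sg x) = (1 / (mm x * (1 - tt x))) • x.2 := by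
      intro x
      unfold zt Sg
      simp only [mk4_1, mk4_2]
      refine Prod.ext ?_ ?_
      · show x.2.1 / (mm x * (1 - tt x)) = 1 / (mm x * (1 - tt x)) * x.2.1; ring
      · show x.2.2 / (mm x * (1 - tt x)) = 1 / (mm x * (1 - tt x)) * x.2.2; ring
    have pos : ∀ x : R3, x ≠ 0 → 0 < 1 / (mm x * (1 - tt x)) := by
      intro x hx
      have h1 := mm_pos x
      have h2 := tt_lt_one hx
      have : 0 < 1 - tt x := by linarith
      positivity
    show Tal (zt (Sg x)) (zt (Sg y)) = Tal x.2 y.2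
    rw [ez, ez]
    exact h' _ _ (hd' (hx1.trans_le (min_le_right _ _))) (hd' (hy1.trans_le (min_le_right _ _)))
      _ _ (pos x hx0) (pos y hy0)
  obtain ⟨c3, hc3, hc3'⟩ := none3 hT3 (fun x y => by
    show T (Sg (-x)) (Sg (-y)) = T (Sg x) (Sg y)
    rw [Sg_neg, Sg_neg, hinv]) hα3
  obtain ⟨u, hu, hu'⟩ := sideframe hT (ε := 1) (by norm_num)
  obtain ⟨v, hv, hv'⟩ := sideframe hT (ε := -1) (by norm_num)
  -- the frames agree on the page
  have huv : ∀ a : E4, a ∉ SS → a 3 = 0 → u a = v a := by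
    have outer : ∀ a : E4, a ∉ SS → a 3 = 0 → 1 ≤ nsq a → u a = v a := by
      intro a ha h3 h1
      have e1 := ((HasTr.const hT ha).congr (fun s _ => KK_const h3 h1 1 s)).unique (hu' a ha)
      have e2 := ((HasTr.const hT ha).congr (fun s _ => KK_const h3 h1 (-1) s)).unique (hv' a ha)
      rw [← e1, ← e2]
    have inner : ∀ x : R3, x ∉ Tau → nq x ≤ 100 → u (Si x) = v (Si x) := by
      apply ball_conn
      · intro a ha hn
        have hS := Si_not_mem ha hn
        obtain ⟨e, he, h⟩ := hu _ hS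
        obtain ⟨e', he', h'⟩ := hv _ hS
        obtain ⟨δ, hδ, hd⟩ := Metric.continuousAt_iff.1 (Si_cont.continuousAt (x := a)) (min e e')
          (lt_min he he')
        refine ⟨δ, hδ, fun x y _ _ hx hy => ?_⟩
        have dx := hd hx
        have dy := hd hy
        have z1 : ∀ (x : R3) (ε : ℝ), ε * |Si x 3| = Si x 3 := by
          intro x ε; rw [Si_3]; simp
        have i1 := h _ _ (dx.trans_le (min_le_left _ _)) (dy.trans_le (min_le_left _ _))
          (z1 x 1) (z1 y 1)
        have i2 := h' _ _ (dx.trans_le (min_le_right _ _)) (dy.trans_le (min_le_right _ _))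
          (z1 x (-1)) (z1 y (-1))
        rw [i1] at i2
        set t := T (Sg (FB (Si x))) (Sg (FB (Si y)))
        constructor
        · intro hh
          rw [hh] at i2
          have := mul_left_cancel i2
          exact inv_injective this
        · intro hh
          rw [hh] at i2
          exact mul_right_cancel (mul_right_cancel i2)
      · intro a ha hn
        apply outer _ (Si_not_mem ha hn.le) (Si_3 a)
        rw [nsq_Si hn.le]
        have : tt a = 0 := by
          have h5 := tt_sq a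
          rw [mm_eq hn.le, hn] at h5
          have : tt a ^ 2 = 0 := by rw [h5]; norm_num
          exact pow_eq_zero_iff (two_ne_zero) |>.1 this
        rw [this]; norm_num
    intro a ha h3
    rcases le_total 1 (nsq a) with h | h
    · exact outer a ha h3 h
    · have hf : FB a ∉ Tau := ha
      have hnq : nq (FB a) ≤ 100 := by
        rw [nq_FB_100]
        have h0 := nsq_nonneg a
        have : 0 ≤ 100 * ((2 * a 3) ^ 2 + (nsq a - 1) ^ 2) / (1 + nsq a) ^ 2 := by positivity
        linarith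
      have := inner (FB a) hf hnq
      rwa [Si_FB h3 h] at this
  -- the half sections
  have half : ∀ (ε : ℝ) (u : E4 → Aff), (∀ a, a ∉ SS → ∃ δ > 0, ∀ x y, dist x a < δ → dist y a < δ →
      ε * |x 3| = x 3 → ε * |y 3| = y 3 → T x y = u x * T (Sg (FB x)) (Sg (FB y)) * (u y)⁻¹) →
      ∀ a, a ∉ SS → ∃ δ > 0, ∀ x y, dist x a < δ → dist y a < δ →
      ε * |x 3| = x 3 → ε * |y 3| = y 3 → u x • c3 (FB x) = T x y • (u y • c3 (FB y)) := by
    intro ε u hu a ha
    obtain ⟨δ, hδ, h⟩ := hu a ha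
    obtain ⟨e, he, h'⟩ := hc3 (FB a) ha
    obtain ⟨δ', hδ', hd⟩ := Metric.continuousAt_iff.1 (FB_cont.continuousAt (x := a)) e he
    refine ⟨min δ δ', lt_min hδ hδ', fun x y hx hy hx3 hy3 => ?_⟩
    rw [h x y (hx.trans_le (min_le_left _ _)) (hy.trans_le (min_le_left _ _)) hx3 hy3,
      h' _ _ (hd (hx.trans_le (min_le_right _ _))) (hd (hy.trans_le (min_le_right _ _)))]
    simp only [← mul_smul]
    congr 1
    group
  have hU := half 1 u hu
  have hV := half (-1) v hv
  refine ⟨fun Q => if 0 ≤ Q 3 then u Q • c3 (FB Q) else v Q • c3 (FB Q), ?_, ?_⟩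
  · intro a ha
    have ha' : a ∉ SS := ha
    have c3c : Continuous (fun p : E4 => p 3) := by fun_prop
    rcases lt_trichotomy (a 3) 0 with h | h | h
    · obtain ⟨δ, hδ, hd⟩ := hV a ha'
      obtain ⟨δ', hδ', hd'⟩ := Metric.isOpen_iff.1 (isOpen_lt c3c (continuous_const (y := (0:ℝ)))) a h
      refine ⟨min δ δ', lt_min hδ hδ', fun x y hx hy => ?_⟩
      have hx3 : x 3 < 0 := hd' (hx.trans_le (min_le_right _ _))
      have hy3 : y 3 < 0 := hd' (hy.trans_le (min_le_right _ _))
      simp only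
      rw [if_neg (not_le.2 hx3), if_neg (not_le.2 hy3)]
      exact hd x y (hx.trans_le (min_le_left _ _)) (hy.trans_le (min_le_left _ _))
        (by rw [abs_of_neg hx3]; ring) (by rw [abs_of_neg hy3]; ring)
    · obtain ⟨δ, hδ, hd⟩ := hU a ha'
      obtain ⟨δ', hδ', hd'⟩ := hV a ha'
      obtain ⟨η, hη, hf⟩ := hT a ha
      obtain ⟨θ, hθ, hS⟩ := Metric.isOpen_iff.1 isClosed_SS.isOpen_compl a ha
      -- the projection to the page
      have cp : Continuous (fun p : E4 => mk4 (p 0) (p 1) (p 2) 0) :=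
        continuous_mk4 (by fun_prop) (by fun_prop) (by fun_prop) continuous_const
      have hpa : mk4 (a 0) (a 1) (a 2) 0 = a := by
        apply E4_ext <;> simp [h]
      set m := min (min δ δ') (min η θ) with hm
      have hm0 : 0 < m := lt_min (lt_min hδ hδ') (lt_min hη hθ)
      obtain ⟨κ, hκ, hp⟩ := Metric.continuousAt_iff.1 (cp.continuousAt (x := a)) m hm0
      rw [hpa] at hp
      have m1 : m ≤ δ := (min_le_left _ _).trans (min_le_left _ _)
      have m2 : m ≤ δ' := (min_le_left _ _).trans (min_le_right _ _)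
      have m3 : m ≤ η := (min_le_right _ _).trans (min_le_left _ _)
      have m4 : m ≤ θ := (min_le_right _ _).trans (min_le_right _ _)
      refine ⟨min m κ, lt_min hm0 hκ, fun x y hx hy => ?_⟩
      have hx1 := hx.trans_le (min_le_left _ _)
      have hy1 := hy.trans_le (min_le_left _ _)
      have hz := hp (hx.trans_le (min_le_right _ _))
      set z : E4 := mk4 (x 0) (x 1) (x 2) 0 with hzdef
      have hz3 : z 3 = 0 := by simp [hzdef]
      have hzS : z ∉ SS := hS (hz.trans_le m4)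
      have huz : u z = v z := huv z hzS hz3
      have fl := hf x z y (hx1.trans_le m3) (hz.trans_le m3) (hy1.trans_le m3)
      have fl' := hf y z x (hy1.trans_le m3) (hz.trans_le m3) (hx1.trans_le m3)
      have P : ∀ {w : E4}, 0 ≤ w 3 → 1 * |w 3| = w 3 := by
        intro w hw; rw [abs_of_nonneg hw, one_mul]
      have N : ∀ {w : E4}, w 3 ≤ 0 → (-1) * |w 3| = w 3 := by
        intro w hw; rw [abs_of_nonpos hw]; ring
      simp only
      rcases le_or_gt 0 (x 3) with hx3 | hx3 <;> rcases le_or_gt 0 (y 3) with hy3 | hy3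
      · rw [if_pos hx3, if_pos hy3]
        exact hd x y (hx1.trans_le m1) (hy1.trans_le m1) (P hx3) (P hy3)
      · rw [if_pos hx3, if_neg (not_le.2 hy3), hd x z (hx1.trans_le m1) (hz.trans_le m1) (P hx3)
          (P hz3.ge), huz, hd' z y (hz.trans_le m2) (hy1.trans_le m2) (N hz3.le) (N hy3.le),
          ← mul_smul, fl]
      · rw [if_neg (not_le.2 hx3), if_pos hy3, hd' x z (hx1.trans_le m2) (hz.trans_le m2) (N hx3.le)
          (N hz3.le), ← huz, hd z y (hz.trans_le m1) (hy1.trans_le m1) (P hz3.ge) (P hy3),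
          ← mul_smul, fl]
      · rw [if_neg (not_le.2 hx3), if_neg (not_le.2 hy3)]
        exact hd' x y (hx1.trans_le m2) (hy1.trans_le m2) (N hx3.le) (N hy3.le)
    · obtain ⟨δ, hδ, hd⟩ := hU a ha'
      obtain ⟨δ', hδ', hd'⟩ := Metric.isOpen_iff.1 (isOpen_lt (continuous_const (y := (0:ℝ))) c3c) a h
      refine ⟨min δ δ', lt_min hδ hδ', fun x y hx hy => ?_⟩
      have hx3 : 0 < x 3 := hd' (hx.trans_le (min_le_right _ _))
      have hy3 : 0 < y 3 := hd' (hy.trans_le (min_le_right _ _))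
      simp only
      rw [if_pos hx3.le, if_pos hy3.le]
      exact hd x y (hx.trans_le (min_le_left _ _)) (hy.trans_le (min_le_left _ _))
        (by rw [abs_of_pos hx3]; ring) (by rw [abs_of_pos hy3]; ring)
  · intro p hp hz
    have hpS : p ∉ SS := by
      rw [SS_far (by linarith)]; exact hz
    have h3 : c3 (FB p) = 0 := by
      apply hc3'
      refine ⟨?_, FB_snd_ne hz⟩
      have := nq_FB_lt (by norm_num) hp
      linarith
    have fix : ∀ (ε : ℝ) (g : Aff), ε ^ 2 = 1 → HasTr T (fun s => KK ε s p) g →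
        g • (0 : ZMod 5) = 0 := by
      intro ε g hε hg
      apply HasTr_fix hg
      intro s hs
      have hmem : KK ε s p ∈ {p | 900 < nsq p ∧ zt p ≠ 0} := by
        refine ⟨?_, ?_⟩
        · have := nsq_KK_ge hpS hε hs
          show 900 < nsq (KK ε s p); linarith
        · show zt (KK ε s p) ≠ 0
          rw [zt_KK]
          have := wws_lt_one hpS hs
          apply smul_ne_zero _ (FB_snd_ne hz)
          have : 1 - wws s p ≠ 0 := by linarith
          positivity
      obtain ⟨e, he, h⟩ := hα _ hmem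
      obtain ⟨δ, hδ, hd⟩ := Metric.continuousAt_iff.1 (KK_contAt ε hpS hs) e he
      refine ⟨δ, hδ, fun t _ t' _ h1 h2 => ?_⟩
      have dt : ∀ t : ℝ, |t - s| < δ → dist (KK ε t p) (KK ε s p) < e := by
        intro t ht
        apply hd (x := (t, p))
        rw [Prod.dist_eq, dist_self, Real.dist_eq]
        exact max_lt ht hδ
      rw [h _ _ (dt t h1) (dt t' h2)]
      exact Tal_zero _ _
    show (if 0 ≤ p 3 then u p • c3 (FB p) else v p • c3 (FB p)) = 0
    rw [h3]
    split_ifs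
    · exact fix 1 _ (by norm_num) (hu' p hpS)
    · exact fix (-1) _ (by norm_num) (hv' p hpS)

/-! ### the explicit flat function -/

noncomputable def TS (p q : E4) : Aff := Tt (FB p) (FB q)

theorem TS_flat : GFlat TS SSᶜ := Tt_flat.pull (fun _ _ => FB_cont.continuousAt) (fun _ ha => ha)

theorem TS_near : EqNear TS (fun p q => Tal (zt p) (zt q)) {p | 1600 < nsq p ∧ zt p ≠ 0} := by
  rintro a ⟨ha, ha2⟩
  obtain ⟨e, he, h⟩ := Tt_near (FB a) ⟨by
    have := nq_FB_lt (by norm_num) ha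
    linarith, FB_snd_ne ha2⟩
  obtain ⟨δ, hδ, hd⟩ := Metric.continuousAt_iff.1 (FB_cont.continuousAt (x := a)) e he
  obtain ⟨e', he', h'⟩ := Tal_scale ha2
  obtain ⟨δ', hδ', hd'⟩ := Metric.continuousAt_iff.1 (zt_cont.continuousAt (x := a)) e' he'
  refine ⟨min δ δ', lt_min hδ hδ', fun x y hx hy => ?_⟩
  show Tt (FB x) (FB y) = Tal (zt x) (zt y)
  rw [h _ _ (hd (hx.trans_le (min_le_left _ _))) (hd (hy.trans_le (min_le_left _ _)))]
  show Tal (FB x).2 (FB y).2 = Tal (zt x) (zt y)
  rw [FB_snd, FB_snd]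
  have hx0 := nsq_nonneg x
  have hy0 := nsq_nonneg y
  exact h' _ _ (hd' (hx.trans_le (min_le_right _ _))) (hd' (hy.trans_le (min_le_right _ _))) _ _
    (by positivity) (by positivity)

theorem TS_nontrivial : ¬ ∃ c : E4 → ZMod 5, Sec TS c SSᶜ ∧
    ∀ p, 6000 < nsq p → zt p ≠ 0 → c p = 0 := by
  rintro ⟨c, hc, h0⟩
  apply Tt_nontrivial
  refine ⟨fun x => c (Sg x), ?_, ?_⟩
  · rintro a ⟨ha, han⟩
    have ha0 : a ≠ 0 := by rintro rfl; exact ha zero_mem_Tau
    obtain ⟨e, he, h⟩ := hc _ (Sg_not_mem ha)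
    obtain ⟨δ, hδ, hd⟩ := Metric.continuousAt_iff.1 (Sg_contAt ha0) e he
    obtain ⟨δ', hδ', hd'⟩ := Metric.isOpen_iff.1 ((isOpen_ne (x := (0 : R3))).inter
      (isOpen_lt nq_cont (continuous_const (y := (100:ℝ))))) a ⟨ha0, han⟩
    refine ⟨min δ δ', lt_min hδ hδ', fun x y hx hy => ?_⟩
    obtain ⟨x0, xn⟩ := hd' (hx.trans_le (min_le_right _ _))
    obtain ⟨y0, yn⟩ := hd' (hy.trans_le (min_le_right _ _))
    have xn' : nq x < 100 := xn
    have yn' : nq y < 100 := yn
    have := h _ _ (hd (hx.trans_le (min_le_left _ _))) (hd (hy.trans_le (min_le_left _ _)))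
    unfold TS at this
    rw [FB_Sg_ball x0 xn'.le, FB_Sg_ball y0 yn'.le] at this
    exact this
  · rintro a ⟨ha, ha2⟩
    have ha0 : a ≠ 0 := by rintro rfl; exact ha2 rfl
    have ht1 := tt_lt_one ha0
    have ht0 := tt_nonneg a
    have ht2 := tt_sq a
    rw [mm_eq (by linarith)] at ht2
    apply h0
    · rw [nsq_Sg ha0, lt_div_iff₀ (by linarith)]
      nlinarith
    · intro hz
      apply ha2
      have e1 : a.2.1 / (mm a * (1 - tt a)) = 0 := congrArg Prod.fst hz
      have e2 : a.2.2 / (mm a * (1 - tt a)) = 0 := congrArg Prod.snd hz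
      have hne : mm a * (1 - tt a) ≠ 0 := by
        have := mm_pos a
        apply ne_of_gt; apply mul_pos this; linarith
      rw [div_eq_zero_iff, or_iff_left hne] at e1 e2
      exact Prod.ext e1 e2

end Pool.Agent.H753
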