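import Pool.Agent.H753.Glue

/-! Flat functions on the complement of the plane with two knotted balls: the invariant ones have
sections, and there is one which is invariant for the other involution and has none. -/

set_option autoImplicit false

namespace Pool.Agent.H753

open Set Filter Topology Pool.Agent.Helper60.AS

theorem none_D2 {T : E4 → E4 → Aff} (hT : GFlat T DD2ᶜ)
    (hinv : ∀ x y, T (rho4 x) (rho4 y) = T x y)
    (hα : EqNear T (fun p q => Tal (zt p) (zt q)) {p | 1 < nsq p ∧ zt p ≠ 0}) :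
    ∃ c : E4 → ZMod 5, Sec T c DD2ᶜ ∧ ∀ p, 1 < nsq p → zt p ≠ 0 → c p = 0 := by
  classical
  obtain ⟨v, hv, hv'⟩ := transport_lemma (R := RR) hT (K := NP)
    (fun s _ a ha => NP_contAt ha.1 s) (fun s hs a ha => RR_sub (NP_RR ha hs.1))
  -- the frame is invariant
  have vrho : ∀ a ∈ RR, v (rho4 a) = v a := by
    intro a ha
    have h1 := hv' a ha
    have h2 := hv' (rho4 a) (RR_rho4.2 ha)
    apply h2.unique
    obtain ⟨F, hF0, hF1, hF⟩ := h1
    refine ⟨F, hF0, hF1, fun s hs => ?_⟩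
    obtain ⟨e, he, h⟩ := hF s hs
    refine ⟨e, he, fun t ht t' ht' h3 h4 => ?_⟩
    simp only [NP_rho4, hinv]
    exact h t ht t' ht' h3 h4
  -- the gauge relation
  have gauge : ∀ a ∈ RR, ∃ ε > 0, ∀ x y, dist x a < ε → dist y a < ε →
      Tal (zt x) (zt y) = (v x)⁻¹ * T x y * v y := by
    intro a ha
    obtain ⟨e, he, h⟩ := hv a ha
    have hm : NP 1 a ∈ {p | 1 < nsq p ∧ zt p ≠ 0} :=
      ⟨nsq_NP_one ha.1, (NP_RR ha zero_le_one).1⟩
    obtain ⟨e', he', h'⟩ := hα _ hm
    have hc : ContinuousAt (fun q : E4 => NP 1 q) a :=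
      (NP_contAt ha.1 1).comp (f := fun q : E4 => ((1:ℝ), q)) (Continuous.continuousAt (by fun_prop))
    obtain ⟨δ, hδ, hd⟩ := Metric.continuousAt_iff.1 hc e' he'
    obtain ⟨e2, he2, h2⟩ := Tal_scale ha.1
    obtain ⟨δ2, hδ2, hd2⟩ := Metric.continuousAt_iff.1 (zt_cont.continuousAt (x := a)) e2 he2
    refine ⟨min e (min δ δ2), lt_min he (lt_min hδ hδ2), fun x y hx hy => ?_⟩
    have hx2 := hx.trans_le (min_le_right _ _)
    have hy2 := hy.trans_le (min_le_right _ _)
    have i1 := h x y (hx.trans_le (min_le_left _ _)) (hy.trans_le (min_le_left _ _))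
    have i2 := h' _ _ (hd (hx2.trans_le (min_le_left _ _))) (hd (hy2.trans_le (min_le_left _ _)))
    simp only [NP_zero] at i1
    rw [← i1, i2]
    show Tal (zt x) (zt y) = Tal (zt (NP 1 x)) (zt (NP 1 y))
    rw [zt_NP, zt_NP]
    have f1 := NP_fac (p := x) zero_le_one
    have f2 := NP_fac (p := y) zero_le_one
    exact (h2 _ _ (hd2 (hx2.trans_le (min_le_right _ _))) (hd2 (hy2.trans_le (min_le_right _ _)))
      _ _ (by linarith) (by linarith)).symm
  set w : E4 → Aff := fun p => if p ∈ RR then v p else 1 with hw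
  have wrho : ∀ a, w (rho4 a) = w a := by
    intro a
    simp only [hw, RR_rho4]
    by_cases ha : a ∈ RR
    · rw [if_pos ha, if_pos ha, vrho a ha]
    · rw [if_neg ha, if_neg ha]
  set T' : E4 → E4 → Aff := fun x y => (w x)⁻¹ * T x y * w y with hT'
  have T'flat : GFlat T' DD2ᶜ := by
    intro a ha
    obtain ⟨e, he, h⟩ := hT a ha
    refine ⟨e, he, fun x y z hx hy hz => ?_⟩
    simp only [hT']
    rw [← h x y z hx hy hz]; group
  have T'inv : ∀ x y, T' (rho4 x) (rho4 y) = T' x y := by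
    intro x y
    simp only [hT', wrho, hinv]
  have T'near : EqNear T' (fun p q => Tal (zt p) (zt q)) RR := by
    intro a ha
    obtain ⟨e, he, h⟩ := gauge a ha
    obtain ⟨δ, hδ, hd⟩ := Metric.isOpen_iff.1 isOpen_RR a ha
    refine ⟨min e δ, lt_min he hδ, fun x y hx hy => ?_⟩
    have hx2 : x ∈ RR := hd (hx.trans_le (min_le_right _ _))
    have hy2 : y ∈ RR := hd (hy.trans_le (min_le_right _ _))
    show T' x y = Tal (zt x) (zt y)
    simp only [hT', hw]
    rw [if_pos hx2, if_pos hy2, h x y (hx.trans_le (min_le_left _ _)) (hy.trans_le (min_le_left _ _))]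
  -- sections in the balls
  have far2 : ∀ {p : E4}, nsq (ps p) < 2600 → 2600 < nsq (ps (rp p)) := by
    intro p hp
    rw [nsq_ps] at hp
    rw [nsq_ps_rp]
    nlinarith [sq_nonneg (p 0), sq_nonneg (p 1), sq_nonneg (p 2)]
  obtain ⟨c1, hc1, hc1'⟩ := ball_section (T := T') (φ := ph) ph_cont ph_rho4 zt_ph T'inv
    (by
      intro x hx hxS
      apply T'flat
      show ph x ∉ DD2
      rw [DD2_near1 (by rw [ps_ph]; linarith), ps_ph]; exact hxS)
    (by
      intro x hx hx2 hz
      apply T'near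
      refine ⟨?_, ?_, ?_⟩
      · rw [zt_ph]; exact smul_ne_zero (by norm_num) hz
      · rw [ps_ph]; exact hx
      · have := far2 (p := ph x) (by rw [ps_ph]; exact hx2)
        linarith)
  obtain ⟨c2, hc2, hc2'⟩ := ball_section (T := T') (φ := fun x => rp (ph x)) (rp_cont.comp ph_cont)
    (fun x => by simp only [ph_rho4, rp_rho4]) (fun x => by simp only [zt_rp, zt_ph]) T'inv
    (by
      intro x hx hxS
      apply T'flat
      show rp (ph x) ∉ DD2
      rw [rp_mem_DD2, DD2_near1 (by rw [ps_ph]; linarith), ps_ph]; exact hxS)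
    (by
      intro x hx hx2 hz
      apply T'near
      rw [RR_rp]
      refine ⟨?_, ?_, ?_⟩
      · rw [zt_ph]; exact smul_ne_zero (by norm_num) hz
      · rw [ps_ph]; exact hx
      · have := far2 (p := ph x) (by rw [ps_ph]; exact hx2)
        linarith)
  set c' : E4 → ZMod 5 := fun p => if nsq (ps p) < 2025 then c1 (ps p)
    else if nsq (ps (rp p)) < 2025 then c2 (ps (rp p)) else 0 with hc'
  have cont1' : Continuous (fun p : E4 => nsq (ps p)) := nsq_cont.comp ps_cont
  have cont2' : Continuous (fun p : E4 => nsq (ps (rp p))) := nsq_cont.comp (ps_cont.comp rp_cont)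
  have c'sec : Sec T' c' DD2ᶜ := by
    intro a ha
    have haD : a ∉ DD2 := ha
    by_cases h1 : nsq (ps a) < 2025
    · obtain ⟨e, he, h⟩ := hc1 (ps a) (by linarith) (by rwa [DD2_near1 (by linarith)] at haD)
      obtain ⟨δ, hδ, hd⟩ := Metric.continuousAt_iff.1 (ps_cont.continuousAt (x := a)) e he
      obtain ⟨δ', hδ', hd'⟩ := Metric.isOpen_iff.1 (isOpen_lt cont1' (continuous_const (y := (2025:ℝ)))) a h1
      refine ⟨min δ δ', lt_min hδ hδ', fun x y hx hy => ?_⟩
      have hx2 : nsq (ps x) < 2025 := hd' (hx.trans_le (min_le_right _ _))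
      have hy2 : nsq (ps y) < 2025 := hd' (hy.trans_le (min_le_right _ _))
      have := h _ _ (hd (hx.trans_le (min_le_left _ _))) (hd (hy.trans_le (min_le_left _ _)))
      rw [ph_ps, ph_ps] at this
      simp only [hc']
      rw [if_pos hx2, if_pos hy2]
      exact this
    by_cases h2 : nsq (ps (rp a)) < 2025
    · obtain ⟨e, he, h⟩ := hc2 (ps (rp a)) (by linarith) (by rwa [DD2_near2 (by linarith)] at haD)
      obtain ⟨δ, hδ, hd⟩ := Metric.continuousAt_iff.1 ((ps_cont.comp rp_cont).continuousAt (x := a)) e he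
      obtain ⟨δ', hδ', hd'⟩ := Metric.isOpen_iff.1 (isOpen_lt cont2' (continuous_const (y := (2025:ℝ)))) a h2
      refine ⟨min δ δ', lt_min hδ hδ', fun x y hx hy => ?_⟩
      have hx2 : nsq (ps (rp x)) < 2025 := hd' (hx.trans_le (min_le_right _ _))
      have hy2 : nsq (ps (rp y)) < 2025 := hd' (hy.trans_le (min_le_right _ _))
      have hx3 : ¬ nsq (ps x) < 2025 := by
        have := far2 (p := rp x) (by linarith)
        rw [rp_rp] at this; linarith
      have hy3 : ¬ nsq (ps y) < 2025 := by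
        have := far2 (p := rp y) (by linarith)
        rw [rp_rp] at this; linarith
      have := h _ _ (hd (hx.trans_le (min_le_left _ _))) (hd (hy.trans_le (min_le_left _ _)))
      simp only [Function.comp_apply, ph_ps, rp_rp] at this
      simp only [hc']
      rw [if_neg hx3, if_neg hy3, if_pos hx2, if_pos hy2]
      exact this
    · have hz : zt a ≠ 0 := by rwa [DD2_far (by linarith) (by linarith)] at haD
      obtain ⟨e, he, h⟩ := T'near a ⟨hz, by linarith, by linarith⟩
      obtain ⟨δ, hδ, hd⟩ := Metric.isOpen_iff.1 (((isOpen_lt (continuous_const (y := (1600:ℝ))) cont1').inter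
        (isOpen_lt (continuous_const (y := (1600:ℝ))) cont2')).inter (isOpen_ne.preimage zt_cont)) a
        ⟨⟨show 1600 < nsq (ps a) by linarith, show 1600 < nsq (ps (rp a)) by linarith⟩, hz⟩
      have zero : ∀ x, dist x a < δ → c' x = 0 := by
        intro x hx
        obtain ⟨⟨k1, k2⟩, k3⟩ := hd hx
        have k1' : 1600 < nsq (ps x) := k1
        have k2' : 1600 < nsq (ps (rp x)) := k2
        have k3' : zt x ≠ 0 := k3
        simp only [hc']
        split_ifs
        · exact hc1' _ k1' (by rw [zt_ps]; exact smul_ne_zero (by norm_num) k3')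
        · exact hc2' _ k2' (by rw [zt_ps, zt_rp]; exact smul_ne_zero (by norm_num) k3')
        · rfl
      refine ⟨min e δ, lt_min he hδ, fun x y hx hy => ?_⟩
      rw [zero x (hx.trans_le (min_le_right _ _)), zero y (hy.trans_le (min_le_right _ _)),
        h x y (hx.trans_le (min_le_left _ _)) (hy.trans_le (min_le_left _ _))]
      exact (Tal_zero _ _).symm
  refine ⟨fun p => w p • c' p, ?_, ?_⟩
  · intro a ha
    obtain ⟨e, he, h⟩ := c'sec a ha
    refine ⟨e, he, fun x y hx hy => ?_⟩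
    show w x • c' x = T x y • (w y • c' y)
    rw [h x y hx hy]
    simp only [hT', ← mul_smul]
    congr 1
    group
  · intro p hp hz
    have hR := RR_of_big hp hz
    have b1 : 2025 < nsq (ps p) := by
      rw [nsq_ps]
      unfold nsq at hp
      nlinarith [sq_nonneg (p 0), sq_nonneg (p 1), sq_nonneg (p 2), sq_nonneg (p 3 - 1), sq_nonneg (p 3 - 2)]
    have b2 : 2025 < nsq (ps (rp p)) := by
      rw [nsq_ps_rp]
      unfold nsq at hp
      nlinarith [sq_nonneg (p 0), sq_nonneg (p 1), sq_nonneg (p 2), sq_nonneg (p 3 + 1), sq_nonneg (p 3 + 2)]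
    show w p • c' p = 0
    simp only [hw, hc']
    rw [if_pos hR, if_neg (by linarith), if_neg (by linarith)]
    apply HasTr_fix (hv' p hR)
    intro s hs
    have hm : NP s p ∈ {p | 1 < nsq p ∧ zt p ≠ 0} := by
      refine ⟨?_, ?_⟩
      · have := nsq_NP_le (p := p) hs.1
        show 1 < nsq (NP s p); linarith
      · exact (NP_RR hR hs.1).1
    obtain ⟨e, he, h⟩ := hα _ hm
    obtain ⟨δ, hδ, hd⟩ := Metric.continuousAt_iff.1 (NP_contAt hz s) e he
    refine ⟨δ, hδ, fun t _ t' _ h1 h2 => ?_⟩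
    have dt : ∀ t : ℝ, |t - s| < δ → dist (NP t p) (NP s p) < e := by
      intro t ht
      apply hd (x := (t, p))
      rw [Prod.dist_eq, dist_self, Real.dist_eq]
      exact max_lt ht hδ
    rw [h _ _ (dt t h1) (dt t' h2)]
    exact Tal_zero _ _

/-! ### the other involution -/

noncomputable def rho5 (p : E4) : E4 := rp (rho4 p)

theorem rho5_cont : Continuous rho5 := rp_cont.comp rho4_cont
theorem rho5_rho5 (p : E4) : rho5 (rho5 p) = p := by
  unfold rho5; rw [← rp_rho4, rp_rp, rho4_rho4]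
theorem zt_rho5 (p : E4) : zt (rho5 p) = - zt p := by unfold rho5; rw [zt_rp, zt_rho4]
theorem nsq_ps_rho5 (p : E4) : nsq (ps (rho5 p)) = nsq (ps (rp p)) := by
  unfold rho5; rw [rp_rho4, ps_rho4, nsq_rho4]
theorem rho5_mem_DD2 {p : E4} : rho5 p ∈ DD2 ↔ p ∈ DD2 := by
  unfold rho5; rw [rp_mem_DD2, rho4_mem_DD2]

theorem far3 {p : E4} (hp : nsq (ps p) < 2600) : 2600 < nsq (ps (rp p)) := by
  rw [nsq_ps] at hp
  rw [nsq_ps_rp]
  nlinarith [sq_nonneg (p 0), sq_nonneg (p 1), sq_nonneg (p 2)]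

open Classical in
noncomputable def TD (x y : E4) : Aff :=
  if nsq (ps x) < 2500 ∧ nsq (ps y) < 2500 then TS (ps x) (ps y)
  else if nsq (ps (rho5 x)) < 2500 ∧ nsq (ps (rho5 y)) < 2500 then TS (ps (rho5 x)) (ps (rho5 y))
  else Tal (zt x) (zt y)

theorem TD_inv (x y : E4) : TD (rho5 x) (rho5 y) = TD x y := by
  unfold TD
  rw [rho5_rho5, rho5_rho5, zt_rho5, zt_rho5, Tal_neg]
  by_cases h1 : nsq (ps x) < 2500 ∧ nsq (ps y) < 2500
  · rw [if_pos h1, if_pos h1, if_neg]
    rintro ⟨h2, _⟩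
    rw [nsq_ps_rho5] at h2
    have := far3 (p := x) (by linarith [h1.1])
    linarith
  · rw [if_neg h1, if_neg h1]

theorem TD_near : EqNear TD (fun p q => Tal (zt p) (zt q))
    {p | 1600 < nsq (ps p) ∧ 1600 < nsq (ps (rp p)) ∧ zt p ≠ 0} := by
  rintro a ⟨h1, h2, h3⟩
  have h3' : zt (ps a) ≠ 0 := by rw [zt_ps]; exact smul_ne_zero (by norm_num) h3
  have h3'' : zt (ps (rho5 a)) ≠ 0 := by
    rw [zt_ps, zt_rho5]; exact smul_ne_zero (by norm_num) (neg_ne_zero.2 h3)
  obtain ⟨e1, he1, k1⟩ := TS_near (ps a) ⟨h1, h3'⟩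
  obtain ⟨e2, he2, k2⟩ := TS_near (ps (rho5 a)) ⟨by rw [nsq_ps_rho5]; exact h2, h3''⟩
  obtain ⟨δ1, hδ1, hd1⟩ := Metric.continuousAt_iff.1 (ps_cont.continuousAt (x := a)) e1 he1
  obtain ⟨δ2, hδ2, hd2⟩ := Metric.continuousAt_iff.1 ((ps_cont.comp rho5_cont).continuousAt (x := a)) e2 he2
  obtain ⟨e3, he3, k3⟩ := Tal_scale h3
  obtain ⟨δ3, hδ3, hd3⟩ := Metric.continuousAt_iff.1 (zt_cont.continuousAt (x := a)) e3 he3
  refine ⟨min (min δ1 δ2) δ3, lt_min (lt_min hδ1 hδ2) hδ3, fun x y hx hy => ?_⟩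
  have x1 := hd1 ((hx.trans_le (min_le_left _ _)).trans_le (min_le_left _ _))
  have y1 := hd1 ((hy.trans_le (min_le_left _ _)).trans_le (min_le_left _ _))
  have x2 := hd2 ((hx.trans_le (min_le_left _ _)).trans_le (min_le_right _ _))
  have y2 := hd2 ((hy.trans_le (min_le_left _ _)).trans_le (min_le_right _ _))
  have x3 := hd3 (hx.trans_le (min_le_right _ _))
  have y3 := hd3 (hy.trans_le (min_le_right _ _))
  have sc := k3 _ _ x3 y3 200 200 (by norm_num) (by norm_num)
  unfold TD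
  split_ifs
  · rw [k1 _ _ x1 y1]
    show Tal (zt (ps x)) (zt (ps y)) = Tal (zt x) (zt y)
    rw [zt_ps, zt_ps, sc]
  · have k2' : TS (ps (rho5 x)) (ps (rho5 y)) = Tal (zt (ps (rho5 x))) (zt (ps (rho5 y))) :=
      k2 _ _ x2 y2
    rw [k2']
    show Tal (zt (ps (rho5 x))) (zt (ps (rho5 y))) = Tal (zt x) (zt y)
    rw [zt_ps, zt_ps, zt_rho5, zt_rho5, smul_neg, smul_neg, Tal_neg, sc]
  · rfl

theorem TD_in {a : E4} (h : nsq (ps a) < 2500) : ∃ δ > 0, ∀ x y, dist x a < δ → dist y a < δ →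
    TD x y = TS (ps x) (ps y) := by
  obtain ⟨δ, hδ, hd⟩ := Metric.isOpen_iff.1
    (isOpen_lt (nsq_cont.comp ps_cont) (continuous_const (y := (2500:ℝ)))) a h
  refine ⟨δ, hδ, fun x y hx hy => ?_⟩
  unfold TD
  exact if_pos ⟨hd hx, hd hy⟩

theorem TD_flat : GFlat TD DD2ᶜ := by
  have in1 : ∀ a, nsq (ps a) < 2500 → a ∉ DD2 → GFlatAt TD a := by
    intro a h ha
    obtain ⟨δ, hδ, hd⟩ := TD_in h
    have hS : ps a ∉ SS := by rwa [DD2_near1 (by linarith)] at ha
    obtain ⟨e, he, hf⟩ := TS_flat (ps a) hS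
    obtain ⟨δ', hδ', hd'⟩ := Metric.continuousAt_iff.1 (ps_cont.continuousAt (x := a)) e he
    refine ⟨min δ δ', lt_min hδ hδ', fun x y z hx hy hz => ?_⟩
    rw [hd x y (hx.trans_le (min_le_left _ _)) (hy.trans_le (min_le_left _ _)),
      hd y z (hy.trans_le (min_le_left _ _)) (hz.trans_le (min_le_left _ _)),
      hd x z (hx.trans_le (min_le_left _ _)) (hz.trans_le (min_le_left _ _))]
    exact hf _ _ _ (hd' (hx.trans_le (min_le_right _ _))) (hd' (hy.trans_le (min_le_right _ _)))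
      (hd' (hz.trans_le (min_le_right _ _)))
  intro a ha
  have ha' : a ∉ DD2 := ha
  by_cases h1 : nsq (ps a) < 2500
  · exact in1 a h1 ha'
  by_cases h2 : nsq (ps (rp a)) < 2500
  · have h3 : nsq (ps (rho5 a)) < 2500 := by rwa [nsq_ps_rho5]
    obtain ⟨e, he, h⟩ := in1 (rho5 a) h3 (by rwa [rho5_mem_DD2])
    obtain ⟨δ, hδ, hd⟩ := Metric.continuousAt_iff.1 (rho5_cont.continuousAt (x := a)) e he
    refine ⟨δ, hδ, fun x y z hx hy hz => ?_⟩
    rw [← TD_inv x y, ← TD_inv y z, ← TD_inv x z]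
    exact h _ _ _ (hd hx) (hd hy) (hd hz)
  · have hz : zt a ≠ 0 := by rwa [DD2_far (by linarith) (by linarith)] at ha'
    exact TD_near.flat (Tal_flat.pull (F := zt)
      (R := {p : E4 | 1600 < nsq (ps p) ∧ 1600 < nsq (ps (rp p)) ∧ zt p ≠ 0})
      (fun _ _ => zt_cont.continuousAt) (fun _ h => h.2.2)) a ⟨by linarith, by linarith, hz⟩

theorem TD_nontrivial : ¬ ∃ c : E4 → ZMod 5, Sec TD c DD2ᶜ ∧
    ∀ p, 1 < nsq p → zt p ≠ 0 → c p = 0 := by
  rintro ⟨c, hc, h0⟩
  -- vanishing outside the balls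
  have van : ∀ p, 1600 < nsq (ps p) → 1600 < nsq (ps (rp p)) → zt p ≠ 0 → c p = 0 := by
    intro p h1 h2 h3
    have hR : p ∈ RR := ⟨h3, by linarith, by linarith⟩
    have hmem : ∀ s ∈ Icc (0:ℝ) 1, NP s p ∈ {p | 1600 < nsq (ps p) ∧ 1600 < nsq (ps (rp p)) ∧ zt p ≠ 0} := by
      intro s hs
      obtain ⟨h0, h3', h'⟩ := nsq_NP_aux (p := p) hs.1
      refine ⟨?_, ?_, (NP_RR hR hs.1).1⟩
      · rw [nsq_ps] at h1 ⊢
        rw [h0, h3']; linarith
      · rw [nsq_ps_rp] at h2 ⊢
        rw [h0, h3']; linarith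
    have key := eq_of_loc_const (f := fun s : ℝ => (c (NP s p) = 0)) (by
      intro s hs
      obtain ⟨e, he, h⟩ := TD_near _ (hmem s hs)
      obtain ⟨e', he', h'⟩ := hc _ (RR_sub (NP_RR hR hs.1))
      obtain ⟨δ, hδ, hd⟩ := Metric.continuousAt_iff.1 (NP_contAt h3 s) (min e e') (lt_min he he')
      refine ⟨δ, hδ, fun t _ t' _ g1 g2 => ?_⟩
      have dt : ∀ t : ℝ, |t - s| < δ → dist (NP t p) (NP s p) < min e e' := by
        intro t ht
        apply hd (x := (t, p))
        rw [Prod.dist_eq, dist_self, Real.dist_eq]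
        exact max_lt ht hδ
      have d1 := dt t g1
      have d2 := dt t' g2
      have i1 := h' _ _ (d1.trans_le (min_le_right _ _)) (d2.trans_le (min_le_right _ _))
      have i2 := h _ _ (d1.trans_le (min_le_left _ _)) (d2.trans_le (min_le_left _ _))
      apply propext
      rw [i1, i2, smul_eq_iff_eq_inv_smul]
      have : (Tal (zt (NP t p)) (zt (NP t' p)))⁻¹ • (0 : ZMod 5) = 0 := by
        rw [inv_smul_eq_iff, Tal_zero]
      rw [this]) 1 (right_mem_Icc.2 zero_le_one)
    simp only [NP_zero] at key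
    rw [← key]
    exact h0 _ (nsq_NP_one h3) (NP_RR hR zero_le_one).1
  apply TS_nontrivial
  have far4 : ∀ {x : E4}, nsq x < 2600 → 2600 < nsq (ps (rp (ph x))) := by
    intro x hx
    apply far3; rw [ps_ph]; exact hx
  refine ⟨fun x => if nsq x < 2500 then c (ph x) else 0, ?_, ?_⟩
  · intro a ha
    have haS : a ∉ SS := ha
    rcases lt_or_ge (nsq a) 2500 with h | h
    · have hD : ph a ∉ DD2 := by
        rw [DD2_near1 (by rw [ps_ph]; linarith), ps_ph]; exact haS
      obtain ⟨e, he, k⟩ := hc _ hD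
      obtain ⟨e', he', k'⟩ := TD_in (a := ph a) (by rw [ps_ph]; exact h)
      obtain ⟨δ, hδ, hd⟩ := Metric.continuousAt_iff.1 (ph_cont.continuousAt (x := a)) (min e e')
        (lt_min he he')
      obtain ⟨δ', hδ', hd'⟩ := Metric.isOpen_iff.1 (isOpen_lt nsq_cont (continuous_const (y := (2500:ℝ)))) a h
      refine ⟨min δ δ', lt_min hδ hδ', fun x y hx hy => ?_⟩
      have hx2 : nsq x < 2500 := hd' (hx.trans_le (min_le_right _ _))
      have hy2 : nsq y < 2500 := hd' (hy.trans_le (min_le_right _ _))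
      have dx := hd (hx.trans_le (min_le_left _ _))
      have dy := hd (hy.trans_le (min_le_left _ _))
      simp only
      rw [if_pos hx2, if_pos hy2, k _ _ (dx.trans_le (min_le_left _ _)) (dy.trans_le (min_le_left _ _)),
        k' _ _ (dx.trans_le (min_le_right _ _)) (dy.trans_le (min_le_right _ _)), ps_ph, ps_ph]
    · have hz : zt a ≠ 0 := by rwa [SS_far (by linarith)] at haS
      obtain ⟨e, he, k⟩ := TS_near a ⟨by linarith, hz⟩
      obtain ⟨δ, hδ, hd⟩ := Metric.isOpen_iff.1 ((isOpen_lt (continuous_const (y := (1600:ℝ))) nsq_cont).inter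
        (isOpen_ne.preimage zt_cont)) a ⟨show 1600 < nsq a by linarith, hz⟩
      have zero : ∀ x, dist x a < δ → (if nsq x < 2500 then c (ph x) else 0) = 0 := by
        intro x hx
        obtain ⟨k1, k2⟩ := hd hx
        have k1' : 1600 < nsq x := k1
        have k2' : zt x ≠ 0 := k2
        split_ifs with hh
        · apply van
          · rw [ps_ph]; exact k1'
          · have := far4 (x := x) (by linarith); linarith
          · rw [zt_ph]; exact smul_ne_zero (by norm_num) k2'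
        · rfl
      refine ⟨min e δ, lt_min he hδ, fun x y hx hy => ?_⟩
      simp only
      rw [zero x (hx.trans_le (min_le_right _ _)), zero y (hy.trans_le (min_le_right _ _)),
        k x y (hx.trans_le (min_le_left _ _)) (hy.trans_le (min_le_left _ _))]
      exact (Tal_zero _ _).symm
  · intro p hp hz
    simp only
    rw [if_neg (by linarith)]

end Pool.Agent.H753
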