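import Pool.Graph.R_pool_sql_team_seeded_620a6dc7.Helper60.AS.Tr

/-! The affine group of the field with five elements, flat functions with values in it, sections,
and the model flat function near the standard plane. -/

set_option autoImplicit false

namespace Pool.Agent.H753

open Set Pool.Agent.Helper60.AS

/-- the affine map `z ↦ a z + b` of `ZMod 5` -/
@[ext] structure Aff where
  a : (ZMod 5)ˣ
  b : ZMod 5
deriving DecidableEq, Fintype

namespace Aff

instance : Mul Aff := ⟨fun x y => ⟨x.a * y.a, x.a * y.b + x.b⟩⟩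
instance : One Aff := ⟨⟨1, 0⟩⟩
instance : Inv Aff := ⟨fun x => ⟨x.a⁻¹, -((x.a⁻¹ : (ZMod 5)ˣ) * x.b)⟩⟩

theorem mul_def (x y : Aff) : x * y = ⟨x.a * y.a, x.a * y.b + x.b⟩ := rfl
theorem one_def : (1 : Aff) = ⟨1, 0⟩ := rfl
theorem inv_def (x : Aff) : x⁻¹ = ⟨x.a⁻¹, -((x.a⁻¹ : (ZMod 5)ˣ) * x.b)⟩ := rfl

instance : Group Aff := Group.ofLeftAxioms
  (by
    intro x y z
    simp only [mul_def]
    ext
    · simp only [mul_assoc]
    · simp only [Units.val_mul]; ring)
  (by
    intro x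
    simp only [mul_def, one_def]
    ext
    · simp
    · simp)
  (by
    intro x
    simp only [mul_def, one_def, inv_def]
    ext
    · simp
    · simp)

instance : MulAction Aff (ZMod 5) where
  smul x z := x.a * z + x.b
  one_smul z := by show ((1 : (ZMod 5)ˣ) : ZMod 5) * z + 0 = z; simp
  mul_smul x y z := by
    show ((x.a * y.a : (ZMod 5)ˣ) : ZMod 5) * z + (x.a * y.b + x.b) = x.a * (y.a * z + y.b) + x.b
    simp only [Units.val_mul]; ring

theorem smul_def (x : Aff) (z : ZMod 5) : x • z = x.a * z + x.b := rfl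

instance (x : Aff) (z w : ZMod 5) : Decidable (x • z = w) := by
  unfold HSMul.hSMul instHSMul; infer_instance

end Aff

/-- the unit `3` -/
def u3 : (ZMod 5)ˣ := ⟨3, 2, by decide, by decide⟩

/-- multiplication by `3` -/
def al : Aff := ⟨u3, 0⟩

theorem al_zero : al • (0 : ZMod 5) = 0 := by decide
theorem al_inv_zero : al⁻¹ • (0 : ZMod 5) = 0 := by decide

theorem relation_lemma : ∀ A : Aff, A * A * al⁻¹ = al⁻¹ * al⁻¹ * A → A • (0 : ZMod 5) = 0 := by
  decide

/-! ### the model flat function -/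

/-- the closed upper half plane without the left half of the boundary line; `z = (y, h)` -/
def up (z : ℝ × ℝ) : Prop := 0 < z.2 ∨ (z.2 = 0 ∧ 0 < z.1)

noncomputable instance (z : ℝ × ℝ) : Decidable (up z) := Classical.propDecidable _

open Classical in
/-- the model flat function on the punctured plane: invariant under `-1`, transport `al⁻¹`
along half turns -/
noncomputable def Tal (z w : ℝ × ℝ) : Aff :=
  if z = 0 ∨ w = 0 then 1 else
  if up z then (if up w then 1 else if 0 < z.1 + w.1 then al else if z.1 + w.1 < 0 then al⁻¹ else 1)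
  else (if up w then (if 0 < z.1 + w.1 then al⁻¹ else if z.1 + w.1 < 0 then al else 1) else 1)

theorem up_neg {z : ℝ × ℝ} (h : z ≠ 0) : up (-z) ↔ ¬ up z := by
  have h' : z.1 ≠ 0 ∨ z.2 ≠ 0 := by
    by_contra hc
    push Not at hc
    exact h (Prod.ext hc.1 hc.2)
  unfold up
  simp only [Prod.fst_neg, Prod.snd_neg, neg_eq_zero, Left.neg_pos_iff, not_or, not_lt, not_and]
  constructor
  · rintro (h1 | ⟨h1, h2⟩)
    · exact ⟨h1.le, fun h2 => by linarith⟩
    · exact ⟨h1.le, fun _ => h2.le⟩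
  · rintro ⟨h1, h2⟩
    rcases h1.lt_or_eq with h3 | h3
    · exact Or.inl h3
    · refine Or.inr ⟨h3, ?_⟩
      have := h2 h3
      rcases h' with h4 | h4
      · exact lt_of_le_of_ne this h4
      · exact (h4 h3).elim

theorem Tal_uu {z w : ℝ × ℝ} (h1 : up z) (h2 : up w) : Tal z w = 1 := by
  unfold Tal; simp [h1, h2]

theorem Tal_dd {z w : ℝ × ℝ} (h1 : ¬ up z) (h2 : ¬ up w) : Tal z w = 1 := by
  unfold Tal; simp [h1, h2]

theorem ne_zero_of_up {z : ℝ × ℝ} (h1 : up z) : z ≠ 0 := by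
  rintro rfl
  unfold up at h1
  simp at h1

theorem Tal_ud {z w : ℝ × ℝ} (h1 : up z) (h2 : ¬ up w) (hw : w ≠ 0) :
    Tal z w = if 0 < z.1 + w.1 then al else if z.1 + w.1 < 0 then al⁻¹ else 1 := by
  unfold Tal; simp [h1, h2, ne_zero_of_up h1, hw]

theorem Tal_du {z w : ℝ × ℝ} (h1 : ¬ up z) (h2 : up w) (hz : z ≠ 0) :
    Tal z w = if 0 < z.1 + w.1 then al⁻¹ else if z.1 + w.1 < 0 then al else 1 := by
  unfold Tal; simp [h1, h2, ne_zero_of_up h2, hz]

theorem Tal_zero_left (w : ℝ × ℝ) : Tal 0 w = 1 := by unfold Tal; simp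
theorem Tal_zero_right (w : ℝ × ℝ) : Tal w 0 = 1 := by unfold Tal; simp

theorem Tal_neg (z w : ℝ × ℝ) : Tal (-z) (-w) = Tal z w := by
  by_cases hz : z = 0
  · rw [hz, neg_zero, Tal_zero_left, Tal_zero_left]
  by_cases hw : w = 0
  · rw [hw, neg_zero, Tal_zero_right, Tal_zero_right]
  have h1 := up_neg hz
  have h2 := up_neg hw
  have e1 : (0 < (-z).1 + (-w).1) ↔ (z.1 + w.1 < 0) := by
    simp only [Prod.fst_neg]; constructor <;> intro h <;> linarith
  have e2 : ((-z).1 + (-w).1 < 0) ↔ (0 < z.1 + w.1) := by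
    simp only [Prod.fst_neg]; constructor <;> intro h <;> linarith
  by_cases u1 : up z <;> by_cases u2 : up w
  · rw [Tal_uu u1 u2, Tal_dd (by rw [h1]; simpa using u1) (by rw [h2]; simpa using u2)]
  · rw [Tal_ud u1 u2 hw, Tal_du (by rw [h1]; simpa using u1) (h2.2 u2) (neg_ne_zero.2 hz)]
    simp only [e1, e2]
    by_cases p : 0 < z.1 + w.1
    · have : ¬ (z.1 + w.1 < 0) := by linarith
      simp [p, this]
    · by_cases q : z.1 + w.1 < 0 <;> simp [p, q]
  · rw [Tal_du u1 u2 hz, Tal_ud (h1.2 u1) (by rw [h2]; simpa using u2) (neg_ne_zero.2 hw)]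
    simp only [e1, e2]
    by_cases p : 0 < z.1 + w.1
    · have : ¬ (z.1 + w.1 < 0) := by linarith
      simp [p, this]
    · by_cases q : z.1 + w.1 < 0 <;> simp [p, q]
  · rw [Tal_dd u1 u2, Tal_uu (h1.2 u1) (h2.2 u2)]

theorem Tal_zero (z w : ℝ × ℝ) : Tal z w • (0 : ZMod 5) = 0 := by
  unfold Tal
  split_ifs <;> first | exact one_smul _ _ | exact al_zero

theorem up_smul {r : ℝ} (hr : 0 < r) (z : ℝ × ℝ) : up (r • z) ↔ up z := by
  unfold up
  simp only [Prod.smul_fst, Prod.smul_snd, smul_eq_mul, mul_eq_zero, hr.ne', false_or,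
    mul_pos_iff_of_pos_left hr]

/-- local form of the model near a point, up to scaling -/
theorem Tal_loc {z₀ : ℝ × ℝ} (h0 : z₀ ≠ 0) : ∃ ε > 0, ∀ z w : ℝ × ℝ, dist z z₀ < ε →
    dist w z₀ < ε → ∀ r s : ℝ, 0 < r → 0 < s → z ≠ 0 ∧ w ≠ 0 ∧ Tal (r • z) (s • w) =
      (if up z then 1 else if 0 < z₀.1 then al else al⁻¹)⁻¹ *
      (if up w then 1 else if 0 < z₀.1 then al else al⁻¹) := by
  by_cases h2 : z₀.2 = 0
  · have h1 : z₀.1 ≠ 0 := fun h => h0 (Prod.ext h h2)
    refine ⟨|z₀.1|, abs_pos.2 h1, ?_⟩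
    have key : ∀ z : ℝ × ℝ, dist z z₀ < |z₀.1| → |z.1 - z₀.1| < |z₀.1| := by
      intro z hz
      rw [Prod.dist_eq] at hz
      have := lt_of_le_of_lt (le_max_left _ _) hz
      rwa [Real.dist_eq] at this
    intro z w hz hw r s hr hs
    have k1 := abs_lt.1 (key z hz)
    have k2 := abs_lt.1 (key w hw)
    rcases lt_or_gt_of_ne h1 with h | h
    · rw [abs_of_neg h] at k1 k2
      have z1 : z.1 < 0 := by linarith
      have w1 : w.1 < 0 := by linarith
      have zn : z ≠ 0 := by rintro rfl; exact lt_irrefl _ z1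
      have wn : w ≠ 0 := by rintro rfl; exact lt_irrefl _ w1
      have hsum : (r • z).1 + (s • w).1 < 0 := by
        simp only [Prod.smul_fst, smul_eq_mul]
        have := mul_neg_of_pos_of_neg hr z1
        have := mul_neg_of_pos_of_neg hs w1
        linarith
      have hsum' : ¬ 0 < (r • z).1 + (s • w).1 := by linarith
      refine ⟨zn, wn, ?_⟩
      rw [if_neg (show ¬ 0 < z₀.1 by linarith)]
      by_cases uz : up z <;> by_cases uw : up w
      · rw [Tal_uu ((up_smul hr z).2 uz) ((up_smul hs w).2 uw)]; simp [uz, uw]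
      · rw [Tal_ud ((up_smul hr z).2 uz) (by rw [up_smul hs w]; exact uw) (smul_ne_zero hs.ne' wn),
          if_neg hsum', if_pos hsum]
        simp [uz, uw]
      · rw [Tal_du (by rw [up_smul hr z]; exact uz) ((up_smul hs w).2 uw) (smul_ne_zero hr.ne' zn),
          if_neg hsum', if_pos hsum]
        simp [uz, uw]
      · rw [Tal_dd (by rw [up_smul hr z]; exact uz) (by rw [up_smul hs w]; exact uw)]; simp [uz, uw]
    · rw [abs_of_pos h] at k1 k2
      have z1 : 0 < z.1 := by linarith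
      have w1 : 0 < w.1 := by linarith
      have zn : z ≠ 0 := by rintro rfl; exact lt_irrefl _ z1
      have wn : w ≠ 0 := by rintro rfl; exact lt_irrefl _ w1
      have hsum : 0 < (r • z).1 + (s • w).1 := by
        simp only [Prod.smul_fst, smul_eq_mul]
        positivity
      refine ⟨zn, wn, ?_⟩
      rw [if_pos (show 0 < z₀.1 by linarith)]
      by_cases uz : up z <;> by_cases uw : up w
      · rw [Tal_uu ((up_smul hr z).2 uz) ((up_smul hs w).2 uw)]; simp [uz, uw]
      · rw [Tal_ud ((up_smul hr z).2 uz) (by rw [up_smul hs w]; exact uw) (smul_ne_zero hs.ne' wn),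
          if_pos hsum]
        simp [uz, uw]
      · rw [Tal_du (by rw [up_smul hr z]; exact uz) ((up_smul hs w).2 uw) (smul_ne_zero hr.ne' zn),
          if_pos hsum]
        simp [uz, uw]
      · rw [Tal_dd (by rw [up_smul hr z]; exact uz) (by rw [up_smul hs w]; exact uw)]; simp [uz, uw]
  · refine ⟨|z₀.2|, abs_pos.2 h2, ?_⟩
    have key : ∀ z : ℝ × ℝ, dist z z₀ < |z₀.2| → |z.2 - z₀.2| < |z₀.2| := by
      intro z hz
      rw [Prod.dist_eq] at hz
      have := lt_of_le_of_lt (le_max_right _ _) hz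
      rwa [Real.dist_eq] at this
    intro z w hz hw r s hr hs
    have k1 := abs_lt.1 (key z hz)
    have k2 := abs_lt.1 (key w hw)
    rcases lt_or_gt_of_ne h2 with h | h
    · rw [abs_of_neg h] at k1 k2
      have z1 : z.2 < 0 := by linarith
      have w1 : w.2 < 0 := by linarith
      have zn : z ≠ 0 := by rintro rfl; exact lt_irrefl _ z1
      have wn : w ≠ 0 := by rintro rfl; exact lt_irrefl _ w1
      have uz : ¬ up z := by
        rintro (h | ⟨h, _⟩) <;> linarith
      have uw : ¬ up w := by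
        rintro (h | ⟨h, _⟩) <;> linarith
      refine ⟨zn, wn, ?_⟩
      rw [Tal_dd (by rw [up_smul hr z]; exact uz) (by rw [up_smul hs w]; exact uw), if_neg uz,
        if_neg uw, inv_mul_cancel]
    · rw [abs_of_pos h] at k1 k2
      have z1 : 0 < z.2 := by linarith
      have w1 : 0 < w.2 := by linarith
      have zn : z ≠ 0 := by rintro rfl; exact lt_irrefl _ z1
      have wn : w ≠ 0 := by rintro rfl; exact lt_irrefl _ w1
      refine ⟨zn, wn, ?_⟩
      rw [Tal_uu ((up_smul hr z).2 (Or.inl z1)) ((up_smul hs w).2 (Or.inl w1))]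
      simp [show up z from Or.inl z1, show up w from Or.inl w1]

theorem Tal_flat : GFlat Tal {z | z ≠ 0} := by
  intro z₀ h0
  obtain ⟨ε, hε, h⟩ := Tal_loc h0
  refine ⟨ε, hε, fun x y z hx hy hz => ?_⟩
  have h1 := (h x y hx hy 1 1 one_pos one_pos).2.2
  have h2 := (h y z hy hz 1 1 one_pos one_pos).2.2
  have h3 := (h x z hx hz 1 1 one_pos one_pos).2.2
  simp only [one_smul] at h1 h2 h3
  rw [h1, h2, h3]
  group

/-- scaling invariance, local -/
theorem Tal_scale {z₀ : ℝ × ℝ} (h0 : z₀ ≠ 0) : ∃ ε > 0, ∀ z w : ℝ × ℝ, dist z z₀ < ε →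
    dist w z₀ < ε → ∀ r s : ℝ, 0 < r → 0 < s → Tal (r • z) (s • w) = Tal z w := by
  obtain ⟨ε, hε, h⟩ := Tal_loc h0
  refine ⟨ε, hε, fun z w hz hw r s hr hs => ?_⟩
  rw [(h z w hz hw r s hr hs).2.2]
  have := (h z w hz hw 1 1 one_pos one_pos).2.2
  rw [one_smul, one_smul] at this
  rw [this]

/-! ### sections -/

section sections

variable {Ω Ω' : Type*} [PseudoMetricSpace Ω] [PseudoMetricSpace Ω']

/-- `c` is a flat section of `T` near `S` -/
def Sec (T : Ω → Ω → Aff) (c : Ω → ZMod 5) (S : Set Ω) : Prop :=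
  ∀ a ∈ S, ∃ ε > 0, ∀ x y, dist x a < ε → dist y a < ε → c x = T x y • c y

/-- `T = T'` near `S` -/
def EqNear (T T' : Ω → Ω → Aff) (S : Set Ω) : Prop :=
  ∀ a ∈ S, ∃ ε > 0, ∀ x y, dist x a < ε → dist y a < ε → T x y = T' x y

theorem Sec.mono {T : Ω → Ω → Aff} {c : Ω → ZMod 5} {S S' : Set Ω} (h : Sec T c S) (h' : S' ⊆ S) :
    Sec T c S' := fun a ha => h a (h' ha)

theorem EqNear.mono {T T' : Ω → Ω → Aff} {S S' : Set Ω} (h : EqNear T T' S) (h' : S' ⊆ S) :
    EqNear T T' S' := fun a ha => h a (h' ha)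

theorem EqNear.flat {T T' : Ω → Ω → Aff} {S : Set Ω} (h : EqNear T T' S) (h' : GFlat T' S) :
    GFlat T S := by
  intro a ha
  obtain ⟨e, he, h⟩ := h a ha
  obtain ⟨e', he', h'⟩ := h' a ha
  refine ⟨min e e', lt_min he he', fun x y z hx hy hz => ?_⟩
  rw [h x y (hx.trans_le (min_le_left _ _)) (hy.trans_le (min_le_left _ _)),
    h y z (hy.trans_le (min_le_left _ _)) (hz.trans_le (min_le_left _ _)),
    h x z (hx.trans_le (min_le_left _ _)) (hz.trans_le (min_le_left _ _))]
  exact h' x y z (hx.trans_le (min_le_right _ _)) (hy.trans_le (min_le_right _ _))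
    (hz.trans_le (min_le_right _ _))

theorem flat_of_prim {T : Ω → Ω → Aff} {a : Ω} (h : ∃ ψ : Ω → Aff, ∃ ε > 0, ∀ x y, dist x a < ε →
    dist y a < ε → T x y = (ψ x)⁻¹ * ψ y) : GFlatAt T a := by
  obtain ⟨ψ, ε, hε, h⟩ := h
  refine ⟨ε, hε, fun x y z hx hy hz => ?_⟩
  rw [h x y hx hy, h y z hy hz, h x z hx hz]; group

omit [PseudoMetricSpace Ω] in
/-- transports of a flat function which fixes `0` fix `0` -/
theorem HasTr_fix {T : Ω → Ω → Aff} {γ : ℝ → Ω} {g : Aff} (h : HasTr T γ g)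
    (hf : ∀ s ∈ Icc (0:ℝ) 1, ∃ ε > 0, ∀ t ∈ Icc (0:ℝ) 1, ∀ t' ∈ Icc (0:ℝ) 1, |t - s| < ε →
      |t' - s| < ε → T (γ t) (γ t') • (0 : ZMod 5) = 0) : g • (0 : ZMod 5) = 0 := by
  obtain ⟨F, hF0, hF1, hF⟩ := h
  have key := eq_of_loc_const (f := fun t => F t • (0 : ZMod 5)) (by
    intro s hs
    obtain ⟨e, he, h⟩ := hF s hs
    obtain ⟨e', he', h'⟩ := hf s hs
    refine ⟨min e e', lt_min he he', fun t ht t' ht' h1 h2 => ?_⟩
    have e1 := h t ht t' ht' (h1.trans_le (min_le_left _ _)) (h2.trans_le (min_le_left _ _))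
    have e2 := h' t ht t' ht' (h1.trans_le (min_le_right _ _)) (h2.trans_le (min_le_right _ _))
    have e3 : F t' = F t * T (γ t) (γ t') := by rw [e1]; group
    show F t • (0 : ZMod 5) = F t' • (0 : ZMod 5)
    rw [e3, mul_smul, e2]) 1 (right_mem_Icc.2 zero_le_one)
  simp only [hF0, hF1, one_smul] at key
  exact key

/-- extension of a section over a thin set, relative to a set `H` -/
theorem ext_section {T : Ω → Ω → Aff} {H W S : Set Ω} {c0 : Ω → ZMod 5} (hT : GFlat T S)
    (hd : ∀ a ∈ S, ∀ ε > 0, ∃ x ∈ W, dist x a < ε)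
    (hc : ∀ a ∈ S, ∃ ε > 0, ∀ x ∈ W, ∀ y ∈ W, dist x a < ε → dist y a < ε →
      c0 x = T x y • c0 y)
    (ho : ∀ a ∈ S, ∃ ε > 0, ∀ x ∈ H, dist x a < ε → x ∈ S) :
    ∃ c : Ω → ZMod 5, (∀ x ∈ W, x ∈ S → c x = c0 x) ∧ ∀ a ∈ S, ∃ ε > 0, ∀ x ∈ H, ∀ y ∈ H,
      dist x a < ε → dist y a < ε → c x = T x y • c y := by
  classical
  choose! e1 he1 hfl using hT
  choose! e2 he2 hcc using hc
  choose! e3 he3 hoo using ho
  choose! w hwW hw using hd
  let c : Ω → ZMod 5 := fun x => T x (w x (min (e1 x) (e2 x))) • c0 (w x (min (e1 x) (e2 x)))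
  have hm : ∀ a ∈ S, 0 < min (e1 a) (e2 a) := fun a ha => lt_min (he1 a ha) (he2 a ha)
  have key : ∀ x ∈ S, ∀ v ∈ W, dist v x < min (e1 x) (e2 x) → c x = T x v • c0 v := by
    intro x hx v hv hvx
    have h1 := hw x hx _ (hm x hx)
    have h2 := hwW x hx _ (hm x hx)
    set v' := w x (min (e1 x) (e2 x)) with hv'
    have h3 : c x = T x v' • c0 v' := rfl
    rw [h3, hcc x hx v' h2 v hv (h1.trans_le (min_le_right _ _)) (hvx.trans_le (min_le_right _ _)),
      ← mul_smul, hfl x hx x v' v (by simpa using he1 x hx) (h1.trans_le (min_le_left _ _))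
        (hvx.trans_le (min_le_left _ _))]
  refine ⟨c, ?_, ?_⟩
  · intro x hxW hx
    rw [key x hx x hxW (by simpa using hm x hx)]
    have := hfl x hx x x x (by simpa using he1 x hx) (by simpa using he1 x hx) (by simpa using he1 x hx)
    rw [mul_eq_left.1 this, one_smul]
  · intro a ha
    have hr : 0 < min (min (e1 a) (e2 a)) (e3 a) := lt_min (hm a ha) (he3 a ha)
    set r := min (min (e1 a) (e2 a)) (e3 a) with hrdef
    have r1 : r ≤ e1 a := (min_le_left _ _).trans (min_le_left _ _)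
    have r2 : r ≤ e2 a := (min_le_left _ _).trans (min_le_right _ _)
    have r3 : r ≤ e3 a := min_le_right _ _
    have app : ∀ x ∈ H, dist x a < r → ∃ v ∈ W, dist v a < r ∧ c x = T x v • c0 v := by
      intro x hxH hx
      have hxS := hoo a ha x hxH (hx.trans_le r3)
      have hp : 0 < min (min (e1 x) (e2 x)) (r - dist x a) := lt_min (hm x hxS) (by linarith)
      refine ⟨w x _, hwW x hxS _ hp, ?_, ?_⟩
      · have h1 := (hw x hxS _ hp).trans_le (min_le_right _ _)
        calc dist (w x _) a ≤ dist (w x _) x + dist x a := dist_triangle _ _ _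
          _ < r := by linarith
      · exact key x hxS _ (hwW x hxS _ hp) ((hw x hxS _ hp).trans_le (min_le_left _ _))
    refine ⟨r, hr, fun x hxH y hyH hx hy => ?_⟩
    obtain ⟨v, hvW, hva, hcx⟩ := app x hxH hx
    obtain ⟨v', hvW', hva', hcy⟩ := app y hyH hy
    rw [hcx, hcy, hcc a ha v hvW v' hvW' (hva.trans_le r2) (hva'.trans_le r2), ← mul_smul,
      ← mul_smul, hfl a ha x v v' (hx.trans_le r1) (hva.trans_le r1) (hva'.trans_le r1),
      hfl a ha x y v' (hx.trans_le r1) (hy.trans_le r1) (hva'.trans_le r1)]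

end sections

end Pool.Agent.H753
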