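import Pool.Agent.H753.Top
import Pool.Agent.H753.Disc3

/-! The smooth isotopy between the two discs. -/

set_option autoImplicit false

namespace Pool.Agent.H753

open Set Filter Topology
open scoped ContDiff

noncomputable def rot (θ : ℝ) (p : E4) : E4 :=
  mk4 (Real.cos θ * p 0 - Real.sin θ * p 3) (p 1) (p 2) (Real.sin θ * p 0 + Real.cos θ * p 3)

theorem nsq_rot (θ : ℝ) (p : E4) : nsq (rot θ p) = nsq p := by
  have h := Real.sin_sq_add_cos_sq θ
  unfold nsq rot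
  simp only [mk4_0, mk4_1, mk4_2, mk4_3]
  have : (Real.cos θ * p 0 - Real.sin θ * p 3) ^ 2 + (Real.sin θ * p 0 + Real.cos θ * p 3) ^ 2 =
      (Real.sin θ ^ 2 + Real.cos θ ^ 2) * (p 0 ^ 2 + p 3 ^ 2) := by ring
  rw [h] at this
  linarith

theorem zt_rot (θ : ℝ) (p : E4) : zt (rot θ p) = zt p := by simp [zt, rot]

theorem rot_neg (θ : ℝ) (p : E4) : rot (-θ) (rot θ p) = p := by
  have h := Real.sin_sq_add_cos_sq θ
  unfold rot
  simp only [Real.cos_neg, Real.sin_neg, mk4_0, mk4_1, mk4_2, mk4_3]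
  apply E4_ext
  · simp only [mk4_0]
    linear_combination p 0 * h
  · simp
  · simp
  · simp only [mk4_3]
    linear_combination p 3 * h

theorem rot_neg' (θ : ℝ) (p : E4) : rot θ (rot (-θ) p) = p := by
  have := rot_neg (-θ) p
  rwa [neg_neg] at this

theorem rot_zero (p : E4) : rot 0 p = p := by
  apply E4_ext <;> simp [rot]

theorem rot_quarter (p : E4) : rot (Real.pi / 2) p = r4 p := by
  apply E4_ext <;> simp [rot, r4]

/-- cut off angle -/
noncomputable def ang (p : E4) : ℝ := Real.pi / 2 * sg (3 - 4 * nsq p)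

theorem ang_rot (θ : ℝ) (p : E4) : ang (rot θ p) = ang p := by unfold ang; rw [nsq_rot]

theorem ang_in {p : E4} (h : nsq p ≤ 1/2) : ang p = Real.pi / 2 := by
  unfold ang; rw [sg_one (by linarith), mul_one]

theorem ang_out {p : E4} (h : 3/4 ≤ nsq p) : ang p = 0 := by
  unfold ang; rw [sg_zero (by linarith), mul_zero]

noncomputable def Phi (x : ℝ × E4) : E4 := rot (x.1 * ang x.2) x.2
noncomputable def Psi (x : ℝ × E4) : E4 := rot (-(x.1 * ang x.2)) x.2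

theorem ang_contDiff {n : ℕ∞} : ContDiff ℝ n ang := by
  have h1 := sg_contDiff (n := n)
  have h2 := nsq_contDiff (n := n)
  unfold ang; fun_prop

theorem Phi_contDiff {n : ℕ∞} : ContDiff ℝ n Phi := by
  have h1 : ContDiff ℝ n (fun x : ℝ × E4 => x.1 * ang x.2) :=
    contDiff_fst.mul ((ang_contDiff (n := n)).comp contDiff_snd)
  have hc := h1.cos
  have hs := h1.sin
  unfold Phi rot
  exact contDiff_mk4 (by fun_prop) (by fun_prop) (by fun_prop) (by fun_prop)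

theorem Psi_contDiff {n : ℕ∞} : ContDiff ℝ n Psi := by
  have h1 : ContDiff ℝ n (fun x : ℝ × E4 => -(x.1 * ang x.2)) :=
    (contDiff_fst.mul ((ang_contDiff (n := n)).comp contDiff_snd)).neg
  have hc := h1.cos
  have hs := h1.sin
  unfold Psi rot
  exact contDiff_mk4 (by fun_prop) (by fun_prop) (by fun_prop) (by fun_prop)

theorem Psi_Phi (t : ℝ) (p : E4) : Psi (t, Phi (t, p)) = p := by
  show rot (-(t * ang (rot (t * ang p) p))) (rot (t * ang p) p) = p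
  rw [ang_rot, rot_neg]

theorem Phi_Psi (t : ℝ) (p : E4) : Phi (t, Psi (t, p)) = p := by
  show rot (t * ang (rot (-(t * ang p)) p)) (rot (-(t * ang p)) p) = p
  rw [ang_rot, rot_neg']

theorem nsq_Phi (t : ℝ) (p : E4) : nsq (Phi (t, p)) = nsq p := nsq_rot _ _
theorem nsq_Psi (t : ℝ) (p : E4) : nsq (Psi (t, p)) = nsq p := nsq_rot _ _

theorem Phi_sphere (t : ℝ) {p : E4} (h : nsq p = 1) : Phi (t, p) = p := by
  show rot (t * ang p) p = p
  rw [ang_out (by rw [h]; norm_num), mul_zero, rot_zero]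

theorem Phi_zero (p : E4) : Phi (0, p) = p := by
  show rot (0 * ang p) p = p
  rw [zero_mul, rot_zero]

theorem Phi_mem {p : E4} : Phi (1, p) ∈ D2 ↔ p ∈ D1 := by
  show (nsq (Phi (1, p)) ≤ 1 ∧ Phi (1, p) ∈ DD2) ↔ (nsq p ≤ 1 ∧ r4 p ∈ DD2)
  rw [nsq_Phi]
  apply and_congr_right
  intro _
  rcases le_or_gt (nsq p) (1/2) with h | h
  · have : Phi (1, p) = r4 p := by
      show rot (1 * ang p) p = r4 p
      rw [ang_in h, one_mul, rot_quarter]
    rw [this]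
  · rw [DD2_out (by rw [nsq_Phi]; linarith), DD2_out (by rw [nsq_r4]; linarith), zt_r4]
    show zt (rot _ p) = 0 ↔ _
    rw [zt_rot]

theorem Phi_image : (fun x => Phi (1, x)) '' D1 = D2 := by
  apply Subset.antisymm
  · rintro _ ⟨p, hp, rfl⟩; exact Phi_mem.2 hp
  · intro p hp
    refine ⟨Psi (1, p), ?_, Phi_Psi 1 p⟩
    rw [← Phi_mem, Phi_Psi]; exact hp

/-! ### the discs -/

theorem nsq_le_iff {p : E4} : nsq p ≤ 1 ↔ p ∈ Metric.closedBall (0 : E4) 1 := by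
  rw [← BB_eq]; exact Iff.rfl
theorem nsq_eq_iff {p : E4} : nsq p = 1 ↔ p ∈ Metric.sphere (0 : E4) 1 := by
  rw [← SS_eq]; exact Iff.rfl
theorem n2_le_iff {q : E2} : n2 q ≤ 1 ↔ q ∈ Metric.closedBall (0 : E2) 1 := by
  rw [mem_closedBall_zero_iff, ← norm_sq_E2]
  constructor
  · intro h; nlinarith [norm_nonneg q]
  · intro h; nlinarith [norm_nonneg q]
theorem n2_eq_iff {q : E2} : n2 q = 1 ↔ q ∈ Metric.sphere (0 : E2) 1 := by
  rw [mem_sphere_zero_iff_norm, ← norm_sq_E2]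
  constructor
  · intro h; nlinarith [norm_nonneg q]
  · intro h; rw [h]; norm_num

/-- the boundary circle -/
def KK0 : Set E4 := {p | nsq p = 1 ∧ zt p = 0}

theorem e2_image : e2 '' Metric.closedBall (0 : E2) 1 = D2 := by
  apply Subset.antisymm
  · rintro _ ⟨q, hq, rfl⟩
    exact ⟨(e2_le q).2 (n2_le_iff.2 hq), e2_mem q⟩
  · rintro p ⟨h1, h2⟩
    rw [← e2_range] at h2
    obtain ⟨q, rfl⟩ := h2
    exact ⟨q, n2_le_iff.1 ((e2_le q).1 h1), rfl⟩

theorem D2_sphere : D2 ∩ Metric.sphere (0 : E4) 1 = KK0 := by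
  ext p
  constructor
  · rintro ⟨⟨_, h2⟩, h3⟩
    rw [← nsq_eq_iff] at h3
    exact ⟨h3, (DD2_out (by rw [h3]; norm_num)).1 h2⟩
  · rintro ⟨h1, h2⟩
    exact ⟨⟨h1.le, (DD2_out (by rw [h1]; norm_num)).2 h2⟩, nsq_eq_iff.1 h1⟩

theorem e2_sphere : e2 '' Metric.sphere (0 : E2) 1 = KK0 := by
  rw [← D2_sphere, ← e2_image]
  apply Subset.antisymm
  · rintro _ ⟨q, hq, rfl⟩
    exact ⟨⟨q, Metric.sphere_subset_closedBall hq, rfl⟩, nsq_eq_iff.1 ((e2_eq q).2 (n2_eq_iff.2 hq))⟩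
  · rintro _ ⟨⟨q, hq, rfl⟩, h⟩
    exact ⟨q, n2_eq_iff.1 ((e2_eq q).1 (nsq_eq_iff.2 h)), rfl⟩

theorem r4'_KK0 : r4' '' KK0 = KK0 := by
  apply Subset.antisymm
  · rintro _ ⟨p, ⟨h1, h2⟩, rfl⟩
    exact ⟨by rw [nsq_r4']; exact h1, by rw [zt_r4']; exact h2⟩
  · rintro p ⟨h1, h2⟩
    exact ⟨r4 p, ⟨by rw [nsq_r4]; exact h1, by rw [zt_r4]; exact h2⟩, r4'_r4 p⟩

theorem r4'_D2 : r4' '' D2 = D1 := by
  apply Subset.antisymm
  · rintro _ ⟨p, ⟨h1, h2⟩, rfl⟩
    exact ⟨by rw [nsq_r4']; exact h1, by rw [r4_r4']; exact h2⟩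
  · rintro p ⟨h1, h2⟩
    exact ⟨r4 p, ⟨by rw [nsq_r4]; exact h1, h2⟩, r4'_r4 p⟩

theorem r4'_contDiff {n : WithTop ℕ∞} : ContDiff ℝ n r4' := by
  unfold r4'; exact contDiff_mk4 (by fun_prop) (by fun_prop) (by fun_prop) (by fun_prop)
theorem r4_contDiff {n : WithTop ℕ∞} : ContDiff ℝ n r4 := by
  unfold r4; exact contDiff_mk4 (by fun_prop) (by fun_prop) (by fun_prop) (by fun_prop)

theorem rho4_D2 : rho4 '' D2 = D2 := by
  apply Subset.antisymm
  · rintro _ ⟨p, ⟨h1, h2⟩, rfl⟩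
    exact ⟨by rw [nsq_rho4]; exact h1, rho4_mem_DD2.2 h2⟩
  · rintro p ⟨h1, h2⟩
    exact ⟨rho4 p, ⟨by rw [nsq_rho4]; exact h1, rho4_mem_DD2.2 h2⟩, rho4_rho4 p⟩

theorem rho4_D1 : rho4 '' D1 = D1 := by
  have key : ∀ {p}, p ∈ D1 → rho4 p ∈ D1 := by
    rintro p ⟨h1, h2⟩
    exact ⟨by rw [nsq_rho4]; exact h1, by rw [r4_rho4, rho5_mem_DD2]; exact h2⟩
  apply Subset.antisymm
  · rintro _ ⟨p, hp, rfl⟩; exact key hp
  · intro p hp
    exact ⟨rho4 p, key hp, rho4_rho4 p⟩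

/-- transversality to the sphere -/
theorem io_transverse {f : E2 → E4} {q : E2} {L : E4 → E4} (hL : ContDiff ℝ 1 L)
    (hlin : ∀ p, inner ℝ (L p) (fderiv ℝ L p p) = nsq p) (hq : n2 q = 1)
    (hf : ∀ᶠ x in 𝓝 q, f x = L (io x)) : ∃ v, inner ℝ (f q) (fderiv ℝ f q v) ≠ 0 := by
  refine ⟨q, ?_⟩
  have e : f =ᶠ[𝓝 q] fun x => L (io x) := hf
  rw [e.fderiv_eq, hf.self_of_nhds]
  have h1 : fderiv ℝ (L ∘ io) q = (fderiv ℝ L (io q)).comp (fderiv ℝ io q) :=
    fderiv_comp q (diff_of hL _) (diff_of io_contDiff _)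
  have h2 : (fun x => L (io x)) = L ∘ io := rfl
  rw [h2, h1, ContinuousLinearMap.comp_apply]
  have h3 : fderiv ℝ io q q = io q := by
    have hl : IsBoundedLinearMap ℝ io := by
      have : IsLinearMap ℝ io := by
        constructor
        · intro x y; apply E4_ext <;> simp [io]
        · intro c x; apply E4_ext <;> simp [io]
      exact (this.mk' io).toContinuousLinearMap.isBoundedLinearMap
    rw [hl.fderiv]
    rfl
  rw [h3, hlin, nsq_io, hq]
  exact one_ne_zero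

end Pool.Agent.H753
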