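import Pool.Agent.H753.Region

/-! Frames on the complement of the long figure eight knot. -/

set_option autoImplicit false

namespace Pool.Agent.H753

open Set Filter Topology Pool.Agent.Helper60.AS

/-! ### more on the set -/

theorem Tau_pos {x y t : ℝ} (ht : 0 < t) (h : ((x, y, t) : R3) ∈ Tau) :
    (-4 < x ∧ x < -7/4 ∧ y = ff x ∧ t = kk x) ∨
    (0 < x ∧ x < 7/4 ∧ y = -ff (-x) ∧ t = -kk (-x)) := by
  rcases h with ⟨h1, h2, h3⟩ | ⟨_, _, _, h3⟩ | ⟨h1, h2, h3⟩ | ⟨h1, _⟩ | ⟨h1, _⟩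
  · simp only at h1 h2 h3
    left
    refine ⟨?_, ?_, h2, h3⟩
    · by_contra hc
      have := kk_zero_left (not_lt.1 hc)
      linarith
    · by_contra hc
      rcases (not_lt.1 hc).eq_or_lt with h | h
      · rw [← h, kk_mid] at h3; linarith
      · rcases lt_or_ge x 0 with h' | h'
        · have := kk_neg h h'; linarith
        · have := kk_zero_right h'; linarith
  · simp only at h3; linarith
  · simp only [Prod.fst_neg, Prod.snd_neg] at h1 h2 h3
    right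
    have hk : kk (-x) < 0 := by linarith
    refine ⟨?_, ?_, by linarith, by linarith⟩
    · by_contra hc
      have := kk_zero_right (x := -x) (by linarith)
      linarith
    · by_contra hc
      rcases (not_lt.1 hc).eq_or_lt with h | h
      · rw [← h, show -(7/4:ℝ) = -7/4 by ring, kk_mid] at hk; linarith
      · rcases lt_or_ge (-4) (-x) with h' | h'
        · have := kk_pos h' (by linarith); linarith
        · have := kk_zero_left h'; linarith
  · simp only at h1; linarith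
  · simp only [Prod.snd_neg] at h1; linarith

theorem Tau_height {x y t : ℝ} (h : ((x, y, t) : R3) ∈ Tau) : t ≤ 1 := by
  by_contra hc
  push Not at hc
  rcases Tau_pos (by linarith) h with ⟨_, _, _, h⟩ | ⟨_, _, _, h⟩
  · have := kk_le_one x; linarith
  · have := kk_ge (-x); linarith

theorem Tau_width {x y t : ℝ} (h : ((x, y, t) : R3) ∈ Tau) : y ≤ 2 := by
  rcases h with ⟨h1, h2, h3⟩ | ⟨_, _, h2, h3⟩ | ⟨h1, h2, h3⟩ | ⟨h1, h2, h3, h4⟩ | ⟨h1, h2, h3, h4⟩
  · simp only at h1 h2 h3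
    have := ff_le_two h1; linarith
  · simp only at h2; linarith
  · simp only [Prod.fst_neg, Prod.snd_neg] at h1 h2 h3
    have := ff_ge h1; linarith
  · exact h3
  · simp only [Prod.fst_neg, Prod.snd_neg] at h1 h2 h3
    linarith

theorem Tau_neg3 {x y t : ℝ} : ((-x, -y, -t) : R3) ∈ Tau ↔ ((x, y, t) : R3) ∈ Tau :=
  Tau_neg (p := (x, y, t))

theorem Tau_width' {x y t : ℝ} (h : ((x, y, t) : R3) ∈ Tau) : -2 ≤ y := by
  have := Tau_width (Tau_neg3.2 h); linarith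

theorem offG_all {x y : ℝ} (h : OffG x y) (t : ℝ) : ((x, y, t) : R3) ∉ Tau := by
  obtain ⟨h1, h2, h3, h4, h5⟩ := h
  rintro (⟨a1, a2, a3⟩ | ⟨a1, a2, a3, a4⟩ | ⟨a1, a2, a3⟩ | ⟨a1, a2, a3, a4⟩ | ⟨a1, a2, a3, a4⟩)
  · exact h1 a1 a2
  · exact h3 a1 a2 a3
  · simp only [Prod.fst_neg, Prod.snd_neg] at a1 a2 a3
    exact h2 (by linarith) (by linarith)
  · exact h4 ⟨a2, a3, a4⟩
  · simp only [Prod.fst_neg, Prod.snd_neg] at a1 a2 a3 a4
    exact h5 ⟨by linarith, by linarith, a4⟩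

theorem lerp_gt {l a b s : ℝ} (ha : l < a) (hb : l < b) (h0 : 0 ≤ s) (h1 : s ≤ 1) :
    l < a + s * (b - a) := by
  rcases le_total a b with h | h
  · nlinarith [mul_nonneg h0 (sub_nonneg.2 h)]
  · nlinarith [mul_nonneg (sub_nonneg.2 h1) (sub_nonneg.2 h)]

theorem lerp_lt {l a b s : ℝ} (ha : a < l) (hb : b < l) (h0 : 0 ≤ s) (h1 : s ≤ 1) :
    a + s * (b - a) < l := by
  have := lerp_gt (l := -l) (a := -a) (b := -b) (by linarith) (by linarith) h0 h1
  nlinarith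

/-! ### local constancy -/

/-- locally constant near the points of a set -/
def LC {X : Type*} (f : R3 → X) (S : Set R3) : Prop :=
  ∀ a ∈ S, ∃ ε > 0, ∀ x y, dist x a < ε → dist y a < ε → f x = f y

theorem LC.path {X : Type*} {f : R3 → X} {S : Set R3} (hf : LC f S) {γ : ℝ → R3}
    (hγ : ContinuousOn γ (Icc 0 1)) (hm : ∀ s ∈ Icc (0:ℝ) 1, γ s ∈ S) : f (γ 0) = f (γ 1) := by
  have key := eq_of_loc_const (f := fun t => f (γ t)) (by
    intro s hs
    obtain ⟨e, he, h⟩ := hf _ (hm s hs)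
    obtain ⟨δ, hδ, hd⟩ := Metric.continuousOn_iff.1 hγ s hs e he
    exact ⟨δ, hδ, fun t ht t' ht' h2 h3 => h _ _ (hd t ht h2) (hd t' ht' h3)⟩) 1
    (right_mem_Icc.2 zero_le_one)
  exact key.symm

/-- straight segments -/
theorem LC.seg {X : Type*} {f : R3 → X} {S : Set R3} (hf : LC f S) {p q : R3}
    (hm : ∀ s ∈ Icc (0:ℝ) 1, p + s • (q - p) ∈ S) : f p = f q := by
  have := hf.path (γ := fun s => p + s • (q - p)) (by fun_prop) hm
  simpa using this

/-! ### the upper frame -/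

/-- the vertical upward ray is free -/
def Ut (p : R3) : Prop := ∀ t, p.2.2 ≤ t → ((p.1, p.2.1, t) : R3) ∉ Tau

theorem Ut.not_mem {p : R3} (h : Ut p) : p ∉ Tau := h p.2.2 le_rfl

/-- contraction to the point `(0, 0, 2)` -/
noncomputable def Kup (s : ℝ) (p : R3) : R3 :=
  (min 1 (2 - 2 * s) * p.1, min 1 (2 - 2 * s) * p.2.1, p.2.2 + min 1 (2 * s) * (2 - p.2.2))

theorem Kup_zero (p : R3) : Kup 0 p = p := by
  unfold Kup; norm_num

theorem Kup_one (p : R3) : Kup 1 p = (0, 0, 2) := by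
  unfold Kup; norm_num

theorem Kup_mem {p : R3} (h : Ut p) {s : ℝ} (hs : s ∈ Icc (0:ℝ) 1) : Kup s p ∉ Tau := by
  unfold Kup
  rcases le_total s (1/2) with h1 | h1
  · rw [min_eq_left (a := (1:ℝ)) (b := 2 - 2 * s) (by linarith), min_eq_right (b := 2 * s) (by linarith),
      one_mul, one_mul]
    rcases le_total p.2.2 2 with h2 | h2
    · exact h _ (by nlinarith [hs.1])
    · intro hc
      have := Tau_height hc
      nlinarith [hs.1]
  · rw [min_eq_left (b := 2 * s) (by linarith)]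
    intro hc
    have := Tau_height hc
    linarith

theorem exists_frame {T : R3 → R3 → Aff} (hT : GFlat T Tauᶜ) : ∃ u : R3 → Aff, ∀ a, Ut a →
    ∃ ε > 0, ∀ x y, dist x a < ε → dist y a < ε → T x y = u x * (u y)⁻¹ := by
  obtain ⟨u, hu, -⟩ := transport_lemma (R := {p | Ut p}) hT (K := Kup)
    (fun s _ a _ => by
      have : Continuous (fun p : ℝ × R3 => Kup p.1 p.2) := by unfold Kup; fun_prop
      exact this.continuousAt) (fun s hs a ha => Kup_mem ha hs)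
  refine ⟨u, fun a ha => ?_⟩
  obtain ⟨ε, hε, h⟩ := hu a ha
  have hN : (((0:ℝ), (0:ℝ), (2:ℝ)) : R3) ∉ Tau := fun hc => by
    have := Tau_height hc; linarith
  have hTN : T (0, 0, 2) (0, 0, 2) = 1 := by
    obtain ⟨e, he, h⟩ := (hT _ hN).one
    exact h _ (by simpa using he)
  refine ⟨ε, hε, fun x y hx hy => ?_⟩
  have := h x y hx hy
  simp only [Kup_zero, Kup_one, hTN] at this
  rw [← mul_right_inj (u x)⁻¹, ← mul_left_inj (u y), ← this]; group

/-- the transition from the upper to the lower frame -/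
noncomputable def EE (u : R3 → Aff) (p : R3) : Aff := (u p)⁻¹ * u (-p)

theorem EE_neg (u : R3 → Aff) (p : R3) : EE u (-p) = (EE u p)⁻¹ := by
  unfold EE; rw [neg_neg]; group

section frames

variable {T : R3 → R3 → Aff} {u : R3 → Aff}

theorem frame_neg (hinv : ∀ x y, T (-x) (-y) = T x y)
    (hu : ∀ a, Ut a → ∃ ε > 0, ∀ x y, dist x a < ε → dist y a < ε → T x y = u x * (u y)⁻¹) {a : R3}
    (ha : Ut (-a)) : ∃ ε > 0, ∀ x y, dist x a < ε → dist y a < ε → T x y = u (-x) * (u (-y))⁻¹ := by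
  obtain ⟨ε, hε, h⟩ := hu (-a) ha
  refine ⟨ε, hε, fun x y hx hy => ?_⟩
  rw [← hinv]
  exact h _ _ (by rwa [dist_neg_neg]) (by rwa [dist_neg_neg])

theorem EE_LC (hinv : ∀ x y, T (-x) (-y) = T x y)
    (hu : ∀ a, Ut a → ∃ ε > 0, ∀ x y, dist x a < ε → dist y a < ε → T x y = u x * (u y)⁻¹) :
    LC (EE u) {p | Ut p ∧ Ut (-p)} := by
  rintro a ⟨h1, h2⟩
  obtain ⟨ε, hε, h⟩ := hu a h1
  obtain ⟨ε', hε', h'⟩ := frame_neg hinv hu h2
  refine ⟨min ε ε', lt_min hε hε', fun x y hx hy => ?_⟩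
  have e1 := h x y (hx.trans_le (min_le_left _ _)) (hy.trans_le (min_le_left _ _))
  have e2 := h' x y (hx.trans_le (min_le_right _ _)) (hy.trans_le (min_le_right _ _))
  unfold EE
  have e3 : u (-x) = u x * (u y)⁻¹ * u (-y) := by rw [← e1, e2]; group
  rw [e3]; group

/-- the curtain under an upper arc -/
theorem curtain (hT : GFlat T Tauᶜ) (hinv : ∀ x y, T (-x) (-y) = T x y)
    (hu : ∀ a, Ut a → ∃ ε > 0, ∀ x y, dist x a < ε → dist y a < ε → T x y = u x * (u y)⁻¹)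
    {l r : ℝ} (hlr : l < r) {φ κ : ℝ → ℝ} (cφ : Continuous φ) (cκ : Continuous κ)
    (hκ : ∀ x, l < x → x < r → 0 < κ x)
    (c1 : ∀ x y h, l < x → x < r → 0 < h → ((x, y, h) : R3) ∈ Tau → y = φ x ∧ h = κ x)
    (c3 : ∀ x y h, l < x → x < r → h < 0 → ((x, y, h) : R3) ∉ Tau)
    (c4 : ∀ x, l < x → x < r → ((x, φ x, κ x) : R3) ∈ Tau) :
    ∃ g : Aff, (∀ a : R3, l < a.1 → a.1 < r → 0 ≤ a.2.2 → a.2.2 < κ a.1 → a ∉ Tau →
      ∃ ε > 0, ∀ x y, dist x a < ε → dist y a < ε → Ut x → Ut y → 0 ≤ x.2.2 → 0 ≤ y.2.2 →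
        (T x y = u x * (u y)⁻¹ ∨ T x y = u x * g * (u y)⁻¹ ∨ T x y = u x * g⁻¹ * (u y)⁻¹)) ∧
      (∀ x₀ η, l < x₀ → x₀ < r → 0 < η →
        (∀ y, φ x₀ - η ≤ y → y ≤ φ x₀ + η → ((x₀, y, 0) : R3) ∉ Tau) →
        EE u (x₀, φ x₀ + η, 0) * (EE u (x₀, φ x₀ - η, 0))⁻¹ = g) := by
  set V : Set R3 := {p | l < p.1 ∧ p.1 < r ∧ 0 ≤ p.2.2 ∧ p.2.2 < κ p.1 ∧ p ∉ Tau} with hV
  -- points under the arc
  have under : ∀ x y h, l < x → x < r → 0 < h → h < κ x → ((x, y, h) : R3) ∉ Tau := by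
    intro x y h h1 h2 h3 h4 hc
    have := (c1 x y h h1 h2 h3 hc).2
    linarith
  let e : ℝ → R3 → R3 := fun s p => (p.1, p.2.1 + s * (3 - p.2.1), p.2.2 + s * ((κ p.1 - p.2.2) / 2))
  have e0 : ∀ p, e 0 p = p := by intro p; simp [e]
  have e_mem : ∀ s ∈ Icc (0:ℝ) 1, ∀ p ∈ V, e s p ∈ Tauᶜ := by
    rintro s hs p ⟨h1, h2, h3, h4, h5⟩
    rcases hs.1.eq_or_lt with h6 | h6
    · rw [← h6, e0]; exact h5
    · exact under _ _ _ h1 h2 (by nlinarith) (by nlinarith [hs.2])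
  have ce : Continuous (fun q : ℝ × R3 => e q.1 q.2) := by
    show Continuous (fun q : ℝ × R3 => ((q.2.1, q.2.2.1 + q.1 * (3 - q.2.2.1),
      q.2.2.2 + q.1 * ((κ q.2.1 - q.2.2.2) / 2)) : R3))
    fun_prop
  obtain ⟨g₁, hg₁, -⟩ := transport_lemma (R := V) hT (K := e) (fun s _ a _ => ce.continuousAt) e_mem
  -- the frame under the arc
  have hu1 : ∃ u1 : R3 → Aff, ∀ a ∈ V, ∃ ε > 0, ∀ x y, dist x a < ε → dist y a < ε →
      T x y = u1 x * (u1 y)⁻¹ := by
    refine ⟨fun p => g₁ p * u (e 1 p), fun a ha => ?_⟩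
    have hUt : Ut (e 1 a) := by
      intro t _ hc
      have := Tau_width hc
      have h3 : (e 1 a).2.1 = 3 := by simp [e]
      rw [h3] at this; linarith
    obtain ⟨ε, hε, h⟩ := hg₁ a ha
    obtain ⟨ε', hε', h'⟩ := hu _ hUt
    have ce1 : Continuous (e 1) := by
      have : e 1 = (fun q : ℝ × R3 => e q.1 q.2) ∘ (fun p => ((1:ℝ), p)) := rfl
      rw [this]; exact ce.comp (by fun_prop)
    obtain ⟨δ, hδ, hd⟩ := Metric.continuousAt_iff.1 (ce1.continuousAt (x := a)) ε' hε'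
    refine ⟨min ε δ, lt_min hε hδ, fun x y hx hy => ?_⟩
    have i1 := h x y (hx.trans_le (min_le_left _ _)) (hy.trans_le (min_le_left _ _))
    have i2 := h' _ _ (hd (hx.trans_le (min_le_right _ _))) (hd (hy.trans_le (min_le_right _ _)))
    simp only [e0] at i1
    rw [i2] at i1
    have i3 : T x y = g₁ x * (u (e 1 x) * (u (e 1 y))⁻¹) * (g₁ y)⁻¹ := by rw [i1]; group
    rw [i3]; group
  obtain ⟨u1, hu1⟩ := hu1
  -- `u⁻¹ u1` is locally constant on the part of `V` with free upward rays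
  have jLC : LC (fun p => (u p)⁻¹ * u1 p) {p | p ∈ V ∧ Ut p} := by
    rintro a ⟨h1, h2⟩
    obtain ⟨ε, hε, h⟩ := hu a h2
    obtain ⟨ε', hε', h'⟩ := hu1 a h1
    refine ⟨min ε ε', lt_min hε hε', fun x y hx hy => ?_⟩
    have i1 := h x y (hx.trans_le (min_le_left _ _)) (hy.trans_le (min_le_left _ _))
    have i2 := h' x y (hx.trans_le (min_le_right _ _)) (hy.trans_le (min_le_right _ _))
    show (u x)⁻¹ * u1 x = (u y)⁻¹ * u1 y
    have i3 : u1 x = u x * (u y)⁻¹ * u1 y := by rw [← i1, i2]; group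
    rw [i3]; group
  have Utiff : ∀ p ∈ V, (Ut p ↔ p.2.1 ≠ φ p.1) := by
    rintro p ⟨h1, h2, h3, h4, h5⟩
    constructor
    · intro h hc
      refine h (κ p.1) h4.le ?_
      rw [hc]; exact c4 _ h1 h2
    · intro h t ht hc
      rcases (h3.trans ht).eq_or_lt with h6 | h6
      · apply h5
        have : t = p.2.2 := by linarith
        rw [this] at hc; exact hc
      · exact h (c1 _ _ _ h1 h2 h6 hc).1
  -- comparison along a path in the coordinates `(x, y - φ x, h / κ x)`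
  have jconst : ∀ p ∈ V, ∀ x' η' : ℝ, l < x' → x' < r →
      ((0 < p.2.1 - φ p.1 ∧ 0 < η') ∨ (p.2.1 - φ p.1 < 0 ∧ η' < 0)) →
      (u p)⁻¹ * u1 p = (u (x', φ x' + η', κ x' / 2))⁻¹ * u1 (x', φ x' + η', κ x' / 2) := by
    rintro p ⟨h1, h2, h3, h4, h5⟩ x' η' hx1 hx2 hη
    have hk0 := hκ _ h1 h2
    let X : ℝ → ℝ := fun s => p.1 + s * (x' - p.1)
    let Hh : ℝ → ℝ := fun s => (p.2.1 - φ p.1) + s * (η' - (p.2.1 - φ p.1))
    let Λ : ℝ → ℝ := fun s => p.2.2 / κ p.1 + s * (1/2 - p.2.2 / κ p.1)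
    have cX : Continuous X := by fun_prop
    have cH : Continuous Hh := by fun_prop
    have cL : Continuous Λ := by fun_prop
    have hΛ0 : 0 ≤ p.2.2 / κ p.1 := div_nonneg h3 hk0.le
    have hΛ1 : p.2.2 / κ p.1 < 1 := (div_lt_one hk0).2 h4
    have key := jLC.path (γ := fun s => (X s, φ (X s) + Hh s, Λ s * κ (X s)))
      (Continuous.continuousOn (by fun_prop)) (by
        intro s hs
        have hX1 : l < X s := lerp_gt h1 hx1 hs.1 hs.2
        have hX2 : X s < r := lerp_lt h2 hx2 hs.1 hs.2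
        have hkX := hκ _ hX1 hX2
        have hL1 : Λ s < 1 := by
          show p.2.2 / κ p.1 + s * (1/2 - p.2.2 / κ p.1) < 1
          nlinarith [hs.1, hs.2]
        have hL0 : 0 ≤ Λ s := by
          show 0 ≤ p.2.2 / κ p.1 + s * (1/2 - p.2.2 / κ p.1)
          nlinarith [hs.1, hs.2]
        have hne : Hh s ≠ 0 := by
          rcases hη with ⟨a1, a2⟩ | ⟨a1, a2⟩
          · exact (lerp_gt a1 a2 hs.1 hs.2).ne'
          · exact (lerp_lt a1 a2 hs.1 hs.2).ne
        have hV' : ((X s, φ (X s) + Hh s, Λ s * κ (X s)) : R3) ∈ V := by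
          refine ⟨hX1, hX2, mul_nonneg hL0 hkX.le, by nlinarith, ?_⟩
          rcases hs.1.eq_or_lt with h6 | h6
          · have q1 : X s = p.1 := by rw [← h6]; simp [X]
            have q2 : Hh s = p.2.1 - φ p.1 := by rw [← h6]; simp [Hh]
            have q3 : Λ s = p.2.2 / κ p.1 := by rw [← h6]; simp [Λ]
            rw [q1, q2, q3, div_mul_cancel₀ _ hk0.ne', add_sub_cancel]
            exact h5
          · refine under _ _ _ hX1 hX2 ?_ (by nlinarith)
            have : 0 < Λ s := by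
              show 0 < p.2.2 / κ p.1 + s * (1/2 - p.2.2 / κ p.1)
              nlinarith [hs.2]
            positivity
        refine ⟨hV', (Utiff _ hV').2 ?_⟩
        show φ (X s) + Hh s ≠ φ (X s)
        intro hc
        apply hne; linarith)
    have q1 : X 0 = p.1 := by simp [X]
    have q2 : Hh 0 = p.2.1 - φ p.1 := by simp [Hh]
    have q3 : Λ 0 = p.2.2 / κ p.1 := by simp [Λ]
    have r1 : X 1 = x' := by simp [X]
    have r2 : Hh 1 = η' := by simp [Hh]
    have r3 : Λ 1 = 1/2 := by simp [Λ]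
    simp only [q1, q2, q3, r1, r2, r3, div_mul_cancel₀ _ hk0.ne', add_sub_cancel] at key
    rw [show (1/2:ℝ) * κ x' = κ x' / 2 by ring] at key
    exact key
  -- the two values
  set m : ℝ := (l + r) / 2 with hm
  have hm1 : l < m := by rw [hm]; linarith
  have hm2 : m < r := by rw [hm]; linarith
  set J1 := (u (m, φ m + 1, κ m / 2))⁻¹ * u1 (m, φ m + 1, κ m / 2) with hJ1
  set J2 := (u (m, φ m + (-1), κ m / 2))⁻¹ * u1 (m, φ m + (-1), κ m / 2) with hJ2
  have j1 : ∀ p ∈ V, φ p.1 < p.2.1 → (u p)⁻¹ * u1 p = J1 := fun p hp h =>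
    jconst p hp m 1 hm1 hm2 (Or.inl ⟨by linarith, one_pos⟩)
  have j2 : ∀ p ∈ V, p.2.1 < φ p.1 → (u p)⁻¹ * u1 p = J2 := fun p hp h =>
    jconst p hp m (-1) hm1 hm2 (Or.inr ⟨by linarith, by norm_num⟩)
  refine ⟨J1 * J2⁻¹, ?_, ?_⟩
  · intro a a1 a2 a3 a4 a5
    obtain ⟨ε, hε, h⟩ := hu1 a ⟨a1, a2, a3, a4, a5⟩
    have hopen : ∀ᶠ p : R3 in 𝓝 a, l < p.1 ∧ p.1 < r ∧ p.2.2 < κ p.1 := by
      filter_upwards [ev_lt continuous_const cont1 a1, ev_lt cont1 continuous_const a2,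
        ev_lt cont3 (cκ.comp cont1) a4] with p p1 p2 p3
      exact ⟨p1, p2, p3⟩
    obtain ⟨δ, hδ, hd⟩ := Metric.eventually_nhds_iff.1 hopen
    refine ⟨min ε δ, lt_min hε hδ, fun x y hx hy ux uy hx0 hy0 => ?_⟩
    have i1 := h x y (hx.trans_le (min_le_left _ _)) (hy.trans_le (min_le_left _ _))
    obtain ⟨x1, x2, x3⟩ := hd (hx.trans_le (min_le_right _ _))
    obtain ⟨y1, y2, y3⟩ := hd (hy.trans_le (min_le_right _ _))
    have xV : x ∈ V := ⟨x1, x2, hx0, x3, ux.not_mem⟩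
    have yV : y ∈ V := ⟨y1, y2, hy0, y3, uy.not_mem⟩
    have sx : ∀ {z : R3} {J : Aff}, (u z)⁻¹ * u1 z = J → u1 z = u z * J := by
      intro z J h; rw [← h]; group
    rcases lt_or_gt_of_ne ((Utiff x xV).1 ux) with sx1 | sx1 <;>
      rcases lt_or_gt_of_ne ((Utiff y yV).1 uy) with sy1 | sy1
    · left; rw [i1, sx (j2 x xV sx1), sx (j2 y yV sy1)]; group
    · right; right; rw [i1, sx (j2 x xV sx1), sx (j1 y yV sy1)]; group
    · right; left; rw [i1, sx (j1 x xV sx1), sx (j2 y yV sy1)]; group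
    · left; rw [i1, sx (j1 x xV sx1), sx (j1 y yV sy1)]; group
  · intro x₀ η h1 h2 hη hfree
    have hk := hκ _ h1 h2
    have pV : ∀ y, φ x₀ - η ≤ y → y ≤ φ x₀ + η → ((x₀, y, 0) : R3) ∈ V := fun y hy1 hy2 =>
      ⟨h1, h2, le_rfl, hk, hfree y hy1 hy2⟩
    have wLC : LC (fun p => (u1 p)⁻¹ * u (-p)) {p | p ∈ V ∧ Ut (-p)} := by
      rintro a ⟨b1, b2⟩
      obtain ⟨ε, hε, h⟩ := hu1 a b1
      obtain ⟨ε', hε', h'⟩ := frame_neg hinv hu b2
      refine ⟨min ε ε', lt_min hε hε', fun x y hx hy => ?_⟩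
      have i1 := h x y (hx.trans_le (min_le_left _ _)) (hy.trans_le (min_le_left _ _))
      have i2 := h' x y (hx.trans_le (min_le_right _ _)) (hy.trans_le (min_le_right _ _))
      show (u1 x)⁻¹ * u (-x) = (u1 y)⁻¹ * u (-y)
      have i3 : u (-x) = u1 x * (u1 y)⁻¹ * u (-y) := by rw [← i1, i2]; group
      rw [i3]; group
    have key := wLC.path (γ := fun s => (x₀, φ x₀ + η + s * (-(2 * η)), 0))
      (Continuous.continuousOn (by fun_prop)) (by
        intro s hs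
        have m1 : φ x₀ - η ≤ φ x₀ + η + s * (-(2 * η)) := by nlinarith [hs.1, hs.2]
        have m2 : φ x₀ + η + s * (-(2 * η)) ≤ φ x₀ + η := by nlinarith [hs.1, hs.2]
        refine ⟨pV _ m1 m2, ?_⟩
        intro t ht hc
        have ht0 : 0 ≤ t := by
          have : (-((x₀, φ x₀ + η + s * (-(2 * η)), 0) : R3)).2.2 = 0 := by simp
          rw [this] at ht; exact ht
        have hc' : ((x₀, φ x₀ + η + s * (-(2 * η)), -t) : R3) ∈ Tau := by
          rw [← Tau_neg3, neg_neg]; exact hc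
        rcases ht0.eq_or_lt with h6 | h6
        · rw [← h6, neg_zero] at hc'
          exact hfree _ m1 m2 hc'
        · exact c3 _ _ _ h1 h2 (by linarith) hc')
    have e1 : φ x₀ + η + 1 * (-(2 * η)) = φ x₀ - η := by ring
    have e2 : φ x₀ + η + 0 * (-(2 * η)) = φ x₀ + η := by ring
    simp only [e1, e2] at key
    have k1 := j1 _ (pV (φ x₀ + η) (by linarith) le_rfl) (show φ x₀ < φ x₀ + η by linarith)
    have k2 := j2 _ (pV (φ x₀ - η) le_rfl (by linarith)) (show φ x₀ - η < φ x₀ by linarith)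
    unfold EE
    rw [← k1, ← k2]
    have k3 : u (-((x₀, φ x₀ + η, 0) : R3)) = u1 (x₀, φ x₀ + η, 0) * ((u1 (x₀, φ x₀ - η, 0))⁻¹ *
      u (-((x₀, φ x₀ - η, 0) : R3))) := by rw [← key]; group
    rw [k3]; group

end frames

end Pool.Agent.H753
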