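import Pool.Agent.H753.None3a
import Pool.Agent.H753.Exist3b

/-! The relation between the transitions of an equivariant flat function. -/

set_option autoImplicit false

namespace Pool.Agent.H753

open Set Filter Topology Pool.Agent.Helper60.AS

theorem offG_low {x y : ℝ} (h : y < -2) : OffG x y := by
  refine ⟨fun hx e => ?_, fun hx e => ?_, fun _ _ e => by linarith, fun e => by linarith [e.1],
    fun e => by linarith [e.1]⟩
  · have := ff_ge hx; linarith
  · have := ff_le_two (x := -x) (by linarith); linarith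

theorem offG_1 {s : ℝ} (h1 : -17/4 ≤ s) (h2 : s ≤ -3) : OffG s (1/2) := by
  refine ⟨fun _ e => ?_, fun hx e => ?_, fun _ _ e => by linarith, fun e => ?_,
    fun e => by linarith [e.2.1]⟩
  · rcases le_total s (-4) with h | h
    · rw [ff_left (by linarith), sg_one (x := -2 - s) (by linarith)] at e
      have := sg_lt_half (x := -4 - s) (by linarith)
      linarith
    · rw [ff_eq_one h h2] at e; linarith
  · rw [ff_eq_two (by linarith) (by linarith)] at e; linarith
  · have := xi_ge e.1 e.2.1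
    linarith [e.2.2]

theorem offG_2 {y : ℝ} (h2 : y ≤ 1/2) : OffG (-17/4) y := by
  refine ⟨fun _ e => ?_, fun hx e => by linarith, fun h _ e => by linarith, fun e => ?_, fun e => ?_⟩
  · rw [ff_left (by norm_num), sg_one (x := (-2 - -17/4 : ℝ)) (by norm_num)] at e
    have := sg_lt_half (x := (-4 - -17/4 : ℝ)) (by norm_num)
    linarith
  · have := xi_ge e.1 e.2.1
    linarith [e.2.2]
  · have := xi_le (y := -y) (by linarith [e.2.1]) (by linarith [e.1])
    linarith [e.2.2]

theorem offG_4 {y : ℝ} (h2 : y ≤ -3/2) : OffG 3 y := by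
  refine ⟨fun _ e => ?_, fun hx e => ?_, fun h _ e => by linarith, fun e => by linarith [e.1], fun e => ?_⟩
  · rw [ff_eq_two (by norm_num) le_rfl] at e; linarith
  · rw [ff_eq_one (by norm_num) le_rfl] at e; linarith
  · have := xi_ge (y := -y) (by linarith [e.2.1]) (by linarith [e.1])
    linarith [e.2.2]

theorem offG_5 {s : ℝ} (h1 : -2 ≤ s) (h2 : s ≤ -3/4) : OffG s (-3/2) := by
  refine ⟨fun hx e => ?_, fun hx e => ?_, fun _ _ e => by linarith, fun e => by linarith [e.1], fun e => ?_⟩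
  · have := ff_ge hx; linarith
  · rw [ff_eq_two (by linarith) (by linarith)] at e; linarith
  · have := xi_ge (y := -(-3/2)) (by norm_num) (by norm_num)
    linarith [e.2.2]

theorem offG_6 {y : ℝ} (h1 : -3/2 ≤ y) (h2 : y ≤ -1/2) : OffG (-3/4) y := by
  refine ⟨fun hx e => ?_, fun hx e => ?_, fun _ _ e => by linarith, fun e => by linarith [e.1], fun e => ?_⟩
  · have := ff_pos2 (x := -3/4) (by norm_num) hx; linarith
  · rw [ff_eq_two (by norm_num) (by norm_num)] at e; linarith
  · have := xi_ge (y := -y) (by linarith) (by linarith)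
    linarith [e.2.2]

theorem offG_7 {s : ℝ} (h1 : -3/4 ≤ s) (h2 : s ≤ 1/2) : OffG s (-1/2) := by
  refine ⟨fun hx e => ?_, fun hx e => ?_, fun _ _ e => by linarith, fun e => by linarith [e.1], fun e => ?_⟩
  · have := ff_pos2 (x := s) (by linarith) hx; linarith
  · have := ff_ge_one (x := -s) (by linarith) (by linarith); linarith
  · have := xi_ge (y := -(-1/2)) (by norm_num) (by norm_num)
    linarith [e.2.2]

theorem offG_8 {y : ℝ} (h1 : -1/2 ≤ y) (h2 : y ≤ -1/4) : OffG 0 y := by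
  have f0 : ff 0 = 1 := ff_eq_one' (by norm_num) le_rfl
  refine ⟨fun hx e => ?_, fun hx e => ?_, fun _ _ e => by linarith, fun e => by linarith [e.1], fun e => ?_⟩
  · rw [f0] at e; linarith
  · rw [neg_zero, f0] at e; linarith
  · have := xi_ge (y := -y) (by linarith) (by linarith)
    linarith [e.2.2]

theorem offG_9 {y : ℝ} (h2 : y ≤ -3/2) : OffG (1/2) y := by
  refine ⟨fun hx e => ?_, fun hx e => ?_, fun _ _ e => by linarith, fun e => by linarith [e.1], fun e => ?_⟩
  · rw [ff_eq_two le_rfl (by norm_num)] at e; linarith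
  · rw [ff_eq_one' (by norm_num) (by norm_num)] at e; linarith
  · have := xi_ge (y := -y) (by linarith) (by linarith [e.1])
    linarith [e.2.2]

theorem offG_10 {s : ℝ} (h1 : -2 ≤ s) (h2 : s ≤ -3/2) : OffG s (-1/2) := by
  refine ⟨fun hx e => ?_, fun hx e => ?_, fun _ _ e => by linarith, fun e => by linarith [e.1], fun e => ?_⟩
  · rw [ff_eq_neg_one h1 h2] at e; linarith
  · rw [ff_eq_two (by linarith) (by linarith)] at e; linarith
  · have := xi_ge (y := -(-1/2)) (by norm_num) (by norm_num)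
    linarith [e.2.2]

section rel

variable {T : R3 → R3 → Aff} {u : R3 → Aff}

theorem offG_mem {x y : ℝ} (h : OffG x y) : ((x, y, 0) : R3) ∈ {p : R3 | Ut p ∧ Ut (-p)} := by
  refine ⟨fun t _ => offG_all h t, fun t _ hc => ?_⟩
  have : ((-x, -y, -(-t)) : R3) ∈ Tau := by rw [neg_neg]; exact hc
  rw [Tau_neg3] at this
  exact offG_all h _ this

theorem hpath (hE : LC (EE u) {p | Ut p ∧ Ut (-p)}) {x x' y : ℝ} (hx : x ≤ x')
    (h : ∀ s, x ≤ s → s ≤ x' → OffG s y) : EE u (x, y, 0) = EE u (x', y, 0) := by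
  have := hE.path (γ := fun s => (x + s * (x' - x), y, 0)) (Continuous.continuousOn (by fun_prop)) (by
    intro s hs
    exact offG_mem (h _ (by nlinarith [hs.1]) (by nlinarith [hs.1, hs.2])))
  simpa using this

theorem vpath (hE : LC (EE u) {p | Ut p ∧ Ut (-p)}) {x y y' : ℝ} (hy : y ≤ y')
    (h : ∀ s, y ≤ s → s ≤ y' → OffG x s) : EE u (x, y, 0) = EE u (x, y', 0) := by
  have := hE.path (γ := fun s => (x, y + s * (y' - y), 0)) (Continuous.continuousOn (by fun_prop)) (by
    intro s hs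
    exact offG_mem (h _ (by nlinarith [hs.1]) (by nlinarith [hs.1, hs.2])))
  simpa using this

theorem EE_neg3 {x y : ℝ} : EE u (-x, -y, 0) = (EE u (x, y, 0))⁻¹ := by
  rw [← EE_neg]
  congr 1
  refine Prod.ext rfl (Prod.ext rfl ?_)
  simp

theorem half_turn (hu : ∀ a, Ut a → ∃ ε > 0, ∀ x y, dist x a < ε → dist y a < ε → T x y = u x * (u y)⁻¹)
    (hα : EqNear T (fun p q => Tal p.2 q.2) (Zr (1/4))) :
    u (0, 1/4, 0) = al⁻¹ * u (0, -1/4, 0) := by
  let γ : ℝ → R3 := fun t => (0, t, 1/4 - |t|)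
  have cγ : Continuous γ := by fun_prop
  let β : ℝ → Aff := fun t => if t ≤ -1/4 then al else 1
  have key := eq_of_loc_const (f := fun s => (u (γ (-1/4 + s * (1/2))))⁻¹ * β (-1/4 + s * (1/2))) (by
    intro s hs
    set t₀ := -1/4 + s * (1/2) with ht₀
    have h1 : -1/4 ≤ t₀ := by rw [ht₀]; linarith [hs.1]
    have h2 : t₀ ≤ 1/4 := by rw [ht₀]; linarith [hs.2]
    have habs : |t₀| ≤ 1/4 := abs_le.2 ⟨by linarith, h2⟩
    have hUt : Ut (γ t₀) := by
      intro t ht hc
      have ht' : 1/4 - |t₀| ≤ t := ht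
      have f0 : ff 0 = 1 := ff_eq_one' (by norm_num) le_rfl
      rcases (show 0 ≤ t by linarith).eq_or_lt with h | h
      · rw [← h] at hc ht'
        have h3 : |t₀| = 1/4 := by linarith
        have hne : t₀ ≠ 0 := by intro h; rw [h, abs_zero] at h3; norm_num at h3
        refine offG_all (x := 0) (y := t₀) ?_ 0 hc
        refine ⟨fun _ e => ?_, fun _ e => ?_, fun _ _ e => hne e, fun e => ?_, fun e => ?_⟩
        · rw [f0] at e; linarith
        · rw [neg_zero, f0] at e; linarith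
        · have := xi_ge e.1 e.2.1; linarith [e.2.2]
        · have := xi_ge (y := -t₀) (by linarith [e.2.1]) (by linarith [e.1]); linarith [e.2.2]
      · rcases Tau_pos h hc with ⟨_, h4, _⟩ | ⟨h4, _⟩
        · have : (γ t₀).1 = 0 := rfl
          rw [this] at h4; linarith
        · exact lt_irrefl _ h4
    have hZ : γ t₀ ∈ Zr (1/4) := by
      refine ⟨?_, fun h => ?_⟩
      · show (0:ℝ)^2 + t₀^2 + (1/4 - |t₀|)^2 < 1/4
        have : t₀^2 = |t₀|^2 := (sq_abs t₀).symm
        rw [this]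
        nlinarith [abs_nonneg t₀]
      · have e1 : t₀ = 0 := congrArg Prod.fst h
        have e2 : 1/4 - |t₀| = 0 := congrArg Prod.snd h
        rw [e1, abs_zero] at e2; norm_num at e2
    obtain ⟨e1, he1, g1⟩ := hu _ hUt
    obtain ⟨e2, he2, g2⟩ := hα _ hZ
    obtain ⟨e3, he3, g3⟩ := Tal_loc hZ.2
    obtain ⟨δ, hδ, hd⟩ := Metric.continuousAt_iff.1 (cγ.continuousAt (x := t₀)) (min (min e1 e2) e3)
      (lt_min (lt_min he1 he2) he3)
    refine ⟨min δ (1/8), lt_min hδ (by norm_num), fun t ht t' ht' h3 h4 => ?_⟩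
    -- abbreviations
    have app : ∀ r ∈ Icc (0:ℝ) 1, |r - s| < min δ (1/8) → dist (γ (-1/4 + r * (1/2))) (γ t₀) < e1 ∧
        dist (γ (-1/4 + r * (1/2))) (γ t₀) < e2 ∧ dist (γ (-1/4 + r * (1/2))).2 (γ t₀).2 < e3 ∧
        |(-1/4 + r * (1/2)) - t₀| < 1/16 := by
      intro r hr hrs
      have h5 : |(-1/4 + r * (1/2)) - t₀| = |r - s| * (1/2) := by
        rw [ht₀, show -1/4 + r * (1/2) - (-1/4 + s * (1/2)) = (r - s) * (1/2) by ring, abs_mul]
        norm_num
      have h6 : |(-1/4 + r * (1/2)) - t₀| < δ := by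
        rw [h5]; have := hrs.trans_le (min_le_left _ _); nlinarith [abs_nonneg (r - s)]
      have h7 := hd (x := -1/4 + r * (1/2)) (by rw [Real.dist_eq]; exact h6)
      have h8 : dist (γ (-1/4 + r * (1/2))).2 (γ t₀).2 ≤ dist (γ (-1/4 + r * (1/2))) (γ t₀) := by
        rw [Prod.dist_eq (x := γ (-1/4 + r * (1/2)))]; exact le_max_right _ _
      refine ⟨h7.trans_le ((min_le_left _ _).trans (min_le_left _ _)),
        h7.trans_le ((min_le_left _ _).trans (min_le_right _ _)),
        h8.trans_lt (h7.trans_le (min_le_right _ _)), ?_⟩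
      rw [h5]; have := hrs.trans_le (min_le_right _ _); linarith
    obtain ⟨a1, a2, a3, a4⟩ := app t ht h3
    obtain ⟨b1, b2, b3, b4⟩ := app t' ht' h4
    have k1 := g1 _ _ a1 b1
    have k2 := g2 _ _ a2 b2
    have k3 := (g3 _ _ a3 b3 1 1 one_pos one_pos).2.2
    rw [one_smul, one_smul] at k3
    -- the value of the local primitive
    have prim : ∀ r ∈ Icc (0:ℝ) 1, |(-1/4 + r * (1/2)) - t₀| < 1/16 →
        (if up (γ (-1/4 + r * (1/2))).2 then 1 else if 0 < (γ t₀).2.1 then al else al⁻¹) =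
        (β (-1/4 + r * (1/2)))⁻¹ := by
      intro r hr h5
      have h5 := abs_lt.1 h5
      have hh : (γ (-1/4 + r * (1/2))).2 = (-1/4 + r * (1/2), 1/4 - |-1/4 + r * (1/2)|) := rfl
      by_cases hu1 : -1/4 + r * (1/2) ≤ -1/4
      · have he : -1/4 + r * (1/2) = -1/4 := by linarith [hr.1]
        have hnu : ¬ up (γ (-1/4 + r * (1/2))).2 := by
          rw [hh, he]
          have : |(-1/4:ℝ)| = 1/4 := by rw [abs_of_neg (by norm_num)]; norm_num
          rw [this]
          rintro (h | ⟨_, h⟩)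
          · simp at h
          · simp only at h; linarith
        have hn : ¬ 0 < (γ t₀).2.1 := by
          show ¬ 0 < t₀
          linarith
        rw [if_neg hnu, if_neg hn]
        show al⁻¹ = (if -1/4 + r * (1/2) ≤ -1/4 then al else 1)⁻¹
        rw [if_pos hu1]
      · have hup : up (γ (-1/4 + r * (1/2))).2 := by
          rw [hh]
          push Not at hu1
          rcases lt_or_ge (-1/4 + r * (1/2)) (1/4) with h | h
          · left
            show 0 < 1/4 - |-1/4 + r * (1/2)|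
            have := abs_lt.2 ⟨by linarith, h⟩
            linarith
          · right
            have he : -1/4 + r * (1/2) = 1/4 := by linarith [hr.2]
            rw [he]
            refine ⟨?_, by norm_num⟩
            show 1/4 - |(1/4:ℝ)| = 0
            rw [abs_of_pos (by norm_num)]; norm_num
        rw [if_pos hup]
        show 1 = (if -1/4 + r * (1/2) ≤ -1/4 then al else 1)⁻¹
        rw [if_neg hu1]; simp
    rw [prim t ht a4, prim t' ht' b4] at k3
    simp only at k2
    rw [k3, inv_inv, k1] at k2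
    show (u (γ (-1/4 + t * (1/2))))⁻¹ * β (-1/4 + t * (1/2)) =
      (u (γ (-1/4 + t' * (1/2))))⁻¹ * β (-1/4 + t' * (1/2))
    have : (u (γ (-1/4 + t * (1/2))))⁻¹ * β (-1/4 + t * (1/2)) = (u (γ (-1/4 + t * (1/2))))⁻¹ *
      (β (-1/4 + t * (1/2)) * (β (-1/4 + t' * (1/2)))⁻¹) * β (-1/4 + t' * (1/2)) := by group
    rw [this, ← k2]; group) 1 (right_mem_Icc.2 zero_le_one)
  have e1 : (-1/4 + 1 * (1/2) : ℝ) = 1/4 := by norm_num
  have e2 : (-1/4 + 0 * (1/2) : ℝ) = -1/4 := by norm_num
  simp only [e1, e2] at key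
  have g1 : γ (1/4) = (0, 1/4, 0) := by
    show ((0:ℝ), (1/4:ℝ), 1/4 - |(1/4:ℝ)|) = (0, 1/4, 0)
    rw [abs_of_pos (by norm_num), sub_self]
  have g2 : γ (-1/4) = (0, -1/4, 0) := by
    show ((0:ℝ), (-1/4:ℝ), 1/4 - |(-1/4:ℝ)|) = (0, -1/4, 0)
    rw [abs_of_neg (by norm_num)]; norm_num
  have b1 : β (1/4) = 1 := if_neg (by norm_num)
  have b2 : β (-1/4) = al := if_pos le_rfl
  rw [g1, g2, b1, b2, mul_one] at key
  rw [← inv_inv (u (0, 1/4, 0)), key]; group

/-- all the transitions fix a common point -/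
theorem fixed (hT : GFlat T Tauᶜ) (hinv : ∀ x y, T (-x) (-y) = T x y)
    (hα : EqNear T (fun p q => Tal p.2 q.2) (Zr (1/4)))
    (hu : ∀ a, Ut a → ∃ ε > 0, ∀ x y, dist x a < ε → dist y a < ε → T x y = u x * (u y)⁻¹) :
    ∃ n : ZMod 5, u (0, -1/4, 0) • n = 0 ∧ u (0, 1/4, 0) • n = 0 ∧
    ∀ a : R3, a ∉ Tau → 0 ≤ a.2.2 → ∃ ε > 0, ∀ x y, dist x a < ε → dist y a < ε → Ut x → Ut y →
      0 ≤ x.2.2 → 0 ≤ y.2.2 → u x • n = T x y • (u y • n) := by
  have hE := EE_LC hinv hu
  have hhalf := half_turn hu hα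
  -- the values of the transitions
  set A := EE u (-3, 3/2, 0) with hA
  set C := EE u (0, -1/4, 0) with hC
  set D := EE u (-2, -1/2, 0) with hD
  have hlow : EE u (-17/4, -3, 0) = EE u (3, -3, 0) := hpath hE (by norm_num)
    (fun s _ _ => offG_low (by norm_num))
  have hr : EE u (3, -3, 0) = EE u (3, -3/2, 0) := vpath hE (by norm_num)
    (fun s _ h => offG_4 h)
  have hAneg : EE u (3, -3/2, 0) = A⁻¹ := by
    rw [hA, ← EE_neg3]; norm_num
  have r1 : EE u (-3, 1/2, 0) = A⁻¹ := by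
    rw [← hpath hE (x := -17/4) (x' := -3) (y := 1/2) (by norm_num) (fun s h h' => offG_1 h h'),
      ← vpath hE (x := -17/4) (y := -3) (y' := 1/2) (by norm_num) (fun s _ h' => offG_2 h'),
      hlow, hr, hAneg]
  have c1 : EE u (-3/4, -3/2, 0) = C := by
    rw [vpath hE (x := -3/4) (y := -3/2) (y' := -1/2) (by norm_num) (fun s h h' => offG_6 h h'),
      hpath hE (x := -3/4) (x' := 0) (y := -1/2) (by norm_num) (fun s h h' => offG_7 h (by linarith)),
      vpath hE (x := 0) (y := -1/2) (y' := -1/4) (by norm_num) (fun s h h' => offG_8 h h')]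
  have r2 : EE u (-2, -3/2, 0) = C := by
    rw [hpath hE (x := -2) (x' := -3/4) (y := -3/2) (by norm_num) (fun s h h' => offG_5 h h'), c1]
  have r2' : EE u (-3/2, -3/2, 0) = C := by
    rw [hpath hE (x := -3/2) (x' := -3/4) (y := -3/2) (by norm_num)
      (fun s h h' => offG_5 (by linarith) h'), c1]
  have r3 : EE u (1/2, -1/2, 0) = C := by
    rw [hC, ← vpath hE (x := 0) (y := -1/2) (y' := -1/4) (by norm_num) (fun s h h' => offG_8 h h'),
      hpath hE (x := 0) (x' := 1/2) (y := -1/2) (by norm_num) (fun s h h' => offG_7 (by linarith) h')]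
  have r4 : EE u (1/2, -3/2, 0) = A⁻¹ := by
    rw [← vpath hE (x := 1/2) (y := -3) (y' := -3/2) (by norm_num) (fun s _ h' => offG_9 h'),
      hpath hE (x := 1/2) (x' := 3) (y := -3) (by norm_num) (fun s _ _ => offG_low (by norm_num)),
      hr, hAneg]
  have r5 : EE u (3/2, 3/2, 0) = C⁻¹ := by
    rw [← r2', ← EE_neg3]; norm_num
  have r6 : EE u (3/2, 1/2, 0) = D⁻¹ := by
    rw [hD, hpath hE (x := -2) (x' := -3/2) (y := -1/2) (by norm_num) (fun s h h' => offG_10 h h'),
      ← EE_neg3]; norm_num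
  -- the two curtains
  obtain ⟨gA, hgA1, hgA2⟩ := curtain hT hinv hu (l := -4) (r := -7/4) (by norm_num) ff_cont kk_cont
    (fun x h h' => kk_pos h h')
    (by
      intro x y h h1 h2 h3 hm
      rcases Tau_pos h3 hm with ⟨_, _, h4, h5⟩ | ⟨h4, _⟩
      · exact ⟨h4, h5⟩
      · linarith)
    (by
      intro x y h h1 h2 h3 hm
      rcases Tau_pos (by linarith : 0 < -h) (Tau_neg3.2 hm) with ⟨_, h4, _, _⟩ | ⟨_, h4, _⟩ <;> linarith)
    (fun x h h' => Or.inl ⟨by show x ≤ 3; linarith, rfl, rfl⟩)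
  obtain ⟨gC, hgC1, hgC2⟩ := curtain hT hinv hu (l := 0) (r := 7/4) (by norm_num)
    (φ := fun x => -ff (-x)) (κ := fun x => -kk (-x)) (ff_cont.comp continuous_neg).neg
    (kk_cont.comp continuous_neg).neg
    (fun x h h' => by have := kk_neg (x := -x) (by linarith) (by linarith); linarith)
    (by
      intro x y h h1 h2 h3 hm
      rcases Tau_pos h3 hm with ⟨_, h4, _, _⟩ | ⟨_, _, h4, h5⟩
      · linarith
      · exact ⟨h4, h5⟩)
    (by
      intro x y h h1 h2 h3 hm
      rcases Tau_pos (by linarith : 0 < -h) (Tau_neg3.2 hm) with ⟨_, h4, _, _⟩ | ⟨h4, _, _⟩ <;> linarith)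
    (fun x h h' => Or.inr (Or.inr (Or.inl ⟨by show -x ≤ 3; linarith, by simp, by simp⟩)))
  have f1 : A * A = gA := by
    have := hgA2 (-3) (1/2) (by norm_num) (by norm_num) (by norm_num) (by
      rw [ff_eq_one (by norm_num) le_rfl]
      rintro y h1 h2 (⟨_, _, a3⟩ | ⟨_, _, a3, _⟩ | ⟨_, a2, _⟩ | ⟨_, a2, a3, a4⟩ | ⟨_, a2, a3, a4⟩)
      · have := kk_pos (x := -3) (by norm_num) (by norm_num)
        simp only at a3; linarith
      · simp only at a3; linarith
      · simp only [Prod.fst_neg, Prod.snd_neg] at a2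
        rw [ff_eq_two (by norm_num) (by norm_num)] at a2; linarith
      · have := xi_ge a2 a3; simp only at a4; linarith
      · simp only [Prod.snd_neg, Prod.fst_neg] at a2; linarith)
    rw [ff_eq_one (by norm_num) le_rfl] at this
    norm_num at this
    rw [r1, inv_inv] at this
    exact this
  have f2 : D * C⁻¹ = gA := by
    have := hgA2 (-2) (1/2) (by norm_num) (by norm_num) (by norm_num) (by
      rw [ff_eq_neg_one le_rfl (by norm_num)]
      rintro y h1 h2 (⟨_, _, a3⟩ | ⟨_, _, a3, _⟩ | ⟨_, a2, _⟩ | ⟨_, a2, a3, a4⟩ | ⟨_, a2, a3, a4⟩)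
      · have := kk_pos (x := -2) (by norm_num) (by norm_num)
        simp only at a3; linarith
      · simp only at a3; linarith
      · simp only [Prod.fst_neg, Prod.snd_neg] at a2
        rw [ff_eq_two (by norm_num) (by norm_num)] at a2; linarith
      · simp only at a2; linarith
      · have := xi_ge a2 a3
        simp only [Prod.snd_neg, Prod.fst_neg] at a4 this; linarith)
    rw [ff_eq_neg_one le_rfl (by norm_num), show (-1 + 1/2 : ℝ) = -1/2 by norm_num,
      show (-1 - 1/2 : ℝ) = -3/2 by norm_num, r2] at this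
    exact this
  have f3 : C * A = gC := by
    have := hgC2 (1/2) (1/2) (by norm_num) (by norm_num) (by norm_num) (by
      rw [ff_eq_one' (by norm_num) (by norm_num)]
      rintro y h1 h2 (⟨_, a2, _⟩ | ⟨_, _, a3, _⟩ | ⟨_, _, a3⟩ | ⟨_, a2, a3, a4⟩ | ⟨_, a2, a3, a4⟩)
      · simp only at a2
        rw [ff_eq_two le_rfl (by norm_num)] at a2; linarith
      · simp only at a3; linarith
      · have := kk_neg (x := -(1/2)) (by norm_num) (by norm_num)
        simp only [Prod.fst_neg, Prod.snd_neg] at a3; linarith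
      · simp only at a2; linarith
      · have := xi_ge a2 a3
        simp only [Prod.snd_neg, Prod.fst_neg] at a4 this; linarith)
    rw [ff_eq_one' (by norm_num) (by norm_num), show (-1 + 1/2 : ℝ) = -1/2 by norm_num,
      show (-1 - 1/2 : ℝ) = -3/2 by norm_num, r3, r4, inv_inv] at this
    exact this
  have f4 : C⁻¹ * D = gC := by
    have := hgC2 (3/2) (1/2) (by norm_num) (by norm_num) (by norm_num) (by
      rw [show -(3/2:ℝ) = -3/2 by ring, ff_eq_neg_one (by norm_num) le_rfl]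
      rintro y h1 h2 (⟨_, a2, _⟩ | ⟨_, _, a3, _⟩ | ⟨_, _, a3⟩ | ⟨_, a2, a3, a4⟩ | ⟨_, a2, a3, a4⟩)
      · simp only at a2
        rw [ff_eq_two (by norm_num) (by norm_num)] at a2; linarith
      · simp only at a3; linarith
      · have := kk_neg (x := -(3/2)) (by norm_num) (by norm_num)
        simp only [Prod.fst_neg, Prod.snd_neg] at a3; linarith
      · have := xi_ge a2 a3
        simp only at a4 this; linarith
      · simp only [Prod.snd_neg, Prod.fst_neg] at a2; linarith)
    rw [show -(3/2:ℝ) = -3/2 by ring, ff_eq_neg_one (by norm_num) le_rfl,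
      show (-(-1) + 1/2 : ℝ) = 3/2 by norm_num,
      show (-(-1) - 1/2 : ℝ) = 1/2 by norm_num, r5, r6, inv_inv] at this
    exact this
  -- the relation
  have rel : A * A * C = C * C * A := by
    have g1 : D = A * A * C := by rw [f1, ← f2]; group
    have g2 : D = C * (C * A) := by rw [f3, ← f4]; group
    rw [← g1, g2]; group
  set v := u (0, -1/4, 0) with hv
  have hC' : C = v⁻¹ * al⁻¹ * v := by
    rw [hC]
    unfold EE
    have : -((0, -1/4, 0) : R3) = (0, 1/4, 0) := by
      refine Prod.ext (by simp) (Prod.ext ?_ (by simp))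
      show -(-1/4 : ℝ) = 1/4
      norm_num
    rw [this, hhalf, ← hv]; group
  have hA0 : (v * A * v⁻¹) • (0 : ZMod 5) = 0 := by
    apply relation_lemma
    have e1 : al⁻¹ = v * C * v⁻¹ := by rw [hC']; group
    rw [e1]
    have e2 : v * A * v⁻¹ * (v * A * v⁻¹) * (v * C * v⁻¹) = v * (A * A * C) * v⁻¹ := by group
    have e3 : v * C * v⁻¹ * (v * C * v⁻¹) * (v * A * v⁻¹) = v * (C * C * A) * v⁻¹ := by group
    rw [e2, e3, rel]
  obtain ⟨n, hn⟩ : ∃ n : ZMod 5, n = v⁻¹ • 0 := ⟨_, rfl⟩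
  have vn : v • n = 0 := by rw [hn, smul_inv_smul]
  have An : A • n = n := by
    have : A • n = v⁻¹ • ((v * A * v⁻¹) • (0 : ZMod 5)) := by
      rw [hn]; simp only [mul_smul, inv_smul_smul]
    rw [this, hA0, hn]
  have Cn : C • n = n := by
    rw [hC', mul_smul, mul_smul, vn, al_inv_zero, hn]
  have gAn : gA • n = n := by rw [← f1, mul_smul, An, An]
  have gCn : gC • n = n := by rw [← f3, mul_smul, An, Cn]
  have gAn' : gA⁻¹ • n = n := by rw [inv_smul_eq_iff, gAn]
  have gCn' : gC⁻¹ • n = n := by rw [inv_smul_eq_iff, gCn]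
  refine ⟨n, vn, by rw [hhalf, mul_smul, vn, al_inv_zero], ?_⟩
  intro a ha ha0
  have fin : ∀ {x y : R3} {g : Aff}, g • n = n → g⁻¹ • n = n →
      (T x y = u x * (u y)⁻¹ ∨ T x y = u x * g * (u y)⁻¹ ∨ T x y = u x * g⁻¹ * (u y)⁻¹) →
      u x • n = T x y • (u y • n) := by
    intro x y g hg hg' h
    rw [← mul_smul (T x y) (u y) n]
    rcases h with h | h | h
    · rw [h, show u x * (u y)⁻¹ * u y = u x by group]
    · rw [h, show u x * g * (u y)⁻¹ * u y = u x * g by group, mul_smul (u x) g n, hg]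
    · rw [h, show u x * g⁻¹ * (u y)⁻¹ * u y = u x * g⁻¹ by group, mul_smul (u x) g⁻¹ n, hg']
  by_cases hUt : Ut a
  · obtain ⟨ε, hε, h⟩ := hu a hUt
    exact ⟨ε, hε, fun x y hx hy _ _ _ _ => fin gAn gAn' (Or.inl (h x y hx hy))⟩
  · unfold Ut at hUt
    push Not at hUt
    obtain ⟨t, ht, hm⟩ := hUt
    have ht' : a.2.2 < t := by
      apply lt_of_le_of_ne ht
      intro e
      apply ha
      rw [← e] at hm; exact hm
    rcases Tau_pos (by linarith) hm with ⟨h1, h2, h3, h4⟩ | ⟨h1, h2, h3, h4⟩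
    · obtain ⟨ε, hε, h⟩ := hgA1 a h1 h2 ha0 (by rw [← h4]; exact ht') ha
      exact ⟨ε, hε, fun x y hx hy ux uy hx0 hy0 => fin gAn gAn' (h x y hx hy ux uy hx0 hy0)⟩
    · obtain ⟨ε, hε, h⟩ := hgC1 a h1 h2 ha0 (by show a.2.2 < -kk (-a.1); rw [← h4]; exact ht') ha
      exact ⟨ε, hε, fun x y hx hy ux uy hx0 hy0 => fin gCn gCn' (h x y hx hy ux uy hx0 hy0)⟩

end rel

end Pool.Agent.H753
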