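import Pool.Agent.H753.None3b

/-! Equivariant flat functions which are the model near the origin are trivial. -/

set_option autoImplicit false

namespace Pool.Agent.H753

open Set Filter Topology Pool.Agent.Helper60.AS

theorem xi_lt {y : ℝ} (h0 : 0 ≤ y) (h1 : y ≤ 2) : xi y < 4 := by
  have h2 := sinv_nonneg (y/2)
  have h3 := sinv_le_one (y/2)
  rcases h1.eq_or_lt with h | h
  · rw [h, xi_two]; norm_num
  · unfold xi
    nlinarith [mul_nonneg h2 (by linarith : 0 ≤ y/2)]

theorem kk_eq_zero {x : ℝ} (h : kk x = 0) : x ≤ -4 ∨ x = -7/4 ∨ 0 ≤ x := by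
  rcases le_or_gt x (-4) with h1 | h1
  · exact Or.inl h1
  rcases lt_trichotomy x (-7/4) with h2 | h2 | h2
  · have := kk_pos h1 h2; linarith
  · exact Or.inr (Or.inl h2)
  · rcases le_or_gt 0 x with h3 | h3
    · exact Or.inr (Or.inr h3)
    · have := kk_neg h2 h3; linarith

/-- planar points outside the knot -/
theorem pl_not_mem {x y : ℝ} (h1 : x ≤ 3 → y = ff x → kk x = 0 → False)
    (h2 : -3 ≤ x → x ≤ 3 → y = 0 → False) (h3 : -3 ≤ x → y = -ff (-x) → kk (-x) = 0 → False)
    (h4 : 0 ≤ y → y ≤ 2 → x = xi y → False) (h5 : -2 ≤ y → y ≤ 0 → -x = xi (-y) → False) :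
    ((x, y, 0) : R3) ∉ Tau := by
  rintro (⟨a1, a2, a3⟩ | ⟨a1, a2, a3, a4⟩ | ⟨a1, a2, a3⟩ | ⟨a1, a2, a3, a4⟩ | ⟨a1, a2, a3, a4⟩)
  · exact h1 a1 a2 a3.symm
  · exact h2 a1 a2 a3
  · simp only [Prod.fst_neg, Prod.snd_neg, neg_zero] at a1 a2 a3
    exact h3 (by linarith) (by linarith) a3.symm
  · exact h4 a2 a3 a4
  · simp only [Prod.fst_neg, Prod.snd_neg] at a1 a2 a3 a4
    exact h5 (by linarith) (by linarith) a4

theorem S1_pl {x y : ℝ} (h1 : x ≤ 3) (h2 : y = ff x) (h3 : kk x = 0) : ((x, y, 0) : R3) ∈ Tau :=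
  Or.inl ⟨h1, h2, h3.symm⟩

section conn

/-- connectedness of the planar complement, as an induction principle -/
theorem planar_conn {Q : ℝ → ℝ → Prop} (hneg : ∀ x y, Q x y → Q (-x) (-y))
    (hh : ∀ x x' y, x ≤ x' → (∀ s, x ≤ s → s ≤ x' → ((s, y, 0) : R3) ∉ Tau) → (Q x y ↔ Q x' y))
    (hv : ∀ x y y', y ≤ y' → (∀ s, y ≤ s → s ≤ y' → ((x, s, 0) : R3) ∉ Tau) → (Q x y ↔ Q x y'))
    (h0 : Q 0 (-1/4)) : ∀ x y, ((x, y, 0) : R3) ∉ Tau → Q x y := by
  have ff0 : ff 0 = 1 := ff_eq_one' (by norm_num) le_rfl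
  have q0 : Q 0 (1/4) := by
    have := hneg _ _ h0
    norm_num at this; exact this
  -- region `R1`
  have fr1 : ∀ x y, -4 < x → x < 0 → 0 < y → ((x, y, 0) : R3) ∉ Tau := by
    intro x y h1 h2 h3
    apply pl_not_mem
    · intro _ e k
      rcases kk_eq_zero k with h | h | h
      · linarith
      · rw [h, ff_eq_neg_one (by norm_num) (by norm_num)] at e; linarith
      · linarith
    · intro _ _ e; linarith
    · intro h e _
      have := ff_pos2 (x := -x) (by linarith) (by linarith); linarith
    · intro a b e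
      have := xi_ge a b; linarith
    · intro _ h _; linarith
  have q1 : Q (-1/8) (1/4) := by
    refine (hh (-1/8) 0 (1/4) (by norm_num) ?_).2 q0
    intro s h1 h2
    rcases h2.eq_or_lt with h | h
    · subst h
      apply pl_not_mem
      · intro _ e _; rw [ff0] at e; linarith
      · intro _ _ e; linarith
      · intro _ e _; rw [neg_zero, ff0] at e; linarith
      · intro a b e
        have := xi_ge a b; linarith
      · intro _ h _; linarith
    · exact fr1 _ _ (by linarith) h (by norm_num)
  have R1 : ∀ x y, -4 < x → x < 0 → 0 < y → Q x y := by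
    intro x y h1 h2 h3
    have s1 : Q x (1/4) := by
      rcases le_total x (-1/8) with h | h
      · exact (hh x (-1/8) (1/4) h (fun s a b => fr1 s _ (by linarith) (by linarith) (by norm_num))).2 q1
      · exact (hh (-1/8) x (1/4) h (fun s a b => fr1 s _ (by linarith) (by linarith) (by norm_num))).1 q1
    rcases le_total y (1/4) with h | h
    · exact (hv x y (1/4) h (fun s a b => fr1 _ s h1 h2 (by linarith))).2 s1
    · exact (hv x (1/4) y h (fun s a b => fr1 _ s h1 h2 (by linarith))).1 s1
  -- high points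
  have frhi : ∀ x y, 2 < y → ((x, y, 0) : R3) ∉ Tau := by
    intro x y h hc
    have := Tau_width hc; linarith
  have Rhi : ∀ x y, 2 < y → Q x y := by
    intro x y h
    have s1 := R1 (-1) y (by norm_num) (by norm_num) (by linarith)
    rcases le_total x (-1) with h' | h'
    · exact (hh x (-1) y h' (fun s _ _ => frhi s y h)).2 s1
    · exact (hh (-1) x y h' (fun s _ _ => frhi s y h)).1 s1
  have Rlo : ∀ x y, y < -2 → Q x y := by
    intro x y h
    have := hneg _ _ (Rhi (-x) (-y) (by linarith))
    simpa using this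
  -- left points
  have XL : ∀ x y, x ≤ -4 → ((x, y, 0) : R3) ∉ Tau → Q x y := by
    intro x y hx hm
    have fr : ∀ t, t ≠ ff x → ((x, t, 0) : R3) ∉ Tau := by
      intro t ht
      apply pl_not_mem
      · intro _ e _; exact ht e
      · intro h _ _; linarith
      · intro h _ _; linarith
      · intro a b e
        have := xi_ge a b; linarith
      · intro a b e
        have := xi_lt (y := -t) (by linarith) (by linarith); linarith
    have hy : y ≠ ff x := fun e => hm (S1_pl (by linarith) e (kk_zero_left hx))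
    have fle := ff_le_two (x := x) (by linarith)
    have fge := ff_ge (x := x) (by linarith)
    rcases lt_or_gt_of_ne hy with h | h
    · rcases le_total y (-3) with h' | h'
      · exact Rlo _ _ (by linarith)
      · exact (hv x (-3) y h' (fun s a b => fr s (by linarith))).1 (Rlo _ _ (by norm_num))
    · rcases le_total y 3 with h' | h'
      · exact (hv x y 3 h' (fun s a b => fr s (by linarith))).2 (Rhi _ _ (by norm_num))
      · exact Rhi _ _ (by linarith)
  have XR : ∀ x y, 4 ≤ x → ((x, y, 0) : R3) ∉ Tau → Q x y := by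
    intro x y hx hm
    have hm' : ((-x, -y, 0) : R3) ∉ Tau := by
      intro hc
      apply hm
      rw [← Tau_neg3, neg_zero]; exact hc
    have := hneg _ _ (XL (-x) (-y) (by linarith) hm')
    simpa using this
  -- the middle part, upper right quarter
  have Min : ∀ x y, 0 ≤ x → x ≤ 3 → 0 < y → y < ff x → (x = 7/4 → y < 1) → Q x y := by
    intro x y h1 h2 h3 h4 h5
    have f1 := ff_ge_one (x := x) (by linarith) h2
    have f2 := ff_le_two h2
    have s1 : Q x (1/4) := by
      refine (hh 0 x (1/4) h1 ?_).1 q0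
      intro s a b
      have g1 := ff_ge_one (x := s) (by linarith) (by linarith)
      apply pl_not_mem
      · intro _ e _; linarith
      · intro _ _ e; linarith
      · intro _ e k
        rcases kk_eq_zero k with h | h | h
        · linarith
        · rw [h, ff_eq_neg_one (by norm_num) (by norm_num)] at e; linarith
        · have : s = 0 := by linarith
          rw [this, neg_zero, ff0] at e; linarith
      · intro _ _ e
        have := xi_gt (y := 1/4) (by norm_num) (by norm_num); linarith
      · intro _ h _; linarith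
    have fr : ∀ t, 0 < t → t < ff x → (x = 7/4 → t < 1) → ((x, t, 0) : R3) ∉ Tau := by
      intro t t1 t2 t3
      apply pl_not_mem
      · intro _ e _; linarith
      · intro _ _ e; linarith
      · intro _ e k
        rcases kk_eq_zero k with h | h | h
        · linarith
        · have hx : x = 7/4 := by linarith
          have := t3 hx
          rw [h, ff_eq_neg_one (by norm_num) (by norm_num)] at e; linarith
        · have : x = 0 := by linarith
          rw [this, neg_zero, ff0] at e; linarith
      · intro _ _ e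
        have := xi_gt (y := t) t1 (by linarith); linarith
      · intro _ h _; linarith
    rcases le_total y (1/4) with h | h
    · exact (hv x y (1/4) h (fun s a b => fr s (by linarith) (by linarith) (fun _ => by linarith))).2 s1
    · exact (hv x (1/4) y h (fun s a b => fr s (by linarith) (by linarith)
        (fun e => by have := h5 e; linarith))).1 s1
  have Min' : ∀ x y, 0 ≤ x → x ≤ 3 → 0 < y → y < ff x → ((x, y, 0) : R3) ∉ Tau → Q x y := by
    intro x y h1 h2 h3 h4 hm
    by_cases hx : x = 7/4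
    · subst hx
      have k0 : kk (-(7/4)) = 0 := by rw [show -(7/4:ℝ) = -7/4 by ring, kk_mid]
      have f7 : ff (-(7/4)) = -1 := by
        rw [show -(7/4:ℝ) = -7/4 by ring, ff_eq_neg_one (by norm_num) (by norm_num)]
      have hy1 : y ≠ 1 := by
        intro e
        apply hm
        refine Or.inr (Or.inr (Or.inl ⟨?_, ?_, ?_⟩))
        · show -(7/4:ℝ) ≤ 3; norm_num
        · show -y = ff (-(7/4)); rw [f7, e]
        · show -(0:ℝ) = kk (-(7/4)); rw [k0, neg_zero]
      have f74 : ff (7/4) = 2 := ff_eq_two (by norm_num) (by norm_num)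
      rcases lt_or_gt_of_ne hy1 with h | h
      · exact Min _ _ h1 h2 h3 h4 (fun _ => h)
      · have s1 := Min 2 y (by norm_num) (by norm_num) h3
          (by rw [ff_eq_two (by norm_num) (by norm_num)]; rw [f74] at h4; exact h4) (fun e => by norm_num at e)
        refine (hh (7/4) 2 y (by norm_num) ?_).2 s1
        intro s a b
        apply pl_not_mem
        · intro _ e _
          rw [ff_eq_two (by linarith) (by linarith)] at e; rw [f74] at h4; linarith
        · intro _ _ e; linarith
        · intro _ e k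
          rcases kk_eq_zero k with h | h | h
          · linarith
          · rw [h, ff_eq_neg_one (by norm_num) (by norm_num)] at e; linarith
          · linarith
        · intro c d e
          have := xi_ge c d; linarith
        · intro _ h _; linarith
    · exact Min _ _ h1 h2 h3 h4 (fun e => (hx e).elim)
  have M : ∀ x y, 0 ≤ x → x < 4 → 0 ≤ y → ((x, y, 0) : R3) ∉ Tau → Q x y := by
    intro x y h1 h2 h3 hm
    rcases le_or_gt x 3 with hx | hx
    · have hy0 : 0 < y := by
        apply lt_of_le_of_ne h3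
        intro e
        exact hm (Or.inr (Or.inl ⟨by show -3 ≤ x; linarith, hx, e.symm, rfl⟩))
      have f1 := ff_ge_one (x := x) (by linarith) hx
      have hyf : y ≠ ff x := fun e => hm (S1_pl hx e (kk_zero_right h1))
      rcases lt_or_gt_of_ne hyf with h | h
      · exact Min' x y h1 hx hy0 h hm
      · rcases le_total y 3 with h' | h'
        · refine (hv x y 3 h' ?_).2 (Rhi _ _ (by norm_num))
          intro s a b
          apply pl_not_mem
          · intro _ e _; linarith
          · intro _ _ e; linarith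
          · intro _ e _
            have := ff_ge (x := -x) (by linarith); linarith
          · intro c d e
            have h7 := xi_ge c d
            have h8 : x = 3 := by linarith
            rw [h8, ff_eq_two (by norm_num) le_rfl] at h; linarith
          · intro _ h _; linarith
        · exact Rhi _ _ (by linarith)
    · by_cases hin : 0 < y ∧ y < 2 ∧ x < xi y
      · have s1 : Q 3 y := by
          have f3 : ff 3 = 2 := ff_eq_two (by norm_num) le_rfl
          refine Min' 3 y (by norm_num) le_rfl hin.1 (by rw [f3]; exact hin.2.1) ?_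
          apply pl_not_mem
          · intro _ e _; rw [f3] at e; linarith [hin.2.1]
          · intro _ _ e; linarith [hin.1]
          · intro _ e _; rw [ff_eq_one (by norm_num) le_rfl] at e; linarith
          · intro _ _ e; linarith [hin.2.2]
          · intro _ h _; linarith [hin.1]
        refine (hh 3 x y hx.le ?_).1 s1
        intro s a b
        apply pl_not_mem
        · intro c e _
          have : s = 3 := by linarith
          rw [this, ff_eq_two (by norm_num) le_rfl] at e; linarith [hin.2.1]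
        · intro _ _ e; linarith [hin.1]
        · intro _ e _; rw [ff_eq_one (by linarith) (by linarith)] at e; linarith
        · intro _ _ e; linarith [hin.2.2]
        · intro _ h _; linarith [hin.1]
      · have s1 : ∀ s, x ≤ s → s ≤ 4 → ((s, y, 0) : R3) ∉ Tau := by
          intro s a b
          apply pl_not_mem
          · intro c _ _; linarith
          · intro _ c _; linarith
          · intro _ e _; rw [ff_eq_one (by linarith) (by linarith)] at e; linarith
          · intro c d e
            rcases c.eq_or_lt with c' | c'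
            · rw [← c', xi_zero] at e; linarith
            rcases d.eq_or_lt with d' | d'
            · rw [d', xi_two] at e; linarith
            have : xi y ≤ x := not_lt.1 (fun h => hin ⟨c', d', h⟩)
            have hxs : x = s := by linarith
            rw [← hxs] at e
            exact hm (Or.inr (Or.inr (Or.inr (Or.inl ⟨rfl, c, d, e⟩))))
          · intro c d e
            have := xi_ge (y := -y) (by linarith) (by linarith); linarith
        exact (hh x 4 y h2.le s1).2 (XR 4 y le_rfl (s1 4 h2.le le_rfl))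
  intro x y hm
  rcases le_or_gt x (-4) with h | h
  · exact XL x y h hm
  rcases le_or_gt 4 x with h' | h'
  · exact XR x y h' hm
  have hm' : ((-x, -y, 0) : R3) ∉ Tau := by
    intro hc
    apply hm
    rw [← Tau_neg3, neg_zero]; exact hc
  rcases le_or_gt 0 y with hy | hy
  · rcases le_or_gt 0 x with hx | hx
    · exact M x y hx h' hy hm
    · rcases hy.eq_or_lt with hy' | hy'
      · have := hneg _ _ (M (-x) (-y) (by linarith) (by linarith) (by linarith) hm')
        simpa using this
      · exact R1 x y h hx hy'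
  · rcases le_or_gt x 0 with hx | hx
    · have := hneg _ _ (M (-x) (-y) (by linarith) (by linarith) (by linarith) hm')
      simpa using this
    · have := hneg _ _ (R1 (-x) (-y) (by linarith) (by linarith) (by linarith))
      simpa using this

end conn

theorem none3 {T : R3 → R3 → Aff} (hT : GFlat T Tauᶜ) (hinv : ∀ x y, T (-x) (-y) = T x y)
    (hα : EqNear T (fun p q => Tal p.2 q.2) (Zr (1/4))) :
    ∃ c : R3 → ZMod 5, Sec T c Tauᶜ ∧ ∀ a ∈ Zr (1/4), c a = 0 := by
  obtain ⟨u, hu⟩ := exists_frame hT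
  obtain ⟨n, hn1, hn2, hn⟩ := fixed hT hinv hα hu
  set W : Set R3 := {p | Ut p ∧ 0 ≤ p.2.2} with hW
  set S : Set R3 := {a | a ∉ Tau ∧ 0 ≤ a.2.2} with hS
  have hTopen : IsOpen Tauᶜ := isClosed_Tau.isOpen_compl
  have hdens : ∀ a ∈ S, ∀ ε > 0, ∃ x ∈ W, dist x a < ε := by
    rintro a ⟨ha, ha0⟩ ε hε
    by_cases hUt : Ut a
    · exact ⟨a, ⟨hUt, ha0⟩, by simpa using hε⟩
    · obtain ⟨δ, hδ, hd⟩ := Metric.isOpen_iff.1 hTopen a ha
      unfold Ut at hUt
      push Not at hUt
      obtain ⟨t, ht, hm⟩ := hUt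
      have ht' : a.2.2 < t := by
        apply lt_of_le_of_ne ht
        intro e
        apply ha
        rw [← e] at hm; exact hm
      have hη : 0 < min ε δ / 2 := by positivity
      have hlt : min ε δ / 2 < min ε δ := by linarith
      set η := min ε δ / 2 with hηdef
      have hdist : dist ((a.1, a.2.1 + η, a.2.2) : R3) a < min ε δ := by
        rw [Prod.dist_eq, Prod.dist_eq]
        simp only [dist_self, Real.dist_eq, add_sub_cancel_left]
        rw [abs_of_pos hη]
        simp only [max_lt_iff]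
        exact ⟨by linarith, hlt, by linarith⟩
      refine ⟨(a.1, a.2.1 + η, a.2.2), ⟨?_, ha0⟩, hdist.trans_le (min_le_left _ _)⟩
      have hnot : ((a.1, a.2.1 + η, a.2.2) : R3) ∉ Tau := hd (hdist.trans_le (min_le_right _ _))
      intro s hs hc
      have hs' : a.2.2 ≤ s := hs
      rcases (ha0.trans hs').eq_or_lt with h6 | h6
      · have : s = a.2.2 := by linarith
        rw [this] at hc; exact hnot hc
      · rcases Tau_pos (by linarith) hm with ⟨h1, h2, h3, h4⟩ | ⟨h1, h2, h3, h4⟩
        · rcases Tau_pos h6 hc with ⟨_, _, k3, _⟩ | ⟨k1, _, _, _⟩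
          · have k3' : a.2.1 + η = ff a.1 := k3
            linarith
          · have k1' : 0 < a.1 := k1
            linarith
        · rcases Tau_pos h6 hc with ⟨_, k2, _, _⟩ | ⟨_, _, k3, _⟩
          · have k2' : a.1 < -7/4 := k2
            linarith
          · have k3' : a.2.1 + η = -ff (-a.1) := k3
            linarith
  obtain ⟨c, hc0, hc⟩ := ext_section (T := T) (H := {p : R3 | 0 ≤ p.2.2}) (W := W) (S := S)
    (c0 := fun p => u p • n) (hT.mono (fun a ha => ha.1)) hdens
    (by
      rintro a ⟨ha, ha0⟩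
      obtain ⟨ε, hε, h⟩ := hn a ha ha0
      exact ⟨ε, hε, fun x hx y hy hxa hya => h x y hxa hya hx.1 hy.1 hx.2 hy.2⟩)
    (by
      rintro a ⟨ha, ha0⟩
      obtain ⟨δ, hδ, hd⟩ := Metric.isOpen_iff.1 hTopen a ha
      exact ⟨δ, hδ, fun x hx hxa => ⟨hd hxa, hx⟩⟩)
  -- the section below the plane
  have hc' : ∀ a : R3, a ∉ Tau → a.2.2 ≤ 0 → ∃ ε > 0, ∀ x y : R3, x.2.2 ≤ 0 → y.2.2 ≤ 0 →
      dist x a < ε → dist y a < ε → c (-x) = T x y • c (-y) := by
    intro a ha ha0
    obtain ⟨ε, hε, h⟩ := hc (-a) ⟨by rwa [Tau_neg], by show 0 ≤ -a.2.2; linarith⟩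
    refine ⟨ε, hε, fun x y hx hy hxa hya => ?_⟩
    rw [← hinv]
    exact h _ (show 0 ≤ -x.2.2 by linarith) _ (show 0 ≤ -y.2.2 by linarith)
      (by rwa [dist_neg_neg]) (by rwa [dist_neg_neg])
  -- agreement on the plane
  have hagree : ∀ x y, ((x, y, 0) : R3) ∉ Tau → c (x, y, 0) = c (-x, -y, 0) := by
    have loc : ∀ a : R3, a ∉ Tau → a.2.2 = 0 → ∃ ε > 0, ∀ x y : R3, x.2.2 = 0 → y.2.2 = 0 →
        dist x a < ε → dist y a < ε → (c x = c (-x) ↔ c y = c (-y)) := by
      intro a ha ha0
      obtain ⟨ε, hε, h⟩ := hc a ⟨ha, ha0.ge⟩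
      obtain ⟨ε', hε', h'⟩ := hc' a ha ha0.le
      refine ⟨min ε ε', lt_min hε hε', fun x y hx hy hxa hya => ?_⟩
      rw [h x hx.ge y hy.ge (hxa.trans_le (min_le_left _ _)) (hya.trans_le (min_le_left _ _)),
        h' x y hx.le hy.le (hxa.trans_le (min_le_right _ _)) (hya.trans_le (min_le_right _ _))]
      constructor
      · intro e; exact smul_left_cancel _ e
      · intro e; rw [e]
    have neg0 : ∀ x y : ℝ, -((x, y, 0) : R3) = (-x, -y, 0) := by
      intro x y
      refine Prod.ext rfl (Prod.ext rfl ?_)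
      simp
    have path : ∀ γ : ℝ → ℝ × ℝ, Continuous γ →
        (∀ s ∈ Icc (0:ℝ) 1, (((γ s).1, (γ s).2, 0) : R3) ∉ Tau) →
        (c ((γ 0).1, (γ 0).2, 0) = c (-(γ 0).1, -(γ 0).2, 0) ↔
          c ((γ 1).1, (γ 1).2, 0) = c (-(γ 1).1, -(γ 1).2, 0)) := by
      intro γ cγ hγ
      have key := eq_of_loc_const (f := fun t => (c ((γ t).1, (γ t).2, 0) = c (-(γ t).1, -(γ t).2, 0)))
        (by
          intro s hs
          obtain ⟨ε, hε, h⟩ := loc _ (hγ s hs) rfl
          have cg : Continuous (fun t => (((γ t).1, (γ t).2, 0) : R3)) := by fun_prop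
          obtain ⟨δ, hδ, hd⟩ := Metric.continuousAt_iff.1 (cg.continuousAt (x := s)) ε hε
          refine ⟨δ, hδ, fun t _ t' _ h1 h2 => ?_⟩
          have := h ((γ t).1, (γ t).2, 0) ((γ t').1, (γ t').2, 0) rfl rfl
            (hd (x := t) (by rwa [Real.dist_eq])) (hd (x := t') (by rwa [Real.dist_eq]))
          rw [neg0, neg0] at this
          exact propext this) 1 (right_mem_Icc.2 zero_le_one)
      exact (Iff.of_eq key).symm
    apply planar_conn (Q := fun x y => c (x, y, 0) = c (-x, -y, 0))
    · intro x y h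
      rw [neg_neg, neg_neg]; exact h.symm
    · intro x x' y hx h
      have := path (fun s => (x + s * (x' - x), y)) (by fun_prop)
        (fun s hs => h _ (by nlinarith [hs.1]) (by nlinarith [hs.1, hs.2]))
      simpa using this
    · intro x y y' hy h
      have := path (fun s => (x, y + s * (y' - y))) (by fun_prop)
        (fun s hs => h _ (by nlinarith [hs.1]) (by nlinarith [hs.1, hs.2]))
      simpa using this
    · have m1 := offG_mem (offG_8 (y := -1/4) (by norm_num) le_rfl)
      have m2 : Ut (0, 1/4, 0) := by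
        have := m1.2
        rw [neg0] at this
        norm_num at this; exact this
      show c (0, -1/4, 0) = c (-0, -(-1/4), 0)
      rw [neg_zero, show -(-1/4:ℝ) = 1/4 by norm_num, hc0 _ ⟨m1.1, le_rfl⟩ ⟨m1.1.not_mem, le_rfl⟩,
        hc0 _ ⟨m2, le_rfl⟩ ⟨m2.not_mem, le_rfl⟩, hn1, hn2]
  classical
  let c' : R3 → ZMod 5 := fun p => if 0 ≤ p.2.2 then c p else c (-p)
  have hsec : Sec T c' Tauᶜ := by
    intro a ha
    rcases lt_trichotomy a.2.2 0 with h | h | h
    · obtain ⟨ε, hε, h1⟩ := hc' a ha h.le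
      obtain ⟨δ, hδ, hd⟩ := Metric.eventually_nhds_iff.1 (ev_lt cont3 continuous_const h)
      refine ⟨min ε δ, lt_min hε hδ, fun x y hx hy => ?_⟩
      have x0 : x.2.2 < 0 := hd (hx.trans_le (min_le_right _ _))
      have y0 : y.2.2 < 0 := hd (hy.trans_le (min_le_right _ _))
      show (if 0 ≤ x.2.2 then c x else c (-x)) = T x y • (if 0 ≤ y.2.2 then c y else c (-y))
      rw [if_neg (not_le.2 x0), if_neg (not_le.2 y0)]
      exact h1 x y x0.le y0.le (hx.trans_le (min_le_left _ _)) (hy.trans_le (min_le_left _ _))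
    · obtain ⟨ε, hε, h1⟩ := hc a ⟨ha, h.ge⟩
      obtain ⟨ε', hε', h1'⟩ := hc' a ha h.le
      obtain ⟨e, he, hf⟩ := hT a ha
      have hag : c a = c (-a) := by
        have ea : a = (a.1, a.2.1, 0) := Prod.ext rfl (Prod.ext rfl h)
        have ena : -a = (-a.1, -a.2.1, 0) := Prod.ext rfl (Prod.ext rfl (by show -a.2.2 = 0; rw [h, neg_zero]))
        have := hagree a.1 a.2.1 (by rw [← ea]; exact ha)
        rw [← ea, ← ena] at this
        exact this
      have base : ∀ x, dist x a < min (min ε ε') e → c' x = T x a • c a := by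
        intro x hx
        have x1 : dist x a < ε := hx.trans_le ((min_le_left _ _).trans (min_le_left _ _))
        have x2 : dist x a < ε' := hx.trans_le ((min_le_left _ _).trans (min_le_right _ _))
        show (if 0 ≤ x.2.2 then c x else c (-x)) = T x a • c a
        by_cases hx0 : 0 ≤ x.2.2
        · rw [if_pos hx0]
          exact h1 x hx0 a h.ge x1 (by simpa using hε)
        · rw [if_neg hx0, hag]
          exact h1' x a (not_le.1 hx0).le h.le x2 (by simpa using hε')
      refine ⟨min (min ε ε') e, lt_min (lt_min hε hε') he, fun x y hx hy => ?_⟩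
      rw [base x hx, base y hy, ← mul_smul, hf x y a (hx.trans_le (min_le_right _ _))
        (hy.trans_le (min_le_right _ _)) (by simpa using he)]
    · obtain ⟨ε, hε, h1⟩ := hc a ⟨ha, h.le⟩
      obtain ⟨δ, hδ, hd⟩ := Metric.eventually_nhds_iff.1 (ev_lt continuous_const cont3 h)
      refine ⟨min ε δ, lt_min hε hδ, fun x y hx hy => ?_⟩
      have x0 : 0 < x.2.2 := hd (hx.trans_le (min_le_right _ _))
      have y0 : 0 < y.2.2 := hd (hy.trans_le (min_le_right _ _))
      show (if 0 ≤ x.2.2 then c x else c (-x)) = T x y • (if 0 ≤ y.2.2 then c y else c (-y))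
      rw [if_pos x0.le, if_pos y0.le]
      exact h1 x x0.le y y0.le (hx.trans_le (min_le_left _ _)) (hy.trans_le (min_le_left _ _))
  refine ⟨c', hsec, ?_⟩
  -- vanishing near the origin
  have zr_sub : ∀ a ∈ Zr (1/4), a ∉ Tau := by
    rintro a ⟨ha, ha2⟩ hm
    obtain ⟨b1, b2, b3⟩ := nq_bounds ha
    have b1 := abs_lt.1 b1
    have b2 := abs_lt.1 b2
    rcases hm with ⟨a1, a2, a3⟩ | ⟨a1, a2, a3, a4⟩ | ⟨a1, a2, a3⟩ | ⟨a1, a2, a3, a4⟩ | ⟨a1, a2, a3, a4⟩
    · have := ff_ge_one (x := a.1) (by linarith) (by linarith); linarith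
    · exact ha2 (Prod.ext a3 a4)
    · simp only [Prod.fst_neg, Prod.snd_neg] at a1 a2 a3
      have := ff_ge_one (x := -a.1) (by linarith) (by linarith); linarith
    · have := xi_ge a2 a3; linarith
    · have := xi_ge a2 a3
      simp only [Prod.fst_neg, Prod.snd_neg] at a4 this; linarith
  have zloc : ∀ a ∈ Zr (1/4), ∃ ε > 0, ∀ x y, dist x a < ε → dist y a < ε → (c' x = 0 ↔ c' y = 0) := by
    intro a ha
    obtain ⟨ε, hε, h⟩ := hsec a (zr_sub a ha)
    obtain ⟨ε', hε', h'⟩ := hα a ha
    have one : ∀ x y, dist x a < min ε ε' → dist y a < min ε ε' → c' y = 0 → c' x = 0 := by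
      intro x y hx hy h0
      rw [h x y (hx.trans_le (min_le_left _ _)) (hy.trans_le (min_le_left _ _)), h0,
        h' x y (hx.trans_le (min_le_right _ _)) (hy.trans_le (min_le_right _ _))]
      exact Tal_zero _ _
    exact ⟨min ε ε', lt_min hε hε', fun x y hx hy => ⟨one y x hy hx, one x y hx hy⟩⟩
  have hp0 : c' (0, -1/4, 0) = 0 := by
    have m1 := (offG_mem (offG_8 (y := -1/4) (by norm_num) le_rfl)).1
    show (if (0:ℝ) ≤ 0 then c (0, -1/4, 0) else c (-(0, -1/4, 0))) = 0
    rw [if_pos le_rfl, hc0 _ ⟨m1, le_rfl⟩ ⟨m1.not_mem, le_rfl⟩, hn1]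
  intro a ha
  obtain ⟨r, θ, hr, hy, hz⟩ : ∃ r θ : ℝ, 0 < r ∧ a.2.1 = r * Real.cos θ ∧ a.2.2 = r * Real.sin θ := by
    have hne : (⟨a.2.1, a.2.2⟩ : ℂ) ≠ 0 := by
      intro h
      apply ha.2
      have := Complex.ext_iff.1 h
      exact Prod.ext this.1 this.2
    refine ⟨‖(⟨a.2.1, a.2.2⟩ : ℂ)‖, Complex.arg ⟨a.2.1, a.2.2⟩, norm_pos_iff.2 hne, ?_, ?_⟩
    · exact (Complex.norm_mul_cos_arg (⟨a.2.1, a.2.2⟩ : ℂ)).symm
    · exact (Complex.norm_mul_sin_arg (⟨a.2.1, a.2.2⟩ : ℂ)).symm
  have hnq : a.1 ^ 2 + r ^ 2 < 1/4 := by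
    have := ha.1
    unfold nq at this
    rw [hy, hz] at this
    have e := Real.sin_sq_add_cos_sq θ
    nlinarith
  have key := eq_of_loc_const (f := fun s : ℝ => (c' ((1 - s) * a.1, ((1 - s) * r + s / 4) *
    Real.cos ((1 - s) * θ + s * Real.pi), ((1 - s) * r + s / 4) * Real.sin ((1 - s) * θ + s * Real.pi)) = 0))
    (by
      intro s hs
      have hrs : 0 < (1 - s) * r + s / 4 := by
        rcases hs.1.eq_or_lt with h | h
        · rw [← h]; simpa using hr
        · nlinarith [hs.2]
      have hz : (((1 - s) * a.1, ((1 - s) * r + s / 4) * Real.cos ((1 - s) * θ + s * Real.pi),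
          ((1 - s) * r + s / 4) * Real.sin ((1 - s) * θ + s * Real.pi)) : R3) ∈ Zr (1/4) := by
        have e := Real.sin_sq_add_cos_sq ((1 - s) * θ + s * Real.pi)
        set C := Real.cos ((1 - s) * θ + s * Real.pi)
        set Sn := Real.sin ((1 - s) * θ + s * Real.pi)
        set ρ := (1 - s) * r + s / 4 with hρ
        refine ⟨?_, fun h => ?_⟩
        · show ((1 - s) * a.1) ^ 2 + (ρ * C) ^ 2 + (ρ * Sn) ^ 2 < 1/4
          have e1 : (ρ * C) ^ 2 + (ρ * Sn) ^ 2 = ρ ^ 2 := by
            have : (ρ * C) ^ 2 + (ρ * Sn) ^ 2 = ρ ^ 2 * (Sn ^ 2 + C ^ 2) := by ring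
            rw [this, e, mul_one]
          have e2 : ρ ^ 2 ≤ (1 - s) * r ^ 2 + s * (1/16) := by
            rw [hρ]; nlinarith [mul_nonneg (mul_nonneg hs.1 (sub_nonneg.2 hs.2)) (sq_nonneg (r - 1/4))]
          have e3 : ((1 - s) * a.1) ^ 2 ≤ (1 - s) * a.1 ^ 2 := by
            nlinarith [mul_nonneg (mul_nonneg hs.1 (sub_nonneg.2 hs.2)) (sq_nonneg a.1)]
          have e4 : (1 - s) * (a.1 ^ 2 + r ^ 2) + s * (1/16) < 1/4 := by
            rcases hs.2.eq_or_lt with h | h
            · rw [h]; norm_num
            · nlinarith [mul_pos (sub_pos.2 h) (sub_pos.2 hnq), hs.1]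
          nlinarith
        · have h1 : ρ * C = 0 := congrArg Prod.fst h
          have h2 : ρ * Sn = 0 := congrArg Prod.snd h
          have h3 : C = 0 := (mul_eq_zero.1 h1).resolve_left hrs.ne'
          have h4 : Sn = 0 := (mul_eq_zero.1 h2).resolve_left hrs.ne'
          rw [h3, h4] at e; norm_num at e
      obtain ⟨ε, hε, h⟩ := zloc _ hz
      have cg : Continuous (fun s : ℝ => (((1 - s) * a.1, ((1 - s) * r + s / 4) *
        Real.cos ((1 - s) * θ + s * Real.pi), ((1 - s) * r + s / 4) *
        Real.sin ((1 - s) * θ + s * Real.pi)) : R3)) := by fun_prop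
      obtain ⟨δ, hδ, hd⟩ := Metric.continuousAt_iff.1 (cg.continuousAt (x := s)) ε hε
      refine ⟨δ, hδ, fun t _ t' _ h1 h2 => ?_⟩
      exact propext (h _ _ (hd (by rwa [Real.dist_eq])) (hd (x := t') (by rwa [Real.dist_eq]))))
    1 (right_mem_Icc.2 zero_le_one)
  have e1 : (((1 - 1) * a.1, ((1 - 1) * r + 1 / 4) * Real.cos ((1 - 1) * θ + 1 * Real.pi),
      ((1 - 1) * r + 1 / 4) * Real.sin ((1 - 1) * θ + 1 * Real.pi)) : R3) = (0, -1/4, 0) := by
    norm_num
  have e0 : (((1 - 0) * a.1, ((1 - 0) * r + 0 / 4) * Real.cos ((1 - 0) * θ + 0 * Real.pi),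
      ((1 - 0) * r + 0 / 4) * Real.sin ((1 - 0) * θ + 0 * Real.pi)) : R3) = a := by
    refine Prod.ext (by simp) (Prod.ext ?_ ?_)
    · show ((1 - 0) * r + 0 / 4) * Real.cos ((1 - 0) * θ + 0 * Real.pi) = a.2.1
      rw [hy]; norm_num
    · show ((1 - 0) * r + 0 / 4) * Real.sin ((1 - 0) * θ + 0 * Real.pi) = a.2.2
      rw [hz]; norm_num
  simp only [e1, e0] at key
  rw [← key]; exact hp0

end Pool.Agent.H753
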