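import Pool.Agent.H753.CurveInj
import Pool.Agent.H753.Grp

/-! The regions of the diagram of the long figure eight knot and a labelling of the regions by
affine maps. -/

set_option autoImplicit false

namespace Pool.Agent.H753

open Set Filter Topology Pool.Agent.Helper60.AS

def Ea : Aff := ⟨u3⁻¹, 1⟩
def Ea' : Aff := ⟨u3, 3⟩
def Ec : Aff := al⁻¹
def Ee : Aff := al
def Ed : Aff := ⟨u3, 4⟩
def Ed' : Aff := ⟨u3⁻¹, 3⟩
def JA : Aff := Ea * Ea'⁻¹
def JB : Aff := Ea⁻¹ * Ee
def JC : Aff := Ec * Ea'⁻¹
def JD : Aff := Ea⁻¹ * Ea'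

theorem relA : JA = Ed * Ec⁻¹ := by decide
theorem relB : JB = Ed⁻¹ * Ec := by decide
theorem relC : JC = Ee * Ed'⁻¹ := by decide
theorem relD : JD = Ee⁻¹ * Ed' := by decide

open Classical in
/-- the labelling of the regions of the plane -/
noncomputable def Er (x y : ℝ) : Aff :=
  if x < -3 then (if ff x < y then Ea else if -2 < y ∧ y ≤ 0 ∧ -x ≤ xi (-y) then Ec else Ea')
  else if 3 < x then (if 0 < y ∧ y ≤ 2 ∧ x ≤ xi y then Ee else if -ff (-x) < y then Ea else Ea')
  else if ff x < y then (if 0 < y then Ea else Ed)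
  else if -ff (-x) < y then (if 0 < y then (if x < -5/2 then Ea' else Ee)
    else (if 5/2 < x then Ea else Ec))
  else if 0 < y then Ed' else Ea'

theorem Er_L {x : ℝ} (y : ℝ) (h : x < -5/2) : Er x y =
    if ff x < y then Ea else if -2 < y ∧ y ≤ 0 ∧ -x ≤ xi (-y) then Ec else Ea' := by
  unfold Er
  by_cases h3 : x < -3
  · simp [h3]
  have h4 : ¬ 3 < x := by linarith
  have h3' : -3 ≤ x := not_lt.1 h3
  rw [if_neg h3, if_neg h4]
  have hf := ff_pos1 (x := x) (by linarith) h
  have hf' := ff_eq_two (x := -x) (by linarith) (by linarith)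
  by_cases c1 : ff x < y
  · have : 0 < y := by linarith
    simp [c1, this]
  · rw [if_neg c1, if_neg c1, hf']
    by_cases c2 : -2 < y
    · rw [if_pos c2]
      by_cases c3 : 0 < y
      · simp [c3, h, not_le.2 c3]
      · have c4 : y ≤ 0 := not_lt.1 c3
        have c5 : -x ≤ xi (-y) := by
          have := xi_ge (y := -y) (by linarith) (by linarith)
          linarith
        have c6 : ¬ (5/2 < x) := by linarith
        rw [if_neg c3, if_neg c6, if_pos ⟨c2, c4, c5⟩]
    · have c3 : ¬ (0 < y) := by linarith
      simp [c2, c3]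

theorem Er_R {x : ℝ} (y : ℝ) (h : 5/2 < x) : Er x y =
    if 0 < y ∧ y ≤ 2 ∧ x ≤ xi y then Ee else if -ff (-x) < y then Ea else Ea' := by
  unfold Er
  have h4 : ¬ x < -3 := by linarith
  by_cases h3 : 3 < x
  · simp [h3, h4]
  have h3' : x ≤ 3 := not_lt.1 h3
  rw [if_neg h4, if_neg h3]
  have hf := ff_pos1 (x := -x) (by linarith) (by linarith)
  have hf' := ff_eq_two (x := x) (by linarith) (by linarith)
  rw [hf']
  by_cases c1 : 2 < y
  · have c2 : 0 < y := by linarith
    have c3 : -ff (-x) < y := by linarith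
    have c4 : ¬ (y ≤ 2) := by linarith
    simp [c1, c2, c3, c4]
  · rw [if_neg c1]
    by_cases c3 : 0 < y
    · have c2 : -ff (-x) < y := by linarith
      have c5 : x ≤ xi y := by
        have := xi_ge (y := y) (by linarith) (by linarith)
        linarith
      have c6 : ¬ (x < -5/2) := by linarith
      rw [if_pos c2, if_pos c3, if_neg c6, if_pos ⟨c3, not_lt.1 c1, c5⟩]
    · by_cases c2 : -ff (-x) < y
      · simp [c2, c3, h]
      · simp [c2, c3]

theorem Er_M {x : ℝ} (y : ℝ) (h : -3 < x) (h' : x < 3) : Er x y =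
    if ff x < y then (if 0 < y then Ea else Ed)
    else if -ff (-x) < y then (if 0 < y then (if x < -5/2 then Ea' else Ee)
      else (if 5/2 < x then Ea else Ec))
    else if 0 < y then Ed' else Ea' := by
  unfold Er
  rw [if_neg (by linarith), if_neg (by linarith)]

/-- the complement of the diagram -/
def OffG (x y : ℝ) : Prop :=
  (x ≤ 3 → y ≠ ff x) ∧ (-3 ≤ x → y ≠ -ff (-x)) ∧ (-3 ≤ x → x ≤ 3 → y ≠ 0) ∧
  ¬ (0 ≤ y ∧ y ≤ 2 ∧ x = xi y) ∧ ¬ (-2 ≤ y ∧ y ≤ 0 ∧ -x = xi (-y))

theorem cont1 : Continuous (fun p : R3 => p.1) := continuous_fst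
theorem cont1n : Continuous (fun p : R3 => -p.1) := continuous_fst.neg
theorem cont2 : Continuous (fun p : R3 => p.2.1) := continuous_fst.comp continuous_snd
theorem cont3 : Continuous (fun p : R3 => p.2.2) := continuous_snd.comp continuous_snd
theorem contf : Continuous (fun p : R3 => ff p.1) := ff_cont.comp continuous_fst
theorem contf' : Continuous (fun p : R3 => -ff (-p.1)) := (ff_cont.comp continuous_fst.neg).neg
theorem contk : Continuous (fun p : R3 => kk p.1) := kk_cont.comp continuous_fst
theorem contk' : Continuous (fun p : R3 => -kk (-p.1)) := (kk_cont.comp continuous_fst.neg).neg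
theorem contx : Continuous (fun p : R3 => xi p.2.1) := xi_cont.comp cont2
theorem contx' : Continuous (fun p : R3 => xi (-p.2.1)) := xi_cont.comp cont2.neg

/-- strict inequalities persist -/
theorem ev_lt {f g : R3 → ℝ} (hf : Continuous f) (hg : Continuous g) {a : R3} (h : f a < g a) :
    ∀ᶠ p in 𝓝 a, f p < g p := (isOpen_lt hf hg).mem_nhds h

/-- `Er` is locally constant off the diagram -/
theorem Er_const {a : R3} (h : OffG a.1 a.2.1) : ∀ᶠ p : R3 in 𝓝 a, Er p.1 p.2.1 = Er a.1 a.2.1 := by
  obtain ⟨h1, h2, h3, h4, h5⟩ := h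
  rcases lt_or_ge a.1 (-5/2) with hx | hx
  · -- left column
    have e0 := ev_lt cont1 (continuous_const (y := (-5/2:ℝ))) hx
    rcases lt_or_gt_of_ne (h1 (by linarith)) with g | g
    · have e1 := ev_lt cont2 contf g
      -- the inside of the hairpin
      have key : (∀ᶠ p : R3 in 𝓝 a, (-2 < p.2.1 ∧ p.2.1 ≤ 0 ∧ -p.1 ≤ xi (-p.2.1)) ) ∨
          (∀ᶠ p : R3 in 𝓝 a, ¬ (-2 < p.2.1 ∧ p.2.1 ≤ 0 ∧ -p.1 ≤ xi (-p.2.1))) := by
        by_cases q : xi (-a.2.1) < -a.1
        · right
          filter_upwards [ev_lt contx' cont1n q] with p hp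
          rintro ⟨_, _, hc⟩; linarith
        rcases lt_or_ge 0 a.2.1 with y0 | y0
        · right
          filter_upwards [ev_lt continuous_const cont2 y0] with p hp
          rintro ⟨_, hc, _⟩; linarith
        rcases lt_or_ge a.2.1 (-2) with y1 | y1
        · right
          filter_upwards [ev_lt cont2 continuous_const y1] with p hp
          rintro ⟨hc, _, _⟩; linarith
        have q' : -a.1 < xi (-a.2.1) := lt_of_le_of_ne (not_lt.1 q) (fun e => h5 ⟨y1, y0, e⟩)
        have y0' : a.2.1 < 0 := by
          apply lt_of_le_of_ne y0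
          intro e
          rw [e, neg_zero, xi_zero] at q'
          exact h3 (by linarith) (by linarith) e
        have y1' : -2 < a.2.1 := by
          apply lt_of_le_of_ne y1
          intro e
          rw [← e, neg_neg, xi_two] at q'
          refine h2 (by linarith) ?_
          rw [← e, ff_eq_two (by linarith) (by linarith)]
        left
        filter_upwards [ev_lt cont2 continuous_const y0', ev_lt continuous_const cont2 y1',
          ev_lt cont1n contx' q'] with p p1 p2 p3
        exact ⟨p2, p1.le, p3.le⟩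
      rcases key with key | key
      · have ka := key.self_of_nhds
        filter_upwards [e0, e1, key] with p p0 p1 p2
        rw [Er_L _ p0, Er_L _ hx, if_neg (not_lt.2 p1.le), if_neg (not_lt.2 g.le), if_pos p2, if_pos ka]
      · have ka := key.self_of_nhds
        filter_upwards [e0, e1, key] with p p0 p1 p2
        rw [Er_L _ p0, Er_L _ hx, if_neg (not_lt.2 p1.le), if_neg (not_lt.2 g.le), if_neg p2, if_neg ka]
    · have e1 := ev_lt contf cont2 g
      filter_upwards [e0, e1] with p p0 p1
      rw [Er_L _ p0, Er_L _ hx, if_pos p1, if_pos g]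
  rcases lt_or_ge (5/2) a.1 with hx' | hx'
  · -- right column
    have e0 := ev_lt (continuous_const (y := (5/2:ℝ))) cont1 hx'
    have key : (∀ᶠ p : R3 in 𝓝 a, (0 < p.2.1 ∧ p.2.1 ≤ 2 ∧ p.1 ≤ xi p.2.1)) ∨
        (∀ᶠ p : R3 in 𝓝 a, ¬ (0 < p.2.1 ∧ p.2.1 ≤ 2 ∧ p.1 ≤ xi p.2.1)) := by
      by_cases q : xi a.2.1 < a.1
      · right
        filter_upwards [ev_lt contx cont1 q] with p hp
        rintro ⟨_, _, hc⟩; linarith
      rcases lt_or_ge 2 a.2.1 with y0 | y0
      · right
        filter_upwards [ev_lt continuous_const cont2 y0] with p hp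
        rintro ⟨_, hc, _⟩; linarith
      rcases lt_or_ge a.2.1 0 with y1 | y1
      · right
        filter_upwards [ev_lt cont2 continuous_const y1] with p hp
        rintro ⟨hc, _, _⟩; linarith
      have q' : a.1 < xi a.2.1 := lt_of_le_of_ne (not_lt.1 q) (fun e => h4 ⟨y1, y0, e⟩)
      have y1' : 0 < a.2.1 := by
        apply lt_of_le_of_ne y1
        intro e
        rw [← e, xi_zero] at q'
        exact h3 (by linarith) (by linarith) e.symm
      have y0' : a.2.1 < 2 := by
        apply lt_of_le_of_ne y0
        intro e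
        rw [e, xi_two] at q'
        refine h1 (by linarith) ?_
        rw [e, ff_eq_two (by linarith) (by linarith)]
      left
      filter_upwards [ev_lt cont2 continuous_const y0', ev_lt continuous_const cont2 y1',
        ev_lt cont1 contx q'] with p p1 p2 p3
      exact ⟨p2, p1.le, p3.le⟩
    rcases lt_or_gt_of_ne (h2 (by linarith)) with g | g
    · have e1 := ev_lt cont2 contf' g
      rcases key with key | key
      · have ka := key.self_of_nhds
        filter_upwards [e0, e1, key] with p p0 p1 p2
        rw [Er_R _ p0, Er_R _ hx', if_pos p2, if_pos ka]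
      · have ka := key.self_of_nhds
        filter_upwards [e0, e1, key] with p p0 p1 p2
        rw [Er_R _ p0, Er_R _ hx', if_neg p2, if_neg ka, if_neg (not_lt.2 p1.le), if_neg (not_lt.2 g.le)]
    · have e1 := ev_lt contf' cont2 g
      rcases key with key | key
      · have ka := key.self_of_nhds
        filter_upwards [e0, e1, key] with p p0 p1 p2
        rw [Er_R _ p0, Er_R _ hx', if_pos p2, if_pos ka]
      · have ka := key.self_of_nhds
        filter_upwards [e0, e1, key] with p p0 p1 p2
        rw [Er_R _ p0, Er_R _ hx', if_neg p2, if_neg ka, if_pos p1, if_pos g]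
  · -- middle column
    have e0 := ev_lt (continuous_const (y := (-3:ℝ))) cont1 (a := a) (by linarith)
    have e0' := ev_lt cont1 (continuous_const (y := (3:ℝ))) (a := a) (by linarith)
    have eM : ∀ y, Er a.1 y = _ := fun y => Er_M y (by linarith) (by linarith)
    rcases lt_or_gt_of_ne (h1 (by linarith)) with g1 | g1
    · have e1 := ev_lt cont2 contf g1
      rcases lt_or_gt_of_ne (h2 (by linarith)) with g2 | g2
      · have e2 := ev_lt cont2 contf' g2
        rcases lt_or_gt_of_ne (h3 (by linarith) (by linarith)) with g3 | g3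
        · filter_upwards [e0, e0', e1, e2, ev_lt cont2 continuous_const g3] with p p0 p0' p1 p2 p3
          rw [Er_M _ p0 p0', eM, if_neg (not_lt.2 p1.le), if_neg (not_lt.2 g1.le),
            if_neg (not_lt.2 p2.le), if_neg (not_lt.2 g2.le), if_neg (not_lt.2 p3.le),
            if_neg (not_lt.2 g3.le)]
        · filter_upwards [e0, e0', e1, e2, ev_lt continuous_const cont2 g3] with p p0 p0' p1 p2 p3
          rw [Er_M _ p0 p0', eM, if_neg (not_lt.2 p1.le), if_neg (not_lt.2 g1.le),
            if_neg (not_lt.2 p2.le), if_neg (not_lt.2 g2.le), if_pos p3, if_pos g3]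
      · have e2 := ev_lt contf' cont2 g2
        rcases lt_or_gt_of_ne (h3 (by linarith) (by linarith)) with g3 | g3
        · have hx2 : a.1 < 5/2 := by
            apply lt_of_le_of_ne hx'
            intro e
            rw [e, show -(5/2:ℝ) = -5/2 by ring, ff_A] at g2
            linarith
          filter_upwards [e0, e0', e1, e2, ev_lt cont2 continuous_const g3,
            ev_lt cont1 continuous_const hx2] with p p0 p0' p1 p2 p3 p4
          rw [Er_M _ p0 p0', eM, if_neg (not_lt.2 p1.le), if_neg (not_lt.2 g1.le),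
            if_pos p2, if_pos g2, if_neg (not_lt.2 p3.le),
            if_neg (not_lt.2 g3.le), if_neg (not_lt.2 p4.le), if_neg (not_lt.2 hx2.le)]
        · have hx2 : -5/2 < a.1 := by
            apply lt_of_le_of_ne hx
            intro e
            rw [← e, ff_A] at g1
            linarith
          filter_upwards [e0, e0', e1, e2, ev_lt continuous_const cont2 g3,
            ev_lt continuous_const cont1 hx2] with p p0 p0' p1 p2 p3 p4
          rw [Er_M _ p0 p0', eM, if_neg (not_lt.2 p1.le), if_neg (not_lt.2 g1.le),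
            if_pos p2, if_pos g2, if_pos p3, if_pos g3, if_neg (not_lt.2 p4.le),
            if_neg (not_lt.2 hx2.le)]
    · have e1 := ev_lt contf cont2 g1
      rcases lt_or_gt_of_ne (h3 (by linarith) (by linarith)) with g3 | g3
      · filter_upwards [e0, e0', e1, ev_lt cont2 continuous_const g3] with p p0 p0' p1 p3
        rw [Er_M _ p0 p0', eM, if_pos p1, if_pos g1, if_neg (not_lt.2 p3.le),
          if_neg (not_lt.2 g3.le)]
      · filter_upwards [e0, e0', e1, ev_lt continuous_const cont2 g3] with p p0 p0' p1 p3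
        rw [Er_M _ p0 p0', eM, if_pos p1, if_pos g1, if_pos p3, if_pos g3]

end Pool.Agent.H753
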