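import Mathlib

/-! Facts about the smooth step function. -/

set_option autoImplicit false

namespace Pool.Agent.H753

open Set

/-- the smooth step function -/
noncomputable def sg (x : ℝ) : ℝ := Real.smoothTransition x

theorem sg_contDiff {n : ℕ∞} : ContDiff ℝ n sg := Real.smoothTransition.contDiff

theorem sg_cont : Continuous sg := Real.smoothTransition.continuous

theorem sg_zero {x : ℝ} (h : x ≤ 0) : sg x = 0 := Real.smoothTransition.zero_of_nonpos h

theorem sg_one {x : ℝ} (h : 1 ≤ x) : sg x = 1 := Real.smoothTransition.one_of_one_le h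

theorem sg_nonneg (x : ℝ) : 0 ≤ sg x := Real.smoothTransition.nonneg x

theorem sg_le_one (x : ℝ) : sg x ≤ 1 := Real.smoothTransition.le_one x

theorem sg_mono : Monotone sg := Real.smoothTransition.monotone

theorem eng_hasDerivAt (x : ℝ) : HasDerivAt expNegInvGlue (x⁻¹ ^ 2 * expNegInvGlue x) x := by
  have h := expNegInvGlue.hasDerivAt_polynomial_eval_inv_mul 1 x
  simpa using h

theorem sg_hasDerivAt (x : ℝ) : HasDerivAt sg
    ((x⁻¹ ^ 2 + (1 - x)⁻¹ ^ 2) * expNegInvGlue x * expNegInvGlue (1 - x) /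
      (expNegInvGlue x + expNegInvGlue (1 - x)) ^ 2) x := by
  have h1 := eng_hasDerivAt x
  have h2 : HasDerivAt (fun x : ℝ => expNegInvGlue (1 - x))
      (-((1 - x)⁻¹ ^ 2 * expNegInvGlue (1 - x))) x := by
    have := (eng_hasDerivAt (1 - x)).comp x ((hasDerivAt_id x).const_sub 1)
    simpa [Function.comp_def] using this
  have h3 := h1.div (h1.add h2) (Real.smoothTransition.pos_denom x).ne'
  refine h3.congr_deriv ?_
  simp only [Pi.add_apply]
  congr 1
  ring

theorem sg_deriv_pos {x : ℝ} (h0 : 0 < x) (h1 : x < 1) : 0 < deriv sg x := by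
  rw [(sg_hasDerivAt x).deriv]
  have a1 := expNegInvGlue.pos_of_pos h0
  have a2 := expNegInvGlue.pos_of_pos (sub_pos.2 h1)
  positivity

theorem sg_deriv_nonneg (x : ℝ) : 0 ≤ deriv sg x := by
  rw [(sg_hasDerivAt x).deriv]
  have a1 := expNegInvGlue.nonneg x
  have a2 := expNegInvGlue.nonneg (1 - x)
  positivity

theorem sg_differentiable : Differentiable ℝ sg := fun x => (sg_hasDerivAt x).differentiableAt

theorem sg_strictMonoOn : StrictMonoOn sg (Icc 0 1) := by
  apply strictMonoOn_of_deriv_pos (convex_Icc 0 1) sg_cont.continuousOn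
  intro x hx
  rw [interior_Icc] at hx
  exact sg_deriv_pos hx.1 hx.2

theorem sg_half : sg (1 / 2) = 1 / 2 := by
  unfold sg Real.smoothTransition
  have h : (1:ℝ) - 1 / 2 = 1 / 2 := by norm_num
  rw [h]
  have a1 := expNegInvGlue.pos_of_pos (show (0:ℝ) < 1/2 by norm_num)
  field_simp
  norm_num

theorem sg_lt_half {x : ℝ} (h : x < 1 / 2) : sg x < 1 / 2 := by
  rcases le_or_gt x 0 with h0 | h0
  · rw [sg_zero h0]; norm_num
  · rw [← sg_half]
    exact sg_strictMonoOn ⟨h0.le, by linarith⟩ ⟨by norm_num, by norm_num⟩ h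

theorem sg_gt_half {x : ℝ} (h : 1 / 2 < x) : 1 / 2 < sg x := by
  rcases le_or_gt 1 x with h0 | h0
  · rw [sg_one h0]; norm_num
  · rw [← sg_half]
    exact sg_strictMonoOn ⟨by norm_num, by norm_num⟩ ⟨by linarith, h0.le⟩ h

theorem sg_pos {x : ℝ} (h : 0 < x) : 0 < sg x := Real.smoothTransition.pos_of_pos h

theorem sg_lt_one {x : ℝ} (h : x < 1) : sg x < 1 := Real.smoothTransition.lt_one_of_lt_one h

/-- the inverse of the smooth step on `[0,1]` -/
theorem exists_sinv : ∃ r : ℝ → ℝ, Continuous r ∧ (∀ y, 0 ≤ r y) ∧ (∀ y, r y ≤ 1) ∧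
    (∀ y ∈ Icc (0:ℝ) 1, sg (r y) = y) ∧ (∀ t ∈ Icc (0:ℝ) 1, r (sg t) = t) := by
  have hm : MapsTo sg (Icc 0 1) (Icc 0 1) := fun t _ => ⟨sg_nonneg t, sg_le_one t⟩
  let F : Icc (0:ℝ) 1 → Icc (0:ℝ) 1 := fun t => ⟨sg t, hm t.2⟩
  have hF : StrictMono F := fun a b hab => sg_strictMonoOn a.2 b.2 hab
  have hs : Function.Surjective F := by
    rintro ⟨y, hy⟩
    have h := intermediate_value_Icc (zero_le_one (α := ℝ)) (f := sg) sg_cont.continuousOn
    rw [sg_zero le_rfl, sg_one le_rfl] at h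
    obtain ⟨t, ht, hty⟩ := h hy
    exact ⟨⟨t, ht⟩, Subtype.ext hty⟩
  let e : Icc (0:ℝ) 1 ≃o Icc (0:ℝ) 1 := hF.orderIsoOfSurjective F hs
  refine ⟨fun y => (e.symm (projIcc 0 1 zero_le_one y) : ℝ), ?_, ?_, ?_, ?_, ?_⟩
  · exact continuous_subtype_val.comp (e.symm.continuous.comp continuous_projIcc)
  · intro y; exact (e.symm (projIcc 0 1 zero_le_one y)).2.1
  · intro y; exact (e.symm (projIcc 0 1 zero_le_one y)).2.2
  · intro y hy
    have h1 : e (e.symm (projIcc 0 1 zero_le_one y)) = projIcc 0 1 zero_le_one y :=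
      e.apply_symm_apply _
    have h2 : ((e (e.symm (projIcc 0 1 zero_le_one y)) : Icc (0:ℝ) 1) : ℝ) =
      sg (e.symm (projIcc 0 1 zero_le_one y)) := rfl
    rw [← h2, h1, projIcc_of_mem _ hy]
  · intro t ht
    have h1 : projIcc 0 1 zero_le_one (sg t) = e ⟨t, ht⟩ := by
      rw [projIcc_of_mem _ (hm ht)]; rfl
    show ((e.symm (projIcc 0 1 zero_le_one (sg t)) : Icc (0:ℝ) 1) : ℝ) = t
    rw [h1, e.symm_apply_apply]

/-- the inverse of the smooth step on `[0,1]` -/
noncomputable def sinv : ℝ → ℝ := exists_sinv.choose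

theorem sinv_cont : Continuous sinv := exists_sinv.choose_spec.1
theorem sinv_nonneg (y : ℝ) : 0 ≤ sinv y := exists_sinv.choose_spec.2.1 y
theorem sinv_le_one (y : ℝ) : sinv y ≤ 1 := exists_sinv.choose_spec.2.2.1 y
theorem sg_sinv {y : ℝ} (h0 : 0 ≤ y) (h1 : y ≤ 1) : sg (sinv y) = y :=
  exists_sinv.choose_spec.2.2.2.1 y ⟨h0, h1⟩
theorem sinv_sg {t : ℝ} (h0 : 0 ≤ t) (h1 : t ≤ 1) : sinv (sg t) = t :=
  exists_sinv.choose_spec.2.2.2.2 t ⟨h0, h1⟩

end Pool.Agent.H753
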