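import Pool.Agent.H753.None3c

/-! The spun plane in four-space and its complement: reduction to dimension three. -/

set_option autoImplicit false

namespace Pool.Agent.H753

open Set Filter Topology Pool.Agent.Helper60.AS

/-- four-space -/
abbrev E4 : Type := EuclideanSpace ℝ (Fin 4)

/-- the point with given coordinates -/
noncomputable def mk4 (a b c d : ℝ) : E4 := !₂[a, b, c, d]

@[simp] theorem mk4_0 (a b c d : ℝ) : mk4 a b c d 0 = a := by simp [mk4]
@[simp] theorem mk4_1 (a b c d : ℝ) : mk4 a b c d 1 = b := by simp [mk4]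
@[simp] theorem mk4_2 (a b c d : ℝ) : mk4 a b c d 2 = c := by simp [mk4]
@[simp] theorem mk4_3 (a b c d : ℝ) : mk4 a b c d 3 = d := by simp [mk4]

theorem E4_ext {p q : E4} (h0 : p 0 = q 0) (h1 : p 1 = q 1) (h2 : p 2 = q 2) (h3 : p 3 = q 3) :
    p = q := by
  ext i
  fin_cases i
  exacts [h0, h1, h2, h3]

theorem mk4_eta (p : E4) : mk4 (p 0) (p 1) (p 2) (p 3) = p := by
  apply E4_ext <;> simp

theorem continuous_mk4 {X : Type*} [TopologicalSpace X] {a b c d : X → ℝ} (ha : Continuous a)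
    (hb : Continuous b) (hc : Continuous c) (hd : Continuous d) :
    Continuous (fun x => mk4 (a x) (b x) (c x) (d x)) := by
  unfold mk4; fun_prop

theorem continuousAt_mk4 {X : Type*} [TopologicalSpace X] {a b c d : X → ℝ} {x₀ : X}
    (ha : ContinuousAt a x₀)
    (hb : ContinuousAt b x₀) (hc : ContinuousAt c x₀) (hd : ContinuousAt d x₀) :
    ContinuousAt (fun x => mk4 (a x) (b x) (c x) (d x)) x₀ := by
  unfold mk4; fun_prop

/-- squared norm -/
noncomputable def nsq (p : E4) : ℝ := p 0 ^ 2 + p 1 ^ 2 + p 2 ^ 2 + p 3 ^ 2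

theorem norm_sq_E4 (p : E4) : ‖p‖ ^ 2 = nsq p := by
  rw [EuclideanSpace.norm_sq_eq]; simp [Fin.sum_univ_four, nsq]

theorem nsq_nonneg (p : E4) : 0 ≤ nsq p := by unfold nsq; positivity
theorem nsq_cont : Continuous nsq := by unfold nsq; fun_prop

/-- the coordinates normal to the standard plane -/
noncomputable def zt (p : E4) : ℝ × ℝ := (p 1, p 2)

theorem zt_cont : Continuous zt := by unfold zt; fun_prop

/-- the involution -/
noncomputable def rho4 (p : E4) : E4 := mk4 (-p 0) (-p 1) (-p 2) (p 3)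

theorem rho4_cont : Continuous rho4 := by unfold rho4; exact continuous_mk4 (by fun_prop) (by fun_prop) (by fun_prop) (by fun_prop)
theorem rho4_rho4 (p : E4) : rho4 (rho4 p) = p := by
  apply E4_ext <;> simp [rho4]
theorem nsq_rho4 (p : E4) : nsq (rho4 p) = nsq p := by simp [nsq, rho4]
theorem zt_rho4 (p : E4) : zt (rho4 p) = - zt p := by simp [zt, rho4]

/-- the projection to the ball of radius 10 -/
noncomputable def FB (p : E4) : R3 :=
  (20 * p 0 / (1 + nsq p), 20 * p 1 / (1 + nsq p), 20 * p 2 / (1 + nsq p))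

theorem FB_cont : Continuous FB := by
  have h : ∀ p : E4, 1 + nsq p ≠ 0 := fun p => by have := nsq_nonneg p; positivity
  have := nsq_cont
  unfold FB
  refine Continuous.prodMk ?_ (Continuous.prodMk ?_ ?_)
  · exact Continuous.div (by fun_prop) (by fun_prop) h
  · exact Continuous.div (by fun_prop) (by fun_prop) h
  · exact Continuous.div (by fun_prop) (by fun_prop) h

theorem FB_rho4 (p : E4) : FB (rho4 p) = - FB p := by
  unfold FB
  rw [nsq_rho4]
  refine Prod.ext ?_ (Prod.ext ?_ ?_) <;> simp [rho4, neg_div]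

/-- the spun knotted plane -/
def SS : Set E4 := {p | FB p ∈ Tau}

theorem isClosed_SS : IsClosed SS := isClosed_Tau.preimage FB_cont

theorem rho4_mem_SS {p : E4} : rho4 p ∈ SS ↔ p ∈ SS := by
  unfold SS
  rw [mem_ofPred_eq, mem_ofPred_eq, FB_rho4, Tau_neg]

theorem nq_FB (p : E4) : nq (FB p) = 400 * (p 0 ^ 2 + p 1 ^ 2 + p 2 ^ 2) / (1 + nsq p) ^ 2 := by
  have h : 1 + nsq p ≠ 0 := by have := nsq_nonneg p; positivity
  unfold nq FB
  field_simp
  ring

theorem nq_FB_le (p : E4) : nq (FB p) ≤ 400 * nsq p / (1 + nsq p) ^ 2 := by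
  rw [nq_FB]
  have h := nsq_nonneg p
  apply div_le_div_of_nonneg_right _ (by positivity)
  unfold nsq
  nlinarith [sq_nonneg (p 3)]

theorem nq_FB_lt {p : E4} {r : ℝ} (hr : 0 < r) (h : r < nsq p) : nq (FB p) < 400 / r := by
  have h0 := nsq_nonneg p
  refine (nq_FB_le p).trans_lt ?_
  rw [div_lt_div_iff₀ (by positivity) hr]
  nlinarith

theorem nq_FB_100 (p : E4) : nq (FB p) = 100 - 100 * ((2 * p 3) ^ 2 + (nsq p - 1) ^ 2) / (1 + nsq p) ^ 2 := by
  have h : 1 + nsq p ≠ 0 := by have := nsq_nonneg p; positivity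
  rw [nq_FB, eq_sub_iff_add_eq, ← add_div, div_eq_iff (by positivity)]
  unfold nsq
  ring

theorem FB_snd_ne {p : E4} (h : zt p ≠ 0) : (FB p).2 ≠ 0 := by
  intro hc
  apply h
  have hn : 1 + nsq p ≠ 0 := by have := nsq_nonneg p; positivity
  have h1 : 20 * p 1 / (1 + nsq p) = 0 := congrArg Prod.fst hc
  have h2 : 20 * p 2 / (1 + nsq p) = 0 := congrArg Prod.snd hc
  rw [div_eq_zero_iff] at h1 h2
  refine Prod.ext ?_ ?_
  · show p 1 = 0
    rcases h1 with h1 | h1
    · linarith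
    · exact (hn h1).elim
  · show p 2 = 0
    rcases h2 with h2 | h2
    · linarith
    · exact (hn h2).elim

theorem FB_snd (p : E4) : (FB p).2 = (20 / (1 + nsq p)) • zt p := by
  unfold FB zt
  refine Prod.ext ?_ ?_
  · show 20 * p 1 / (1 + nsq p) = 20 / (1 + nsq p) * p 1; ring
  · show 20 * p 2 / (1 + nsq p) = 20 / (1 + nsq p) * p 2; ring

/-- near the origin the knot is the axis -/
theorem Tau_near {p : R3} (h : p ∈ Tau) (hn : nq p < 1) : p.2 = 0 := by
  have aux : ∀ {q : R3}, S1 q → nq q < 1 → False := by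
    rintro q ⟨a1, a2, a3⟩ hq
    unfold nq at hq
    rcases le_or_gt q.1 (-1) with h1 | h1
    · nlinarith [sq_nonneg q.2.1, sq_nonneg q.2.2]
    rcases le_or_gt q.1 (-1/2) with h2 | h2
    · have : kk q.1 = -1 := by rw [kk_right (by linarith), sg_one (by linarith)]
      rw [this] at a3
      nlinarith [sq_nonneg q.1, sq_nonneg q.2.1]
    · have := ff_ge_one (x := q.1) h2.le a1
      rw [← a2] at this
      nlinarith [sq_nonneg q.1, sq_nonneg q.2.2]
  have aux2 : ∀ {q : R3}, Hp q → nq q < 1 → False := by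
    rintro q ⟨a1, a2, a3, a4⟩ hq
    unfold nq at hq
    have := xi_ge a2 a3
    nlinarith [sq_nonneg q.2.1, sq_nonneg q.2.2]
  rcases h with h | h | h | h | h
  · exact (aux h hn).elim
  · exact Prod.ext h.2.2.1 h.2.2.2
  · exact (aux h (by rwa [nq_neg])).elim
  · exact (aux2 h hn).elim
  · exact (aux2 h (by rwa [nq_neg])).elim

theorem Tau_axis {x : ℝ} (h : |x| ≤ 3) : ((x, 0, 0) : R3) ∈ Tau := by
  have := abs_le.1 h
  exact Or.inr (Or.inl ⟨this.1, this.2, rfl, rfl⟩)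

/-- far away the spun plane is the standard plane -/
theorem SS_far {p : E4} (h : 400 < nsq p) : p ∈ SS ↔ zt p = 0 := by
  have hn := nq_FB_lt (by norm_num) h
  have hn' : nq (FB p) < 1 := by linarith
  constructor
  · intro hp
    by_contra hc
    exact FB_snd_ne hc (Tau_near hp hn')
  · intro hz
    have h2 : (FB p).2 = 0 := by rw [FB_snd, hz, smul_zero]
    have h1 : |(FB p).1| ≤ 3 := by
      unfold nq at hn'
      rw [abs_le]
      constructor <;> nlinarith [sq_nonneg (FB p).2.1, sq_nonneg (FB p).2.2]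
    have : FB p = ((FB p).1, 0, 0) := Prod.ext rfl h2
    show FB p ∈ Tau
    rw [this]
    exact Tau_axis h1

theorem zero_mem_Tau : (0 : R3) ∈ Tau := Tau_axis (x := 0) (by norm_num)

/-! ### the outer page -/

noncomputable def mm (x : R3) : ℝ := max 10 (Real.sqrt (nq x))
noncomputable def tt (x : R3) : ℝ := Real.sqrt (1 - nq x / mm x ^ 2)

theorem mm_pos (x : R3) : 0 < mm x := lt_of_lt_of_le (by norm_num) (le_max_left _ _)
theorem nq_nonneg (x : R3) : 0 ≤ nq x := by unfold nq; positivity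
theorem mm_cont : Continuous mm := by
  have := nq_cont
  unfold mm; fun_prop
theorem tt_cont : Continuous tt := by
  have h1 := nq_cont
  have h2 := mm_cont
  unfold tt
  exact Real.continuous_sqrt.comp (continuous_const.sub (h1.div (h2.pow 2)
    (fun x => by have := mm_pos x; positivity)))

theorem nq_le_mm (x : R3) : nq x ≤ mm x ^ 2 := by
  have h1 : Real.sqrt (nq x) ≤ mm x := le_max_right _ _
  have h2 := Real.sq_sqrt (nq_nonneg x)
  rw [← h2]
  exact pow_le_pow_left₀ (Real.sqrt_nonneg _) h1 2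

theorem tt_sq (x : R3) : tt x ^ 2 = 1 - nq x / mm x ^ 2 := by
  unfold tt
  rw [Real.sq_sqrt]
  have := mm_pos x
  rw [sub_nonneg, div_le_one (by positivity)]
  exact nq_le_mm x

theorem tt_nonneg (x : R3) : 0 ≤ tt x := Real.sqrt_nonneg _

theorem tt_lt_one {x : R3} (h : x ≠ 0) : tt x < 1 := by
  have hm := mm_pos x
  have hn : 0 < nq x := by
    rcases (nq_nonneg x).eq_or_lt with h' | h'
    · exfalso
      apply h
      unfold nq at h'
      have a1 : x.1 = 0 := by nlinarith [sq_nonneg x.1, sq_nonneg x.2.1, sq_nonneg x.2.2]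
      have a2 : x.2.1 = 0 := by nlinarith [sq_nonneg x.1, sq_nonneg x.2.1, sq_nonneg x.2.2]
      have a3 : x.2.2 = 0 := by nlinarith [sq_nonneg x.1, sq_nonneg x.2.1, sq_nonneg x.2.2]
      exact Prod.ext a1 (Prod.ext a2 a3)
    · exact h'
  have h1 : tt x ^ 2 < 1 := by
    rw [tt_sq]
    have : 0 < nq x / mm x ^ 2 := by positivity
    linarith
  nlinarith [tt_nonneg x]

theorem mm_eq {x : R3} (h : nq x ≤ 100) : mm x = 10 := by
  apply max_eq_left
  rw [show (10:ℝ) = Real.sqrt 100 by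
    rw [show (100:ℝ) = 10 ^ 2 by norm_num, Real.sqrt_sq (by norm_num)]]
  exact Real.sqrt_le_sqrt h

/-- section of `FB` over the ball, extended radially to three-space -/
noncomputable def Sg (x : R3) : E4 :=
  mk4 (x.1 / (mm x * (1 - tt x))) (x.2.1 / (mm x * (1 - tt x))) (x.2.2 / (mm x * (1 - tt x))) 0

theorem Sg_contAt {x : R3} (h : x ≠ 0) : ContinuousAt Sg x := by
  have h1 := mm_cont
  have h2 := tt_cont
  have h3 : mm x * (1 - tt x) ≠ 0 := by
    have := tt_lt_one h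
    have := mm_pos x
    apply ne_of_gt
    apply mul_pos (mm_pos x); linarith
  have hd : ContinuousAt (fun x => mm x * (1 - tt x)) x := by
    apply Continuous.continuousAt; fun_prop
  unfold Sg
  apply continuousAt_mk4
  · exact (continuous_fst.continuousAt).div hd h3
  · exact cont2.continuousAt.div hd h3
  · exact cont3.continuousAt.div hd h3
  · exact continuousAt_const

theorem Sg_neg (x : R3) : Sg (-x) = rho4 (Sg x) := by
  have h1 : mm (-x) = mm x := by unfold mm; rw [nq_neg]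
  have h2 : tt (-x) = tt x := by unfold tt; rw [nq_neg, h1]
  unfold Sg rho4
  rw [h1, h2]
  apply E4_ext <;> simp [neg_div]

theorem nsq_Sg {x : R3} (h : x ≠ 0) : nsq (Sg x) = (1 + tt x) / (1 - tt x) := by
  have h3 := tt_lt_one h
  have h4 := mm_pos x
  have h5 := tt_sq x
  have h6 : 1 - tt x ≠ 0 := by linarith
  have h7 : nq x = (1 - tt x ^ 2) * mm x ^ 2 := by rw [h5]; field_simp; ring
  unfold nsq Sg
  simp only [mk4_0, mk4_1, mk4_2, mk4_3]
  have h8 : (x.1 / (mm x * (1 - tt x))) ^ 2 + (x.2.1 / (mm x * (1 - tt x))) ^ 2 +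
      (x.2.2 / (mm x * (1 - tt x))) ^ 2 + 0 ^ 2 = nq x / (mm x * (1 - tt x)) ^ 2 := by
    unfold nq; field_simp; ring
  rw [h8, h7, div_eq_div_iff (by positivity) h6]
  ring

theorem FB_Sg {x : R3} (h : x ≠ 0) : FB (Sg x) = (10 * x.1 / mm x, 10 * x.2.1 / mm x, 10 * x.2.2 / mm x) := by
  have h3 := tt_lt_one h
  have h4 := mm_pos x
  have h6 : 1 - tt x ≠ 0 := by linarith
  have h9 : 1 + nsq (Sg x) = 2 / (1 - tt x) := by rw [nsq_Sg h]; field_simp; ring
  unfold FB
  rw [h9]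
  unfold Sg
  simp only [mk4_0, mk4_1, mk4_2]
  refine Prod.ext ?_ (Prod.ext ?_ ?_) <;> · simp only; field_simp; ring

theorem FB_Sg_ball {x : R3} (h : x ≠ 0) (h' : nq x ≤ 100) : FB (Sg x) = x := by
  rw [FB_Sg h, mm_eq h']
  refine Prod.ext ?_ (Prod.ext ?_ ?_) <;> · simp only; ring

theorem Sg_not_mem {x : R3} (h : x ∉ Tau) : Sg x ∉ SS := by
  have h0 : x ≠ 0 := by rintro rfl; exact h zero_mem_Tau
  rcases le_or_gt (nq x) 100 with hn | hn
  · show FB (Sg x) ∉ Tau
    rw [FB_Sg_ball h0 hn]; exact h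
  · intro hc
    have hc' : FB (Sg x) ∈ Tau := hc
    have hs : 0 < Real.sqrt (nq x) := Real.sqrt_pos.2 (by linarith)
    have hm : mm x = Real.sqrt (nq x) := by
      apply max_eq_right
      rw [show (10:ℝ) = Real.sqrt 100 by
        rw [show (100:ℝ) = 10 ^ 2 by norm_num, Real.sqrt_sq (by norm_num)]]
      exact Real.sqrt_le_sqrt hn.le
    have hsq : mm x ^ 2 = nq x := by rw [hm, Real.sq_sqrt (nq_nonneg x)]
    have hq : nq (FB (Sg x)) = 100 := by
      rw [FB_Sg h0]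
      unfold nq
      have : (10 * x.1 / mm x) ^ 2 + (10 * x.2.1 / mm x) ^ 2 + (10 * x.2.2 / mm x) ^ 2 =
        100 * nq x / mm x ^ 2 := by unfold nq; field_simp; ring
      simp only
      rw [this, hsq]
      field_simp
    rw [← range_Pc] at hc'
    obtain ⟨a, ha⟩ := hc'
    have ha1 : 1 ≤ |a| := by
      by_contra hcon
      have := Pc_small (not_le.1 hcon)
      rw [ha, hq] at this
      exact lt_irrefl _ this
    have hP := Pc_end (a := a) (by linarith)
    rw [ha] at hP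
    have h2 : (FB (Sg x)).2 = 0 := by rw [hP]; rfl
    have hmp := mm_pos x
    rw [FB_Sg h0] at h2
    have e1 : 10 * x.2.1 / mm x = 0 := congrArg Prod.fst h2
    have e2 : 10 * x.2.2 / mm x = 0 := congrArg Prod.snd h2
    have y0 : x.2.1 = 0 := by
      rw [div_eq_zero_iff] at e1
      rcases e1 with e1 | e1 <;> linarith
    have z0 : x.2.2 = 0 := by
      rw [div_eq_zero_iff] at e2
      rcases e2 with e2 | e2 <;> linarith
    apply h
    have hx1 : 100 < x.1 ^ 2 := by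
      unfold nq at hn; rw [y0, z0] at hn; linarith
    rcases le_total 0 x.1 with hx | hx
    · have : 10 < x.1 := by nlinarith
      refine Or.inr (Or.inr (Or.inl ⟨?_, ?_, ?_⟩))
      · show -x.1 ≤ 3; linarith
      · show -x.2.1 = ff (-x.1); rw [y0, ff_zero (by linarith), neg_zero]
      · show -x.2.2 = kk (-x.1); rw [z0, kk_zero_left (by linarith), neg_zero]
    · have : x.1 < -10 := by nlinarith
      refine Or.inl ⟨?_, ?_, ?_⟩
      · linarith
      · rw [y0, ff_zero (by linarith)]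
      · rw [z0, kk_zero_left (by linarith)]

/-! ### rotation to the outer page -/

noncomputable def ww (Q : E4) : ℝ := (nsq Q - 1) / (nsq Q + 1)
noncomputable def rr (Q : E4) : ℝ := Real.sqrt (1 - nq (FB Q) / 100)
noncomputable def wws (s : ℝ) (Q : E4) : ℝ := (1 - s) * ww Q + s * rr Q
noncomputable def zzs (s : ℝ) (Q : E4) : ℝ := Real.sqrt (rr Q ^ 2 - wws s Q ^ 2)

/-- the path from the point with last coordinate `ε |V|` to the outer page -/
noncomputable def KK (ε : ℝ) (s : ℝ) (Q : E4) : E4 :=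
  mk4 ((FB Q).1 / 10 / (1 - wws s Q)) ((FB Q).2.1 / 10 / (1 - wws s Q))
    ((FB Q).2.2 / 10 / (1 - wws s Q)) (ε * zzs s Q / (1 - wws s Q))

theorem rr_sq (Q : E4) : rr Q ^ 2 = (2 * Q 3 / (1 + nsq Q)) ^ 2 + ww Q ^ 2 := by
  have h : 1 + nsq Q ≠ 0 := by have := nsq_nonneg Q; positivity
  have h' : nsq Q + 1 ≠ 0 := by rwa [add_comm]
  have e : 1 - nq (FB Q) / 100 = (2 * Q 3 / (1 + nsq Q)) ^ 2 + ww Q ^ 2 := by
    rw [nq_FB_100]; unfold ww
    rw [add_comm (nsq Q) 1]
    field_simp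
    ring
  unfold rr
  rw [e, Real.sq_sqrt (by positivity)]

theorem rr_nonneg (Q : E4) : 0 ≤ rr Q := Real.sqrt_nonneg _

theorem ww_le_rr (Q : E4) : |ww Q| ≤ rr Q := by
  apply abs_le_of_sq_le_sq _ (rr_nonneg Q)
  rw [rr_sq]; nlinarith [sq_nonneg (2 * Q 3 / (1 + nsq Q))]

theorem ww_lt_one (Q : E4) : ww Q < 1 := by
  have := nsq_nonneg Q
  unfold ww
  rw [div_lt_one (by positivity)]; linarith

theorem rr_lt_one {Q : E4} (h : Q ∉ SS) : rr Q < 1 := by
  have hne : FB Q ≠ 0 := by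
    intro hc
    apply h
    show FB Q ∈ Tau
    rw [hc]; exact zero_mem_Tau
  have hn : 0 < nq (FB Q) := by
    rcases (nq_nonneg (FB Q)).eq_or_lt with h' | h'
    · exfalso
      apply hne
      unfold nq at h'
      have a1 : (FB Q).1 = 0 := by nlinarith [sq_nonneg (FB Q).1, sq_nonneg (FB Q).2.1, sq_nonneg (FB Q).2.2]
      have a2 : (FB Q).2.1 = 0 := by nlinarith [sq_nonneg (FB Q).1, sq_nonneg (FB Q).2.1, sq_nonneg (FB Q).2.2]
      have a3 : (FB Q).2.2 = 0 := by nlinarith [sq_nonneg (FB Q).1, sq_nonneg (FB Q).2.1, sq_nonneg (FB Q).2.2]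
      exact Prod.ext a1 (Prod.ext a2 a3)
    · exact h'
  unfold rr
  rw [show (1:ℝ) = Real.sqrt 1 by simp]
  apply Real.sqrt_lt_sqrt
  · have := nq_FB_100 Q
    have h0 := nsq_nonneg Q
    have : 0 ≤ 100 * ((2 * Q 3) ^ 2 + (nsq Q - 1) ^ 2) / (1 + nsq Q) ^ 2 := by positivity
    rw [Real.sqrt_one]
    linarith
  · rw [Real.sqrt_one]; linarith

theorem wws_bounds {Q : E4} {s : ℝ} (hs : s ∈ Icc (0:ℝ) 1) : ww Q ≤ wws s Q ∧ wws s Q ≤ rr Q ∧
    wws s Q ^ 2 ≤ rr Q ^ 2 := by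
  have h1 := abs_le.1 (ww_le_rr Q)
  have h2 : ww Q ≤ wws s Q := by unfold wws; nlinarith [hs.1]
  have h3 : wws s Q ≤ rr Q := by unfold wws; nlinarith [hs.2]
  refine ⟨h2, h3, ?_⟩
  have h4 : -rr Q ≤ wws s Q := by linarith
  exact sq_le_sq' h4 h3

theorem wws_lt_one {Q : E4} (h : Q ∉ SS) {s : ℝ} (hs : s ∈ Icc (0:ℝ) 1) : wws s Q < 1 :=
  lt_of_le_of_lt (wws_bounds hs).2.1 (rr_lt_one h)

theorem zzs_sq {Q : E4} {s : ℝ} (hs : s ∈ Icc (0:ℝ) 1) : zzs s Q ^ 2 = rr Q ^ 2 - wws s Q ^ 2 := by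
  unfold zzs
  rw [Real.sq_sqrt]
  linarith [(wws_bounds (Q := Q) hs).2.2]

theorem rr_sq' (Q : E4) : rr Q ^ 2 = 1 - nq (FB Q) / 100 := by
  unfold rr
  rw [Real.sq_sqrt]
  have := nq_FB_100 Q
  have h0 := nsq_nonneg Q
  have : 0 ≤ 100 * ((2 * Q 3) ^ 2 + (nsq Q - 1) ^ 2) / (1 + nsq Q) ^ 2 := by positivity
  linarith

theorem nsq_KK {Q : E4} (h : Q ∉ SS) {ε s : ℝ} (hε : ε ^ 2 = 1) (hs : s ∈ Icc (0:ℝ) 1) :
    nsq (KK ε s Q) = (1 + wws s Q) / (1 - wws s Q) := by
  have h1 := wws_lt_one h hs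
  have h2 : 1 - wws s Q ≠ 0 := by linarith
  have h3 := zzs_sq (Q := Q) hs
  have h4 := rr_sq' Q
  unfold nsq KK
  simp only [mk4_0, mk4_1, mk4_2, mk4_3]
  have h5 : ((FB Q).1 / 10 / (1 - wws s Q)) ^ 2 + ((FB Q).2.1 / 10 / (1 - wws s Q)) ^ 2 +
      ((FB Q).2.2 / 10 / (1 - wws s Q)) ^ 2 + (ε * zzs s Q / (1 - wws s Q)) ^ 2 =
      (nq (FB Q) / 100 + ε ^ 2 * zzs s Q ^ 2) / (1 - wws s Q) ^ 2 := by
    unfold nq; field_simp; ring
  rw [h5, hε, h3, div_eq_div_iff (by positivity) h2]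
  have h6 : nq (FB Q) / 100 = 1 - rr Q ^ 2 := by linarith
  rw [h6]; ring

theorem FB_KK {Q : E4} (h : Q ∉ SS) {ε s : ℝ} (hε : ε ^ 2 = 1) (hs : s ∈ Icc (0:ℝ) 1) :
    FB (KK ε s Q) = FB Q := by
  have h1 := wws_lt_one h hs
  have h2 : 1 - wws s Q ≠ 0 := by linarith
  have h3 : 1 + nsq (KK ε s Q) = 2 / (1 - wws s Q) := by
    rw [nsq_KK h hε hs]; field_simp; ring
  have e : FB (KK ε s Q) = (20 * (KK ε s Q) 0 / (1 + nsq (KK ε s Q)), 20 * (KK ε s Q) 1 / (1 + nsq (KK ε s Q)),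
    20 * (KK ε s Q) 2 / (1 + nsq (KK ε s Q))) := rfl
  rw [e, h3]
  unfold KK
  simp only [mk4_0, mk4_1, mk4_2]
  refine Prod.ext ?_ (Prod.ext ?_ ?_) <;> · simp only; field_simp; ring

theorem KK_not_mem {Q : E4} (h : Q ∉ SS) {ε s : ℝ} (hε : ε ^ 2 = 1) (hs : s ∈ Icc (0:ℝ) 1) :
    KK ε s Q ∉ SS := by
  show FB (KK ε s Q) ∉ Tau
  rw [FB_KK h hε hs]; exact h

theorem nsq_KK_ge {Q : E4} (h : Q ∉ SS) {ε s : ℝ} (hε : ε ^ 2 = 1) (hs : s ∈ Icc (0:ℝ) 1) :
    nsq Q ≤ nsq (KK ε s Q) := by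
  rw [nsq_KK h hε hs]
  have h1 := wws_lt_one h hs
  have h0 := nsq_nonneg Q
  have h2 := (wws_bounds (Q := Q) hs).1
  have e : nsq Q = (1 + ww Q) / (1 - ww Q) := by
    have h3 : 1 - ww Q ≠ 0 := by linarith [ww_lt_one Q]
    rw [eq_div_iff h3]
    unfold ww
    have : nsq Q + 1 ≠ 0 := by positivity
    field_simp
    ring
  rw [e, div_le_div_iff₀ (by linarith [ww_lt_one Q]) (by linarith)]
  nlinarith

theorem zt_KK {Q : E4} {ε s : ℝ} : zt (KK ε s Q) = (1 / 10 / (1 - wws s Q)) • (FB Q).2 := by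
  unfold zt KK
  simp only [mk4_1, mk4_2]
  refine Prod.ext ?_ ?_
  · show (FB Q).2.1 / 10 / (1 - wws s Q) = 1 / 10 / (1 - wws s Q) * (FB Q).2.1; ring
  · show (FB Q).2.2 / 10 / (1 - wws s Q) = 1 / 10 / (1 - wws s Q) * (FB Q).2.2; ring

theorem KK_zero (ε : ℝ) (Q : E4) : KK ε 0 Q = mk4 (Q 0) (Q 1) (Q 2) (ε * |Q 3|) := by
  have h0 := nsq_nonneg Q
  have h : nsq Q + 1 ≠ 0 := by positivity
  have hw : wws 0 Q = ww Q := by unfold wws; ring
  have h1 : 1 - ww Q = 2 / (1 + nsq Q) := by unfold ww; field_simp; ring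
  have hz : zzs 0 Q = 2 * |Q 3| / (1 + nsq Q) := by
    unfold zzs
    rw [hw, rr_sq, add_sub_cancel_right, Real.sqrt_sq_eq_abs, abs_div, abs_mul,
      abs_of_pos (by positivity : 0 < 1 + nsq Q), abs_of_pos (by norm_num : (0:ℝ) < 2)]
  unfold KK
  rw [hw, hz, h1]
  have h' : 1 + nsq Q ≠ 0 := by positivity
  unfold FB
  apply E4_ext
  · simp only [mk4_0]; field_simp; ring
  · simp only [mk4_1]; field_simp; ring
  · simp only [mk4_2]; field_simp; ring
  · simp only [mk4_3]; field_simp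

theorem mm_FB (Q : E4) : mm (FB Q) = 10 := by
  apply mm_eq
  rw [nq_FB_100]
  have h0 := nsq_nonneg Q
  have : 0 ≤ 100 * ((2 * Q 3) ^ 2 + (nsq Q - 1) ^ 2) / (1 + nsq Q) ^ 2 := by positivity
  linarith

theorem tt_FB (Q : E4) : tt (FB Q) = rr Q := by
  unfold tt rr
  rw [mm_FB]; norm_num

theorem KK_one (ε : ℝ) (Q : E4) : KK ε 1 Q = Sg (FB Q) := by
  have hw : wws 1 Q = rr Q := by unfold wws; ring
  have hz : zzs 1 Q = 0 := by unfold zzs; rw [hw, sub_self, Real.sqrt_zero]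
  unfold KK Sg
  rw [hw, hz, mm_FB, tt_FB]
  congr 1
  · rw [div_div]
  · rw [div_div]
  · rw [div_div]
  · simp

theorem ww_cont : Continuous ww := by
  have := nsq_cont
  unfold ww
  exact Continuous.div (by fun_prop) (by fun_prop) (fun Q => by have := nsq_nonneg Q; positivity)

theorem rr_cont : Continuous rr := by
  have := nq_cont.comp FB_cont
  unfold rr
  exact Real.continuous_sqrt.comp (continuous_const.sub (this.div_const 100))

theorem KK_contAt (ε : ℝ) {Q : E4} (h : Q ∉ SS) {s : ℝ} (hs : s ∈ Icc (0:ℝ) 1) :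
    ContinuousAt (fun p : ℝ × E4 => KK ε p.1 p.2) (s, Q) := by
  have hF := FB_cont.comp (continuous_snd (X := ℝ) (Y := E4))
  have hw : Continuous (fun p : ℝ × E4 => wws p.1 p.2) := by
    have h1 := ww_cont
    have h2 := rr_cont
    unfold wws; fun_prop
  have hz : Continuous (fun p : ℝ × E4 => zzs p.1 p.2) := by
    have h2 := rr_cont
    unfold zzs
    exact Real.continuous_sqrt.comp (((h2.comp continuous_snd).pow 2).sub (hw.pow 2))
  have hne : 1 - wws s Q ≠ 0 := by have := wws_lt_one h hs; linarith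
  have hd : ContinuousAt (fun p : ℝ × E4 => 1 - wws p.1 p.2) (s, Q) :=
    (continuous_const.sub hw).continuousAt
  unfold KK
  apply continuousAt_mk4
  · exact ContinuousAt.div ((continuous_fst.comp hF).div_const 10).continuousAt hd hne
  · exact ContinuousAt.div ((cont2.comp hF).div_const 10).continuousAt hd hne
  · exact ContinuousAt.div ((cont3.comp hF).div_const 10).continuousAt hd hne
  · exact ContinuousAt.div (continuous_const.mul hz).continuousAt hd hne

end Pool.Agent.H753
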