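import Pool.Agent.H753.Glue2

/-! There is no equivariant homeomorphism of the ball, fixed on the sphere, which carries one disc
to the other. -/

set_option autoImplicit false

namespace Pool.Agent.H753

open Set Filter Topology Pool.Agent.Helper60.AS

/-- quarter turn of the plane `P` -/
noncomputable def r4 (p : E4) : E4 := mk4 (-p 3) (p 1) (p 2) (p 0)
noncomputable def r4' (p : E4) : E4 := mk4 (p 3) (p 1) (p 2) (-p 0)

theorem r4_cont : Continuous r4 := by
  unfold r4; exact continuous_mk4 (by fun_prop) (by fun_prop) (by fun_prop) (by fun_prop)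
theorem r4'_cont : Continuous r4' := by
  unfold r4'; exact continuous_mk4 (by fun_prop) (by fun_prop) (by fun_prop) (by fun_prop)
theorem r4_r4' (p : E4) : r4 (r4' p) = p := by apply E4_ext <;> simp [r4, r4']
theorem r4'_r4 (p : E4) : r4' (r4 p) = p := by apply E4_ext <;> simp [r4, r4']
theorem nsq_r4 (p : E4) : nsq (r4 p) = nsq p := by simp [nsq, r4]; ring
theorem nsq_r4' (p : E4) : nsq (r4' p) = nsq p := by simp [nsq, r4']; ring
theorem zt_r4 (p : E4) : zt (r4 p) = zt p := by simp [zt, r4]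
theorem zt_r4' (p : E4) : zt (r4' p) = zt p := by simp [zt, r4']
theorem r4_rho4 (p : E4) : r4 (rho4 p) = rho5 (r4 p) := by
  apply E4_ext <;> simp [r4, rho4, rho5, rp]

def BB : Set E4 := {p | nsq p ≤ 1}

theorem BB_eq : BB = Metric.closedBall (0 : E4) 1 := by
  ext p
  rw [mem_closedBall_zero_iff]
  show nsq p ≤ 1 ↔ _
  rw [← norm_sq_E4]
  constructor
  · intro h; nlinarith [norm_nonneg p]
  · intro h; nlinarith [norm_nonneg p]

theorem SS_eq : {p : E4 | nsq p = 1} = Metric.sphere (0 : E4) 1 := by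
  ext p
  rw [mem_sphere_zero_iff_norm]
  show nsq p = 1 ↔ _
  rw [← norm_sq_E4]
  constructor
  · intro h; nlinarith [norm_nonneg p]
  · intro h; rw [h]; norm_num

/-- outside the balls -/
theorem ps_far {p : E4} (h : 1/2 ≤ nsq p) : 400 < nsq (ps p) ∧ 400 < nsq (ps (rp p)) := by
  unfold nsq at h
  constructor
  · rw [nsq_ps]
    nlinarith [sq_nonneg (p 0), sq_nonneg (p 1), sq_nonneg (p 2), sq_nonneg (p 3 - 5/7)]
  · rw [nsq_ps_rp]
    nlinarith [sq_nonneg (p 0), sq_nonneg (p 1), sq_nonneg (p 2), sq_nonneg (p 3 + 5/7)]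

theorem DD2_out {p : E4} (h : 1/2 ≤ nsq p) : p ∈ DD2 ↔ zt p = 0 :=
  DD2_far (ps_far h).1 (ps_far h).2

def D1 : Set E4 := {p | nsq p ≤ 1 ∧ r4 p ∈ DD2}
def D2 : Set E4 := {p | nsq p ≤ 1 ∧ p ∈ DD2}

theorem no_homeo {h : E4 → E4} (hc : ContinuousOn h BB) (hb : BijOn h BB BB)
    (hS : ∀ x, nsq x = 1 → h x = x) (hR : ∀ x ∈ BB, h (rho4 x) = rho4 (h x))
    (hD : h '' D1 = D2) : False := by
  classical
  have hBc : IsCompact BB := by rw [BB_eq]; exact isCompact_closedBall _ _
  have hBcl : IsClosed BB := hBc.isClosed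
  -- the inverse
  obtain ⟨g, hgc, hgm, hgh, hhg⟩ : ∃ g : E4 → E4, ContinuousOn g BB ∧ MapsTo g BB BB ∧
      (∀ x ∈ BB, g (h x) = x) ∧ ∀ x ∈ BB, h (g x) = x := by
    have : CompactSpace BB := isCompact_iff_compactSpace.1 hBc
    let f : BB ≃ BB := hb.equiv h
    have hf : ∀ x : BB, (f x : E4) = h x := fun x => rfl
    have hfc : Continuous f := by
      rw [continuous_induced_rng]
      exact continuousOn_iff_continuous_domRestrict.1 hc
    have hfs : Continuous f.symm := hfc.continuous_symm_of_equiv_compact_to_t2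
    have key : ∀ y : BB, (f.symm y : E4) = (fun y : E4 => if hy : y ∈ BB then (f.symm ⟨y, hy⟩ : E4) else y) y := by
      intro y
      simp only [Subtype.coe_prop, dite_true]
    refine ⟨fun y => if hy : y ∈ BB then (f.symm ⟨y, hy⟩ : E4) else y, ?_, ?_, ?_, ?_⟩
    · rw [continuousOn_iff_continuous_domRestrict]
      have : BB.domRestrict (fun y : E4 => if hy : y ∈ BB then (f.symm ⟨y, hy⟩ : E4) else y) =
          fun y => (f.symm y : E4) := by
        funext y; exact (key y).symm
      rw [this]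
      exact continuous_subtype_val.comp hfs
    · intro y hy
      simp only [hy, dite_true]
      exact (f.symm ⟨y, hy⟩).2
    · intro x hx
      have hy := hb.mapsTo hx
      simp only [hy, dite_true]
      have : f.symm ⟨h x, hy⟩ = ⟨x, hx⟩ := by
        rw [Equiv.symm_apply_eq]; exact Subtype.ext rfl
      rw [this]
    · intro y hy
      simp only [hy, dite_true]
      rw [← hf, Equiv.apply_symm_apply]
  have hgS : ∀ x, nsq x = 1 → g x = x := by
    intro x hx
    have hxB : x ∈ BB := hx.le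
    have := hgh x hxB
    rwa [hS x hx] at this
  have rB : ∀ {x}, x ∈ BB → rho4 x ∈ BB := by
    intro x hx
    show nsq (rho4 x) ≤ 1
    rw [nsq_rho4]; exact hx
  have hgR : ∀ x ∈ BB, g (rho4 x) = rho4 (g x) := by
    intro x hx
    have h1 := hR (g x) (hgm hx)
    rw [hhg x hx] at h1
    rw [← h1, hgh _ (rB (hgm hx))]
  -- extensions by the identity
  have ext : ∀ f : E4 → E4, ContinuousOn f BB → (∀ x, nsq x = 1 → f x = x) →
      Continuous (fun p => if nsq p ≤ 1 then f p else p) := by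
    intro f hf hfS
    refine continuous_if_le nsq_cont continuous_const ?_ continuousOn_id ?_
    · exact hf
    · intro x hx; exact hfS x hx
  set H : E4 → E4 := fun p => if nsq p ≤ 1 then h p else p with hH
  set G : E4 → E4 := fun p => if nsq p ≤ 1 then g p else p with hG
  have Hc : Continuous H := ext h hc hS
  have Gc : Continuous G := ext g hgc hgS
  have Hin : ∀ {x}, nsq x ≤ 1 → H x = h x := fun hx => if_pos hx
  have Gin : ∀ {x}, nsq x ≤ 1 → G x = g x := fun hx => if_pos hx
  have Hout : ∀ {x}, 1 < nsq x → H x = x := fun hx => if_neg (not_le.2 hx)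
  have Gout : ∀ {x}, 1 < nsq x → G x = x := fun hx => if_neg (not_le.2 hx)
  have GH : ∀ x, G (H x) = x := by
    intro x
    rcases le_or_gt (nsq x) 1 with hx | hx
    · rw [Hin hx, Gin (hb.mapsTo hx), hgh x hx]
    · rw [Hout hx, Gout hx]
  have GR : ∀ x, G (rho4 x) = rho4 (G x) := by
    intro x
    rcases le_or_gt (nsq x) 1 with hx | hx
    · rw [Gin hx, Gin (rB hx), hgR x hx]
    · rw [Gout hx, Gout (by rwa [nsq_rho4])]
  -- the flat function transported to the complement of the second disc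
  have maps1 : ∀ p, p ∉ DD2 → r4 (G p) ∉ DD2 := by
    intro p hp
    rcases le_or_gt (nsq p) 1 with hx | hx
    · rw [Gin hx]
      intro hcon
      have h1 : g p ∈ D1 := ⟨hgm hx, hcon⟩
      have h2 : h (g p) ∈ D2 := hD ▸ mem_image_of_mem h h1
      rw [hhg p hx] at h2
      exact hp h2.2
    · rw [Gout hx, DD2_out (by rw [nsq_r4]; linarith), zt_r4]
      rwa [DD2_out (by linarith)] at hp
  have maps2 : ∀ p, p ∉ DD2 → H (r4' p) ∉ DD2 := by
    intro p hp
    rcases le_or_gt (nsq p) 1 with hx | hx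
    · have hx' : nsq (r4' p) ≤ 1 := by rwa [nsq_r4']
      rw [Hin hx']
      intro hcon
      have h1 : h (r4' p) ∈ D2 := ⟨hb.mapsTo hx', hcon⟩
      rw [← hD] at h1
      obtain ⟨y, hy, hye⟩ := h1
      have := hb.injOn hy.1 hx' hye
      rw [this] at hy
      apply hp
      have := hy.2
      rwa [r4_r4'] at this
    · have hx' : 1 < nsq (r4' p) := by rwa [nsq_r4']
      rw [Hout hx', DD2_out (by linarith), zt_r4']
      rwa [DD2_out (by linarith)] at hp
  have cF : Continuous (fun p => r4 (G p)) := r4_cont.comp Gc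
  obtain ⟨c, hc1, hc2⟩ := none_D2 (T := fun x y => TD (r4 (G x)) (r4 (G y)))
    (TD_flat.pull (F := fun p => r4 (G p)) (fun _ _ => cF.continuousAt) (fun p hp => maps1 p hp))
    (by
      intro x y
      simp only [GR, r4_rho4, TD_inv])
    (by
      rintro a ⟨ha, hz⟩
      have ha' : 1 < nsq a := ha
      have hmem : r4 a ∈ {p | 1600 < nsq (ps p) ∧ 1600 < nsq (ps (rp p)) ∧ zt p ≠ 0} := by
        have h1 : 1 < nsq (r4 a) := by rwa [nsq_r4]
        refine ⟨?_, ?_, ?_⟩
        · rw [nsq_ps]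
          unfold nsq at h1
          nlinarith [sq_nonneg ((r4 a) 0), sq_nonneg ((r4 a) 1), sq_nonneg ((r4 a) 2),
            sq_nonneg ((r4 a) 3 - 1)]
        · rw [nsq_ps_rp]
          unfold nsq at h1
          nlinarith [sq_nonneg ((r4 a) 0), sq_nonneg ((r4 a) 1), sq_nonneg ((r4 a) 2),
            sq_nonneg ((r4 a) 3 + 1)]
        · show zt (r4 a) ≠ 0
          rw [zt_r4]; exact hz
      obtain ⟨e, he, k⟩ := TD_near _ hmem
      obtain ⟨δ, hδ, hd⟩ := Metric.continuousAt_iff.1 (r4_cont.continuousAt (x := a)) e he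
      obtain ⟨δ', hδ', hd'⟩ := Metric.isOpen_iff.1 (isOpen_lt (continuous_const (y := (1:ℝ))) nsq_cont) a ha'
      refine ⟨min δ δ', lt_min hδ hδ', fun x y hx hy => ?_⟩
      have x1 : 1 < nsq x := hd' (hx.trans_le (min_le_right _ _))
      have y1 : 1 < nsq y := hd' (hy.trans_le (min_le_right _ _))
      simp only
      rw [Gout x1, Gout y1, k _ _ (hd (hx.trans_le (min_le_left _ _))) (hd (hy.trans_le (min_le_left _ _)))]
      show Tal (zt (r4 x)) (zt (r4 y)) = Tal (zt x) (zt y)
      rw [zt_r4, zt_r4])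
  apply TD_nontrivial
  have cK : Continuous (fun p => H (r4' p)) := Hc.comp r4'_cont
  refine ⟨fun p => c (H (r4' p)), ?_, ?_⟩
  · intro a ha
    obtain ⟨e, he, k⟩ := hc1 _ (maps2 a ha)
    obtain ⟨δ, hδ, hd⟩ := Metric.continuousAt_iff.1 (cK.continuousAt (x := a)) e he
    refine ⟨δ, hδ, fun x y hx hy => ?_⟩
    have := k _ _ (hd hx) (hd hy)
    simp only [GH, r4_r4'] at this
    exact this
  · intro p hp hz
    have hp' : 1 < nsq (r4' p) := by rwa [nsq_r4']
    simp only
    rw [Hout hp']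
    exact hc2 _ hp' (by rwa [zt_r4'])

end Pool.Agent.H753
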